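import Pool.Agent.Helper65.TS.Vol
import Pool.Agent.Helper84.TS.Cases

/-!
# A column with its lowest class and at most one far cell

The classes of a column `m` are `e` (lowest entry), `T` (highest) and `M`; `nT`, `nM`, `ne` are the
multipliers of the rows, `kT` the one of the pair `{e, T}`, `kM` of `{e, M}`, `k` of `{T, M}`.
`ColC` collects polynomial inequalities, one for each state of the column; they imply the column
inequality with the bound `W` and the multiple `kT / 2` of the slack of the pair `{e, T}`.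
-/

set_option autoImplicit false

namespace Pool.Agent.Helper65.TS

open Pool.Agent.Helper36.TS Pool.Agent.Helper84.TS Pool.Agent.Helper23.TS

/-- **The inequalities of a column.** `N`: no far cell; `A1`, `A2`: a far cell of the class `e`, kind
A (`X = 1 - al`); `B1`, `B2`, `B3`: kind B; `ZM`, `ZT`: a far cell of the class `M`, `T`. -/
structure ColC (nT nM ne kT kM k de dT dM W : ℝ) : Prop where
  kT0 : 0 ≤ kT
  nT0 : 0 ≤ nT - kT / 2
  cM0 : 0 ≤ nM - k
  ce0 : 0 ≤ ne - kT - kM
  N : ∀ ue uM uT : ℝ, 0 ≤ ue → ue ≤ uM → uM ≤ uT → uT ≤ 1 →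
    sp nT dT uT + sp (nM - k) dM uM + sp (ne - kT - kM) de ue ≤ W
  A1 : ∀ p n uM uT w X : ℝ, 0 ≤ p → 0 ≤ n → 0 ≤ w → w ≤ 13 / 20 → w ≤ X → 2 * X ≤ 1 + w →
    uT ≤ 1 - X + dT → uT ≤ 1 → uM ≤ uT → p - n ≤ de - w → n ≤ 1 - de → p ≤ uM →
    sp nT dT uT + sp (nM - k) dM uM + (sp (ne - kT - kM) de p + sn (ne - kT - kM) de n)
      + (w * X * (1 + w - X) - w ^ 3 / 3) ≤ W
  A2 : ∀ p n uM uT w X : ℝ, 0 ≤ p → 0 ≤ n → 0 ≤ X → X ≤ w → w ≤ 13 / 20 →
    uT ≤ 1 - X + dT → uT ≤ 1 → uM ≤ uT → p - n ≤ de - w → n ≤ 1 - de → p ≤ uM →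
    sp nT dT uT + sp (nM - k) dM uM + (sp (ne - kT - kM) de p + sn (ne - kT - kM) de n)
      + (w * X - X ^ 3 / 3) ≤ W
  B1 : ∀ p n uM uT w : ℝ, 0 ≤ p → 0 ≤ n → 0 ≤ w → w ≤ 13 / 20 →
    uT ≤ 1 → uM ≤ uT → p - n ≤ de - w → n ≤ 1 - de → p ≤ uM →
    sp (nT - kT / 2) dT uT + sp (nM - k) dM uM
      + (sp (ne - kT - kM) de p + sn (ne - kT - kM) de n)
      + (w * (1 + w) ^ 2 / 4 - w ^ 3 / 3) - kT / 2 * w ≤ W
  B2 : ∀ uM uT w dF : ℝ, 0 ≤ uM → uM ≤ uT → uT ≤ 1 → 0 ≤ w → w ≤ 13 / 20 → de ≤ dF → dF ≤ 1 →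
    0 ≤ de - dF + uT + w →
    sp nT dT uT + sp (nM - k) dM uM + sn (ne - kT - kM) de w
      + (w * (1 + w - dF) ^ 2 / 4 - w ^ 3 / 4) - kT / 2 * (de - dF + uT + w) ≤ W
  B3 : ∀ uM uT w : ℝ, 0 ≤ uM → uM ≤ uT → 0 ≤ w → w ≤ 13 / 20 → uT ≤ 1 - de - w →
    sp nT dT uT + sp (nM - k) dM uM + sn (ne - kT - kM) de w
      + (w * (1 - de - uT) ^ 2 / 4 - w ^ 3 / 4) ≤ W
  ZM : ∀ p n q r uT w : ℝ, 0 ≤ p → 0 ≤ n → 0 ≤ q → 0 ≤ r → p ≤ uT → uT ≤ 1 → 0 ≤ w →
    w ≤ 13 / 20 → p - n ≤ dM - w → n ≤ 1 - dM → q - r ≤ p - n → r ≤ 1 - de →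
    sp nT dT uT + (sp (nM - k) dM p + sn (nM - k) dM n)
      + (sp (ne - kT - kM) de q + sn (ne - kT - kM) de r)
      + (w * (1 + w) ^ 2 / 4 - w ^ 3 / 3) ≤ W
  ZT : ∀ p n ue uM w : ℝ, 0 ≤ ue → ue ≤ uM → uM ≤ p → 0 ≤ n → 0 ≤ w → w ≤ 13 / 20 →
    p - n ≤ dT - w → n ≤ 1 - dT →
    (sp nT dT p + sn nT dT n) + sp (nM - k) dM uM + sp (ne - kT - kM) de ue
      + (w * (1 + w) ^ 2 / 4 - w ^ 3 / 3) ≤ W

/-- the entries of a column: `e` lowest, `T` highest -/
structure Ent (de dT dM ue uM uT : ℝ) : Prop where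
  he : de ≤ 3 / 5
  hT : dT ≤ 3 / 5
  hM : dM ≤ 3 / 5
  e0 : 0 ≤ de
  T0 : 0 ≤ dT
  M0 : 0 ≤ dM
  le : de - 1 ≤ ue
  lM : dM - 1 ≤ uM
  lT : dT - 1 ≤ uT
  eM : ue ≤ uM
  MT : uM ≤ uT
  T1 : uT ≤ 1

theorem pn_sub (u : ℝ) : max u 0 - max (-u) 0 = u := by
  rcases le_total 0 u with h | h
  · rw [max_eq_left h, max_eq_right (by linarith : -u ≤ 0)]
    ring
  · rw [max_eq_right h, max_eq_left (by linarith : 0 ≤ -u)]
    ring

section

variable {nT nM ne kT kM k de dT dM W ue uM uT : ℝ}

/-- the value of the column -/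
theorem ColC.none (C : ColC nT nM ne kT kM k de dT dM W) (E : Ent de dT dM ue uM uT) :
    sx nT dT uT + sx (nM - k) dM uM + sx (ne - kT - kM) de ue ≤ W := by
  have hT := sx_le_sp (by linarith [C.nT0, C.kT0] : 0 ≤ nT) (by linarith [E.hT]) E.lT E.T1
  have hM := sx_le_sp C.cM0 (by linarith [E.hM]) E.lM (E.MT.trans E.T1)
  have he := sx_le_sp C.ce0 (by linarith [E.he]) E.le (E.eM.trans (E.MT.trans E.T1))
  have := C.N (max ue 0) (max uM 0) (max uT 0) (le_max_right _ _) (max_le_max_right 0 E.eM)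
    (max_le_max_right 0 E.MT) (max_le E.T1 zero_le_one)
  linarith

/-- a far cell of the lowest class -/
theorem ColC.low (C : ColC nT nM ne kT kM k de dT dM W) (E : Ent de dT dM ue uM uT)
    {f w dF al be sT sM : ℝ} (F : FarC f w dF al be ue uT uM de dT dM sT sM) (hs : 0 ≤ sT)
    (hw : w ≤ 13 / 20) (own : w ≤ -ue + max (de - dF) 0) :
    sx nT dT uT + sx (nM - k) dM uM + sx (ne - kT - kM) de ue + f ≤ W + kT / 2 * sT := by
  obtain ⟨v1, v2, v3, v4⟩ := farC_vol F
  have w0 := F.w0.le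
  have hT := sx_le_sp (by linarith [C.nT0, C.kT0] : 0 ≤ nT) (by linarith [E.hT]) E.lT E.T1
  have hM := sx_le_sp C.cM0 (by linarith [E.hM]) E.lM (E.MT.trans E.T1)
  have he := sx_pn (c := ne - kT - kM) (d := de) (E.eM.trans (E.MT.trans E.T1))
  have hks : 0 ≤ kT / 2 * sT := mul_nonneg (by linarith [C.kT0]) hs
  have hown : ue ≤ de - w := by
    rcases le_total 0 (de - dF) with h | h
    · rw [max_eq_left h] at own
      linarith [F.d0]
    · rw [max_eq_right h] at own
      linarith [E.e0]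
  have h1 := pn_sub ue
  have p0 := le_max_right ue 0
  have n0 := le_max_right (-ue) 0
  have m1 := max_le_max_right 0 E.MT
  have m2 := max_le_max_right 0 E.eM
  have m3 : max uT 0 ≤ 1 := max_le E.T1 zero_le_one
  have n1 := neg_le_of (by linarith [E.he] : de ≤ 1) E.le
  have t1 : uT ≤ 2 - w := by linarith [E.T1]
  have capx := F.capx
  rw [min_eq_left t1, min_eq_left (E.eM.trans E.MT)] at capx
  rcases capx with hA | hB
  · -- kind A
    rcases le_total (1 + w) (2 * (1 - al)) with hX | hX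
    · -- the cap is weaker than the one for `X = (1 + w)/2`
      have hcap : max uT 0 ≤ 1 - (1 + w) / 2 + dT :=
        max_le (by linarith) (by linarith [E.T0, F.w1])
      have := C.A1 _ _ _ _ w ((1 + w) / 2) p0 n0 w0 hw (by linarith [F.w1]) (by linarith) hcap m3
        m1 (by linarith) n1 m2
      have e : w * ((1 + w) / 2) * (1 + w - (1 + w) / 2) - w ^ 3 / 3 =
        w * (1 + w) ^ 2 / 4 - w ^ 3 / 3 := by ring
      linarith
    · have hcap : max uT 0 ≤ 1 - (1 - al) + dT :=
        max_le (by linarith) (by linarith [E.T0, F.w1])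
      rcases le_total w (1 - al) with hXw | hXw
      · have := C.A1 _ _ _ _ w (1 - al) p0 n0 w0 hw hXw hX hcap m3 m1 (by linarith) n1 m2
        have := v1 hXw hX
        linarith
      · have := C.A2 _ _ _ _ w (1 - al) p0 n0 (by linarith [F.al1]) hXw hw hcap m3 m1
          (by linarith) n1 m2
        have := v2 hXw
        linarith
  · -- kind B
    rcases le_total dF de with hd | hd
    · rw [max_eq_left (by linarith : 0 ≤ de - dF)] at own
      have h2 := sx_le_sp C.nT0 (by linarith [E.hT]) E.lT E.T1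
      rw [sx_sub] at h2
      have h3 : kT / 2 * (uT + w) ≤ kT / 2 * sT :=
        mul_le_mul_of_nonneg_left (by linarith) (by linarith [C.kT0])
      have := C.B1 _ _ _ _ w p0 n0 w0 hw m3 m1 (by linarith) n1 m2
      linarith
    · rw [max_eq_right (by linarith : de - dF ≤ 0)] at own
      -- the slot of the lowest class
      have hle : ue ≤ 0 := by linarith
      have hw1 : w ≤ 1 - de := by linarith [E.le]
      have h4 : sx (ne - kT - kM) de ue ≤ sn (ne - kT - kM) de w := by
        rw [he, max_eq_right hle, max_eq_left (by linarith : 0 ≤ -ue)]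
        have h5 := sn_anti (d := de) C.ce0 w0 (by linarith : w ≤ -ue) (by linarith [E.le])
        have h6 : sp (ne - kT - kM) de 0 = 0 := by rw [sp]; ring
        linarith
      have mM0 := le_max_right uM 0
      rcases le_total 0 (de - dF + max uT 0 + w) with hs1 | hs1
      · have h2 := sx_le_sp C.nT0 (by linarith [E.hT]) E.lT E.T1
        rw [sx_sub, sp_sub] at h2
        have h3 : kT / 2 * (de - dF + uT + w) ≤ kT / 2 * sT :=
          mul_le_mul_of_nonneg_left (by linarith) (by linarith [C.kT0])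
        have := C.B2 _ _ w dF mM0 m1 m3 w0 hw hd F.d1.le hs1
        linarith
      · have h7 : 0 ≤ max uT 0 := le_max_right _ _
        have h8 : (1 + w - dF) ^ 2 ≤ (1 - de - max uT 0) ^ 2 :=
          pow_le_pow_left₀ (by linarith [F.d1]) (by linarith) 2
        have h9 : w * (1 + w - dF) ^ 2 ≤ w * (1 - de - max uT 0) ^ 2 :=
          mul_le_mul_of_nonneg_left h8 w0
        have := C.B3 _ _ w mM0 m1 w0 hw (by linarith [F.d1] : max uT 0 ≤ 1 - de - w)
        linarith

/-- a far cell of the middle class -/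
theorem ColC.mid (C : ColC nT nM ne kT kM k de dT dM W) (E : Ent de dT dM ue uM uT)
    {f w : ℝ} (hf : f ≤ w * (1 + w) ^ 2 / 4 - w ^ 3 / 3) (hw0 : 0 ≤ w) (hw : w ≤ 13 / 20)
    (own : uM ≤ dM - w) :
    sx nT dT uT + sx (nM - k) dM uM + sx (ne - kT - kM) de ue + f ≤ W := by
  have hT := sx_le_sp (by linarith [C.nT0, C.kT0] : 0 ≤ nT) (by linarith [E.hT]) E.lT E.T1
  have hM := sx_pn (c := nM - k) (d := dM) (E.MT.trans E.T1)
  have he := sx_pn (c := ne - kT - kM) (d := de) (E.eM.trans (E.MT.trans E.T1))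
  have h1 := pn_sub ue
  have h2 := pn_sub uM
  have := C.ZM (max uM 0) (max (-uM) 0) (max ue 0) (max (-ue) 0) (max uT 0) w (le_max_right _ _)
    (le_max_right _ _) (le_max_right _ _) (le_max_right _ _) (max_le_max_right 0 E.MT)
    (max_le E.T1 zero_le_one) hw0 hw (by linarith) (neg_le_of (by linarith [E.hM]) E.lM)
    (by linarith [E.eM]) (neg_le_of (by linarith [E.he]) E.le)
  linarith

/-- a far cell of the highest class -/
theorem ColC.top (C : ColC nT nM ne kT kM k de dT dM W) (E : Ent de dT dM ue uM uT)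
    {f w : ℝ} (hf : f ≤ w * (1 + w) ^ 2 / 4 - w ^ 3 / 3) (hw0 : 0 ≤ w) (hw : w ≤ 13 / 20)
    (own : uT ≤ dT - w) :
    sx nT dT uT + sx (nM - k) dM uM + sx (ne - kT - kM) de ue + f ≤ W := by
  have hT := sx_pn (c := nT) (d := dT) E.T1
  have hM := sx_le_sp C.cM0 (by linarith [E.hM]) E.lM (E.MT.trans E.T1)
  have he := sx_le_sp C.ce0 (by linarith [E.he]) E.le (E.eM.trans (E.MT.trans E.T1))
  have h2 := pn_sub uT
  have := C.ZT (max uT 0) (max (-uT) 0) (max ue 0) (max uM 0) w (le_max_right _ _)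
    (max_le_max_right 0 E.eM) (max_le_max_right 0 E.MT) (le_max_right _ _) hw0 hw (by linarith)
    (neg_le_of (by linarith [E.hT]) E.lT)
  linarith

end

/-! ### The column of a family -/

section

variable {A : Fin 4 → Fin 4 → Option (Fin 4 → ℝ)} {P : Fin 4 → Fin 4 → ℝ}

/-- bounds for the main cells -/
theorem base_d0 (h : Base A P) (i : Fin 4) : 0 ≤ P i i - 1 := by
  obtain ⟨j, k, l, hn⟩ := exists_rest3 i
  have := cell_lin (h.of.cell i i _ (h.hP i)) hn
  linarith

theorem base_ent_le (h : Base A P) {i j : Fin 4} (hij : j ≠ i) : -P i j ≤ 1 :=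
  h.of.main i _ (h.hP i) j hij

theorem base_ent_ge (h : Base A P) {i j : Fin 4} (hij : j ≠ i) : (P i i - 1) - 1 ≤ -P i j := by
  obtain ⟨k, l, hn⟩ := exists_rest2 hij.symm
  have := main_le (h.of.cell i i _ (h.hP i)) hn (fun m hm => h.of.main i _ (h.hP i) m hm)
  linarith

/-- a far cell in a column of a family of four good classes -/
theorem base_far (h : Base A P) {i m x y : Fin 4} (hn : [i, m, x, y].Nodup) {F : Fin 4 → ℝ}
    (hF : A i m = some F) :
    FarC (fcl i F) (2 + F m) (F i - 1) (F y + (F i - 1)) (F x + (F i - 1))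
      (-P i m) (-P x m) (-P y m) (P i i - 1) (P x x - 1) (P y y - 1)
      (slk P i x m y) (slk P i y m x) ∧
    2 + F m ≤ 13 / 20 ∧ 2 + F m ≤ -(-P i m) + max ((P i i - 1) - (F i - 1)) 0 ∧
    -P i m ≤ (P i i - 1) - (2 + F m) := by
  have hmi : m ≠ i := (nodup_ne hn).1
  have hs : ∀ i, A i ((fun i => i) i) = some (P i) := h.hP
  have h1 := farC_rst h.of hs hF hn
  have h2 := own_rst h.of hs hF hmi rfl
  refine ⟨h1, h.hw i m F hmi hF, h2, ?_⟩
  rcases le_total 0 ((P i i - 1) - (F i - 1)) with h3 | h3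
  · rw [max_eq_left h3] at h2
    linarith [h1.d0]
  · rw [max_eq_right h3] at h2
    linarith [base_d0 h i]

/-- the column `m` with the classes in the order `e`, `M`, `T` -/
theorem col_ord (h : Base A P) {m e T M : Fin 4} (hn : [m, e, T, M].Nodup)
    (hone : ∀ x y F G, x ≠ m → y ≠ m → A x m = some F →
    A y m = some G → x = y)
    {nT nM ne kT kM k W : ℝ}
    (C : ColC nT nM ne kT kM k (P e e - 1) (P T T - 1) (P M M - 1) W)
    (h1 : -P e m ≤ -P M m) (h2 : -P M m ≤ -P T m) :
    sx nT (P T T - 1) (-P T m) + sx (nM - k) (P M M - 1) (-P M m)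
      + sx (ne - kT - kM) (P e e - 1) (-P e m) + rst A (fun i => i) e m
      + rst A (fun i => i) T m + rst A (fun i => i) M m ≤ W + kT / 2 * slk P e T m M := by
  have hs : ∀ i, A i ((fun i => i) i) = some (P i) := h.hP
  have e1 : e ≠ m := by clear * - hn; revert hn; revert m e T M; decide
  have e2 : T ≠ m := by clear * - hn; revert hn; revert m e T M; decide
  have e3 : M ≠ m := by clear * - hn; revert hn; revert m e T M; decide
  have e4 : e ≠ T := by clear * - hn; revert hn; revert m e T M; decide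
  have e5 : e ≠ M := by clear * - hn; revert hn; revert m e T M; decide
  have e6 : T ≠ M := by clear * - hn; revert hn; revert m e T M; decide
  have n1 : [e, T, m, M].Nodup := by clear * - hn; revert hn; revert m e T M; decide
  have n2 : [e, m, T, M].Nodup := by clear * - hn; revert hn; revert m e T M; decide
  have n3 : [M, m, T, e].Nodup := by clear * - hn; revert hn; revert m e T M; decide
  have n4 : [T, m, M, e].Nodup := by clear * - hn; revert hn; revert m e T M; decide
  have hsl := slk_nonneg h.of hs n1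
  have hks : 0 ≤ kT / 2 * slk P e T m M := mul_nonneg (by linarith [C.kT0]) hsl
  have E : Ent (P e e - 1) (P T T - 1) (P M M - 1) (-P e m) (-P M m) (-P T m) :=
    ⟨(h.hd e).le, (h.hd T).le, (h.hd M).le, base_d0 h e, base_d0 h T, base_d0 h M,
      base_ent_ge h e1.symm, base_ent_ge h e3.symm, base_ent_ge h e2.symm, h1, h2,
      base_ent_le h e2.symm⟩
  have r : ∀ {x : Fin 4}, x ≠ m → ∀ {F : Fin 4 → ℝ}, A x m = some F →
      rst A (fun i => i) x m = fcl x F := fun hx _ hF => rst_some hx hF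
  rcases he : A e m with _ | F
  · rw [rst_none _ he]
    rcases hT : A T m with _ | F
    · rw [rst_none _ hT]
      rcases hM : A M m with _ | F
      · rw [rst_none _ hM]
        have := C.none E
        linarith
      · rw [r e3 hM]
        obtain ⟨f1, f2, f3, f4⟩ := base_far h n3 hM
        have := C.mid E (farC_vol f1).2.2.2 f1.w0.le f2 f4
        linarith
    · rw [r e2 hT]
      have hM : A M m = none := by
        rcases hM : A M m with _ | G
        · rfl
        · exact absurd (hone T M F G e2 e3 hT hM) e6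
      rw [rst_none _ hM]
      obtain ⟨f1, f2, f3, f4⟩ := base_far h n4 hT
      have := C.top E (farC_vol f1).2.2.2 f1.w0.le f2 f4
      linarith
  · rw [r e1 he]
    have hT : A T m = none := by
      rcases hT : A T m with _ | G
      · rfl
      · exact absurd (hone e T F G e1 e2 he hT) e4
    have hM : A M m = none := by
      rcases hM : A M m with _ | G
      · rfl
      · exact absurd (hone e M F G e1 e3 he hM) e5
    rw [rst_none _ hM, rst_none _ hT]
    obtain ⟨f1, f2, f3, f4⟩ := base_far h n2 he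
    have := C.low E f1 hsl f2 f3
    linarith

/-- **The column `m` with its lowest class `e`** (both orders of the classes `a`, `b`) -/
theorem col_low (h : Base A P) {m e a b : Fin 4} (hn : [m, e, a, b].Nodup)
    (hone : ∀ x y F G, x ≠ m → y ≠ m → A x m = some F →
    A y m = some G → x = y)
    (hlow : Low P m e) {na nb ne ka kb k W : ℝ}
    (C1 : ColC na nb ne ka kb k (P e e - 1) (P a a - 1) (P b b - 1) W)
    (C2 : ColC nb na ne kb ka k (P e e - 1) (P b b - 1) (P a a - 1) W) :
    sx na (P a a - 1) (-P a m) + sx nb (P b b - 1) (-P b m) + sx ne (P e e - 1) (-P e m)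
      - k * min (-P a m) (-P b m) - ka * min (-P e m) (-P a m) - kb * min (-P e m) (-P b m)
      + rst A (fun i => i) e m + rst A (fun i => i) a m + rst A (fun i => i) b m
      ≤ W + ka / 2 * slk P e a m b + kb / 2 * slk P e b m a := by
  have hs : ∀ i, A i ((fun i => i) i) = some (P i) := h.hP
  have n1 : [e, a, m, b].Nodup := by clear * - hn; revert hn; revert m e a b; decide
  have n2 : [e, b, m, a].Nodup := by clear * - hn; revert hn; revert m e a b; decide
  have n3 : [m, e, b, a].Nodup := by clear * - hn; revert hn; revert m e a b; decide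
  have e2 : a ≠ m := by clear * - hn; revert hn; revert m e a b; decide
  have e3 : b ≠ m := by clear * - hn; revert hn; revert m e a b; decide
  have la := hlow.le a e2
  have lb := hlow.le b e3
  have s1 : 0 ≤ ka / 2 * slk P e a m b := mul_nonneg (by linarith [C1.kT0]) (slk_nonneg h.of hs n1)
  have s2 : 0 ≤ kb / 2 * slk P e b m a := mul_nonneg (by linarith [C2.kT0]) (slk_nonneg h.of hs n2)
  rw [min_eq_left la, min_eq_left lb]
  rcases le_total (-P b m) (-P a m) with hab | hab
  · have := col_ord h hn hone C1 lb hab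
    rw [min_eq_right hab]
    rw [sx_sub, sx_sub, sx_sub] at this
    linarith
  · have := col_ord h n3 hone C2 la hab
    rw [min_eq_left hab]
    rw [sx_sub, sx_sub, sx_sub] at this
    linarith

end

end Pool.Agent.Helper65.TS
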