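import Pool.Agent.Helper84.TS.Cases
import Pool.Agent.Helper36.TS.FrameG

/-!
# Two classes of kind `R3`
-/

set_option autoImplicit false

namespace Pool.Agent.Helper65.TS

open Pool.Agent.Helper84.TS Pool.Agent.Helper36.TS

/-- four main cells of height less than `3/5`, `F = (a; m)` and `G = (b; n)` with `w > 13/20`, and
the far cells of the two other classes have `w ≤ 13/20` -/
structure Tall2 (A : Fin 4 → Fin 4 → Option (Fin 4 → ℝ)) (P : Fin 4 → Fin 4 → ℝ) (a m : Fin 4)
    (F : Fin 4 → ℝ) (b n : Fin 4) (G : Fin 4 → ℝ) : Prop where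
  of : OF A
  hP : ∀ i, A i i = some (P i)
  hd : ∀ i, P i i - 1 < 3 / 5
  hF : A a m = some F
  hG : A b n = some G
  wF : 13 / 20 < 2 + F m
  wG : 13 / 20 < 2 + G n
  small : ∀ i j H, i ≠ a → i ≠ b → j ≠ i → A i j = some H → 2 + H j ≤ 13 / 20

variable {A : Fin 4 → Fin 4 → Option (Fin 4 → ℝ)} {P : Fin 4 → Fin 4 → ℝ} {a b m n : Fin 4}
  {F G : Fin 4 → ℝ}

theorem Tall2.swap (h : Tall2 A P a m F b n G) : Tall2 A P b n G a m F :=
  ⟨h.of, h.hP, h.hd, h.hG, h.hF, h.wG, h.wF, fun i j H h1 h2 => h.small i j H h2 h1⟩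

/-- one tall class -/
structure Tall1 (A : Fin 4 → Fin 4 → Option (Fin 4 → ℝ)) (P : Fin 4 → Fin 4 → ℝ) (a m : Fin 4)
    (F : Fin 4 → ℝ) : Prop where
  of : OF A
  hP : ∀ i, A i i = some (P i)
  hd : ∀ i, P i i - 1 < 3 / 5
  hF : A a m = some F
  hw : 13 / 20 < 2 + F m

theorem Tall2.one (h : Tall2 A P a m F b n G) : Tall1 A P a m F := ⟨h.of, h.hP, h.hd, h.hF, h.wF⟩

theorem Tall2.two (h : Tall2 A P a m F b n G) : Tall1 A P b n G := ⟨h.of, h.hP, h.hd, h.hG, h.wG⟩

section

theorem Tall1.d0 (h : Tall1 A P a m F) (i : Fin 4) : 0 ≤ P i i - 1 := by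
  obtain ⟨j, k, l, hn⟩ := exists_rest3 i
  have := cell_lin (h.of.cell i i _ (h.hP i)) hn
  linarith

theorem Tall1.own (h : Tall1 A P a m F) (hma : m ≠ a) :
    2 + F m ≤ -(-P a m) + max ((P a a - 1) - (F a - 1)) 0 :=
  own_rst (s := id) h.of h.hP h.hF hma rfl

theorem Tall1.mx (h : Tall1 A P a m F) : max ((P a a - 1) - (F a - 1)) 0 ≤ P a a - 1 := by
  have h2 := (h.of.cell a m F h.hF).one
  have h3 := h.d0 a
  exact max_le (by linarith) h3

/-- the entry of the column of the far cell -/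
theorem Tall1.lo (h : Tall1 A P a m F) (hma : m ≠ a) : -P a m ≤ (P a a - 1) - (2 + F m) := by
  have h1 := h.own hma
  have h2 := h.mx
  linarith

/-- the other two entries are at least `w` -/
theorem Tall1.hi (h : Tall1 A P a m F) {c l : Fin 4} (hn : [a, m, c, l].Nodup) :
    2 + F m ≤ -P a c ∧ 2 + F m ≤ -P a l := by
  have hne := nodup_ne hn
  have h1 := h.lo hne.1
  have h4 := (cell_lin (h.of.cell a a _ (h.hP a)) hn).1
  have hc := h.of.main a _ (h.hP a) c hne.2.1
  have hl := h.of.main a _ (h.hP a) l hne.2.2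
  constructor <;> linarith

/-- the sum of the other two entries -/
theorem Tall1.sum (h : Tall1 A P a m F) {c l : Fin 4} (hn : [a, m, c, l].Nodup) :
    1 + (2 + F m) ≤ -P a c + -P a l := by
  have hne := nodup_ne hn
  have h1 := h.lo hne.1
  have h4 := (cell_lin (h.of.cell a a _ (h.hP a)) hn).1
  linarith

/-- the class has no other far cell -/
theorem Tall1.none (h : Tall1 A P a m F) {c : Fin 4} (hma : m ≠ a) (hca : c ≠ a) (hcm : c ≠ m) :
    A a c = none := by
  obtain ⟨l, hn⟩ := exists_rest1 (i := a) (j := m) (k := c) (by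
    simp only [List.nodup_cons, List.mem_cons, List.not_mem_nil, or_false, not_or,
      List.nodup_nil, and_true, not_false_eq_true]
    exact ⟨⟨hma.symm, hca.symm⟩, hcm.symm⟩)
  have hi := (h.hi hn).1
  have hw := h.hw
  have hd := h.hd a
  rcases hG : A a c with _ | G
  · rfl
  · exfalso
    have h1 := own_rst (s := id) h.of h.hP hG hca rfl
    have h2 := (h.of.cell a c G hG).one
    have h3 := h.d0 a
    have h5 := h.of.far a c G hca hG
    have h6 : max ((P a a - 1) - (G a - 1)) 0 ≤ P a a - 1 := max_le (by linarith) h3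
    have h7 := (cell_lin (h.of.cell a c G hG)
      (by clear * - hn; revert hn; revert a m c l; decide : [a, c, m, l].Nodup)).1
    have hid : P (id a) a = P a a := rfl
    obtain ⟨x, y, hn'⟩ := exists_rest2 hca.symm
    have h8 := (farC_rst (s := id) h.of h.hP hG hn').w0
    linarith

end

/-- **`CaseTwoTall` from three normal forms.** -/
theorem caseTwoTall_of
    (H2 : ∀ (A : Fin 4 → Fin 4 → Option (Fin 4 → ℝ)) (P : Fin 4 → Fin 4 → ℝ) (a b g h : Fin 4)
      (F G : Fin 4 → ℝ), [a, b, g, h].Nodup → Tall2 A P a g F b a G → ∑ i, VV A i ≤ 613 / 200)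
    (H3 : ∀ (A : Fin 4 → Fin 4 → Option (Fin 4 → ℝ)) (P : Fin 4 → Fin 4 → ℝ) (a b g h : Fin 4)
      (F G : Fin 4 → ℝ), [a, b, g, h].Nodup → Tall2 A P a g F b h G → ∑ i, VV A i ≤ 613 / 200)
    (H4 : ∀ (A : Fin 4 → Fin 4 → Option (Fin 4 → ℝ)) (P : Fin 4 → Fin 4 → ℝ) (a b g h : Fin 4)
      (F G : Fin 4 → ℝ), [a, b, g, h].Nodup → Tall2 A P a g F b g G → ∑ i, VV A i ≤ 613 / 200) :
    CaseTwoTall := by
  classical
  intro A h a b c l hn ha hb hc hl
  obtain ⟨Ma, a1, a2, m, F, a3, a4, a5⟩ := ha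
  obtain ⟨Mb, b1, b2, n, G, b3, b4, b5⟩ := hb
  obtain ⟨Mc, c1, c2, c3⟩ := hc
  obtain ⟨Ml, l1, l2, l3⟩ := hl
  have hall : ∀ i, ∃ N, A i i = some N ∧ N i - 1 < 3 / 5 := by
    intro i
    rcases mem4 hn i with rfl | rfl | rfl | rfl
    · exact ⟨Ma, a1, a2⟩
    · exact ⟨Mb, b1, b2⟩
    · exact ⟨Mc, c1, c2⟩
    · exact ⟨Ml, l1, l2⟩
  choose P hP hd using hall
  have T : Tall2 A P a m F b n G := by
    refine ⟨h, hP, hd, a4, b4, a5, b5, ?_⟩
    intro i j H h1 h2 h3 h4
    rcases mem4 hn i with rfl | rfl | rfl | rfl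
    · exact absurd rfl h1
    · exact absurd rfl h2
    · exact c3 j H h3 h4
    · exact l3 j H h3 h4
  have n1 : [a, b, l, c].Nodup := by clear * - hn; revert hn; revert a b c l; decide
  have n2 : [b, a, c, l].Nodup := by clear * - hn; revert hn; revert a b c l; decide
  have n3 : [b, a, l, c].Nodup := by clear * - hn; revert hn; revert a b c l; decide
  rcases mem4 hn m with rfl | rfl | rfl | rfl
  · exact absurd rfl a3
  · -- the far cell of `a` has target `b`
    rcases mem4 hn n with rfl | rfl | rfl | rfl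
    · -- both: impossible
      exfalso
      have hs : ∀ i, A i (id i) = some (P i) := hP
      have h1 := slk_nonneg h hs hn
      have h2 := T.one.hi hn
      have h3 := T.two.hi n2
      have h4 := T.wF
      have h5 := T.wG
      have h6 : 13 / 20 ≤ min (-P n c) (-P m c) := le_min (by linarith [h2.1]) (by linarith [h3.1])
      have h7 : 13 / 20 ≤ min (-P n l) (-P m l) := le_min (by linarith [h2.2]) (by linarith [h3.2])
      unfold slk at h1
      linarith [hd n, hd m]
    · exact absurd rfl b3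
    · exact H2 A P _ _ _ _ G F n2 T.swap
    · exact H2 A P _ _ _ _ G F n3 T.swap
  · rcases mem4 hn n with rfl | rfl | rfl | rfl
    · exact H2 A P _ _ _ _ F G hn T
    · exact absurd rfl b3
    · exact H4 A P _ _ _ _ F G hn T
    · exact H3 A P _ _ _ _ F G hn T
  · rcases mem4 hn n with rfl | rfl | rfl | rfl
    · exact H2 A P _ _ _ _ F G n1 T
    · exact absurd rfl b3
    · exact H3 A P _ _ _ _ F G n1 T
    · exact H4 A P _ _ _ _ F G n1 T

end Pool.Agent.Helper65.TS
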