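import Pool.Agent.Helper58.TS.TallH2
import Pool.Agent.Helper83.Cert.Check

/-!
# The real numbers of one class

A good class (`GR`) and a tall class (`TR`), for inequalities `V + (linear form) ≤ C`.
-/

set_option autoImplicit false

namespace Pool.Agent.Helper65.TS

open Pool.Agent.Helper84.TS Pool.Agent.Helper36.TS Pool.Agent.Helper44.TS

/-- the volume of a main cell with nonnegative entries -/
noncomputable def mp (d p q r : ℝ) : ℝ :=
  7 / 6 - 3 / 2 * d + d ^ 2 / 2 - d ^ 3 / 6 - (1 - d) * (p ^ 2 + q ^ 2 + r ^ 2) / 2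

/-- the gain of a far cell in the column of the entry `p` -/
def Gain (d p A : ℝ) : Prop := A = 0 ∨ (p ≤ d ∧ A ≤ bb (d - p))

/-- all entries are nonnegative -/
structure GP (V d p q r : ℝ) : Prop where
  p0 : 0 ≤ p
  q0 : 0 ≤ q
  r0 : 0 ≤ r
  v : ∃ A B C, Gain d p A ∧ Gain d q B ∧ Gain d r C ∧ V ≤ mp d p q r + A + B + C

/-- the entry `p` is negative -/
structure GM (V d p q r : ℝ) : Prop where
  p0 : p ≤ 0
  q0 : 0 ≤ q
  r0 : 0 ≤ r
  v : ∃ a, 0 ≤ a ∧ a ≤ 13 / 20 ∧ a ≤ d - p ∧ V ≤ mp d p q r + (-p) ^ 3 / 3 + bb a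

/-- the numbers of a good class: value, height, entries -/
structure GR (V d p q r : ℝ) : Prop where
  d0 : 0 ≤ d
  d1 : d ≤ 3 / 5
  s : p + q + r = 1 + d
  p1 : p ≤ 1
  q1 : q ≤ 1
  r1 : r ≤ 1
  cs : GP V d p q r ∨ GM V d p q r ∨ GM V d q p r ∨ GM V d r p q

section

variable {A : Fin 4 → Fin 4 → Option (Fin 4 → ℝ)} {i j k l : Fin 4} {N : Fin 4 → ℝ}

/-- the far cell of the column `m` -/
theorem fo_gain (h : OF A) (hN : A i i = some N) {m : Fin 4} (hm : m ≠ i)
    (sm : ∀ m F, m ≠ i → A i m = some F → 2 + F m ≤ 13 / 20) :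
    fo i (A i m) = 0 ∨
      ∃ w, 0 ≤ w ∧ w ≤ 13 / 20 ∧ w ≤ (N i - 1) - -N m ∧ fo i (A i m) ≤ bb w := by
  rcases hF : A i m with _ | F
  · left
    simp [fo]
  · right
    have cF := h.cell i m F hF
    have fF := h.far i m F hm hF
    have w := far_W cF hm fF
    have ow := own' (h.cell i i N hN) cF (sep' h hm.symm hN hF) hm (h.main i N hN) fF
    exact ⟨2 + F m, w.1, sm m F hm hF, by linarith, by simpa [fo] using far_bb' cF hm fF⟩

theorem gain_of {d p c : ℝ} (d1 : d ≤ 3 / 5) (p0 : 0 ≤ p)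
    (hc : c = 0 ∨ ∃ w, 0 ≤ w ∧ w ≤ 13 / 20 ∧ w ≤ d - p ∧ c ≤ bb w) : Gain d p c := by
  rcases hc with hc | ⟨w, w0, w1, w2, w3⟩
  · exact Or.inl hc
  · exact Or.inr ⟨by linarith, w3.trans (bb_mono w0 w2 (by linarith))⟩

theorem gain_none {d p c : ℝ} (hp : d < p)
    (hc : c = 0 ∨ ∃ w, 0 ≤ w ∧ w ≤ 13 / 20 ∧ w ≤ d - p ∧ c ≤ bb w) : c = 0 := by
  rcases hc with hc | ⟨w, w0, w1, w2, w3⟩
  · exact hc
  · exfalso
    linarith

theorem gm_of (h : OF A) (hN : A i i = some N) (_hd : N i - 1 < 3 / 5) (hn : [i, j, k, l].Nodup)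
    (sm : ∀ m F, m ≠ i → A i m = some F → 2 + F m ≤ 13 / 20) (hj : 0 < N j) :
    GM (VV A i) (N i - 1) (-N j) (-N k) (-N l) := by
  have n := nodup_ne hn
  have cN := h.cell i i N hN
  have mN := h.main i N hN
  have aN := cell_lin cN hn
  have eN := main_ent hn mN
  have gj := fo_gain h hN n.1 sm
  have gk := gain_none (by linarith) (fo_gain h hN n.2.1 sm)
  have gl := gain_none (by linarith) (fo_gain h hN n.2.2 sm)
  have hk0 : N k ≤ 0 := by linarith
  have hl0 : N l ≤ 0 := by linarith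
  have fN : fcl i N = mp (N i - 1) (-N j) (-N k) (-N l) + (-(-N j)) ^ 3 / 3 := by
    rw [main_f hn mN, max_eq_right hk0, max_eq_right hl0, max_eq_left hj.le]
    unfold mp
    ring
  have hV : VV A i = fcl i N + fo i (A i j) := by
    rw [Helper44.TS.VV_eq hn, gk, gl, hN]
    simp only [fo]
    ring
  refine ⟨by linarith, by linarith, by linarith, ?_⟩
  rcases gj with gj | ⟨w, w0, w1, w2, w3⟩
  · refine ⟨0, le_rfl, by norm_num, by linarith, ?_⟩
    rw [hV, gj, fN]
    norm_num [bb]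
  · refine ⟨w, w0, w1, w2, ?_⟩
    rw [hV, fN]
    linarith

/-- **The numbers of a good class.** -/
theorem gr_of (h : OF A) (hN : A i i = some N) (hd : N i - 1 < 3 / 5) (hn : [i, j, k, l].Nodup)
    (sm : ∀ m F, m ≠ i → A i m = some F → 2 + F m ≤ 13 / 20) :
    GR (VV A i) (N i - 1) (-N j) (-N k) (-N l) := by
  have n := nodup_ne hn
  have cN := h.cell i i N hN
  have mN := h.main i N hN
  have aN := cell_lin cN hn
  have eN := main_ent hn mN
  refine ⟨by linarith, hd.le, by linarith, eN.1, eN.2.1, eN.2.2, ?_⟩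
  rcases lt_or_ge 0 (N j) with hj | hj
  · exact Or.inr (Or.inl (gm_of h hN hd hn sm hj))
  rcases lt_or_ge 0 (N k) with hk | hk
  · exact Or.inr (Or.inr (Or.inl (gm_of h hN hd (perm_jk hn) sm hk)))
  rcases lt_or_ge 0 (N l) with hl | hl
  · exact Or.inr (Or.inr (Or.inr (gm_of h hN hd (perm_jk (perm_kl hn)) sm hl)))
  · left
    refine ⟨by linarith, by linarith, by linarith, fo i (A i j), fo i (A i k), fo i (A i l),
      gain_of hd.le (by linarith) (fo_gain h hN n.1 sm),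
      gain_of hd.le (by linarith) (fo_gain h hN n.2.1 sm),
      gain_of hd.le (by linarith) (fo_gain h hN n.2.2 sm), ?_⟩
    have fN : fcl i N = mp (N i - 1) (-N j) (-N k) (-N l) := by
      rw [main_f hn mN, max_eq_right hj, max_eq_right hk, max_eq_right hl]
      unfold mp
      ring
    rw [Helper44.TS.VV_eq hn, hN, ← fN]
    simp only [fo]
    linarith

end

end Pool.Agent.Helper65.TS
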