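import Pool.Agent.Helper65.TS.Col
import Pool.Agent.Helper83.Cert.Check
import Pool.Agent.Helper83.Cert.RE

/-!
# The multipliers of the type (2,1,1,2)

Rows: `nuI` for the classes `1`, `2`, `nuK` for `3`, `4`. Pairs: `k12`, `k34`, `kP` for `{1,3}`,
`{2,4}`, `kQ` for `{1,4}`, `{2,3}` (the first argument belongs to the class `1` or `2`). Columns: `Wa`
for the columns `1`, `2`, `Wb` for the columns `3`, `4`.
-/

set_option autoImplicit false
set_option maxRecDepth 100000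
set_option linter.all false

namespace Pool.Agent.Helper65.TS

open Pool.Agent.Helper83.Cert (finE)

open Pool.Agent.Helper83.Cert

/-- rows `1`, `2` -/
noncomputable def nuI (x : ℝ) : ℝ :=
  463 / 500 + 91 / 1250 * x

/-- rows `3`, `4` -/
noncomputable def nuK (x : ℝ) : ℝ :=
  3593 / 5000 - 7 / 40 * x

/-- the pair `{1, 2}` -/
noncomputable def k12 (x y : ℝ) : ℝ :=
  5271 / 10000 - 581 / 1250 * (x + y) + 627 / 2500 * (x * y) + 4369 / 10000 * (x ^ 2 + y ^ 2)

/-- the pair `{3, 4}` -/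
noncomputable def k34 (x y : ℝ) : ℝ :=
  7061 / 10000 - 187 / 1250 * (x + y) + 13533 / 10000 * (x * y) - 969 / 1000 * (x ^ 2 + y ^ 2)

/-- the pairs `{1, 3}` and `{2, 4}` -/
noncomputable def kP (x y : ℝ) : ℝ :=
  5811 / 10000 - 517 / 1250 * x - 9571 / 10000 * y + 5497 / 10000 * (x * y) + 6 / 625 * x ^ 2 +
    1471 / 2500 * y ^ 2

/-- the pairs `{1, 4}` and `{2, 3}` -/
noncomputable def kQ (x y : ℝ) : ℝ :=
  2949 / 10000 - 541 / 5000 * x - 6167 / 10000 * y + 3481 / 10000 * (x * y) - 77 / 1000 * x ^ 2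
    + 1113 / 5000 * y ^ 2

/-- columns `1`, `2`: lowest class, class of the pair `kP`, class of the pair `kQ` -/
noncomputable def Wa (x y z : ℝ) : ℝ :=
  1917 / 5000 + 39 / 500 * x + 79 / 625 * y + 9 / 500 * z + 619 / 2500 * x ^ 2 + 2099 / 5000 * y
    ^ 2 + 2623 / 5000 * z ^ 2 + 381 / 2000 * (x * y) + 2663 / 10000 * (x * z) - 81 / 1000 * (y *
    z)

/-- columns `3`, `4`: lowest class, class of the pair `k12`, class of the pair `kQ` -/
noncomputable def Wb (x y z : ℝ) : ℝ :=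
  907 / 2000 + 3373 / 10000 * x + 6987 / 10000 * y + 459 / 2000 * z + 843 / 10000 * x ^ 2 + 753
    / 10000 * y ^ 2 + 278 / 625 * z ^ 2 + 521 / 10000 * (x * y) - 93 / 2000 * (x * z) + 809 /
    5000 * (y * z)

theorem k12_comm (x y : ℝ) : k12 x y = k12 y x := by
  unfold k12
  ring

theorem k34_comm (x y : ℝ) : k34 x y = k34 y x := by
  unfold k34
  ring

theorem nuI_nonneg {x : ℝ} (hx : 0 ≤ x) (qx : x ≤ 3 / 5) :
    0 ≤ nuI x := by
  exact finE (yv_nonneg hx (le_refl 0) (le_refl 0) (le_refl 0) (le_refl 0) (le_refl 0) (le_refl 0) (le_refl 0) (le_refl 0)) .z (.A (.D (.n 461) 498) (.M (.D (.n 89) 1248) .v0))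
    [.v0, (.S (.D (.n 1) 3) .v0)]
    ⟨hx, Pool.Agent.Helper83.Cert.sn qx, trivial⟩
    999 3 0x108100000000000000000000000500204000000000000000000000020000100000000000000000002c6be 0 0x0 (by decide +kernel)

theorem k12_nonneg {x y : ℝ} (hx : 0 ≤ x) (hy : 0 ≤ y) (qx : x ≤ 3 / 5) (qy : y ≤ 3 / 5) :
    0 ≤ k12 x y := by
  exact finE (yv_nonneg hx hy (le_refl 0) (le_refl 0) (le_refl 0) (le_refl 0) (le_refl 0) (le_refl 0) (le_refl 0)) .z (.A (.A (.S (.D (.n 5269) 9998) (.M (.D (.n 579) 1248) (.A .v0 .v1))) (.M (.D (.n 625) 2498) (.M .v0 .v1))) (.M (.D (.n 4367) 9998) (.A (.P .v0) (.P .v1))))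
    [.v0, .v1, (.S (.D (.n 1) 3) .v0), (.S (.D (.n 1) 3) .v1)]
    ⟨hx, hy, Pool.Agent.Helper83.Cert.sn qx, Pool.Agent.Helper83.Cert.sn qy, trivial⟩
    12499 9 0x208200000000000000000068fe6b10410000000000000000000035c440104000000000000000000103466082040000000000000000063a54701041000000000000000000eddaa01040c0000000000000000000cc15840c300000000000000000000000a0c30c000000000000000000079ca800c3000000000000000000103466 0 0x0 (by decide +kernel)

theorem k34_nonneg {x y : ℝ} (hx : 0 ≤ x) (hy : 0 ≤ y) (qx : x ≤ 3 / 5) (qy : y ≤ 3 / 5) :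
    0 ≤ k34 x y := by
  exact finE (yv_nonneg hx hy (le_refl 0) (le_refl 0) (le_refl 0) (le_refl 0) (le_refl 0) (le_refl 0) (le_refl 0)) .z (.S (.A (.S (.D (.n 7059) 9998) (.M (.D (.n 185) 1248) (.A .v0 .v1))) (.M (.D (.n 13531) 9998) (.M .v0 .v1))) (.M (.D (.n 967) 998) (.A (.P .v0) (.P .v1))))
    [.v0, .v1, (.S (.D (.n 1) 3) .v0), (.S (.D (.n 1) 3) .v1)]
    ⟨hx, hy, Pool.Agent.Helper83.Cert.sn qx, Pool.Agent.Helper83.Cert.sn qy, trivial⟩
    1249 8 0x10800000000000000000066ee0021020000000000000000000000190040800000000000000000093dc6c10430000000000000000000000190010c00000000000000000093dc6c41030000000000000000000000010c40c0000000000000000000000040103000000000000000000094b99 0 0x0 (by decide +kernel)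

theorem kP_nonneg {x y : ℝ} (hx : 0 ≤ x) (hy : 0 ≤ y) (qx : x ≤ 3 / 5) (qy : y ≤ 3 / 5) :
    0 ≤ kP x y := by
  exact finE (yv_nonneg hx hy (le_refl 0) (le_refl 0) (le_refl 0) (le_refl 0) (le_refl 0) (le_refl 0) (le_refl 0)) .z (.A (.A (.A (.S (.S (.D (.n 5809) 9998) (.M (.D (.n 515) 1248) .v0)) (.M (.D (.n 9569) 9998) .v1)) (.M (.D (.n 5495) 9998) (.M .v0 .v1))) (.M (.D (.n 4) 623) (.P .v0))) (.M (.D (.n 1469) 2498) (.P .v1)))
    [.v0, .v1, (.S (.D (.n 1) 3) .v0), (.S (.D (.n 1) 3) .v1)]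
    ⟨hx, hy, Pool.Agent.Helper83.Cert.sn qx, Pool.Agent.Helper83.Cert.sn qy, trivial⟩
    12499 9 0x20820000000000000000008b14011041000000000000000000004737c010400000000000000000022e0071040c000000000000000000000028010300000000000000000029efaa1030c00000000000000000000002830c300000000000000000000000a0030c00000000000000000002eb5800030000000000000000001b9586 0 0x0 (by decide +kernel)

theorem kQ_nonneg {x y : ℝ} (hx : 0 ≤ x) (hy : 0 ≤ y) (qx : x ≤ 3 / 5) (qy : y ≤ 3 / 5) :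
    0 ≤ kQ x y := by
  exact finE (yv_nonneg hx hy (le_refl 0) (le_refl 0) (le_refl 0) (le_refl 0) (le_refl 0) (le_refl 0) (le_refl 0)) .z (.A (.S (.A (.S (.S (.D (.n 2947) 9998) (.M (.D (.n 539) 4998) .v0)) (.M (.D (.n 6165) 9998) .v1)) (.M (.D (.n 3479) 9998) (.M .v0 .v1))) (.M (.D (.n 75) 998) (.P .v0))) (.M (.D (.n 1111) 4998) (.P .v1)))
    [.v0, .v1, (.S (.D (.n 1) 3) .v0), (.S (.D (.n 1) 3) .v1)]
    ⟨hx, hy, Pool.Agent.Helper83.Cert.sn qx, Pool.Agent.Helper83.Cert.sn qy, trivial⟩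
    12499 9 0x2081000000000000000001205dc71041000000000000000000000002801040000000000000000000a0f46000100000000000000000017ce5604103000000000000000000024e9d0040c00000000000000000032db6020430000000000000000000000fa0410c0000000000000000000003e800430000000000000000001d6118 0 0x0 (by decide +kernel)

theorem c34 {x y : ℝ} (hx : 0 ≤ x) (hy : 0 ≤ y) (qx : x ≤ 3 / 5) (qy : y ≤ 3 / 5) :
    0 ≤ nuK x - k34 x y := by
  exact finE (yv_nonneg hx hy (le_refl 0) (le_refl 0) (le_refl 0) (le_refl 0) (le_refl 0) (le_refl 0) (le_refl 0)) .z (.S (.S (.D (.n 3591) 4998) (.M (.D (.n 5) 38) .v0)) (.S (.A (.S (.D (.n 7059) 9998) (.M (.D (.n 185) 1248) (.A .v0 .v1))) (.M (.D (.n 13531) 9998) (.M .v0 .v1))) (.M (.D (.n 967) 998) (.A (.P .v0) (.P .v1)))))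
    [.v0, .v1, (.S (.D (.n 1) 3) .v0), (.S (.D (.n 1) 3) .v1)]
    ⟨hx, hy, Pool.Agent.Helper83.Cert.sn qx, Pool.Agent.Helper83.Cert.sn qy, trivial⟩
    2499 7 0x30c200000000000000000005d2d0102080000000000000000000000c80082000000000000000000cfdcb2082040000000000000000002b68e4404100000000000000000024df6a041040000000000000000008a7550004100000000000000000045244b 2 0x8080808080808072997b0c000000000000000000000b5a02020202020201fe060000000000000000000009b4312 (by decide +kernel)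

theorem cIP {x y : ℝ} (hx : 0 ≤ x) (hy : 0 ≤ y) (qx : x ≤ 3 / 5) (qy : y ≤ 3 / 5) :
    0 ≤ nuI x - kP x y := by
  exact finE (yv_nonneg hx hy (le_refl 0) (le_refl 0) (le_refl 0) (le_refl 0) (le_refl 0) (le_refl 0) (le_refl 0)) .z (.S (.A (.D (.n 461) 498) (.M (.D (.n 89) 1248) .v0)) (.A (.A (.A (.S (.S (.D (.n 5809) 9998) (.M (.D (.n 515) 1248) .v0)) (.M (.D (.n 9569) 9998) .v1)) (.M (.D (.n 5495) 9998) (.M .v0 .v1))) (.M (.D (.n 4) 623) (.P .v0))) (.M (.D (.n 1469) 2498) (.P .v1))))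
    [.v0, .v1, (.S (.D (.n 1) 3) .v0), (.S (.D (.n 1) 3) .v1)]
    ⟨hx, hy, Pool.Agent.Helper83.Cert.sn qx, Pool.Agent.Helper83.Cert.sn qy, trivial⟩
    499 9 0x210200000000000000000000000a0040800000000000000000023ea0000020000000000000000002e15a80430400000000000000000000002800c100000000000000000000259608404000000000000000000000028110100000000000000000000000a00404000000000000000000218d5000010000000000000000000b810f 0 0x0 (by decide +kernel)

theorem cKP {x y : ℝ} (hx : 0 ≤ x) (hy : 0 ≤ y) (qx : x ≤ 3 / 5) (qy : y ≤ 3 / 5) :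
    0 ≤ nuK y - kP x y := by
  exact finE (yv_nonneg hx hy (le_refl 0) (le_refl 0) (le_refl 0) (le_refl 0) (le_refl 0) (le_refl 0) (le_refl 0)) .z (.S (.S (.D (.n 3591) 4998) (.M (.D (.n 5) 38) .v1)) (.A (.A (.A (.S (.S (.D (.n 5809) 9998) (.M (.D (.n 515) 1248) .v0)) (.M (.D (.n 9569) 9998) .v1)) (.M (.D (.n 5495) 9998) (.M .v0 .v1))) (.M (.D (.n 4) 623) (.P .v0))) (.M (.D (.n 1469) 2498) (.P .v1))))
    [.v0, .v1, (.S (.D (.n 1) 3) .v0), (.S (.D (.n 1) 3) .v1)]
    ⟨hx, hy, Pool.Agent.Helper83.Cert.sn qx, Pool.Agent.Helper83.Cert.sn qy, trivial⟩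
    499 9 0x210200000000000000000000000a0040800000000000000000023ea00000200000000000000000020bbb00430400000000000000000000002800c100000000000000000000259608404000000000000000000000028110100000000000000000000000a00404000000000000000000218d50000100000000000000000005f32f 0 0x0 (by decide +kernel)

theorem tKP {x y : ℝ} (hx : 0 ≤ x) (hy : 0 ≤ y) (qx : x ≤ 3 / 5) (qy : y ≤ 3 / 5) :
    0 ≤ nuK y - kP x y / 2 := by
  exact finE (yv_nonneg hx hy (le_refl 0) (le_refl 0) (le_refl 0) (le_refl 0) (le_refl 0) (le_refl 0) (le_refl 0)) .z (.S (.S (.D (.n 3591) 4998) (.M (.D (.n 5) 38) .v1)) (.D (.A (.A (.A (.S (.S (.D (.n 5809) 9998) (.M (.D (.n 515) 1248) .v0)) (.M (.D (.n 9569) 9998) .v1)) (.M (.D (.n 5495) 9998) (.M .v0 .v1))) (.M (.D (.n 4) 623) (.P .v0))) (.M (.D (.n 1469) 2498) (.P .v1))) 0))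
    [.v0, .v1, (.S (.D (.n 1) 3) .v0), (.S (.D (.n 1) 3) .v1)]
    ⟨hx, hy, Pool.Agent.Helper83.Cert.sn qx, Pool.Agent.Helper83.Cert.sn qy, trivial⟩
    249 9 0x210200000000000000000000000a0040800000000000000000011f520000200000000000000000009b0aa0430400000000000000000000002800c10000000000000000000012d608404000000000000000000000028110100000000000000000000000a0040400000000000000000010c6c8000100000000000000000002f945 0 0x0 (by decide +kernel)

theorem tKQ {x y : ℝ} (hx : 0 ≤ x) (hy : 0 ≤ y) (qx : x ≤ 3 / 5) (qy : y ≤ 3 / 5) :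
    0 ≤ nuK y - kQ x y / 2 := by
  exact finE (yv_nonneg hx hy (le_refl 0) (le_refl 0) (le_refl 0) (le_refl 0) (le_refl 0) (le_refl 0) (le_refl 0)) .z (.S (.S (.D (.n 3591) 4998) (.M (.D (.n 5) 38) .v1)) (.D (.A (.S (.A (.S (.S (.D (.n 2947) 9998) (.M (.D (.n 539) 4998) .v0)) (.M (.D (.n 6165) 9998) .v1)) (.M (.D (.n 3479) 9998) (.M .v0 .v1))) (.M (.D (.n 75) 998) (.P .v0))) (.M (.D (.n 1111) 4998) (.P .v1))) 0))
    [.v0, .v1, (.S (.D (.n 1) 3) .v0), (.S (.D (.n 1) 3) .v1)]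
    ⟨hx, hy, Pool.Agent.Helper83.Cert.sn qx, Pool.Agent.Helper83.Cert.sn qy, trivial⟩
    249 9 0x30c200000000000000000000715308408000000000000000000000028010200000000000000000001b2d400008000000000000000000045f9c00c100000000000000000000bdab1020400000000000000000000002840410000000000000000000236a90c104000000000000000000000028000100000000000000000001e771 0 0x0 (by decide +kernel)

theorem tI12 {x y : ℝ} (hx : 0 ≤ x) (hy : 0 ≤ y) (qx : x ≤ 3 / 5) (qy : y ≤ 3 / 5) :
    0 ≤ nuI y - k12 x y / 2 := by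
  exact finE (yv_nonneg hx hy (le_refl 0) (le_refl 0) (le_refl 0) (le_refl 0) (le_refl 0) (le_refl 0) (le_refl 0)) .z (.S (.A (.D (.n 461) 498) (.M (.D (.n 89) 1248) .v1)) (.D (.A (.A (.S (.D (.n 5269) 9998) (.M (.D (.n 579) 1248) (.A .v0 .v1))) (.M (.D (.n 625) 2498) (.M .v0 .v1))) (.M (.D (.n 4367) 9998) (.A (.P .v0) (.P .v1)))) 0))
    [.v0, .v1, (.S (.D (.n 1) 3) .v0), (.S (.D (.n 1) 3) .v1)]
    ⟨hx, hy, Pool.Agent.Helper83.Cert.sn qx, Pool.Agent.Helper83.Cert.sn qy, trivial⟩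
    249 9 0x210200000000000000000000000a004080000000000000000000d558800020000000000000000000d48960430400000000000000000000002800c100000000000000000003556808404000000000000000000000028110100000000000000000000000a0040400000000000000000007a7a0000100000000000000000001fced 0 0x0 (by decide +kernel)

theorem ea {x y z : ℝ} (hx : 0 ≤ x) (hy : 0 ≤ y) (hz : 0 ≤ z) (qx : x ≤ 3 / 5) (qy : y ≤ 3 / 5) (qz : z ≤ 3 / 5) :
    0 ≤ nuI x - kP x y - kQ x z := by
  exact finE (yv_nonneg hx hy hz (le_refl 0) (le_refl 0) (le_refl 0) (le_refl 0) (le_refl 0) (le_refl 0)) .z (.S (.S (.A (.D (.n 461) 498) (.M (.D (.n 89) 1248) .v0)) (.A (.A (.A (.S (.S (.D (.n 5809) 9998) (.M (.D (.n 515) 1248) .v0)) (.M (.D (.n 9569) 9998) .v1)) (.M (.D (.n 5495) 9998) (.M .v0 .v1))) (.M (.D (.n 4) 623) (.P .v0))) (.M (.D (.n 1469) 2498) (.P .v1)))) (.A (.S (.A (.S (.S (.D (.n 2947) 9998) (.M (.D (.n 539) 4998) .v0)) (.M (.D (.n 6165) 9998) .v2)) (.M (.D (.n 3479) 9998)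 (.M .v0 .v2))) (.M (.D (.n 75) 998) (.P .v0))) (.M (.D (.n 1111) 4998) (.P .v2))))
    [.v0, .v1, .v2, (.S (.D (.n 1) 3) .v0), (.S (.D (.n 1) 3) .v1), (.S (.D (.n 1) 3) .v2)]
    ⟨hx, hy, hz, Pool.Agent.Helper83.Cert.sn qx, Pool.Agent.Helper83.Cert.sn qy, Pool.Agent.Helper83.Cert.sn qz, trivial⟩
    2499 19 0x31830000000000000000000000320060c00000000000000000043efe00003000000000000000000b84bb0104080000000000000000001bf5d8214200000000000000000000003200508000000000000000000b392783182000000000000000000000032086080000000000000000000000c80182000000000000000000000050000080000000000000000029e07bc01010000000000000000000fd485142040000000000000000000000c8504100000000000000000022f380101040000000000000000000000c83181000000000000000000000032086040000000000000000000000c81181000000000000000000000032006040000000000000000006a3c90000100000000000000000063a673 0 0x0 (by decide +kernel)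

theorem eb {x y z : ℝ} (hx : 0 ≤ x) (hy : 0 ≤ y) (hz : 0 ≤ z) (qx : x ≤ 3 / 5) (qy : y ≤ 3 / 5) (qz : z ≤ 3 / 5) :
    0 ≤ nuI x - k12 x y - kQ x z := by
  exact finE (yv_nonneg hx hy hz (le_refl 0) (le_refl 0) (le_refl 0) (le_refl 0) (le_refl 0) (le_refl 0)) .z (.S (.S (.A (.D (.n 461) 498) (.M (.D (.n 89) 1248) .v0)) (.A (.A (.S (.D (.n 5269) 9998) (.M (.D (.n 579) 1248) (.A .v0 .v1))) (.M (.D (.n 625) 2498) (.M .v0 .v1))) (.M (.D (.n 4367) 9998) (.A (.P .v0) (.P .v1))))) (.A (.S (.A (.S (.S (.D (.n 2947) 9998) (.M (.D (.n 539) 4998) .v0)) (.M (.D (.n 6165) 9998) .v2)) (.M (.D (.n 3479) 9998) (.M .v0 .v2))) (.M (.D (.n 75) 998) (.P .v0))) (.M (.D (.n 1111) 4998) (.P .v2))))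
    [.v0, .v1, .v2, (.S (.D (.n 1) 3) .v0), (.S (.D (.n 1) 3) .v1), (.S (.D (.n 1) 3) .v2)]
    ⟨hx, hy, hz, Pool.Agent.Helper83.Cert.sn qx, Pool.Agent.Helper83.Cert.sn qy, Pool.Agent.Helper83.Cert.sn qz, trivial⟩
    499 19 0x318300000000000000000000000a0060c0000000000000000000d9660000300000000000000000024dbf008508000000000000000000000028014200000000000000000006aaba0c608000000000000000000000028218200000000000000000000000a0060800000000000000000000004000020000000000000000000f758f044040000000000000000000000280101000000000000000000057df808504000000000000000000000028114100000000000000000000000a005040000000000000000000f4f18318100000000000000000000000a08604000000000000000000000028118100000000000000000000000a00604000000000000000000153f50000100000000000000000005605e 0 0x0 (by decide +kernel)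

theorem total2112 {x y z t : ℝ} (hx : 0 ≤ x) (hy : 0 ≤ y) (hz : 0 ≤ z) (ht : 0 ≤ t) (qx : x ≤ 3 / 5) (qy : y ≤ 3 / 5) (qz : z ≤ 3 / 5) (qt : t ≤ 3 / 5) :
    Pool.Agent.Helper36.TS.rowc (nuI x) x + Pool.Agent.Helper36.TS.rowc (nuI y) y
      + Pool.Agent.Helper36.TS.rowc (nuK z) z + Pool.Agent.Helper36.TS.rowc (nuK t) t
      + k12 x y * (x + y) + kP x z * (x + z) + kQ x t * (x + t) + kQ y z * (y + z)
      + kP y t * (y + t) + k34 z t * (z + t)
      + (Wa y t z + Wa x z t + Wb x y t + Wb y x z) ≤ 613 / 200 := by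
  have h := cert (y := yv x y z t 0 0 0 0 0)
    (gs := [(.v 2),
      (.v 3),
      (.v 5),
      (.v 7),
      (.add (.c (3)) (.mul (.c (-5)) (.v 2))),
      (.add (.c (3)) (.mul (.c (-5)) (.v 3))),
      (.add (.c (3)) (.mul (.c (-5)) (.v 5))),
      (.add (.c (3)) (.mul (.c (-5)) (.v 7)))])
    (p := .mul (.c 2500000) (.add (.add (.add (.add (.c (412)) (.add (.mul (.c (-549)) (.v 2)) (.mul (.c (-549)) (.v 3)))) (.add (.add (.mul (.c (4566)) (.mul (.v 2) (.v 2))) (.mul (.c (2628)) (.v 5))) (.add (.mul (.c (24762)) (.mul (.v 2) (.v 3))) (.mul (.c (2628)) (.v 7))))) (.add (.add (.add (.mul (.c (-6085)) (.mul (.mul (.v 2) (.v 2)) (.v 2))) (.mul (.c (4566)) (.mul (.v 3) (.v 3)))) (.add (.mul (.c (30552)) (.mul (.v 2) (.v 5))) (.mul (.c (-20631)) (.mul (.mul (.v 2) (.v 2)) (.v 3))))) (.add (.add (.mul (.c (15153)) (.mul (.v 2) (.v 7))) (.mul (.c (15153)) (.mul (.v 3) (.v 5)))) (.add (.mul (.c (-20631)) (.mul (.mul (.v 2) (.v 3)) (.v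 3))) (.mul (.c (-16779)) (.mul (.mul (.v 2) (.v 2)) (.v 5))))))) (.add (.add (.add (.add (.mul (.c (30552)) (.mul (.v 3) (.v 7))) (.mul (.c (-10224)) (.mul (.v 5) (.v 5)))) (.add (.mul (.c (-6085)) (.mul (.mul (.v 3) (.v 3)) (.v 3))) (.mul (.c (-8133)) (.mul (.mul (.v 2) (.v 2)) (.v 7))))) (.add (.add (.mul (.c (13836)) (.mul (.v 5) (.v 7))) (.mul (.c (-8133)) (.mul (.mul (.v 3) (.v 3)) (.v 5)))) (.add (.mul (.c (-10224)) (.mul (.v 7) (.v 7))) (.mul (.c (-34143)) (.mul (.mul (.v 2) (.v 5)) (.v 5)))))) (.add (.add (.add (.mul (.c (-16779)) (.mul (.mul (.v 3) (.v 3)) (.v 7))) (.mul (.c (-17121)) (.mul (.mul (.v 3) (.v 5)) (.v 5)))) (.add (.mul (.c (-17121)) (.mul (.mul (.v 2) (.v 7)) (.v 7))) (.mul (.c (9740)) (.mul (.mul (.v 5) (.v 5)) (.v 5))))) (.add (.add (.mul (.c (-34143)) (.mul (.mul (.v 3) (.v 7)) (.v 7))) (.mul (.c (-11529)) (.mul (.mul (.v 5) (.v 5)) (.v 7)))) (.add (.mul (.c (-11529)) (.mul (.mul (.v 5) (.v 7)) (.v 7))) (.mul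 (.c (9740)) (.mul (.mul (.v 7) (.v 7)) (.v 7)))))))))
    (e := (.add (.add (.add (.mul (.g 0) (.add (.add (.mul (.g 1) (.add (.add (.mul (.g 2) (.pp [(1, 1137900000)])) (.mul (.g 3) (.pp [(1, 1391475000)]))) (.add (.mul (.g 4) (.pp [(1, 9733755000)])) (.mul (.g 5) (.pp [(1, 10014750000)]))))) (.mul (.g 0) (.add (.mul (.g 4) (.pp [(1, 2933565000)])) (.add (.mul (.g 5) (.pp [(1, 304275000)])) (.mul (.g 7) (.pp [(1, 50550000)])))))) (.add (.mul (.g 2) (.add (.mul (.g 4) (.pp [(1, 8229060000)])) (.mul (.g 6) (.pp [(1, 16578735000)])))) (.add (.mul (.g 3) (.add (.mul (.g 4) (.pp [(1, 3849375000)])) (.mul (.g 7) (.pp [(1, 8061375000)])))) (.mul (.g 5) (.add (.mul (.g 6) (.pp [(1, 18036000)])) (.mul (.g 7) (.pp [(1, 7170000)])))))))) (.add (.mul (.g 1) (.add (.mul (.g 7) (.add (.add (.mul (.g 1) (.pp [(1, 104595000)])) (.mul (.g 3) (.pp [(1, 17005065000)]))) (.add (.mul (.g 4) (.pp [(1, 2739000)])) (.mul (.g 6) (.pp [(1, 58842000)])))))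 (.add (.mul (.g 5) (.add (.mul (.g 1) (.pp [(1, 2887965000)])) (.add (.mul (.g 2) (.pp [(1, 3755265000)])) (.mul (.g 3) (.pp [(1, 8087205000)]))))) (.mul (.g 6) (.add (.mul (.g 1) (.pp [(1, 119565000)])) (.mul (.g 2) (.pp [(1, 8501190000)]))))))) (.mul (.g 2) (.add (.add (.mul (.pp [(1, 319860)]) (.sq [(1, -11), (2, -30), (5, 100), (7, -30)])) (.mul (.g 3) (.add (.mul (.g 5) (.pp [(1, 163380000)])) (.add (.mul (.g 6) (.pp [(1, 5432250000)])) (.mul (.g 7) (.pp [(1, 5432040000)])))))) (.add (.mul (.g 4) (.mul (.g 5) (.pp [(1, 3834000)]))) (.mul (.g 6) (.mul (.g 6) (.pp [(1, 846027000)])))))))) (.add (.add (.mul (.g 3) (.add (.mul (.pp [(1, 319230)]) (.sq [(1, -11), (2, -30), (5, -30), (7, 100)])) (.add (.mul (.g 4) (.mul (.g 5) (.pp [(1, 4230000)]))) (.mul (.g 7) (.mul (.g 7) (.pp [(1, 846699000)])))))) (.mul (.g 4) (.mul (.pp [(1, 43632)]) (.sq [(1, -47), (2, 50), (3, 50), (5, 50), (7, 50)])))) (.add (.mul (.g 5) (.mul (.pp [(1, 61878)])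 (.sq [(1, -41), (2, 31), (3, 50), (5, 31), (7, 31)]))) (.mul (.g 7) (.mul (.pp [(1, 603)]) (.sq [(1, -86), (2, 100), (3, 100), (5, 100), (7, 59)])))))) (.pp [(1, 415420618), (2, 769068), (3, 780990), (4, 753726), (5, 755568), (6, 713220), (7, 761670), (8, 725000), (9, 711000), (10, 756852), (12, 773790), (14, 733452), (15, 680220), (18, 759000), (20, 726000), (21, 736020), (25, 777726), (27, 800000), (28, 768000), (30, 797580), (35, 717852), (42, 797580), (45, 759000), (49, 748377), (50, 735000), (63, 759000), (70, 738000), (75, 773790), (98, 732000), (105, 797580), (125, 725000), (147, 725790), (175, 753000), (245, 783000), (343, 720215)])))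
    (by decide +kernel) (yv_nonneg hx hy hz ht (le_refl 0) (le_refl 0) (le_refl 0) (le_refl 0) (le_refl 0))
    (by
      simp only [List.forall_mem_cons, exadd, exmul, exc, exv2, exv3, exv5, exv7]
      push_cast
      refine ⟨?_, ?_, ?_, ?_, ?_, ?_, ?_, ?_, fun _ hh => absurd hh List.not_mem_nil⟩ <;> linarith)
  simp only [exadd, exmul, exc, exv2, exv3, exv5, exv7] at h
  push_cast at h
  simp only [nuI, nuK, k12, k34, kP, kQ, Wa, Wb, Pool.Agent.Helper36.TS.rowc]
  linarith [h]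

end Pool.Agent.Helper65.TS
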