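import Pool.Agent.Helper65.TS.PClass

/-!
# Inequalities for one good class, part 1
-/

set_option autoImplicit false
set_option maxRecDepth 100000
set_option linter.all false

namespace Pool.Agent.Helper65.TS

open Pool.Agent.Helper83.Cert Pool.Agent.Helper44.TS Pool.Agent.Helper84.TS Pool.Agent.Helper36.TS

theorem g1_J {d p q r : ℝ} (d0 : 0 ≤ d) (d1 : d ≤ 3 / 5) (hs : p + q + r = 1 + d)
    (p0 : 0 ≤ p) (q0 : 0 ≤ q) (r0 : 0 ≤ r) (p1 : p ≤ 1) (q1 : q ≤ 1) (r1 : r ≤ 1) :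
    mp d p q r + 17 / 20 * d ≤ 101 / 100 := by
  obtain rfl : r = 1 + d - p - q := by linarith
  have h := cert (y := yv d p q 0 0 0 0 0 0)
    (gs := [(.v 2),
      (.add (.c (3)) (.mul (.c (-5)) (.v 2))),
      (.v 3),
      (.v 5),
      (.add (.add (.c (1)) (.v 2)) (.add (.mul (.c (-1)) (.v 3)) (.mul (.c (-1)) (.v 5)))),
      (.add (.c (1)) (.mul (.c (-1)) (.v 3))),
      (.add (.c (1)) (.mul (.c (-1)) (.v 5))),
      (.add (.mul (.c (-1)) (.v 2)) (.add (.v 3) (.v 5)))])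
    (p := .mul (.c 125000000) (.add (.add (.add (.c (103)) (.add (.mul (.c (345)) (.v 2)) (.mul (.c (-300)) (.v 3)))) (.add (.add (.mul (.c (-300)) (.mul (.v 2) (.v 2))) (.mul (.c (-300)) (.v 5))) (.add (.mul (.c (-100)) (.mul (.mul (.v 2) (.v 2)) (.v 2))) (.mul (.c (300)) (.mul (.v 3) (.v 3)))))) (.add (.add (.mul (.c (300)) (.mul (.mul (.v 2) (.v 2)) (.v 3))) (.add (.mul (.c (300)) (.mul (.v 3) (.v 5))) (.mul (.c (-300)) (.mul (.mul (.v 2) (.v 3)) (.v 3))))) (.add (.add (.mul (.c (300)) (.mul (.mul (.v 2) (.v 2)) (.v 5))) (.mul (.c (300)) (.mul (.v 5) (.v 5)))) (.add (.mul (.c (-300)) (.mul (.mul (.v 2) (.v 3)) (.v 5))) (.mul (.c (-300)) (.mul (.mul (.v 2) (.v 5)) (.v 5))))))))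
    (e := (.add (.add (.add (.mul (.pp [(1, 2531812500)]) (.sq [(3, 1), (5, -1)])) (.add (.mul (.pp [(1, 15950940)]) (.sq [(1, -16), (3, 25), (5, 25)])) (.mul (.g 0) (.add (.add (.mul (.g 1) (.add (.mul (.g 1) (.pp [(1, 1027467000)])) (.add (.mul (.g 2) (.pp [(1, 1623630000)])) (.mul (.g 4) (.pp [(1, 8054370000)]))))) (.mul (.g 4) (.add (.pp [(1, 12693900000)]) (.mul (.g 3) (.pp [(1, 1397737500)]))))) (.add (.mul (.g 5) (.add (.mul (.g 5) (.pp [(1, 1736587500)])) (.mul (.g 7) (.pp [(1, 9515850000)])))) (.mul (.g 2) (.mul (.g 2) (.pp [(1, 6381562500)])))))))) (.add (.add (.mul (.g 4) (.mul (.g 4) (.add (.mul (.g 2) (.pp [(1, 2084437500)])) (.add (.mul (.g 3) (.pp [(1, 2084437500)])) (.mul (.g 4) (.pp [(1, 2084812500)])))))) (.mul (.g 1) (.add (.mul (.pp [(1, 8570736)]) (.sq [(1, -16), (3, 25), (5, 25)])) (.mul (.pp [(1, 2280922500)]) (.sq [(3, 1), (5, -1)]))))) (.add (.mul (.g 2)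 (.mul (.pp [(1, 75)]) (.sq [(1, -41), (5, 100)]))) (.mul (.g 3) (.mul (.pp [(1, 75)]) (.sq [(1, -41), (3, 100)])))))) (.pp [(1, 124421612), (2, 304080), (3, 392325), (4, 262500), (5, 392325), (6, 501000), (8, 362500), (9, 390000), (10, 478500), (12, 450000), (15, 330000), (18, 300000), (20, 412500), (25, 390000), (27, 375000), (30, 337500), (45, 375000), (50, 337500), (75, 375000), (125, 375000)])))
    (by decide +kernel) (yv_nonneg d0 p0 q0 (le_refl 0) (le_refl 0) (le_refl 0) (le_refl 0) (le_refl 0) (le_refl 0))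
    (by
      simp only [List.forall_mem_cons, exadd, exmul, exc, exv2, exv3, exv5]
      push_cast
      refine ⟨?_, ?_, ?_, ?_, ?_, ?_, ?_, ?_, fun _ hh => absurd hh List.not_mem_nil⟩ <;> linarith)
  simp only [exadd, exmul, exc, exv2, exv3, exv5] at h
  push_cast at h
  simp only [mp, bb]
  linarith [h]

theorem g1_Jp {d p q r : ℝ} (d0 : 0 ≤ d) (d1 : d ≤ 3 / 5) (hs : p + q + r = 1 + d)
    (p0 : 0 ≤ p) (q0 : 0 ≤ q) (r0 : 0 ≤ r) (p1 : p ≤ 1) (q1 : q ≤ 1) (r1 : r ≤ 1) (jp : p ≤ d) :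
    mp d p q r + bb (d - p) + 17 / 20 * d ≤ 101 / 100 := by
  obtain rfl : r = 1 + d - p - q := by linarith
  have h := cert (y := yv d p q 0 0 0 0 0 0)
    (gs := [(.v 2),
      (.add (.c (3)) (.mul (.c (-5)) (.v 2))),
      (.v 3),
      (.v 5),
      (.add (.add (.c (1)) (.v 2)) (.add (.mul (.c (-1)) (.v 3)) (.mul (.c (-1)) (.v 5)))),
      (.add (.c (1)) (.mul (.c (-1)) (.v 3))),
      (.add (.c (1)) (.mul (.c (-1)) (.v 5))),
      (.add (.mul (.c (-1)) (.v 2)) (.add (.v 3) (.v 5))),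
      (.add (.v 2) (.mul (.c (-1)) (.v 3)))])
    (p := .mul (.c 50000) (.add (.add (.add (.add (.c (103)) (.mul (.c (270)) (.v 2))) (.add (.mul (.c (-225)) (.v 3)) (.mul (.c (-450)) (.mul (.v 2) (.v 2))))) (.add (.add (.mul (.c (-300)) (.v 5)) (.mul (.c (300)) (.mul (.v 2) (.v 3)))) (.add (.mul (.c (-75)) (.mul (.mul (.v 2) (.v 2)) (.v 2))) (.mul (.c (150)) (.mul (.v 3) (.v 3)))))) (.add (.add (.add (.mul (.c (225)) (.mul (.mul (.v 2) (.v 2)) (.v 3))) (.mul (.c (300)) (.mul (.v 3) (.v 5)))) (.add (.mul (.c (-225)) (.mul (.mul (.v 2) (.v 3)) (.v 3))) (.mul (.c (300)) (.mul (.mul (.v 2) (.v 2)) (.v 5))))) (.add (.add (.mul (.c (300)) (.mul (.v 5) (.v 5))) (.mul (.c (-25)) (.mul (.mul (.v 3) (.v 3)) (.v 3)))) (.add (.mul (.c (-300)) (.mul (.mul (.v 2) (.v 3)) (.v 5))) (.mul (.c (-300)) (.mul (.mul (.v 2) (.v 5)) (.v 5))))))))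
    (e := (.add (.add (.add (.mul (.g 1) (.add (.mul (.g 0) (.add (.mul (.g 0) (.pp [(1, 1249200)])) (.add (.mul (.g 6) (.pp [(1, 750066)])) (.mul (.g 7) (.pp [(1, 749700)]))))) (.add (.mul (.g 8) (.add (.mul (.g 5) (.pp [(1, 2997720)])) (.add (.mul (.g 6) (.pp [(1, 600414)])) (.mul (.g 7) (.pp [(1, 657705)]))))) (.mul (.g 4) (.mul (.g 4) (.pp [(1, 99)])))))) (.add (.mul (.g 2) (.add (.add (.mul (.g 6) (.add (.mul (.g 2) (.pp [(1, 2280)])) (.add (.mul (.g 3) (.pp [(1, 7209840)])) (.mul (.g 7) (.pp [(1, 22080)]))))) (.mul (.g 2) (.mul (.g 2) (.pp [(1, 1245405)])))) (.add (.mul (.g 3) (.mul (.g 4) (.pp [(1, 7484055)]))) (.mul (.g 7) (.mul (.g 8) (.pp [(1, 6752415)])))))) (.mul (.g 6) (.add (.mul (.g 5) (.mul (.g 8) (.pp [(1, 455145)]))) (.mul (.g 6) (.mul (.g 6) (.pp [(1, 4999845)]))))))) (.add (.mul (.g 7) (.add (.mul (.g 0) (.mul (.g 4) (.pp [(1, 283815)]))) (.mul (.g 7) (.mul (.g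 7) (.pp [(1, 4905270)]))))) (.add (.mul (.g 3) (.mul (.g 3) (.mul (.g 3) (.pp [(1, 94425)])))) (.mul (.g 8) (.mul (.g 8) (.mul (.g 8) (.pp [(1, 648420)]))))))) (.pp [(1, 149858), (2, 156), (3, 141), (4, 123), (5, 129), (6, 174), (8, 135), (9, 153), (10, 159), (12, 195), (15, 159), (18, 105), (20, 195), (25, 168), (27, 160), (30, 90), (45, 165), (50, 120), (75, 165), (125, 150)])))
    (by decide +kernel) (yv_nonneg d0 p0 q0 (le_refl 0) (le_refl 0) (le_refl 0) (le_refl 0) (le_refl 0) (le_refl 0))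
    (by
      simp only [List.forall_mem_cons, exadd, exmul, exc, exv2, exv3, exv5]
      push_cast
      refine ⟨?_, ?_, ?_, ?_, ?_, ?_, ?_, ?_, ?_, fun _ hh => absurd hh List.not_mem_nil⟩ <;> linarith)
  simp only [exadd, exmul, exc, exv2, exv3, exv5] at h
  push_cast at h
  simp only [mp, bb]
  linarith [h]

theorem g1_Jpq {d p q r : ℝ} (d0 : 0 ≤ d) (d1 : d ≤ 3 / 5) (hs : p + q + r = 1 + d)
    (p0 : 0 ≤ p) (q0 : 0 ≤ q) (r0 : 0 ≤ r) (p1 : p ≤ 1) (q1 : q ≤ 1) (r1 : r ≤ 1) (jp : p ≤ d) (jq : q ≤ d) :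
    mp d p q r + bb (d - p) + bb (d - q) + 17 / 20 * d ≤ 101 / 100 := by
  obtain rfl : r = 1 + d - p - q := by linarith
  have h := cert (y := yv d p q 0 0 0 0 0 0)
    (gs := [(.v 2),
      (.add (.c (3)) (.mul (.c (-5)) (.v 2))),
      (.v 3),
      (.v 5),
      (.add (.add (.c (1)) (.v 2)) (.add (.mul (.c (-1)) (.v 3)) (.mul (.c (-1)) (.v 5)))),
      (.add (.c (1)) (.mul (.c (-1)) (.v 3))),
      (.add (.c (1)) (.mul (.c (-1)) (.v 5))),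
      (.add (.mul (.c (-1)) (.v 2)) (.add (.v 3) (.v 5))),
      (.add (.v 2) (.mul (.c (-1)) (.v 3))),
      (.add (.v 2) (.mul (.c (-1)) (.v 5)))])
    (p := .mul (.c 250000) (.add (.add (.add (.add (.c (103)) (.mul (.c (195)) (.v 2))) (.add (.mul (.c (-225)) (.v 3)) (.mul (.c (-600)) (.mul (.v 2) (.v 2))))) (.add (.add (.mul (.c (-225)) (.v 5)) (.mul (.c (300)) (.mul (.v 2) (.v 3)))) (.add (.mul (.c (-50)) (.mul (.mul (.v 2) (.v 2)) (.v 2))) (.add (.mul (.c (150)) (.mul (.v 3) (.v 3))) (.mul (.c (300)) (.mul (.v 2) (.v 5))))))) (.add (.add (.add (.mul (.c (225)) (.mul (.mul (.v 2) (.v 2)) (.v 3))) (.mul (.c (300)) (.mul (.v 3) (.v 5)))) (.add (.mul (.c (-225)) (.mul (.mul (.v 2) (.v 3)) (.v 3))) (.mul (.c (225)) (.mul (.mul (.v 2) (.v 2)) (.v 5))))) (.add (.add (.mul (.c (150)) (.mul (.v 5) (.v 5))) (.mul (.c (-25)) (.mul (.mul (.v 3) (.v 3)) (.v 3)))) (.add (.mul (.c (-300))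 (.mul (.mul (.v 2) (.v 3)) (.v 5))) (.add (.mul (.c (-225)) (.mul (.mul (.v 2) (.v 5)) (.v 5))) (.mul (.c (-25)) (.mul (.mul (.v 5) (.v 5)) (.v 5)))))))))
    (e := (.add (.add (.add (.mul (.g 1) (.add (.add (.mul (.g 0) (.add (.mul (.g 0) (.pp [(1, 4503150)])) (.mul (.g 5) (.pp [(1, 3396030)])))) (.add (.mul (.g 4) (.add (.mul (.g 4) (.pp [(1, 7350780)])) (.mul (.g 8) (.pp [(1, 769185)])))) (.mul (.g 9) (.add (.pp [(1, 6354780)]) (.mul (.g 9) (.pp [(1, 2643465)])))))) (.add (.mul (.g 1) (.mul (.g 8) (.pp [(1, 1861869)]))) (.add (.mul (.g 2) (.mul (.g 7) (.pp [(1, 9037380)]))) (.mul (.g 3) (.mul (.g 3) (.pp [(1, 8556795)]))))))) (.mul (.g 7) (.add (.mul (.g 4) (.add (.mul (.g 2) (.pp [(1, 29148150)])) (.mul (.g 4) (.pp [(1, 6918300)])))) (.add (.mul (.g 7) (.add (.mul (.g 7) (.pp [(1, 16230000)])) (.mul (.g 9) (.pp [(1, 40433850)])))) (.mul (.g 3) (.mul (.g 3) (.pp [(1, 36252750)])))))))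 (.add (.mul (.g 2) (.mul (.g 8) (.add (.mul (.g 2) (.pp [(1, 250950)])) (.mul (.g 6) (.pp [(1, 29284275)]))))) (.mul (.g 3) (.mul (.g 9) (.add (.mul (.g 3) (.pp [(1, 29535225)])) (.mul (.g 4) (.pp [(1, 4317225)]))))))) (.pp [(1, 3697660), (2, 714), (3, 756), (4, 705), (5, 720), (6, 900), (8, 625), (9, 690), (10, 900), (12, 975), (15, 675), (18, 525), (20, 1050), (25, 705), (27, 800), (30, 225), (45, 975), (50, 525), (75, 975), (125, 800)])))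
    (by decide +kernel) (yv_nonneg d0 p0 q0 (le_refl 0) (le_refl 0) (le_refl 0) (le_refl 0) (le_refl 0) (le_refl 0))
    (by
      simp only [List.forall_mem_cons, exadd, exmul, exc, exv2, exv3, exv5]
      push_cast
      refine ⟨?_, ?_, ?_, ?_, ?_, ?_, ?_, ?_, ?_, ?_, fun _ hh => absurd hh List.not_mem_nil⟩ <;> linarith)
  simp only [exadd, exmul, exc, exv2, exv3, exv5] at h
  push_cast at h
  simp only [mp, bb]
  linarith [h]

theorem g1_Jpqr {d p q r : ℝ} (d0 : 0 ≤ d) (d1 : d ≤ 3 / 5) (hs : p + q + r = 1 + d)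
    (p0 : 0 ≤ p) (q0 : 0 ≤ q) (r0 : 0 ≤ r) (p1 : p ≤ 1) (q1 : q ≤ 1) (r1 : r ≤ 1) (jp : p ≤ d) (jq : q ≤ d) (jr : r ≤ d) :
    mp d p q r + bb (d - p) + bb (d - q) + bb (d - r) + 17 / 20 * d ≤ 101 / 100 := by
  obtain rfl : r = 1 + d - p - q := by linarith
  have h := cert (y := yv d p q 0 0 0 0 0 0)
    (gs := [(.v 2),
      (.add (.c (3)) (.mul (.c (-5)) (.v 2))),
      (.v 3),
      (.v 5),
      (.add (.add (.c (1)) (.v 2)) (.add (.mul (.c (-1)) (.v 3)) (.mul (.c (-1)) (.v 5)))),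
      (.add (.c (1)) (.mul (.c (-1)) (.v 3))),
      (.add (.c (1)) (.mul (.c (-1)) (.v 5))),
      (.add (.mul (.c (-1)) (.v 2)) (.add (.v 3) (.v 5))),
      (.add (.v 2) (.mul (.c (-1)) (.v 3))),
      (.add (.v 2) (.mul (.c (-1)) (.v 5))),
      (.add (.c (-1)) (.add (.v 3) (.v 5)))])
    (p := .mul (.c 50000) (.add (.add (.add (.add (.c (3)) (.mul (.c (195)) (.v 2))) (.add (.mul (.c (75)) (.v 3)) (.mul (.c (-600)) (.mul (.v 2) (.v 2))))) (.add (.add (.mul (.c (75)) (.v 5)) (.mul (.c (300)) (.mul (.v 2) (.v 3)))) (.add (.mul (.c (-50)) (.mul (.mul (.v 2) (.v 2)) (.v 2))) (.add (.mul (.c (-75)) (.mul (.v 3) (.v 3))) (.mul (.c (300)) (.mul (.v 2) (.v 5))))))) (.add (.add (.add (.mul (.c (225)) (.mul (.mul (.v 2) (.v 2)) (.v 3))) (.mul (.c (-150)) (.mul (.v 3) (.v 5)))) (.add (.mul (.c (-225)) (.mul (.mul (.v 2) (.v 3)) (.v 3))) (.mul (.c (225)) (.mul (.mul (.v 2) (.v 2)) (.v 5)))))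 (.add (.add (.mul (.c (-75)) (.mul (.v 5) (.v 5))) (.mul (.c (-300)) (.mul (.mul (.v 2) (.v 3)) (.v 5)))) (.add (.mul (.c (75)) (.mul (.mul (.v 3) (.v 3)) (.v 5))) (.add (.mul (.c (-225)) (.mul (.mul (.v 2) (.v 5)) (.v 5))) (.mul (.c (75)) (.mul (.mul (.v 3) (.v 5)) (.v 5)))))))))
    (e := (.add (.add (.mul (.g 1) (.add (.add (.pp [(1, 466776)]) (.add (.mul (.g 2) (.add (.mul (.g 2) (.pp [(1, 755646)])) (.mul (.g 4) (.pp [(1, 1181598)])))) (.mul (.g 5) (.add (.mul (.g 8) (.pp [(1, 1926012)])) (.mul (.g 9) (.pp [(1, 1388820)])))))) (.add (.mul (.g 6) (.add (.mul (.g 8) (.pp [(1, 2151954)])) (.mul (.g 10) (.pp [(1, 225822)])))) (.add (.mul (.g 0) (.mul (.g 0) (.pp [(1, 2877897)]))) (.mul (.g 10) (.pp [(1, 1170648)])))))) (.add (.mul (.g 9) (.add (.mul (.g 8) (.add (.mul (.g 0) (.pp [(1, 11865930)])) (.add (.mul (.g 2) (.pp [(1, 1149705)])) (.mul (.g 3) (.pp [(1, 1126305)]))))) (.add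 (.mul (.g 10) (.add (.mul (.g 2) (.pp [(1, 8699610)])) (.add (.mul (.g 3) (.pp [(1, 3026190)])) (.mul (.g 4) (.pp [(1, 3049425)]))))) (.mul (.g 9) (.mul (.g 9) (.pp [(1, 23400)])))))) (.mul (.g 8) (.add (.pp [(1, 930)]) (.mul (.g 10) (.add (.mul (.g 2) (.pp [(1, 8250630)])) (.mul (.g 4) (.pp [(1, 8250480)])))))))) (.pp [(1, 2939082), (2, 147), (3, 144), (4, 144), (5, 159), (6, 162), (8, 155), (9, 150), (10, 177), (12, 150), (15, 138), (18, 150), (20, 150), (25, 126), (27, 150), (30, 135), (45, 150), (50, 135), (75, 165), (125, 165)])))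
    (by decide +kernel) (yv_nonneg d0 p0 q0 (le_refl 0) (le_refl 0) (le_refl 0) (le_refl 0) (le_refl 0) (le_refl 0))
    (by
      simp only [List.forall_mem_cons, exadd, exmul, exc, exv2, exv3, exv5]
      push_cast
      refine ⟨?_, ?_, ?_, ?_, ?_, ?_, ?_, ?_, ?_, ?_, ?_, fun _ hh => absurd hh List.not_mem_nil⟩ <;> linarith)
  simp only [exadd, exmul, exc, exv2, exv3, exv5] at h
  push_cast at h
  simp only [mp, bb]
  linarith [h]

theorem g1_Np {d p q r a : ℝ} (d0 : 0 ≤ d) (d1 : d ≤ 3 / 5) (hs : p + q + r = 1 + d)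
    (p0 : p ≤ 0) (q0 : 0 ≤ q) (r0 : 0 ≤ r) (q1 : q ≤ 1) (r1 : r ≤ 1) (a0 : 0 ≤ a)
    (a1 : a ≤ 13 / 20) (ao : a ≤ d - p) :
    mp d p q r + (-p) ^ 3 / 3 + bb a + 17 / 20 * d ≤ 101 / 100 := by
  obtain ⟨n, rfl⟩ : ∃ n, p = -n := ⟨-p, by ring⟩
  have n0 : 0 ≤ n := by linarith
  obtain rfl : r = 1 + d + n - q := by linarith
  have h := cert (y := yv d n q a 0 0 0 0 0)
    (gs := [(.v 2),
      (.add (.c (3)) (.mul (.c (-5)) (.v 2))),
      (.v 3),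
      (.v 5),
      (.add (.add (.c (1)) (.v 2)) (.add (.v 3) (.mul (.c (-1)) (.v 5)))),
      (.add (.c (1)) (.mul (.c (-1)) (.v 5))),
      (.add (.mul (.c (-1)) (.v 2)) (.add (.mul (.c (-1)) (.v 3)) (.v 5))),
      (.v 7),
      (.add (.c (13)) (.mul (.c (-20)) (.v 7))),
      (.add (.v 2) (.add (.v 3) (.mul (.c (-1)) (.v 7))))])
    (p := .mul (.c 1000000) (.add (.add (.add (.add (.c (103)) (.mul (.c (345)) (.v 2))) (.add (.mul (.c (300)) (.v 3)) (.mul (.c (-300)) (.mul (.v 2) (.v 2))))) (.add (.add (.mul (.c (-300)) (.v 5)) (.mul (.c (-75)) (.v 7))) (.add (.mul (.c (-100)) (.mul (.mul (.v 2) (.v 2)) (.v 2))) (.add (.mul (.c (300)) (.mul (.v 3) (.v 3))) (.mul (.c (-300)) (.mul (.mul (.v 2) (.v 2)) (.v 3))))))) (.add (.add (.add (.mul (.c (-300)) (.mul (.v 3) (.v 5))) (.mul (.c (-300)) (.mul (.mul (.v 2) (.v 3)) (.v 3)))) (.add (.mul (.c (300)) (.mul (.mul (.v 2) (.v 2)) (.v 5)))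 (.mul (.c (300)) (.mul (.v 5) (.v 5))))) (.add (.add (.mul (.c (-100)) (.mul (.mul (.v 3) (.v 3)) (.v 3))) (.mul (.c (300)) (.mul (.mul (.v 2) (.v 3)) (.v 5)))) (.add (.mul (.c (-150)) (.mul (.v 7) (.v 7))) (.add (.mul (.c (-300)) (.mul (.mul (.v 2) (.v 5)) (.v 5))) (.mul (.c (25)) (.mul (.mul (.v 7) (.v 7)) (.v 7)))))))))
    (e := (.add (.add (.add (.mul (.g 9) (.add (.add (.mul (.g 7) (.add (.add (.mul (.g 0) (.pp [(1, 131017200)])) (.mul (.g 2) (.pp [(1, 131017200)]))) (.add (.mul (.g 5) (.pp [(1, 150003000)])) (.add (.mul (.g 6) (.pp [(1, 150006000)])) (.mul (.g 9) (.pp [(1, 55999200)])))))) (.add (.mul (.g 1) (.add (.mul (.g 1) (.pp [(1, 5052252)])) (.add (.mul (.g 3) (.pp [(1, 7724340)])) (.mul (.g 4) (.pp [(1, 32292480)]))))) (.mul (.g 2) (.add (.mul (.g 5) (.pp [(1, 186282300)])) (.mul (.g 6) (.pp [(1, 184355400)])))))) (.add (.mul (.g 3) (.add (.mul (.g 3) (.pp [(1, 6365700)]))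 (.mul (.g 4) (.pp [(1, 8473800)])))) (.add (.mul (.g 4) (.mul (.g 4) (.pp [(1, 6036000)]))) (.mul (.g 9) (.mul (.g 9) (.pp [(1, 31002000)]))))))) (.add (.mul (.g 1) (.add (.add (.mul (.g 2) (.add (.add (.pp [(1, 821760)]) (.mul (.g 5) (.pp [(1, 629820)]))) (.add (.mul (.g 6) (.pp [(1, 25262460)])) (.mul (.g 7) (.pp [(1, 23026440)]))))) (.mul (.g 0) (.add (.mul (.g 3) (.pp [(1, 24633240)])) (.mul (.g 8) (.pp [(1, 1362627)]))))) (.add (.mul (.g 4) (.mul (.g 7) (.pp [(1, 24460200)]))) (.add (.mul (.g 5) (.mul (.g 5) (.pp [(1, 348900)]))) (.mul (.g 6) (.mul (.g 6) (.pp [(1, 346920)]))))))) (.mul (.g 8) (.add (.add (.mul (.g 0) (.add (.pp [(1, 10678080)]) (.add (.mul (.g 5) (.pp [(1, 630615)])) (.mul (.g 6) (.pp [(1, 507300)]))))) (.mul (.g 2) (.mul (.g 2) (.pp [(1, 6254595)])))) (.add (.mul (.g 3) (.mul (.g 5) (.pp [(1, 57960)]))) (.mul (.g 4) (.mul (.g 6) (.pp [(1, 138285)]))))))))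 (.add (.mul (.g 2) (.add (.mul (.g 5) (.mul (.g 5) (.pp [(1, 149055900)]))) (.mul (.g 6) (.mul (.g 6) (.pp [(1, 147464700)]))))) (.add (.mul (.g 5) (.mul (.g 5) (.mul (.g 5) (.pp [(1, 100153500)])))) (.mul (.g 6) (.mul (.g 6) (.mul (.g 6) (.pp [(1, 100150500)]))))))) (.pp [(1, 1799800), (2, 3009), (3, 3357), (4, 3120), (5, 2715), (6, 2850), (7, 3108), (8, 3200), (9, 2850), (10, 3105), (12, 3600), (14, 2700), (15, 2610), (18, 3600), (20, 3000), (21, 3120), (25, 3225), (27, 3200), (28, 2100), (30, 3000), (35, 2880), (42, 1200), (45, 3000), (49, 3000), (50, 2700), (63, 2400), (70, 3600), (75, 3000), (98, 3600), (105, 3300), (125, 3000), (147, 3600), (175, 3000), (245, 3000), (343, 2800)])))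
    (by decide +kernel) (yv_nonneg d0 n0 q0 a0 (le_refl 0) (le_refl 0) (le_refl 0) (le_refl 0) (le_refl 0))
    (by
      simp only [List.forall_mem_cons, exadd, exmul, exc, exv2, exv3, exv5, exv7]
      push_cast
      refine ⟨?_, ?_, ?_, ?_, ?_, ?_, ?_, ?_, ?_, ?_, fun _ hh => absurd hh List.not_mem_nil⟩ <;> linarith)
  simp only [exadd, exmul, exc, exv2, exv3, exv5, exv7] at h
  push_cast at h
  simp only [mp, bb, neg_neg]
  linarith [h]

theorem g1 {V d p q r : ℝ} (h : GR V d p q r) : V + 17 / 20 * d ≤ 101 / 100 := by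
  rcases h.cs with h1 | h1 | h1 | h1
  · obtain ⟨p0, q0, r0, A, B, E, hA, hB, hE, hv⟩ := h1
    have e1 : mp d p r q = mp d p q r := by unfold mp; ring
    have e2 : mp d q p r = mp d p q r := by unfold mp; ring
    have e3 : mp d q r p = mp d p q r := by unfold mp; ring
    have e4 : mp d r p q = mp d p q r := by unfold mp; ring
    have e5 : mp d r q p = mp d p q r := by unfold mp; ring
    rcases hA with hA | ⟨jp, hA⟩ <;> rcases hB with hB | ⟨jq, hB⟩ <;> rcases hE with hE | ⟨jr, hE⟩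
    · have := g1_J (p := p) (q := q) (r := r) h.d0 h.d1 (by linarith [h.s]) p0 q0 r0 h.p1 h.q1 h.r1
      linarith
    · have := g1_Jp (p := r) (q := p) (r := q) h.d0 h.d1 (by linarith [h.s]) r0 p0 q0 h.r1 h.p1 h.q1 jr
      linarith
    · have := g1_Jp (p := q) (q := p) (r := r) h.d0 h.d1 (by linarith [h.s]) q0 p0 r0 h.q1 h.p1 h.r1 jq
      linarith
    · have := g1_Jpq (p := q) (q := r) (r := p) h.d0 h.d1 (by linarith [h.s]) q0 r0 p0 h.q1 h.r1 h.p1 jq jr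
      linarith
    · have := g1_Jp (p := p) (q := q) (r := r) h.d0 h.d1 (by linarith [h.s]) p0 q0 r0 h.p1 h.q1 h.r1 jp
      linarith
    · have := g1_Jpq (p := p) (q := r) (r := q) h.d0 h.d1 (by linarith [h.s]) p0 r0 q0 h.p1 h.r1 h.q1 jp jr
      linarith
    · have := g1_Jpq (p := p) (q := q) (r := r) h.d0 h.d1 (by linarith [h.s]) p0 q0 r0 h.p1 h.q1 h.r1 jp jq
      linarith
    · have := g1_Jpqr (p := p) (q := q) (r := r) h.d0 h.d1 (by linarith [h.s]) p0 q0 r0 h.p1 h.q1 h.r1 jp jq jr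
      linarith
  · obtain ⟨p0, q0, r0, a, a0, a1, ao, hv⟩ := h1
    have := g1_Np h.d0 h.d1 h.s p0 q0 r0 h.q1 h.r1 a0 a1 ao
    linarith
  · obtain ⟨q0, p0, r0, a, a0, a1, ao, hv⟩ := h1
    have := g1_Np (p := q) (q := p) (r := r) h.d0 h.d1 (by linarith [h.s]) q0 p0 r0 h.p1 h.r1 a0 a1 ao
    linarith
  · obtain ⟨r0, p0, q0, a, a0, a1, ao, hv⟩ := h1
    have := g1_Np (p := r) (q := p) (r := q) h.d0 h.d1 (by linarith [h.s]) r0 p0 q0 h.p1 h.q1 a0 a1 ao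
    linarith

theorem g2_J {d p q r : ℝ} (d0 : 0 ≤ d) (d1 : d ≤ 3 / 5) (hs : p + q + r = 1 + d)
    (p0 : 0 ≤ p) (q0 : 0 ≤ q) (r0 : 0 ≤ r) (p1 : p ≤ 1) (q1 : q ≤ 1) (r1 : r ≤ 1) :
    mp d p q r - 7 / 20 * p + 7 / 10 * d ≤ 24 / 25 := by
  obtain rfl : r = 1 + d - p - q := by linarith
  have h := cert (y := yv d p q 0 0 0 0 0 0)
    (gs := [(.v 2),
      (.add (.c (3)) (.mul (.c (-5)) (.v 2))),
      (.v 3),
      (.v 5),
      (.add (.add (.c (1)) (.v 2)) (.add (.mul (.c (-1)) (.v 3)) (.mul (.c (-1)) (.v 5)))),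
      (.add (.c (1)) (.mul (.c (-1)) (.v 3))),
      (.add (.c (1)) (.mul (.c (-1)) (.v 5))),
      (.add (.mul (.c (-1)) (.v 2)) (.add (.v 3) (.v 5)))])
    (p := .mul (.c 500000000) (.add (.add (.add (.c (88)) (.add (.mul (.c (390)) (.v 2)) (.mul (.c (-195)) (.v 3)))) (.add (.add (.mul (.c (-300)) (.mul (.v 2) (.v 2))) (.mul (.c (-300)) (.v 5))) (.add (.mul (.c (-100)) (.mul (.mul (.v 2) (.v 2)) (.v 2))) (.mul (.c (300)) (.mul (.v 3) (.v 3)))))) (.add (.add (.mul (.c (300)) (.mul (.mul (.v 2) (.v 2)) (.v 3))) (.add (.mul (.c (300)) (.mul (.v 3) (.v 5))) (.mul (.c (-300)) (.mul (.mul (.v 2) (.v 3)) (.v 3))))) (.add (.add (.mul (.c (300)) (.mul (.mul (.v 2) (.v 2)) (.v 5))) (.mul (.c (300)) (.mul (.v 5) (.v 5)))) (.add (.mul (.c (-300)) (.mul (.mul (.v 2) (.v 3)) (.v 5))) (.mul (.c (-300)) (.mul (.mul (.v 2) (.v 5)) (.v 5))))))))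
    (e := (.add (.add (.add (.add (.mul (.pp [(1, 22594560)]) (.sq [(1, -16), (3, 25), (5, 25)])) (.mul (.g 0) (.add (.add (.mul (.g 1) (.add (.mul (.g 1) (.pp [(1, 999912000)])) (.add (.mul (.g 3) (.pp [(1, 9000990000)])) (.mul (.g 6) (.pp [(1, 9000990000)]))))) (.mul (.g 5) (.add (.mul (.g 5) (.pp [(1, 30119850000)])) (.mul (.g 6) (.pp [(1, 135287550000)]))))) (.add (.mul (.g 3) (.mul (.g 3) (.pp [(1, 10339500000)]))) (.add (.mul (.g 4) (.mul (.g 7) (.pp [(1, 74999250000)]))) (.mul (.g 6) (.mul (.g 6) (.pp [(1, 30810000000)])))))))) (.add (.mul (.g 2) (.add (.mul (.g 2) (.add (.mul (.g 3) (.pp [(1, 75118650000)])) (.add (.mul (.g 4) (.pp [(1, 52848000000)])) (.mul (.g 5) (.pp [(1, 1185900000)]))))) (.mul (.g 3) (.mul (.g 3) (.pp [(1, 46579200000)]))))) (.mul (.g 7) (.add (.mul (.pp [(1, 4632045)]) (.sq [(1, 21), (3, 100), (5, -95)])) (.mul (.pp [(1, 19279875)]) (.sq [(1, -9), (3,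 20), (5, 20)])))))) (.add (.add (.mul (.g 1) (.mul (.pp [(1, 33260064)]) (.sq [(1, -16), (3, 25), (5, 25)]))) (.mul (.g 3) (.mul (.pp [(1, 533700)]) (.sq [(1, -15), (3, -78), (5, 100)])))) (.add (.mul (.g 4) (.mul (.pp [(1, 3730215)]) (.sq [(1, -49), (5, 100)]))) (.mul (.g 6) (.mul (.pp [(1, 1755240)]) (.sq [(1, -26), (3, -63), (5, 100)])))))) (.pp [(1, 2529275033), (2, 1459425), (3, 1479855), (4, 1560000), (5, 1460835), (6, 1578000), (8, 1450000), (9, 1498440), (10, 1536450), (12, 1500000), (15, 1565790), (18, 1500000), (20, 1500000), (25, 1589550), (27, 1500000), (30, 1395000), (45, 1421760), (50, 1456125), (75, 1444875), (125, 1393875)])))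
    (by decide +kernel) (yv_nonneg d0 p0 q0 (le_refl 0) (le_refl 0) (le_refl 0) (le_refl 0) (le_refl 0) (le_refl 0))
    (by
      simp only [List.forall_mem_cons, exadd, exmul, exc, exv2, exv3, exv5]
      push_cast
      refine ⟨?_, ?_, ?_, ?_, ?_, ?_, ?_, ?_, fun _ hh => absurd hh List.not_mem_nil⟩ <;> linarith)
  simp only [exadd, exmul, exc, exv2, exv3, exv5] at h
  push_cast at h
  simp only [mp, bb]
  linarith [h]

theorem g2_Jp {d p q r : ℝ} (d0 : 0 ≤ d) (d1 : d ≤ 3 / 5) (hs : p + q + r = 1 + d)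
    (p0 : 0 ≤ p) (q0 : 0 ≤ q) (r0 : 0 ≤ r) (p1 : p ≤ 1) (q1 : q ≤ 1) (r1 : r ≤ 1) (jp : p ≤ d) :
    mp d p q r + bb (d - p) - 7 / 20 * p + 7 / 10 * d ≤ 24 / 25 := by
  obtain rfl : r = 1 + d - p - q := by linarith
  have h := cert (y := yv d p q 0 0 0 0 0 0)
    (gs := [(.v 2),
      (.add (.c (3)) (.mul (.c (-5)) (.v 2))),
      (.v 3),
      (.v 5),
      (.add (.add (.c (1)) (.v 2)) (.add (.mul (.c (-1)) (.v 3)) (.mul (.c (-1)) (.v 5)))),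
      (.add (.c (1)) (.mul (.c (-1)) (.v 3))),
      (.add (.c (1)) (.mul (.c (-1)) (.v 5))),
      (.add (.mul (.c (-1)) (.v 2)) (.add (.v 3) (.v 5))),
      (.add (.v 2) (.mul (.c (-1)) (.v 3)))])
    (p := .mul (.c 100000000) (.add (.add (.add (.add (.c (88)) (.mul (.c (315)) (.v 2))) (.add (.mul (.c (-120)) (.v 3)) (.mul (.c (-450)) (.mul (.v 2) (.v 2))))) (.add (.add (.mul (.c (-300)) (.v 5)) (.mul (.c (300)) (.mul (.v 2) (.v 3)))) (.add (.mul (.c (-75)) (.mul (.mul (.v 2) (.v 2)) (.v 2))) (.mul (.c (150)) (.mul (.v 3) (.v 3)))))) (.add (.add (.add (.mul (.c (225)) (.mul (.mul (.v 2) (.v 2)) (.v 3))) (.mul (.c (300)) (.mul (.v 3) (.v 5)))) (.add (.mul (.c (-225)) (.mul (.mul (.v 2) (.v 3)) (.v 3))) (.mul (.c (300)) (.mul (.mul (.v 2) (.v 2)) (.v 5))))) (.add (.add (.mul (.c (300)) (.mul (.v 5) (.v 5))) (.mul (.c (-25)) (.mul (.mul (.v 3) (.v 3)) (.v 3)))) (.add (.mul (.c (-300))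 (.mul (.mul (.v 2) (.v 3)) (.v 5))) (.mul (.c (-300)) (.mul (.mul (.v 2) (.v 5)) (.v 5))))))))
    (e := (.add (.add (.add (.mul (.g 2) (.add (.add (.pp [(1, 17117730000)]) (.add (.mul (.g 5) (.add (.mul (.g 0) (.pp [(1, 2103570000)])) (.add (.mul (.g 2) (.pp [(1, 2271450000)])) (.mul (.g 7) (.pp [(1, 4553100000)]))))) (.mul (.g 6) (.add (.mul (.g 2) (.pp [(1, 8280480000)])) (.mul (.g 3) (.pp [(1, 5188830000)])))))) (.add (.mul (.g 0) (.mul (.g 1) (.pp [(1, 2191716000)]))) (.add (.mul (.g 4) (.mul (.g 4) (.pp [(1, 2850660000)]))) (.mul (.g 7) (.mul (.g 7) (.pp [(1, 1473570000)]))))))) (.mul (.g 1) (.add (.add (.mul (.pp [(1, 2040264)]) (.sq [(1, -31), (5, 50)])) (.mul (.pp [(1, 1162464)]) (.sq [(1, -7), (5, 25)]))) (.add (.mul (.g 0) (.add (.mul (.g 1) (.pp [(1, 213295200)])) (.mul (.g 4) (.pp [(1, 2566536000)])))) (.mul (.g 8) (.add (.mul (.g 5) (.pp [(1, 3260268000)])) (.mul (.g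 6) (.pp [(1, 2596440000)])))))))) (.add (.mul (.g 6) (.add (.mul (.pp [(1, 5326740)]) (.sq [(1, -19), (5, 50)])) (.mul (.g 8) (.add (.mul (.g 6) (.pp [(1, 16637100000)])) (.mul (.g 7) (.pp [(1, 4184820000)])))))) (.mul (.g 7) (.mul (.pp [(1, 1331655)]) (.sq [(1, -41), (5, 100)]))))) (.pp [(1, 824083540), (2, 295455), (3, 321945), (4, 288000), (5, 289485), (6, 294000), (8, 300000), (9, 306000), (10, 333000), (12, 330000), (15, 261000), (18, 270000), (20, 300000), (25, 315000), (27, 320000), (30, 300000), (45, 300000), (50, 270000), (75, 330000), (125, 300000)])))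
    (by decide +kernel) (yv_nonneg d0 p0 q0 (le_refl 0) (le_refl 0) (le_refl 0) (le_refl 0) (le_refl 0) (le_refl 0))
    (by
      simp only [List.forall_mem_cons, exadd, exmul, exc, exv2, exv3, exv5]
      push_cast
      refine ⟨?_, ?_, ?_, ?_, ?_, ?_, ?_, ?_, ?_, fun _ hh => absurd hh List.not_mem_nil⟩ <;> linarith)
  simp only [exadd, exmul, exc, exv2, exv3, exv5] at h
  push_cast at h
  simp only [mp, bb]
  linarith [h]

theorem g2_Jq {d p q r : ℝ} (d0 : 0 ≤ d) (d1 : d ≤ 3 / 5) (hs : p + q + r = 1 + d)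
    (p0 : 0 ≤ p) (q0 : 0 ≤ q) (r0 : 0 ≤ r) (p1 : p ≤ 1) (q1 : q ≤ 1) (r1 : r ≤ 1) (jq : q ≤ d) :
    mp d p q r + bb (d - q) - 7 / 20 * p + 7 / 10 * d ≤ 24 / 25 := by
  obtain rfl : r = 1 + d - p - q := by linarith
  have h := cert (y := yv d p q 0 0 0 0 0 0)
    (gs := [(.v 2),
      (.add (.c (3)) (.mul (.c (-5)) (.v 2))),
      (.v 3),
      (.v 5),
      (.add (.add (.c (1)) (.v 2)) (.add (.mul (.c (-1)) (.v 3)) (.mul (.c (-1)) (.v 5)))),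
      (.add (.c (1)) (.mul (.c (-1)) (.v 3))),
      (.add (.c (1)) (.mul (.c (-1)) (.v 5))),
      (.add (.mul (.c (-1)) (.v 2)) (.add (.v 3) (.v 5))),
      (.add (.v 2) (.mul (.c (-1)) (.v 5)))])
    (p := .mul (.c 250000) (.add (.add (.add (.add (.c (88)) (.mul (.c (315)) (.v 2))) (.add (.mul (.c (-195)) (.v 3)) (.mul (.c (-450)) (.mul (.v 2) (.v 2))))) (.add (.add (.mul (.c (-225)) (.v 5)) (.mul (.c (-75)) (.mul (.mul (.v 2) (.v 2)) (.v 2)))) (.add (.mul (.c (300)) (.mul (.v 3) (.v 3))) (.mul (.c (300)) (.mul (.v 2) (.v 5)))))) (.add (.add (.add (.mul (.c (300)) (.mul (.mul (.v 2) (.v 2)) (.v 3))) (.mul (.c (300)) (.mul (.v 3) (.v 5)))) (.add (.mul (.c (-300)) (.mul (.mul (.v 2) (.v 3)) (.v 3))) (.mul (.c (225)) (.mul (.mul (.v 2) (.v 2)) (.v 5))))) (.add (.add (.mul (.c (150)) (.mul (.v 5) (.v 5))) (.mul (.c (-300)) (.mul (.mul (.v 2) (.v 3)) (.v 5)))) (.add (.mul (.c (-225))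 (.mul (.mul (.v 2) (.v 5)) (.v 5))) (.mul (.c (-25)) (.mul (.mul (.v 5) (.v 5)) (.v 5))))))))
    (e := (.add (.add (.add (.mul (.g 0) (.add (.mul (.g 4) (.add (.mul (.g 1) (.pp [(1, 2500395)])) (.add (.mul (.g 5) (.pp [(1, 10714575)])) (.mul (.g 7) (.pp [(1, 53951850)]))))) (.add (.mul (.g 0) (.mul (.g 1) (.pp [(1, 7021710)]))) (.mul (.g 6) (.mul (.g 7) (.pp [(1, 49977000)])))))) (.add (.mul (.g 2) (.add (.mul (.g 2) (.add (.mul (.g 1) (.pp [(1, 5847585)])) (.add (.mul (.g 5) (.pp [(1, 6179475)])) (.mul (.g 6) (.pp [(1, 1135500)]))))) (.mul (.g 3) (.mul (.g 3) (.pp [(1, 37472775)]))))) (.mul (.g 5) (.add (.mul (.g 4) (.mul (.g 4) (.pp [(1, 4941375)]))) (.add (.mul (.g 5) (.mul (.g 5) (.pp [(1, 2566875)]))) (.mul (.g 8) (.mul (.g 8) (.pp [(1, 13506450)])))))))) (.add (.add (.mul (.g 7) (.mul (.g 7) (.add (.mul (.g 6) (.pp [(1, 1390800)])) (.add (.mul (.g 7) (.pp [(1, 22428975)]))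 (.mul (.g 8) (.pp [(1, 28652475)])))))) (.mul (.g 3) (.add (.mul (.g 3) (.mul (.g 3) (.pp [(1, 5822850)]))) (.mul (.g 6) (.mul (.g 6) (.pp [(1, 4282725)])))))) (.add (.mul (.g 1) (.mul (.g 1) (.mul (.g 8) (.pp [(1, 2713848)])))) (.mul (.g 4) (.mul (.g 4) (.mul (.g 4) (.pp [(1, 8742000)]))))))) (.pp [(1, 5749750), (2, 858), (3, 750), (4, 750), (5, 657), (6, 585), (8, 675), (9, 720), (10, 720), (12, 750), (15, 900), (18, 900), (20, 825), (25, 825), (27, 750), (30, 825), (45, 600), (50, 750), (75, 675), (125, 725)])))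
    (by decide +kernel) (yv_nonneg d0 p0 q0 (le_refl 0) (le_refl 0) (le_refl 0) (le_refl 0) (le_refl 0) (le_refl 0))
    (by
      simp only [List.forall_mem_cons, exadd, exmul, exc, exv2, exv3, exv5]
      push_cast
      refine ⟨?_, ?_, ?_, ?_, ?_, ?_, ?_, ?_, ?_, fun _ hh => absurd hh List.not_mem_nil⟩ <;> linarith)
  simp only [exadd, exmul, exc, exv2, exv3, exv5] at h
  push_cast at h
  simp only [mp, bb]
  linarith [h]

theorem g2_Jpq {d p q r : ℝ} (d0 : 0 ≤ d) (d1 : d ≤ 3 / 5) (hs : p + q + r = 1 + d)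
    (p0 : 0 ≤ p) (q0 : 0 ≤ q) (r0 : 0 ≤ r) (p1 : p ≤ 1) (q1 : q ≤ 1) (r1 : r ≤ 1) (jp : p ≤ d) (jq : q ≤ d) :
    mp d p q r + bb (d - p) + bb (d - q) - 7 / 20 * p + 7 / 10 * d ≤ 24 / 25 := by
  obtain rfl : r = 1 + d - p - q := by linarith
  have h := cert (y := yv d p q 0 0 0 0 0 0)
    (gs := [(.v 2),
      (.add (.c (3)) (.mul (.c (-5)) (.v 2))),
      (.v 3),
      (.v 5),
      (.add (.add (.c (1)) (.v 2)) (.add (.mul (.c (-1)) (.v 3)) (.mul (.c (-1)) (.v 5)))),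
      (.add (.c (1)) (.mul (.c (-1)) (.v 3))),
      (.add (.c (1)) (.mul (.c (-1)) (.v 5))),
      (.add (.mul (.c (-1)) (.v 2)) (.add (.v 3) (.v 5))),
      (.add (.v 2) (.mul (.c (-1)) (.v 3))),
      (.add (.v 2) (.mul (.c (-1)) (.v 5)))])
    (p := .mul (.c 250000) (.add (.add (.add (.add (.c (88)) (.mul (.c (240)) (.v 2))) (.add (.mul (.c (-120)) (.v 3)) (.mul (.c (-600)) (.mul (.v 2) (.v 2))))) (.add (.add (.mul (.c (-225)) (.v 5)) (.mul (.c (300)) (.mul (.v 2) (.v 3)))) (.add (.mul (.c (-50)) (.mul (.mul (.v 2) (.v 2)) (.v 2))) (.add (.mul (.c (150)) (.mul (.v 3) (.v 3))) (.mul (.c (300)) (.mul (.v 2) (.v 5))))))) (.add (.add (.add (.mul (.c (225)) (.mul (.mul (.v 2) (.v 2)) (.v 3))) (.mul (.c (300)) (.mul (.v 3) (.v 5)))) (.add (.mul (.c (-225)) (.mul (.mul (.v 2) (.v 3)) (.v 3))) (.mul (.c (225)) (.mul (.mul (.v 2) (.v 2)) (.v 5))))) (.add (.add (.mul (.c (150)) (.mul (.v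 5) (.v 5))) (.mul (.c (-25)) (.mul (.mul (.v 3) (.v 3)) (.v 3)))) (.add (.mul (.c (-300)) (.mul (.mul (.v 2) (.v 3)) (.v 5))) (.add (.mul (.c (-225)) (.mul (.mul (.v 2) (.v 5)) (.v 5))) (.mul (.c (-25)) (.mul (.mul (.v 5) (.v 5)) (.v 5)))))))))
    (e := (.add (.add (.add (.mul (.g 1) (.add (.add (.mul (.g 0) (.add (.mul (.g 0) (.pp [(1, 7341930)])) (.mul (.g 5) (.pp [(1, 3281565)])))) (.mul (.g 9) (.add (.mul (.g 6) (.pp [(1, 5824095)])) (.mul (.g 9) (.pp [(1, 1144875)]))))) (.add (.mul (.g 1) (.mul (.g 8) (.pp [(1, 2156418)]))) (.add (.mul (.g 3) (.mul (.g 3) (.pp [(1, 7190760)]))) (.mul (.g 4) (.mul (.g 4) (.pp [(1, 5100780)]))))))) (.mul (.g 2) (.add (.add (.mul (.g 5) (.add (.mul (.g 5) (.pp [(1, 3794850)])) (.mul (.g 7) (.pp [(1, 59321400)])))) (.mul (.g 2) (.mul (.g 2) (.pp [(1, 3478350)])))) (.add (.mul (.g 3) (.mul (.g 3) (.pp [(1, 17300925)]))) (.add (.mul (.g 6) (.mul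 (.g 6) (.pp [(1, 1449450)]))) (.mul (.g 7) (.mul (.g 7) (.pp [(1, 47324250)])))))))) (.add (.mul (.g 3) (.add (.mul (.g 9) (.add (.mul (.g 3) (.pp [(1, 34706775)])) (.mul (.g 6) (.pp [(1, 60730350)])))) (.mul (.g 4) (.mul (.g 7) (.pp [(1, 47041725)]))))) (.add (.mul (.g 7) (.add (.mul (.g 4) (.mul (.g 4) (.pp [(1, 14767425)]))) (.mul (.g 7) (.mul (.g 8) (.pp [(1, 16294125)]))))) (.mul (.g 6) (.mul (.g 9) (.pp [(1, 22941150)])))))) (.pp [(1, 6697660), (2, 753), (3, 717), (4, 735), (5, 690), (6, 735), (8, 775), (9, 810), (10, 765), (12, 675), (15, 795), (18, 900), (20, 675), (25, 795), (27, 650), (30, 900), (45, 600), (50, 825), (75, 675), (125, 725)])))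
    (by decide +kernel) (yv_nonneg d0 p0 q0 (le_refl 0) (le_refl 0) (le_refl 0) (le_refl 0) (le_refl 0) (le_refl 0))
    (by
      simp only [List.forall_mem_cons, exadd, exmul, exc, exv2, exv3, exv5]
      push_cast
      refine ⟨?_, ?_, ?_, ?_, ?_, ?_, ?_, ?_, ?_, ?_, fun _ hh => absurd hh List.not_mem_nil⟩ <;> linarith)
  simp only [exadd, exmul, exc, exv2, exv3, exv5] at h
  push_cast at h
  simp only [mp, bb]
  linarith [h]

theorem g2_Jqr {d p q r : ℝ} (d0 : 0 ≤ d) (d1 : d ≤ 3 / 5) (hs : p + q + r = 1 + d)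
    (p0 : 0 ≤ p) (q0 : 0 ≤ q) (r0 : 0 ≤ r) (p1 : p ≤ 1) (q1 : q ≤ 1) (r1 : r ≤ 1) (jq : q ≤ d) (jr : r ≤ d) :
    mp d p q r + bb (d - q) + bb (d - r) - 7 / 20 * p + 7 / 10 * d ≤ 24 / 25 := by
  obtain rfl : r = 1 + d - p - q := by linarith
  have h := cert (y := yv d p q 0 0 0 0 0 0)
    (gs := [(.v 2),
      (.add (.c (3)) (.mul (.c (-5)) (.v 2))),
      (.v 3),
      (.v 5),
      (.add (.add (.c (1)) (.v 2)) (.add (.mul (.c (-1)) (.v 3)) (.mul (.c (-1)) (.v 5)))),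
      (.add (.c (1)) (.mul (.c (-1)) (.v 3))),
      (.add (.c (1)) (.mul (.c (-1)) (.v 5))),
      (.add (.mul (.c (-1)) (.v 2)) (.add (.v 3) (.v 5))),
      (.add (.v 2) (.mul (.c (-1)) (.v 5))),
      (.add (.c (-1)) (.add (.v 3) (.v 5)))])
    (p := .mul (.c 1250000) (.add (.add (.add (.add (.c (-12)) (.mul (.c (315)) (.v 2))) (.add (.mul (.c (105)) (.v 3)) (.mul (.c (-450)) (.mul (.v 2) (.v 2))))) (.add (.add (.mul (.c (75)) (.v 5)) (.mul (.c (-75)) (.mul (.mul (.v 2) (.v 2)) (.v 2)))) (.add (.mul (.c (75)) (.mul (.v 3) (.v 3))) (.add (.mul (.c (300)) (.mul (.v 2) (.v 5))) (.mul (.c (300)) (.mul (.mul (.v 2) (.v 2)) (.v 3))))))) (.add (.add (.add (.mul (.c (-150)) (.mul (.v 3) (.v 5))) (.mul (.c (-300)) (.mul (.mul (.v 2) (.v 3)) (.v 3)))) (.add (.mul (.c (225)) (.mul (.mul (.v 2) (.v 2)) (.v 5))) (.mul (.c (-75)) (.mul (.v 5) (.v 5))))) (.add (.add (.mul (.c (25)) (.mul (.mul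 (.v 3) (.v 3)) (.v 3))) (.mul (.c (-300)) (.mul (.mul (.v 2) (.v 3)) (.v 5)))) (.add (.mul (.c (75)) (.mul (.mul (.v 3) (.v 3)) (.v 5))) (.add (.mul (.c (-225)) (.mul (.mul (.v 2) (.v 5)) (.v 5))) (.mul (.c (75)) (.mul (.mul (.v 3) (.v 5)) (.v 5)))))))))
    (e := (.add (.add (.add (.mul (.g 1) (.add (.add (.mul (.g 1) (.add (.mul (.g 1) (.pp [(1, 2916666)])) (.add (.mul (.g 8) (.pp [(1, 1719645)])) (.mul (.g 9) (.pp [(1, 11450835)]))))) (.mul (.g 8) (.add (.mul (.g 6) (.pp [(1, 64203525)])) (.mul (.g 7) (.pp [(1, 68133750)]))))) (.add (.mul (.g 9) (.add (.pp [(1, 70814550)]) (.mul (.g 2) (.pp [(1, 32325450)])))) (.add (.mul (.g 4) (.mul (.g 4) (.pp [(1, 24639975)]))) (.mul (.g 5) (.mul (.g 5) (.pp [(1, 6605025)]))))))) (.mul (.g 8) (.add (.add (.mul (.g 9) (.add (.pp [(1, 58910250)]) (.add (.mul (.g 8) (.pp [(1, 112269000)])) (.mul (.g 9) (.pp [(1, 90558375)]))))) (.mul (.g 2) (.mul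 (.g 5) (.pp [(1, 24937125)])))) (.add (.mul (.g 3) (.mul (.g 3) (.pp [(1, 66618750)]))) (.mul (.g 8) (.mul (.g 8) (.pp [(1, 10369125)]))))))) (.add (.mul (.g 9) (.add (.mul (.g 4) (.add (.mul (.g 2) (.pp [(1, 18678750)])) (.mul (.g 4) (.pp [(1, 70725750)])))) (.mul (.g 6) (.mul (.g 9) (.pp [(1, 15452625)]))))) (.mul (.g 5) (.mul (.g 5) (.mul (.g 5) (.pp [(1, 20800875)])))))) (.pp [(1, 162488433), (2, 3255), (3, 4560), (4, 3825), (5, 4815), (6, 4275), (8, 4125), (9, 3150), (10, 4500), (12, 3375), (15, 2175), (18, 3750), (20, 3000), (25, 2625), (27, 3875), (30, 3750), (45, 4125), (50, 3750), (75, 4500), (125, 4125)])))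
    (by decide +kernel) (yv_nonneg d0 p0 q0 (le_refl 0) (le_refl 0) (le_refl 0) (le_refl 0) (le_refl 0) (le_refl 0))
    (by
      simp only [List.forall_mem_cons, exadd, exmul, exc, exv2, exv3, exv5]
      push_cast
      refine ⟨?_, ?_, ?_, ?_, ?_, ?_, ?_, ?_, ?_, ?_, fun _ hh => absurd hh List.not_mem_nil⟩ <;> linarith)
  simp only [exadd, exmul, exc, exv2, exv3, exv5] at h
  push_cast at h
  simp only [mp, bb]
  linarith [h]

theorem g2_Jpqr {d p q r : ℝ} (d0 : 0 ≤ d) (d1 : d ≤ 3 / 5) (hs : p + q + r = 1 + d)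
    (p0 : 0 ≤ p) (q0 : 0 ≤ q) (r0 : 0 ≤ r) (p1 : p ≤ 1) (q1 : q ≤ 1) (r1 : r ≤ 1) (jp : p ≤ d) (jq : q ≤ d) (jr : r ≤ d) :
    mp d p q r + bb (d - p) + bb (d - q) + bb (d - r) - 7 / 20 * p + 7 / 10 * d ≤ 24 / 25 := by
  obtain rfl : r = 1 + d - p - q := by linarith
  have h := cert (y := yv d p q 0 0 0 0 0 0)
    (gs := [(.v 2),
      (.add (.c (3)) (.mul (.c (-5)) (.v 2))),
      (.v 3),
      (.v 5),
      (.add (.add (.c (1)) (.v 2)) (.add (.mul (.c (-1)) (.v 3)) (.mul (.c (-1)) (.v 5)))),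
      (.add (.c (1)) (.mul (.c (-1)) (.v 3))),
      (.add (.c (1)) (.mul (.c (-1)) (.v 5))),
      (.add (.mul (.c (-1)) (.v 2)) (.add (.v 3) (.v 5))),
      (.add (.v 2) (.mul (.c (-1)) (.v 3))),
      (.add (.v 2) (.mul (.c (-1)) (.v 5))),
      (.add (.c (-1)) (.add (.v 3) (.v 5)))])
    (p := .mul (.c 50000) (.add (.add (.add (.add (.c (-12)) (.mul (.c (240)) (.v 2))) (.add (.mul (.c (180)) (.v 3)) (.mul (.c (-600)) (.mul (.v 2) (.v 2))))) (.add (.add (.mul (.c (75)) (.v 5)) (.mul (.c (300)) (.mul (.v 2) (.v 3)))) (.add (.mul (.c (-50)) (.mul (.mul (.v 2) (.v 2)) (.v 2))) (.add (.mul (.c (-75)) (.mul (.v 3) (.v 3))) (.mul (.c (300)) (.mul (.v 2) (.v 5))))))) (.add (.add (.add (.mul (.c (225)) (.mul (.mul (.v 2) (.v 2)) (.v 3))) (.mul (.c (-150)) (.mul (.v 3) (.v 5)))) (.add (.mul (.c (-225)) (.mul (.mul (.v 2) (.v 3)) (.v 3))) (.mul (.c (225)) (.mul (.mul (.v 2) (.v 2)) (.v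 5))))) (.add (.add (.mul (.c (-75)) (.mul (.v 5) (.v 5))) (.mul (.c (-300)) (.mul (.mul (.v 2) (.v 3)) (.v 5)))) (.add (.mul (.c (75)) (.mul (.mul (.v 3) (.v 3)) (.v 5))) (.add (.mul (.c (-225)) (.mul (.mul (.v 2) (.v 5)) (.v 5))) (.mul (.c (75)) (.mul (.mul (.v 3) (.v 5)) (.v 5)))))))))
    (e := (.add (.add (.mul (.g 10) (.add (.add (.pp [(1, 2451135)]) (.add (.mul (.g 4) (.add (.mul (.g 0) (.pp [(1, 3179145)])) (.mul (.g 10) (.pp [(1, 1466250)])))) (.mul (.g 1) (.pp [(1, 1937646)])))) (.add (.add (.mul (.g 2) (.mul (.g 10) (.pp [(1, 1427385)]))) (.mul (.g 5) (.pp [(1, 4331010)]))) (.add (.mul (.g 6) (.mul (.g 8) (.pp [(1, 8734245)]))) (.mul (.g 7) (.mul (.g 7) (.pp [(1, 38715)]))))))) (.add (.mul (.g 1) (.add (.add (.pp [(1, 1629855)]) (.mul (.g 0) (.add (.mul (.g 0) (.pp [(1, 1637178)])) (.mul (.g 6) (.pp [(1, 924144)]))))) (.add (.mul (.g 5) (.add (.mul (.g 8) (.pp [(1, 2603274)]))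 (.mul (.g 9) (.pp [(1, 851583)])))) (.mul (.g 6) (.mul (.g 8) (.pp [(1, 1959762)])))))) (.mul (.g 9) (.add (.add (.pp [(1, 1891740)]) (.mul (.g 8) (.add (.mul (.g 8) (.pp [(1, 3556560)])) (.mul (.g 9) (.pp [(1, 3556560)]))))) (.add (.mul (.g 3) (.pp [(1, 8110185)])) (.mul (.g 7) (.mul (.g 9) (.pp [(1, 1427385)])))))))) (.pp [(1, 5639268), (2, 156), (3, 135), (4, 141), (5, 156), (6, 156), (8, 155), (9, 168), (10, 138), (12, 150), (15, 165), (18, 135), (20, 135), (25, 150), (27, 150), (30, 150), (45, 150), (50, 165), (75, 150), (125, 150)])))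
    (by decide +kernel) (yv_nonneg d0 p0 q0 (le_refl 0) (le_refl 0) (le_refl 0) (le_refl 0) (le_refl 0) (le_refl 0))
    (by
      simp only [List.forall_mem_cons, exadd, exmul, exc, exv2, exv3, exv5]
      push_cast
      refine ⟨?_, ?_, ?_, ?_, ?_, ?_, ?_, ?_, ?_, ?_, ?_, fun _ hh => absurd hh List.not_mem_nil⟩ <;> linarith)
  simp only [exadd, exmul, exc, exv2, exv3, exv5] at h
  push_cast at h
  simp only [mp, bb]
  linarith [h]

theorem g2_Np {d p q r a : ℝ} (d0 : 0 ≤ d) (d1 : d ≤ 3 / 5) (hs : p + q + r = 1 + d)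
    (p0 : p ≤ 0) (q0 : 0 ≤ q) (r0 : 0 ≤ r) (q1 : q ≤ 1) (r1 : r ≤ 1) (a0 : 0 ≤ a)
    (a1 : a ≤ 13 / 20) (ao : a ≤ d - p) :
    mp d p q r + (-p) ^ 3 / 3 + bb a - 7 / 20 * p + 7 / 10 * d ≤ 24 / 25 := by
  obtain ⟨n, rfl⟩ : ∃ n, p = -n := ⟨-p, by ring⟩
  have n0 : 0 ≤ n := by linarith
  obtain rfl : r = 1 + d + n - q := by linarith
  have h := cert (y := yv d n q a 0 0 0 0 0)
    (gs := [(.v 2),
      (.add (.c (3)) (.mul (.c (-5)) (.v 2))),
      (.v 3),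
      (.v 5),
      (.add (.add (.c (1)) (.v 2)) (.add (.v 3) (.mul (.c (-1)) (.v 5)))),
      (.add (.c (1)) (.mul (.c (-1)) (.v 5))),
      (.add (.mul (.c (-1)) (.v 2)) (.add (.mul (.c (-1)) (.v 3)) (.v 5))),
      (.v 7),
      (.add (.c (13)) (.mul (.c (-20)) (.v 7))),
      (.add (.v 2) (.add (.v 3) (.mul (.c (-1)) (.v 7))))])
    (p := .mul (.c 2000000000) (.add (.add (.add (.add (.c (88)) (.mul (.c (390)) (.v 2))) (.add (.mul (.c (195)) (.v 3)) (.mul (.c (-300)) (.mul (.v 2) (.v 2))))) (.add (.add (.mul (.c (-300)) (.v 5)) (.mul (.c (-75)) (.v 7))) (.add (.mul (.c (-100)) (.mul (.mul (.v 2) (.v 2)) (.v 2))) (.add (.mul (.c (300)) (.mul (.v 3) (.v 3))) (.mul (.c (-300)) (.mul (.mul (.v 2) (.v 2)) (.v 3))))))) (.add (.add (.add (.mul (.c (-300)) (.mul (.v 3) (.v 5))) (.mul (.c (-300)) (.mul (.mul (.v 2) (.v 3)) (.v 3)))) (.add (.mul (.c (300)) (.mul (.mul (.v 2) (.v 2)) (.v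 5))) (.mul (.c (300)) (.mul (.v 5) (.v 5))))) (.add (.add (.mul (.c (-100)) (.mul (.mul (.v 3) (.v 3)) (.v 3))) (.mul (.c (300)) (.mul (.mul (.v 2) (.v 3)) (.v 5)))) (.add (.mul (.c (-150)) (.mul (.v 7) (.v 7))) (.add (.mul (.c (-300)) (.mul (.mul (.v 2) (.v 5)) (.v 5))) (.mul (.c (25)) (.mul (.mul (.v 7) (.v 7)) (.v 7)))))))))
    (e := (.add (.add (.add (.mul (.g 9) (.add (.add (.mul (.g 1) (.add (.add (.mul (.g 0) (.pp [(1, 5447280000)])) (.mul (.g 5) (.pp [(1, 23854560000)]))) (.add (.mul (.g 6) (.pp [(1, 18657720000)])) (.add (.mul (.g 7) (.pp [(1, 194210280000)])) (.mul (.g 9) (.pp [(1, 14565360000)])))))) (.mul (.g 4) (.add (.mul (.g 5) (.pp [(1, 219413400000)])) (.add (.mul (.g 8) (.pp [(1, 5053110000)])) (.mul (.g 9) (.pp [(1, 48196200000)])))))) (.add (.mul (.g 2) (.add (.mul (.g 5) (.pp [(1, 16977600000)])) (.mul (.g 8) (.pp [(1, 12330240000)])))) (.add (.mul (.g 3) (.add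 (.mul (.g 5) (.pp [(1, 64578000000)])) (.mul (.g 8) (.pp [(1, 900300000)])))) (.mul (.g 9) (.add (.mul (.g 6) (.pp [(1, 173389800000)])) (.mul (.g 7) (.pp [(1, 89923200000)])))))))) (.add (.mul (.g 0) (.add (.mul (.g 5) (.add (.add (.mul (.g 1) (.pp [(1, 8709960000)])) (.mul (.g 4) (.pp [(1, 35033400000)]))) (.add (.mul (.g 6) (.pp [(1, 258354000000)])) (.mul (.g 8) (.pp [(1, 30697050000)]))))) (.add (.mul (.g 1) (.add (.mul (.g 6) (.pp [(1, 7837680000)])) (.mul (.g 7) (.pp [(1, 1040760000)])))) (.mul (.g 8) (.add (.mul (.g 6) (.pp [(1, 34375620000)])) (.mul (.g 7) (.pp [(1, 34784820000)]))))))) (.mul (.g 8) (.add (.add (.mul (.pp [(1, 342252)]) (.sq [(1, -39), (3, 50), (5, 19), (7, 50)])) (.mul (.pp [(1, 5256)]) (.sq [(1, -25), (3, -69), (5, 100), (7, -69)]))) (.add (.mul (.pp [(1, 31275)]) (.sq [(1, -63), (3, 84), (5, 100), (7, 84)])) (.add (.mul (.pp [(1, 576147)]) (.sq [(1, -67),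 (3, 1), (5, 100), (7, 1)])) (.mul (.g 7) (.mul (.g 7) (.pp [(1, 894570000)]))))))))) (.add (.mul (.g 5) (.add (.mul (.pp [(1, 56511120)]) (.sq [(1, -23), (3, -17), (5, 50), (7, -17)])) (.mul (.g 5) (.add (.mul (.g 5) (.pp [(1, 56928000000)])) (.mul (.g 7) (.pp [(1, 201122400000)])))))) (.add (.mul (.g 6) (.add (.mul (.pp [(1, 31698420)]) (.sq [(1, -51), (2, -25), (3, 3), (5, 100), (7, -19)])) (.mul (.g 6) (.mul (.g 6) (.pp [(1, 87414600000)]))))) (.mul (.g 4) (.mul (.pp [(1, 20619900)]) (.sq [(1, -47), (3, -25), (5, 100), (7, -25)])))))) (.pp [(1, 1582297970), (2, 5791320), (3, 5543154), (4, 5481000), (5, 5906592), (6, 5529480), (7, 6024834), (8, 5912500), (9, 5914581), (10, 6285000), (12, 5749500), (14, 6462960), (15, 6467160), (18, 5885280), (20, 6187500), (21, 6857202), (25, 6119364), (27, 6048280), (28, 6699000), (30, 6015000), (35, 6491400), (42, 7404120), (45, 6017400), (49,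 5658141), (50, 6300000), (63, 6232380), (70, 5205000), (75, 6144000), (98, 5292120), (105, 5334240), (125, 6000000), (147, 4946640), (175, 5251440), (245, 6529560), (343, 6327260)])))
    (by decide +kernel) (yv_nonneg d0 n0 q0 a0 (le_refl 0) (le_refl 0) (le_refl 0) (le_refl 0) (le_refl 0))
    (by
      simp only [List.forall_mem_cons, exadd, exmul, exc, exv2, exv3, exv5, exv7]
      push_cast
      refine ⟨?_, ?_, ?_, ?_, ?_, ?_, ?_, ?_, ?_, ?_, fun _ hh => absurd hh List.not_mem_nil⟩ <;> linarith)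
  simp only [exadd, exmul, exc, exv2, exv3, exv5, exv7] at h
  push_cast at h
  simp only [mp, bb, neg_neg]
  linarith [h]

theorem g2_Nq {d p q r a : ℝ} (d0 : 0 ≤ d) (d1 : d ≤ 3 / 5) (hs : p + q + r = 1 + d)
    (q0 : q ≤ 0) (p0 : 0 ≤ p) (r0 : 0 ≤ r) (p1 : p ≤ 1) (r1 : r ≤ 1) (a0 : 0 ≤ a)
    (a1 : a ≤ 13 / 20) (ao : a ≤ d - q) :
    mp d q p r + (-q) ^ 3 / 3 + bb a - 7 / 20 * p + 7 / 10 * d ≤ 24 / 25 := by
  obtain ⟨n, rfl⟩ : ∃ n, q = -n := ⟨-q, by ring⟩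
  have n0 : 0 ≤ n := by linarith
  obtain rfl : r = 1 + d + n - p := by linarith
  have h := cert (y := yv d n p a 0 0 0 0 0)
    (gs := [(.v 2),
      (.add (.c (3)) (.mul (.c (-5)) (.v 2))),
      (.v 3),
      (.v 5),
      (.add (.add (.c (1)) (.v 2)) (.add (.v 3) (.mul (.c (-1)) (.v 5)))),
      (.add (.c (1)) (.mul (.c (-1)) (.v 5))),
      (.add (.mul (.c (-1)) (.v 2)) (.add (.mul (.c (-1)) (.v 3)) (.v 5))),
      (.v 7),
      (.add (.c (13)) (.mul (.c (-20)) (.v 7))),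
      (.add (.v 2) (.add (.v 3) (.mul (.c (-1)) (.v 7))))])
    (p := .mul (.c 1000000) (.add (.add (.add (.add (.c (88)) (.mul (.c (390)) (.v 2))) (.add (.mul (.c (300)) (.v 3)) (.mul (.c (-300)) (.mul (.v 2) (.v 2))))) (.add (.add (.mul (.c (-195)) (.v 5)) (.mul (.c (-75)) (.v 7))) (.add (.mul (.c (-100)) (.mul (.mul (.v 2) (.v 2)) (.v 2))) (.add (.mul (.c (300)) (.mul (.v 3) (.v 3))) (.mul (.c (-300)) (.mul (.mul (.v 2) (.v 2)) (.v 3))))))) (.add (.add (.add (.mul (.c (-300)) (.mul (.v 3) (.v 5))) (.mul (.c (-300)) (.mul (.mul (.v 2) (.v 3)) (.v 3)))) (.add (.mul (.c (300)) (.mul (.mul (.v 2) (.v 2)) (.v 5))) (.mul (.c (300)) (.mul (.v 5) (.v 5))))) (.add (.add (.mul (.c (-100)) (.mul (.mul (.v 3) (.v 3)) (.v 3))) (.mul (.c (300)) (.mul (.mul (.v 2) (.v 3)) (.v 5)))) (.add (.mul (.c (-150)) (.mul (.v 7) (.v 7))) (.add (.mul (.c (-300)) (.mul (.mul (.v 2) (.v 5)) (.v 5))) (.mul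 (.c (25)) (.mul (.mul (.v 7) (.v 7)) (.v 7)))))))))
    (e := (.add (.add (.add (.mul (.g 0) (.add (.add (.mul (.g 1) (.add (.add (.mul (.g 1) (.pp [(1, 1800444)])) (.mul (.g 3) (.pp [(1, 15767220)]))) (.add (.mul (.g 4) (.pp [(1, 16749720)])) (.mul (.g 8) (.pp [(1, 771900)]))))) (.mul (.g 6) (.add (.mul (.g 4) (.pp [(1, 138528900)])) (.mul (.g 8) (.pp [(1, 2315880)]))))) (.add (.mul (.g 2) (.mul (.g 2) (.pp [(1, 54532800)]))) (.add (.mul (.g 3) (.mul (.g 5) (.pp [(1, 121197900)]))) (.mul (.g 9) (.mul (.g 9) (.pp [(1, 34970100)]))))))) (.add (.mul (.g 7) (.add (.add (.mul (.g 3) (.add (.mul (.g 3) (.pp [(1, 26160000)])) (.mul (.g 4) (.pp [(1, 24538500)])))) (.mul (.g 7) (.add (.mul (.g 2) (.pp [(1, 23157300)])) (.mul (.g 4) (.pp [(1, 12275400)]))))) (.add (.mul (.g 8) (.add (.pp [(1, 8024685)]) (.mul (.g 8) (.pp [(1, 3432)])))) (.add (.mul (.g 1) (.mul (.g 5) (.pp [(1, 9263520)])))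 (.mul (.g 9) (.mul (.g 9) (.pp [(1, 23624100)]))))))) (.mul (.g 2) (.add (.add (.mul (.g 2) (.add (.mul (.g 2) (.pp [(1, 99543900)])) (.add (.mul (.g 5) (.pp [(1, 187932300)])) (.mul (.g 6) (.pp [(1, 183017100)]))))) (.mul (.g 3) (.mul (.g 3) (.pp [(1, 33716100)])))) (.add (.mul (.g 4) (.mul (.g 4) (.pp [(1, 6557100)]))) (.mul (.g 9) (.mul (.g 9) (.pp [(1, 11812800)])))))))) (.add (.mul (.g 5) (.add (.add (.mul (.g 5) (.add (.mul (.g 5) (.pp [(1, 22128300)])) (.mul (.g 9) (.pp [(1, 1623000)])))) (.mul (.g 3) (.mul (.g 3) (.pp [(1, 48919500)])))) (.add (.mul (.g 4) (.mul (.g 4) (.pp [(1, 42872700)]))) (.mul (.g 6) (.mul (.g 6) (.pp [(1, 56074500)])))))) (.add (.mul (.g 9) (.add (.add (.pp [(1, 178280400)]) (.mul (.g 1) (.mul (.g 1) (.pp [(1, 3087720)])))) (.add (.mul (.g 3) (.mul (.g 9) (.pp [(1, 12272400)]))) (.mul (.g 4) (.mul (.g 4) (.pp [(1, 1500)])))))) (.mul (.g 6) (.add (.mul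 (.g 3) (.mul (.g 3) (.pp [(1, 135090300)]))) (.mul (.g 6) (.mul (.g 6) (.pp [(1, 34901700)])))))))) (.pp [(1, 22999000), (2, 2964), (3, 3120), (4, 3000), (5, 3000), (6, 3180), (7, 2907), (8, 3500), (9, 3300), (10, 3060), (12, 3900), (14, 3000), (15, 3000), (18, 3900), (20, 2400), (21, 3000), (25, 3000), (27, 3500), (28, 3000), (30, 1800), (35, 3060), (42, 3000), (45, 2100), (49, 2940), (50, 3300), (63, 3000), (70, 3300), (75, 3300), (98, 2700), (105, 3300), (125, 3000), (147, 2700), (175, 3000), (245, 3000), (343, 3100)])))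
    (by decide +kernel) (yv_nonneg d0 n0 p0 a0 (le_refl 0) (le_refl 0) (le_refl 0) (le_refl 0) (le_refl 0))
    (by
      simp only [List.forall_mem_cons, exadd, exmul, exc, exv2, exv3, exv5, exv7]
      push_cast
      refine ⟨?_, ?_, ?_, ?_, ?_, ?_, ?_, ?_, ?_, ?_, fun _ hh => absurd hh List.not_mem_nil⟩ <;> linarith)
  simp only [exadd, exmul, exc, exv2, exv3, exv5, exv7] at h
  push_cast at h
  simp only [mp, bb, neg_neg]
  linarith [h]

theorem g2 {V d p q r : ℝ} (h : GR V d p q r) : V - 7 / 20 * p + 7 / 10 * d ≤ 24 / 25 := by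
  rcases h.cs with h1 | h1 | h1 | h1
  · obtain ⟨p0, q0, r0, A, B, E, hA, hB, hE, hv⟩ := h1
    have e1 : mp d p r q = mp d p q r := by unfold mp; ring
    have e2 : mp d q p r = mp d p q r := by unfold mp; ring
    have e3 : mp d q r p = mp d p q r := by unfold mp; ring
    have e4 : mp d r p q = mp d p q r := by unfold mp; ring
    have e5 : mp d r q p = mp d p q r := by unfold mp; ring
    rcases hA with hA | ⟨jp, hA⟩ <;> rcases hB with hB | ⟨jq, hB⟩ <;> rcases hE with hE | ⟨jr, hE⟩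
    · have := g2_J (p := p) (q := q) (r := r) h.d0 h.d1 (by linarith [h.s]) p0 q0 r0 h.p1 h.q1 h.r1
      linarith
    · have := g2_Jq (p := p) (q := r) (r := q) h.d0 h.d1 (by linarith [h.s]) p0 r0 q0 h.p1 h.r1 h.q1 jr
      linarith
    · have := g2_Jq (p := p) (q := q) (r := r) h.d0 h.d1 (by linarith [h.s]) p0 q0 r0 h.p1 h.q1 h.r1 jq
      linarith
    · have := g2_Jqr (p := p) (q := q) (r := r) h.d0 h.d1 (by linarith [h.s]) p0 q0 r0 h.p1 h.q1 h.r1 jq jr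
      linarith
    · have := g2_Jp (p := p) (q := q) (r := r) h.d0 h.d1 (by linarith [h.s]) p0 q0 r0 h.p1 h.q1 h.r1 jp
      linarith
    · have := g2_Jpq (p := p) (q := r) (r := q) h.d0 h.d1 (by linarith [h.s]) p0 r0 q0 h.p1 h.r1 h.q1 jp jr
      linarith
    · have := g2_Jpq (p := p) (q := q) (r := r) h.d0 h.d1 (by linarith [h.s]) p0 q0 r0 h.p1 h.q1 h.r1 jp jq
      linarith
    · have := g2_Jpqr (p := p) (q := q) (r := r) h.d0 h.d1 (by linarith [h.s]) p0 q0 r0 h.p1 h.q1 h.r1 jp jq jr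
      linarith
  · obtain ⟨p0, q0, r0, a, a0, a1, ao, hv⟩ := h1
    have := g2_Np h.d0 h.d1 h.s p0 q0 r0 h.q1 h.r1 a0 a1 ao
    linarith
  · obtain ⟨q0, p0, r0, a, a0, a1, ao, hv⟩ := h1
    have := g2_Nq h.d0 h.d1 h.s q0 p0 r0 h.p1 h.r1 a0 a1 ao
    linarith
  · obtain ⟨r0, p0, q0, a, a0, a1, ao, hv⟩ := h1
    have := g2_Nq (p := p) (q := r) (r := q) h.d0 h.d1 (by linarith [h.s]) r0 p0 q0 h.p1 h.q1 a0 a1 ao
    linarith

theorem g3_J {d p q r : ℝ} (d0 : 0 ≤ d) (d1 : d ≤ 3 / 5) (hs : p + q + r = 1 + d)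
    (p0 : 0 ≤ p) (q0 : 0 ≤ q) (r0 : 0 ≤ r) (p1 : p ≤ 1) (q1 : q ≤ 1) (r1 : r ≤ 1) :
    mp d p q r - 1 / 2 * p - 7 / 20 * q + 17 / 20 * d ≤ 81 / 100 := by
  obtain rfl : r = 1 + d - p - q := by linarith
  have h := cert (y := yv d p q 0 0 0 0 0 0)
    (gs := [(.v 2),
      (.add (.c (3)) (.mul (.c (-5)) (.v 2))),
      (.v 3),
      (.v 5),
      (.add (.add (.c (1)) (.v 2)) (.add (.mul (.c (-1)) (.v 3)) (.mul (.c (-1)) (.v 5)))),
      (.add (.c (1)) (.mul (.c (-1)) (.v 3))),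
      (.add (.c (1)) (.mul (.c (-1)) (.v 5))),
      (.add (.mul (.c (-1)) (.v 2)) (.add (.v 3) (.v 5)))])
    (p := .mul (.c 500000000) (.add (.add (.add (.c (43)) (.add (.mul (.c (345)) (.v 2)) (.mul (.c (-150)) (.v 3)))) (.add (.add (.mul (.c (-300)) (.mul (.v 2) (.v 2))) (.mul (.c (-195)) (.v 5))) (.add (.mul (.c (-100)) (.mul (.mul (.v 2) (.v 2)) (.v 2))) (.mul (.c (300)) (.mul (.v 3) (.v 3)))))) (.add (.add (.mul (.c (300)) (.mul (.mul (.v 2) (.v 2)) (.v 3))) (.add (.mul (.c (300)) (.mul (.v 3) (.v 5))) (.mul (.c (-300)) (.mul (.mul (.v 2) (.v 3)) (.v 3))))) (.add (.add (.mul (.c (300)) (.mul (.mul (.v 2) (.v 2)) (.v 5))) (.mul (.c (300)) (.mul (.v 5) (.v 5)))) (.add (.mul (.c (-300)) (.mul (.mul (.v 2) (.v 3)) (.v 5))) (.mul (.c (-300)) (.mul (.mul (.v 2) (.v 5)) (.v 5))))))))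
    (e := (.add (.add (.add (.mul (.g 0) (.add (.mul (.g 6) (.add (.add (.mul (.g 0) (.pp [(1, 46180350000)])) (.mul (.g 5) (.pp [(1, 6623100000)]))) (.add (.mul (.g 6) (.pp [(1, 48174300000)])) (.mul (.g 7) (.pp [(1, 82135050000)]))))) (.add (.mul (.g 1) (.add (.mul (.g 1) (.pp [(1, 786642000)])) (.add (.mul (.g 4) (.pp [(1, 5058270000)])) (.mul (.g 5) (.pp [(1, 18194550000)]))))) (.mul (.g 4) (.add (.mul (.g 5) (.pp [(1, 55018050000)])) (.mul (.g 7) (.pp [(1, 44376150000)]))))))) (.add (.mul (.g 1) (.add (.add (.mul (.pp [(1, 6237408)]) (.sq [(1, -16), (3, 25), (5, 25)])) (.mul (.pp [(1, 354687)]) (.sq [(1, -27), (3, 70), (5, 100)]))) (.add (.mul (.pp [(1, 6775860000)]) (.sq [(3, 1), (5, -1)])) (.mul (.g 2) (.mul (.g 2) (.pp [(1, 15211830000)])))))) (.mul (.g 2) (.mul (.g 2) (.add (.mul (.g 4) (.pp [(1, 15082350000)])) (.mul (.g 6) (.pp [(1, 2648100000)]))))))) (.add (.add (.mul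 (.g 4) (.mul (.pp [(1, 7264020)]) (.sq [(1, -37), (3, 70), (5, 100)]))) (.mul (.g 5) (.mul (.pp [(1, 459687000)]) (.sq [(1, -3), (3, 7), (5, 10)])))) (.add (.mul (.g 6) (.mul (.pp [(1, 56040)]) (.sq [(1, -26), (3, -63), (5, 100)]))) (.mul (.g 7) (.mul (.pp [(1, 182997750)]) (.sq [(1, -9), (3, 20), (5, 20)])))))) (.pp [(1, 1814460767), (2, 1402725), (3, 1628970), (4, 1350000), (5, 1593270), (6, 1677300), (8, 1450000), (9, 1369740), (10, 1737000), (12, 1650000), (15, 1045440), (18, 1333500), (20, 1650000), (25, 1404000), (27, 1611000), (30, 1410000), (45, 1730760), (50, 1350000), (75, 1776000), (125, 1500000)])))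
    (by decide +kernel) (yv_nonneg d0 p0 q0 (le_refl 0) (le_refl 0) (le_refl 0) (le_refl 0) (le_refl 0) (le_refl 0))
    (by
      simp only [List.forall_mem_cons, exadd, exmul, exc, exv2, exv3, exv5]
      push_cast
      refine ⟨?_, ?_, ?_, ?_, ?_, ?_, ?_, ?_, fun _ hh => absurd hh List.not_mem_nil⟩ <;> linarith)
  simp only [exadd, exmul, exc, exv2, exv3, exv5] at h
  push_cast at h
  simp only [mp, bb]
  linarith [h]

theorem g3_Jp {d p q r : ℝ} (d0 : 0 ≤ d) (d1 : d ≤ 3 / 5) (hs : p + q + r = 1 + d)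
    (p0 : 0 ≤ p) (q0 : 0 ≤ q) (r0 : 0 ≤ r) (p1 : p ≤ 1) (q1 : q ≤ 1) (r1 : r ≤ 1) (jp : p ≤ d) :
    mp d p q r + bb (d - p) - 1 / 2 * p - 7 / 20 * q + 17 / 20 * d ≤ 81 / 100 := by
  obtain rfl : r = 1 + d - p - q := by linarith
  have h := cert (y := yv d p q 0 0 0 0 0 0)
    (gs := [(.v 2),
      (.add (.c (3)) (.mul (.c (-5)) (.v 2))),
      (.v 3),
      (.v 5),
      (.add (.add (.c (1)) (.v 2)) (.add (.mul (.c (-1)) (.v 3)) (.mul (.c (-1)) (.v 5)))),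
      (.add (.c (1)) (.mul (.c (-1)) (.v 3))),
      (.add (.c (1)) (.mul (.c (-1)) (.v 5))),
      (.add (.mul (.c (-1)) (.v 2)) (.add (.v 3) (.v 5))),
      (.add (.v 2) (.mul (.c (-1)) (.v 3)))])
    (p := .mul (.c 2500000) (.add (.add (.add (.add (.c (43)) (.mul (.c (270)) (.v 2))) (.add (.mul (.c (-75)) (.v 3)) (.mul (.c (-450)) (.mul (.v 2) (.v 2))))) (.add (.add (.mul (.c (-195)) (.v 5)) (.mul (.c (300)) (.mul (.v 2) (.v 3)))) (.add (.mul (.c (-75)) (.mul (.mul (.v 2) (.v 2)) (.v 2))) (.mul (.c (150)) (.mul (.v 3) (.v 3)))))) (.add (.add (.add (.mul (.c (225)) (.mul (.mul (.v 2) (.v 2)) (.v 3))) (.mul (.c (300)) (.mul (.v 3) (.v 5)))) (.add (.mul (.c (-225)) (.mul (.mul (.v 2) (.v 3)) (.v 3))) (.mul (.c (300)) (.mul (.mul (.v 2) (.v 2)) (.v 5))))) (.add (.add (.mul (.c (300)) (.mul (.v 5) (.v 5))) (.mul (.c (-25)) (.mul (.mul (.v 3) (.v 3)) (.v 3)))) (.add (.mul (.c (-300))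 (.mul (.mul (.v 2) (.v 3)) (.v 5))) (.mul (.c (-300)) (.mul (.mul (.v 2) (.v 5)) (.v 5))))))))
    (e := (.add (.add (.add (.mul (.pp [(1, 227355)]) (.sq [(1, -3), (5, 10)])) (.add (.mul (.g 0) (.add (.mul (.g 1) (.add (.add (.mul (.g 0) (.pp [(1, 25291050)])) (.mul (.g 5) (.pp [(1, 24244500)]))) (.add (.mul (.g 6) (.pp [(1, 44100450)])) (.mul (.g 7) (.pp [(1, 25351950)]))))) (.mul (.g 7) (.add (.mul (.g 3) (.pp [(1, 377167500)])) (.mul (.g 4) (.pp [(1, 156558750)])))))) (.mul (.g 2) (.add (.add (.pp [(1, 377472000)]) (.mul (.g 2) (.add (.mul (.g 5) (.pp [(1, 244796250)])) (.mul (.g 6) (.pp [(1, 93765000)]))))) (.add (.mul (.g 3) (.mul (.g 3) (.pp [(1, 85171500)]))) (.add (.mul (.g 7) (.pp [(1, 16194750)])) (.mul (.g 8) (.mul (.g 8) (.pp [(1, 161154750)]))))))))) (.add (.add (.mul (.g 6) (.add (.mul (.g 6) (.add (.mul (.g 4) (.pp [(1, 31260000)])) (.mul (.g 8) (.pp [(1, 147676500)]))))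 (.mul (.g 1) (.mul (.g 8) (.pp [(1, 125308500)]))))) (.mul (.g 1) (.mul (.pp [(1, 2111589)]) (.sq [(1, -3), (5, 10)])))) (.add (.mul (.g 5) (.mul (.g 5) (.mul (.g 8) (.pp [(1, 10118250)])))) (.mul (.g 7) (.mul (.g 7) (.mul (.g 7) (.pp [(1, 31252500)]))))))) (.pp [(1, 17180902), (2, 6405), (3, 8250), (4, 8700), (5, 7320), (6, 7650), (8, 6750), (9, 7500), (10, 8550), (12, 7500), (15, 6750), (18, 7500), (20, 7500), (25, 7800), (27, 7250), (30, 7500), (45, 7500), (50, 6750), (75, 7500), (125, 7500)])))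
    (by decide +kernel) (yv_nonneg d0 p0 q0 (le_refl 0) (le_refl 0) (le_refl 0) (le_refl 0) (le_refl 0) (le_refl 0))
    (by
      simp only [List.forall_mem_cons, exadd, exmul, exc, exv2, exv3, exv5]
      push_cast
      refine ⟨?_, ?_, ?_, ?_, ?_, ?_, ?_, ?_, ?_, fun _ hh => absurd hh List.not_mem_nil⟩ <;> linarith)
  simp only [exadd, exmul, exc, exv2, exv3, exv5] at h
  push_cast at h
  simp only [mp, bb]
  linarith [h]

theorem g3_Jq {d p q r : ℝ} (d0 : 0 ≤ d) (d1 : d ≤ 3 / 5) (hs : p + q + r = 1 + d)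
    (p0 : 0 ≤ p) (q0 : 0 ≤ q) (r0 : 0 ≤ r) (p1 : p ≤ 1) (q1 : q ≤ 1) (r1 : r ≤ 1) (jq : q ≤ d) :
    mp d p q r + bb (d - q) - 1 / 2 * p - 7 / 20 * q + 17 / 20 * d ≤ 81 / 100 := by
  obtain rfl : r = 1 + d - p - q := by linarith
  have h := cert (y := yv d p q 0 0 0 0 0 0)
    (gs := [(.v 2),
      (.add (.c (3)) (.mul (.c (-5)) (.v 2))),
      (.v 3),
      (.v 5),
      (.add (.add (.c (1)) (.v 2)) (.add (.mul (.c (-1)) (.v 3)) (.mul (.c (-1)) (.v 5)))),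
      (.add (.c (1)) (.mul (.c (-1)) (.v 3))),
      (.add (.c (1)) (.mul (.c (-1)) (.v 5))),
      (.add (.mul (.c (-1)) (.v 2)) (.add (.v 3) (.v 5))),
      (.add (.v 2) (.mul (.c (-1)) (.v 5)))])
    (p := .mul (.c 5000000) (.add (.add (.add (.add (.c (43)) (.mul (.c (270)) (.v 2))) (.add (.mul (.c (-150)) (.v 3)) (.mul (.c (-450)) (.mul (.v 2) (.v 2))))) (.add (.add (.mul (.c (-120)) (.v 5)) (.mul (.c (-75)) (.mul (.mul (.v 2) (.v 2)) (.v 2)))) (.add (.mul (.c (300)) (.mul (.v 3) (.v 3))) (.mul (.c (300)) (.mul (.v 2) (.v 5)))))) (.add (.add (.add (.mul (.c (300)) (.mul (.mul (.v 2) (.v 2)) (.v 3))) (.mul (.c (300)) (.mul (.v 3) (.v 5)))) (.add (.mul (.c (-300)) (.mul (.mul (.v 2) (.v 3)) (.v 3))) (.mul (.c (225)) (.mul (.mul (.v 2) (.v 2)) (.v 5))))) (.add (.add (.mul (.c (150)) (.mul (.v 5) (.v 5))) (.mul (.c (-300)) (.mul (.mul (.v 2) (.v 3)) (.v 5)))) (.add (.mul (.c (-225))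 (.mul (.mul (.v 2) (.v 5)) (.v 5))) (.mul (.c (-25)) (.mul (.mul (.v 5) (.v 5)) (.v 5))))))))
    (e := (.add (.add (.add (.mul (.pp [(1, 4698165)]) (.sq [(1, -3), (3, 10)])) (.mul (.g 3) (.add (.add (.mul (.g 2) (.add (.mul (.g 0) (.pp [(1, 518565000)])) (.add (.mul (.g 5) (.pp [(1, 244735500)])) (.mul (.g 6) (.pp [(1, 518610000)]))))) (.mul (.g 3) (.add (.pp [(1, 1108600500)]) (.mul (.g 1) (.pp [(1, 168437400)]))))) (.add (.mul (.g 8) (.add (.mul (.g 6) (.pp [(1, 184285500)])) (.mul (.g 7) (.pp [(1, 1071496500)])))) (.mul (.g 4) (.mul (.g 4) (.pp [(1, 21792000)]))))))) (.add (.mul (.g 7) (.add (.mul (.g 2) (.add (.pp [(1, 184245000)]) (.mul (.g 5) (.pp [(1, 65715000)])))) (.add (.mul (.g 7) (.add (.mul (.g 0) (.pp [(1, 23260500)])) (.mul (.g 7) (.pp [(1, 65700000)])))) (.mul (.g 4) (.mul (.g 8) (.pp [(1, 713352000)])))))) (.add (.mul (.g 1) (.add (.mul (.pp [(1, 2600697)]) (.sq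 [(1, -3), (3, 10)])) (.mul (.g 0) (.add (.pp [(1, 240681000)]) (.mul (.g 1) (.pp [(1, 13685100)])))))) (.mul (.g 8) (.add (.mul (.g 4) (.mul (.g 4) (.pp [(1, 38647500)]))) (.mul (.g 5) (.mul (.g 5) (.pp [(1, 583161000)])))))))) (.pp [(1, 102497696), (2, 13965), (3, 15360), (4, 15000), (5, 16500), (6, 15900), (8, 16500), (9, 14400), (10, 16500), (12, 12000), (15, 13500), (18, 16500), (20, 12000), (25, 13800), (27, 15000), (30, 19500), (45, 15000), (50, 16500), (75, 13500), (125, 14500)])))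
    (by decide +kernel) (yv_nonneg d0 p0 q0 (le_refl 0) (le_refl 0) (le_refl 0) (le_refl 0) (le_refl 0) (le_refl 0))
    (by
      simp only [List.forall_mem_cons, exadd, exmul, exc, exv2, exv3, exv5]
      push_cast
      refine ⟨?_, ?_, ?_, ?_, ?_, ?_, ?_, ?_, ?_, fun _ hh => absurd hh List.not_mem_nil⟩ <;> linarith)
  simp only [exadd, exmul, exc, exv2, exv3, exv5] at h
  push_cast at h
  simp only [mp, bb]
  linarith [h]

theorem g3_Jr {d p q r : ℝ} (d0 : 0 ≤ d) (d1 : d ≤ 3 / 5) (hs : p + q + r = 1 + d)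
    (p0 : 0 ≤ p) (q0 : 0 ≤ q) (r0 : 0 ≤ r) (p1 : p ≤ 1) (q1 : q ≤ 1) (r1 : r ≤ 1) (jr : r ≤ d) :
    mp d p q r + bb (d - r) - 1 / 2 * p - 7 / 20 * q + 17 / 20 * d ≤ 81 / 100 := by
  obtain rfl : r = 1 + d - p - q := by linarith
  have h := cert (y := yv d p q 0 0 0 0 0 0)
    (gs := [(.v 2),
      (.add (.c (3)) (.mul (.c (-5)) (.v 2))),
      (.v 3),
      (.v 5),
      (.add (.add (.c (1)) (.v 2)) (.add (.mul (.c (-1)) (.v 3)) (.mul (.c (-1)) (.v 5)))),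
      (.add (.c (1)) (.mul (.c (-1)) (.v 3))),
      (.add (.c (1)) (.mul (.c (-1)) (.v 5))),
      (.add (.mul (.c (-1)) (.v 2)) (.add (.v 3) (.v 5))),
      (.add (.c (-1)) (.add (.v 3) (.v 5)))])
    (p := .mul (.c 50000) (.add (.add (.add (.add (.c (-57)) (.mul (.c (345)) (.v 2))) (.add (.mul (.c (150)) (.v 3)) (.mul (.c (-300)) (.mul (.v 2) (.v 2))))) (.add (.add (.mul (.c (105)) (.v 5)) (.mul (.c (-100)) (.mul (.mul (.v 2) (.v 2)) (.v 2)))) (.add (.mul (.c (75)) (.mul (.v 3) (.v 3))) (.add (.mul (.c (300)) (.mul (.mul (.v 2) (.v 2)) (.v 3))) (.mul (.c (-150)) (.mul (.v 3) (.v 5))))))) (.add (.add (.add (.mul (.c (-300)) (.mul (.mul (.v 2) (.v 3)) (.v 3))) (.mul (.c (300)) (.mul (.mul (.v 2) (.v 2)) (.v 5)))) (.add (.mul (.c (75)) (.mul (.v 5) (.v 5))) (.mul (.c (25)) (.mul (.mul (.v 3) (.v 3)) (.v 3))))) (.add (.add (.mul (.c (-300)) (.mul (.mul (.v 2) (.v 3)) (.v 5))) (.mul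 (.c (75)) (.mul (.mul (.v 3) (.v 3)) (.v 5)))) (.add (.mul (.c (-300)) (.mul (.mul (.v 2) (.v 5)) (.v 5))) (.add (.mul (.c (75)) (.mul (.mul (.v 3) (.v 5)) (.v 5))) (.mul (.c (25)) (.mul (.mul (.v 5) (.v 5)) (.v 5)))))))))
    (e := (.add (.add (.add (.mul (.g 1) (.add (.add (.mul (.g 0) (.add (.mul (.g 0) (.pp [(1, 67611)])) (.mul (.g 2) (.pp [(1, 1064406)])))) (.mul (.g 4) (.add (.pp [(1, 749850)]) (.mul (.g 4) (.pp [(1, 557988)]))))) (.add (.mul (.g 2) (.mul (.g 2) (.pp [(1, 750000)]))) (.mul (.g 5) (.mul (.g 8) (.pp [(1, 2307951)])))))) (.add (.mul (.g 8) (.add (.add (.mul (.g 6) (.add (.mul (.g 6) (.pp [(1, 684225)])) (.mul (.g 7) (.pp [(1, 7871520)])))) (.mul (.g 4) (.mul (.g 4) (.pp [(1, 3803505)])))) (.add (.mul (.g 5) (.mul (.g 7) (.pp [(1, 8259465)]))) (.mul (.g 8) (.mul (.g 8) (.pp [(1, 1573035)])))))) (.mul (.g 2) (.add (.mul (.g 4) (.add (.mul (.g 4) (.pp [(1, 5878815)]))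 (.mul (.g 7) (.pp [(1, 556785)])))) (.add (.mul (.g 0) (.mul (.g 5) (.pp [(1, 4391910)]))) (.mul (.g 2) (.mul (.g 6) (.pp [(1, 4249845)])))))))) (.add (.mul (.g 3) (.add (.mul (.g 0) (.mul (.g 6) (.pp [(1, 6858240)]))) (.mul (.g 3) (.mul (.g 3) (.pp [(1, 1188450)]))))) (.add (.mul (.g 4) (.mul (.g 4) (.mul (.g 7) (.pp [(1, 1872150)])))) (.mul (.g 5) (.mul (.g 5) (.mul (.g 5) (.pp [(1, 3061410)]))))))) (.pp [(1, 3149694), (2, 132), (3, 177), (4, 138), (5, 165), (6, 165), (8, 145), (9, 129), (10, 198), (12, 165), (15, 105), (18, 150), (20, 165), (25, 126), (27, 155), (30, 120), (45, 165), (50, 120), (75, 180), (125, 155)])))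
    (by decide +kernel) (yv_nonneg d0 p0 q0 (le_refl 0) (le_refl 0) (le_refl 0) (le_refl 0) (le_refl 0) (le_refl 0))
    (by
      simp only [List.forall_mem_cons, exadd, exmul, exc, exv2, exv3, exv5]
      push_cast
      refine ⟨?_, ?_, ?_, ?_, ?_, ?_, ?_, ?_, ?_, fun _ hh => absurd hh List.not_mem_nil⟩ <;> linarith)
  simp only [exadd, exmul, exc, exv2, exv3, exv5] at h
  push_cast at h
  simp only [mp, bb]
  linarith [h]

theorem g3_Jpq {d p q r : ℝ} (d0 : 0 ≤ d) (d1 : d ≤ 3 / 5) (hs : p + q + r = 1 + d)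
    (p0 : 0 ≤ p) (q0 : 0 ≤ q) (r0 : 0 ≤ r) (p1 : p ≤ 1) (q1 : q ≤ 1) (r1 : r ≤ 1) (jp : p ≤ d) (jq : q ≤ d) :
    mp d p q r + bb (d - p) + bb (d - q) - 1 / 2 * p - 7 / 20 * q + 17 / 20 * d ≤ 81 / 100 := by
  obtain rfl : r = 1 + d - p - q := by linarith
  have h := cert (y := yv d p q 0 0 0 0 0 0)
    (gs := [(.v 2),
      (.add (.c (3)) (.mul (.c (-5)) (.v 2))),
      (.v 3),
      (.v 5),
      (.add (.add (.c (1)) (.v 2)) (.add (.mul (.c (-1)) (.v 3)) (.mul (.c (-1)) (.v 5)))),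
      (.add (.c (1)) (.mul (.c (-1)) (.v 3))),
      (.add (.c (1)) (.mul (.c (-1)) (.v 5))),
      (.add (.mul (.c (-1)) (.v 2)) (.add (.v 3) (.v 5))),
      (.add (.v 2) (.mul (.c (-1)) (.v 3))),
      (.add (.v 2) (.mul (.c (-1)) (.v 5)))])
    (p := .mul (.c 250000) (.add (.add (.add (.add (.c (43)) (.mul (.c (195)) (.v 2))) (.add (.mul (.c (-75)) (.v 3)) (.mul (.c (-600)) (.mul (.v 2) (.v 2))))) (.add (.add (.mul (.c (-120)) (.v 5)) (.mul (.c (300)) (.mul (.v 2) (.v 3)))) (.add (.mul (.c (-50)) (.mul (.mul (.v 2) (.v 2)) (.v 2))) (.add (.mul (.c (150)) (.mul (.v 3) (.v 3))) (.mul (.c (300)) (.mul (.v 2) (.v 5))))))) (.add (.add (.add (.mul (.c (225)) (.mul (.mul (.v 2) (.v 2)) (.v 3))) (.mul (.c (300)) (.mul (.v 3) (.v 5)))) (.add (.mul (.c (-225)) (.mul (.mul (.v 2) (.v 3)) (.v 3))) (.mul (.c (225)) (.mul (.mul (.v 2) (.v 2)) (.v 5))))) (.add (.add (.mul (.c (150)) (.mul (.v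 5) (.v 5))) (.mul (.c (-25)) (.mul (.mul (.v 3) (.v 3)) (.v 3)))) (.add (.mul (.c (-300)) (.mul (.mul (.v 2) (.v 3)) (.v 5))) (.add (.mul (.c (-225)) (.mul (.mul (.v 2) (.v 5)) (.v 5))) (.mul (.c (-25)) (.mul (.mul (.v 5) (.v 5)) (.v 5)))))))))
    (e := (.add (.add (.add (.mul (.g 1) (.add (.add (.mul (.g 1) (.add (.mul (.g 8) (.pp [(1, 1475790)])) (.mul (.g 9) (.pp [(1, 1596711)])))) (.add (.mul (.g 0) (.mul (.g 0) (.pp [(1, 11129550)]))) (.mul (.g 2) (.mul (.g 6) (.pp [(1, 1142190)]))))) (.add (.mul (.g 4) (.mul (.g 4) (.pp [(1, 2100780)]))) (.add (.mul (.g 5) (.mul (.g 8) (.pp [(1, 5323440)]))) (.mul (.g 7) (.mul (.g 7) (.pp [(1, 5968560)]))))))) (.mul (.g 7) (.add (.add (.mul (.g 4) (.add (.pp [(1, 17275950)]) (.mul (.g 7) (.pp [(1, 31616850)])))) (.mul (.g 0) (.pp [(1, 65548725)]))) (.add (.mul (.g 6) (.mul (.g 8) (.pp [(1, 16589475)]))) (.mul (.g 7) (.mul (.g 7) (.pp [(1,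 24935625)]))))))) (.add (.mul (.g 9) (.add (.mul (.g 3) (.add (.mul (.g 3) (.pp [(1, 18497250)])) (.mul (.g 4) (.pp [(1, 18927750)])))) (.mul (.g 5) (.add (.mul (.g 5) (.pp [(1, 2423550)])) (.mul (.g 6) (.pp [(1, 17878050)])))))) (.mul (.g 2) (.add (.mul (.g 2) (.mul (.g 5) (.pp [(1, 5446575)]))) (.add (.mul (.g 4) (.mul (.g 8) (.pp [(1, 5877000)]))) (.mul (.g 6) (.mul (.g 6) (.pp [(1, 2403825)])))))))) (.pp [(1, 4447660), (2, 741), (3, 765), (4, 660), (5, 729), (6, 885), (8, 700), (9, 660), (10, 810), (12, 825), (15, 705), (18, 675), (20, 825), (25, 780), (27, 800), (30, 750), (45, 750), (50, 750), (75, 675), (125, 725)])))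
    (by decide +kernel) (yv_nonneg d0 p0 q0 (le_refl 0) (le_refl 0) (le_refl 0) (le_refl 0) (le_refl 0) (le_refl 0))
    (by
      simp only [List.forall_mem_cons, exadd, exmul, exc, exv2, exv3, exv5]
      push_cast
      refine ⟨?_, ?_, ?_, ?_, ?_, ?_, ?_, ?_, ?_, ?_, fun _ hh => absurd hh List.not_mem_nil⟩ <;> linarith)
  simp only [exadd, exmul, exc, exv2, exv3, exv5] at h
  push_cast at h
  simp only [mp, bb]
  linarith [h]

theorem g3_Jpr {d p q r : ℝ} (d0 : 0 ≤ d) (d1 : d ≤ 3 / 5) (hs : p + q + r = 1 + d)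
    (p0 : 0 ≤ p) (q0 : 0 ≤ q) (r0 : 0 ≤ r) (p1 : p ≤ 1) (q1 : q ≤ 1) (r1 : r ≤ 1) (jp : p ≤ d) (jr : r ≤ d) :
    mp d p q r + bb (d - p) + bb (d - r) - 1 / 2 * p - 7 / 20 * q + 17 / 20 * d ≤ 81 / 100 := by
  obtain rfl : r = 1 + d - p - q := by linarith
  have h := cert (y := yv d p q 0 0 0 0 0 0)
    (gs := [(.v 2),
      (.add (.c (3)) (.mul (.c (-5)) (.v 2))),
      (.v 3),
      (.v 5),
      (.add (.add (.c (1)) (.v 2)) (.add (.mul (.c (-1)) (.v 3)) (.mul (.c (-1)) (.v 5)))),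
      (.add (.c (1)) (.mul (.c (-1)) (.v 3))),
      (.add (.c (1)) (.mul (.c (-1)) (.v 5))),
      (.add (.mul (.c (-1)) (.v 2)) (.add (.v 3) (.v 5))),
      (.add (.v 2) (.mul (.c (-1)) (.v 3))),
      (.add (.c (-1)) (.add (.v 3) (.v 5)))])
    (p := .mul (.c 50000) (.add (.add (.add (.add (.c (-57)) (.mul (.c (270)) (.v 2))) (.add (.mul (.c (225)) (.v 3)) (.mul (.c (-450)) (.mul (.v 2) (.v 2))))) (.add (.add (.mul (.c (105)) (.v 5)) (.mul (.c (300)) (.mul (.v 2) (.v 3)))) (.add (.mul (.c (-75)) (.mul (.mul (.v 2) (.v 2)) (.v 2))) (.add (.mul (.c (-75)) (.mul (.v 3) (.v 3))) (.mul (.c (225)) (.mul (.mul (.v 2) (.v 2)) (.v 3))))))) (.add (.add (.add (.mul (.c (-150)) (.mul (.v 3) (.v 5))) (.mul (.c (-225)) (.mul (.mul (.v 2) (.v 3)) (.v 3)))) (.add (.mul (.c (300)) (.mul (.mul (.v 2) (.v 2)) (.v 5))) (.mul (.c (75)) (.mul (.v 5) (.v 5))))) (.add (.add (.mul (.c (-300)) (.mul (.mul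 (.v 2) (.v 3)) (.v 5))) (.mul (.c (75)) (.mul (.mul (.v 3) (.v 3)) (.v 5)))) (.add (.mul (.c (-300)) (.mul (.mul (.v 2) (.v 5)) (.v 5))) (.add (.mul (.c (75)) (.mul (.mul (.v 3) (.v 5)) (.v 5))) (.mul (.c (25)) (.mul (.mul (.v 5) (.v 5)) (.v 5)))))))))
    (e := (.add (.add (.add (.mul (.g 1) (.add (.add (.mul (.g 0) (.add (.mul (.g 0) (.pp [(1, 573318)])) (.mul (.g 6) (.pp [(1, 2351328)])))) (.mul (.g 5) (.add (.mul (.g 8) (.pp [(1, 2303499)])) (.mul (.g 9) (.pp [(1, 1058157)]))))) (.add (.mul (.g 3) (.mul (.g 3) (.pp [(1, 1293426)]))) (.add (.mul (.g 7) (.mul (.g 7) (.pp [(1, 176712)]))) (.mul (.g 9) (.mul (.g 9) (.pp [(1, 1433817)]))))))) (.mul (.g 6) (.add (.add (.pp [(1, 2792505)]) (.mul (.g 6) (.add (.mul (.g 8) (.pp [(1, 5123310)])) (.mul (.g 9) (.pp [(1, 1275)]))))) (.add (.mul (.g 3) (.mul (.g 3) (.pp [(1, 2878995)]))) (.mul (.g 4) (.pp [(1, 1894050)])))))) (.add (.mul (.g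 2) (.add (.mul (.g 2) (.add (.pp [(1, 2466765)]) (.add (.mul (.g 2) (.pp [(1, 994305)])) (.mul (.g 4) (.pp [(1, 1611180)]))))) (.mul (.g 4) (.mul (.g 7) (.pp [(1, 3510855)]))))) (.mul (.g 9) (.add (.mul (.g 4) (.mul (.g 4) (.pp [(1, 1476090)]))) (.add (.mul (.g 5) (.pp [(1, 10175310)])) (.mul (.g 7) (.mul (.g 9) (.pp [(1, 2651490)])))))))) (.pp [(1, 2989140), (2, 129), (3, 162), (4, 135), (5, 141), (6, 189), (8, 150), (9, 147), (10, 201), (12, 150), (15, 132), (18, 135), (20, 150), (25, 165), (27, 150), (30, 135), (45, 150), (50, 135), (75, 150), (125, 140)])))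
    (by decide +kernel) (yv_nonneg d0 p0 q0 (le_refl 0) (le_refl 0) (le_refl 0) (le_refl 0) (le_refl 0) (le_refl 0))
    (by
      simp only [List.forall_mem_cons, exadd, exmul, exc, exv2, exv3, exv5]
      push_cast
      refine ⟨?_, ?_, ?_, ?_, ?_, ?_, ?_, ?_, ?_, ?_, fun _ hh => absurd hh List.not_mem_nil⟩ <;> linarith)
  simp only [exadd, exmul, exc, exv2, exv3, exv5] at h
  push_cast at h
  simp only [mp, bb]
  linarith [h]

theorem g3_Jqr {d p q r : ℝ} (d0 : 0 ≤ d) (d1 : d ≤ 3 / 5) (hs : p + q + r = 1 + d)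
    (p0 : 0 ≤ p) (q0 : 0 ≤ q) (r0 : 0 ≤ r) (p1 : p ≤ 1) (q1 : q ≤ 1) (r1 : r ≤ 1) (jq : q ≤ d) (jr : r ≤ d) :
    mp d p q r + bb (d - q) + bb (d - r) - 1 / 2 * p - 7 / 20 * q + 17 / 20 * d ≤ 81 / 100 := by
  obtain rfl : r = 1 + d - p - q := by linarith
  have h := cert (y := yv d p q 0 0 0 0 0 0)
    (gs := [(.v 2),
      (.add (.c (3)) (.mul (.c (-5)) (.v 2))),
      (.v 3),
      (.v 5),
      (.add (.add (.c (1)) (.v 2)) (.add (.mul (.c (-1)) (.v 3)) (.mul (.c (-1)) (.v 5)))),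
      (.add (.c (1)) (.mul (.c (-1)) (.v 3))),
      (.add (.c (1)) (.mul (.c (-1)) (.v 5))),
      (.add (.mul (.c (-1)) (.v 2)) (.add (.v 3) (.v 5))),
      (.add (.v 2) (.mul (.c (-1)) (.v 5))),
      (.add (.c (-1)) (.add (.v 3) (.v 5)))])
    (p := .mul (.c 250000) (.add (.add (.add (.add (.c (-57)) (.mul (.c (270)) (.v 2))) (.add (.mul (.c (150)) (.v 3)) (.mul (.c (-450)) (.mul (.v 2) (.v 2))))) (.add (.add (.mul (.c (180)) (.v 5)) (.mul (.c (-75)) (.mul (.mul (.v 2) (.v 2)) (.v 2)))) (.add (.mul (.c (75)) (.mul (.v 3) (.v 3))) (.add (.mul (.c (300)) (.mul (.v 2) (.v 5))) (.mul (.c (300)) (.mul (.mul (.v 2) (.v 2)) (.v 3))))))) (.add (.add (.add (.mul (.c (-150)) (.mul (.v 3) (.v 5))) (.mul (.c (-300)) (.mul (.mul (.v 2) (.v 3)) (.v 3)))) (.add (.mul (.c (225)) (.mul (.mul (.v 2) (.v 2)) (.v 5))) (.mul (.c (-75)) (.mul (.v 5) (.v 5))))) (.add (.add (.mul (.c (25)) (.mul (.mul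 (.v 3) (.v 3)) (.v 3))) (.mul (.c (-300)) (.mul (.mul (.v 2) (.v 3)) (.v 5)))) (.add (.mul (.c (75)) (.mul (.mul (.v 3) (.v 3)) (.v 5))) (.add (.mul (.c (-225)) (.mul (.mul (.v 2) (.v 5)) (.v 5))) (.mul (.c (75)) (.mul (.mul (.v 3) (.v 5)) (.v 5)))))))))
    (e := (.add (.add (.add (.mul (.g 1) (.add (.add (.mul (.g 0) (.add (.pp [(1, 1484745)]) (.add (.mul (.g 1) (.pp [(1, 155922)])) (.mul (.g 5) (.pp [(1, 8679630)]))))) (.mul (.g 8) (.add (.pp [(1, 7797885)]) (.mul (.g 8) (.pp [(1, 4529760)]))))) (.add (.mul (.g 2) (.mul (.g 2) (.pp [(1, 7350690)]))) (.mul (.g 3) (.mul (.g 9) (.pp [(1, 4682220)])))))) (.mul (.g 5) (.add (.add (.mul (.g 2) (.add (.mul (.g 0) (.pp [(1, 7340175)])) (.mul (.g 5) (.pp [(1, 6943125)])))) (.mul (.g 3) (.mul (.g 3) (.pp [(1, 16504200)])))) (.add (.mul (.g 4) (.mul (.g 4) (.pp [(1, 248400)]))) (.add (.mul (.g 7) (.mul (.g 8) (.pp [(1, 20897850)]))) (.mul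 (.g 9) (.pp [(1, 13716750)]))))))) (.add (.mul (.g 9) (.add (.mul (.g 6) (.add (.mul (.g 6) (.pp [(1, 26977350)])) (.mul (.g 7) (.pp [(1, 11712450)])))) (.add (.mul (.g 2) (.mul (.g 4) (.pp [(1, 11397150)]))) (.mul (.g 7) (.mul (.g 7) (.pp [(1, 10951650)])))))) (.mul (.g 3) (.add (.mul (.g 2) (.mul (.g 8) (.pp [(1, 10406175)]))) (.mul (.g 3) (.mul (.g 6) (.pp [(1, 26217300)]))))))) (.pp [(1, 26195700), (2, 672), (3, 825), (4, 780), (5, 765), (6, 765), (8, 750), (9, 630), (10, 735), (12, 750), (15, 690), (18, 825), (20, 750), (25, 810), (27, 775), (30, 825), (45, 750), (50, 750), (75, 675), (125, 750)])))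
    (by decide +kernel) (yv_nonneg d0 p0 q0 (le_refl 0) (le_refl 0) (le_refl 0) (le_refl 0) (le_refl 0) (le_refl 0))
    (by
      simp only [List.forall_mem_cons, exadd, exmul, exc, exv2, exv3, exv5]
      push_cast
      refine ⟨?_, ?_, ?_, ?_, ?_, ?_, ?_, ?_, ?_, ?_, fun _ hh => absurd hh List.not_mem_nil⟩ <;> linarith)
  simp only [exadd, exmul, exc, exv2, exv3, exv5] at h
  push_cast at h
  simp only [mp, bb]
  linarith [h]

theorem g3_Jpqr {d p q r : ℝ} (d0 : 0 ≤ d) (d1 : d ≤ 3 / 5) (hs : p + q + r = 1 + d)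
    (p0 : 0 ≤ p) (q0 : 0 ≤ q) (r0 : 0 ≤ r) (p1 : p ≤ 1) (q1 : q ≤ 1) (r1 : r ≤ 1) (jp : p ≤ d) (jq : q ≤ d) (jr : r ≤ d) :
    mp d p q r + bb (d - p) + bb (d - q) + bb (d - r) - 1 / 2 * p - 7 / 20 * q + 17 / 20 * d ≤ 81 / 100 := by
  obtain rfl : r = 1 + d - p - q := by linarith
  have h := cert (y := yv d p q 0 0 0 0 0 0)
    (gs := [(.v 2),
      (.add (.c (3)) (.mul (.c (-5)) (.v 2))),
      (.v 3),
      (.v 5),
      (.add (.add (.c (1)) (.v 2)) (.add (.mul (.c (-1)) (.v 3)) (.mul (.c (-1)) (.v 5)))),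
      (.add (.c (1)) (.mul (.c (-1)) (.v 3))),
      (.add (.c (1)) (.mul (.c (-1)) (.v 5))),
      (.add (.mul (.c (-1)) (.v 2)) (.add (.v 3) (.v 5))),
      (.add (.v 2) (.mul (.c (-1)) (.v 3))),
      (.add (.v 2) (.mul (.c (-1)) (.v 5))),
      (.add (.c (-1)) (.add (.v 3) (.v 5)))])
    (p := .mul (.c 50000) (.add (.add (.add (.add (.c (-57)) (.mul (.c (195)) (.v 2))) (.add (.mul (.c (225)) (.v 3)) (.mul (.c (-600)) (.mul (.v 2) (.v 2))))) (.add (.add (.mul (.c (180)) (.v 5)) (.mul (.c (300)) (.mul (.v 2) (.v 3)))) (.add (.mul (.c (-50)) (.mul (.mul (.v 2) (.v 2)) (.v 2))) (.add (.mul (.c (-75)) (.mul (.v 3) (.v 3))) (.mul (.c (300)) (.mul (.v 2) (.v 5))))))) (.add (.add (.add (.mul (.c (225)) (.mul (.mul (.v 2) (.v 2)) (.v 3))) (.mul (.c (-150)) (.mul (.v 3) (.v 5)))) (.add (.mul (.c (-225)) (.mul (.mul (.v 2) (.v 3)) (.v 3))) (.mul (.c (225)) (.mul (.mul (.v 2) (.v 2)) (.v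 5))))) (.add (.add (.mul (.c (-75)) (.mul (.v 5) (.v 5))) (.mul (.c (-300)) (.mul (.mul (.v 2) (.v 3)) (.v 5)))) (.add (.mul (.c (75)) (.mul (.mul (.v 3) (.v 3)) (.v 5))) (.add (.mul (.c (-225)) (.mul (.mul (.v 2) (.v 5)) (.v 5))) (.mul (.c (75)) (.mul (.mul (.v 3) (.v 5)) (.v 5)))))))))
    (e := (.add (.add (.mul (.g 10) (.add (.add (.mul (.g 3) (.add (.mul (.g 6) (.pp [(1, 11873055)])) (.mul (.g 7) (.pp [(1, 2461410)])))) (.add (.mul (.g 4) (.add (.mul (.g 6) (.pp [(1, 9358725)])) (.mul (.g 10) (.pp [(1, 150)])))) (.mul (.g 0) (.pp [(1, 179010)])))) (.add (.mul (.g 1) (.mul (.g 10) (.pp [(1, 717495)]))) (.add (.mul (.g 5) (.pp [(1, 5396520)])) (.mul (.g 8) (.pp [(1, 587430)])))))) (.add (.mul (.g 9) (.add (.add (.mul (.g 4) (.add (.mul (.g 4) (.pp [(1, 444180)])) (.mul (.g 8) (.pp [(1, 509400)])))) (.mul (.g 2) (.mul (.g 8) (.pp [(1, 4043490)])))) (.add (.mul (.g 3) (.mul (.g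 9) (.pp [(1, 3806685)]))) (.add (.mul (.g 5) (.mul (.g 5) (.pp [(1, 7850175)]))) (.mul (.g 7) (.mul (.g 7) (.pp [(1, 3309570)]))))))) (.mul (.g 1) (.add (.pp [(1, 1221114)]) (.add (.mul (.g 0) (.add (.mul (.g 0) (.pp [(1, 1352661)])) (.mul (.g 6) (.pp [(1, 2243625)])))) (.mul (.g 8) (.add (.mul (.g 5) (.pp [(1, 3146535)])) (.mul (.g 6) (.pp [(1, 1701021)]))))))))) (.pp [(1, 6089268), (2, 162), (3, 168), (4, 162), (5, 135), (6, 120), (8, 155), (9, 135), (10, 108), (12, 135), (15, 162), (18, 165), (20, 135), (25, 180), (27, 150), (30, 180), (45, 150), (50, 180), (75, 135), (125, 135)])))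
    (by decide +kernel) (yv_nonneg d0 p0 q0 (le_refl 0) (le_refl 0) (le_refl 0) (le_refl 0) (le_refl 0) (le_refl 0))
    (by
      simp only [List.forall_mem_cons, exadd, exmul, exc, exv2, exv3, exv5]
      push_cast
      refine ⟨?_, ?_, ?_, ?_, ?_, ?_, ?_, ?_, ?_, ?_, ?_, fun _ hh => absurd hh List.not_mem_nil⟩ <;> linarith)
  simp only [exadd, exmul, exc, exv2, exv3, exv5] at h
  push_cast at h
  simp only [mp, bb]
  linarith [h]

theorem g3_Np {d p q r a : ℝ} (d0 : 0 ≤ d) (d1 : d ≤ 3 / 5) (hs : p + q + r = 1 + d)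
    (p0 : p ≤ 0) (q0 : 0 ≤ q) (r0 : 0 ≤ r) (q1 : q ≤ 1) (r1 : r ≤ 1) (a0 : 0 ≤ a)
    (a1 : a ≤ 13 / 20) (ao : a ≤ d - p) :
    mp d p q r + (-p) ^ 3 / 3 + bb a - 1 / 2 * p - 7 / 20 * q + 17 / 20 * d ≤ 81 / 100 := by
  obtain ⟨n, rfl⟩ : ∃ n, p = -n := ⟨-p, by ring⟩
  have n0 : 0 ≤ n := by linarith
  obtain rfl : r = 1 + d + n - q := by linarith
  have h := cert (y := yv d n q a 0 0 0 0 0)
    (gs := [(.v 2),
      (.add (.c (3)) (.mul (.c (-5)) (.v 2))),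
      (.v 3),
      (.v 5),
      (.add (.add (.c (1)) (.v 2)) (.add (.v 3) (.mul (.c (-1)) (.v 5)))),
      (.add (.c (1)) (.mul (.c (-1)) (.v 5))),
      (.add (.mul (.c (-1)) (.v 2)) (.add (.mul (.c (-1)) (.v 3)) (.v 5))),
      (.v 7),
      (.add (.c (13)) (.mul (.c (-20)) (.v 7))),
      (.add (.v 2) (.add (.v 3) (.mul (.c (-1)) (.v 7))))])
    (p := .mul (.c 2000000000) (.add (.add (.add (.add (.c (43)) (.mul (.c (345)) (.v 2))) (.add (.mul (.c (150)) (.v 3)) (.mul (.c (-300)) (.mul (.v 2) (.v 2))))) (.add (.add (.mul (.c (-195)) (.v 5)) (.mul (.c (-75)) (.v 7))) (.add (.mul (.c (-100)) (.mul (.mul (.v 2) (.v 2)) (.v 2))) (.add (.mul (.c (300)) (.mul (.v 3) (.v 3))) (.mul (.c (-300)) (.mul (.mul (.v 2) (.v 2)) (.v 3))))))) (.add (.add (.add (.mul (.c (-300)) (.mul (.v 3) (.v 5))) (.mul (.c (-300)) (.mul (.mul (.v 2) (.v 3)) (.v 3)))) (.add (.mul (.c (300)) (.mul (.mul (.v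 2) (.v 2)) (.v 5))) (.mul (.c (300)) (.mul (.v 5) (.v 5))))) (.add (.add (.mul (.c (-100)) (.mul (.mul (.v 3) (.v 3)) (.v 3))) (.mul (.c (300)) (.mul (.mul (.v 2) (.v 3)) (.v 5)))) (.add (.mul (.c (-150)) (.mul (.v 7) (.v 7))) (.add (.mul (.c (-300)) (.mul (.mul (.v 2) (.v 5)) (.v 5))) (.mul (.c (25)) (.mul (.mul (.v 7) (.v 7)) (.v 7)))))))))
    (e := (.add (.add (.add (.mul (.g 9) (.add (.add (.mul (.g 1) (.add (.add (.mul (.g 1) (.pp [(1, 419760000)])) (.mul (.g 3) (.pp [(1, 27981360000)]))) (.add (.mul (.g 4) (.pp [(1, 17150760000)])) (.mul (.g 7) (.pp [(1, 52879920000)]))))) (.mul (.g 5) (.add (.add (.mul (.g 2) (.pp [(1, 631294800000)])) (.mul (.g 4) (.pp [(1, 36769200000)]))) (.add (.mul (.g 6) (.pp [(1, 322361400000)])) (.mul (.g 8) (.pp [(1, 1029240000)])))))) (.add (.mul (.g 7) (.add (.mul (.g 4) (.pp [(1, 113004600000)])) (.add (.mul (.g 6) (.pp [(1, 199864800000)])) (.mul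 (.g 9) (.pp [(1, 55316400000)]))))) (.add (.mul (.g 2) (.mul (.g 2) (.pp [(1, 133303200000)]))) (.mul (.g 6) (.mul (.g 9) (.pp [(1, 13273200000)]))))))) (.add (.mul (.g 0) (.add (.add (.mul (.g 8) (.add (.add (.mul (.g 1) (.pp [(1, 995226000)])) (.mul (.g 4) (.pp [(1, 18148590000)]))) (.add (.mul (.g 5) (.pp [(1, 15432540000)])) (.add (.mul (.g 6) (.pp [(1, 19703640000)])) (.mul (.g 7) (.pp [(1, 11367990000)])))))) (.mul (.g 6) (.add (.pp [(1, 209300400000)]) (.add (.mul (.g 0) (.pp [(1, 2119200000)])) (.mul (.g 6) (.pp [(1, 68265000000)])))))) (.add (.mul (.g 1) (.add (.mul (.g 1) (.pp [(1, 515760000)])) (.mul (.g 4) (.pp [(1, 3307080000)])))) (.mul (.g 5) (.mul (.g 5) (.pp [(1, 94683000000)])))))) (.mul (.g 6) (.add (.mul (.g 6) (.add (.mul (.g 5) (.pp [(1, 48773400000)])) (.add (.mul (.g 6) (.pp [(1, 173976600000)])) (.mul (.g 7) (.pp [(1, 63507600000)]))))) (.add (.mul (.g 2)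 (.mul (.g 2) (.pp [(1, 179705400000)]))) (.mul (.g 3) (.mul (.g 3) (.pp [(1, 52978800000)])))))))) (.add (.mul (.g 8) (.add (.mul (.pp [(1, 17088300)]) (.sq [(1, -3), (5, 10)])) (.add (.mul (.pp [(1, 1574643)]) (.sq [(1, -49), (3, -13), (5, 100), (7, -13)])) (.mul (.g 5) (.mul (.g 7) (.pp [(1, 614190000)])))))) (.add (.mul (.g 2) (.mul (.pp [(1, 76294740)]) (.sq [(1, -47), (2, -8), (3, -21), (5, 100), (7, -25)]))) (.mul (.g 5) (.mul (.pp [(1, 17818800)]) (.sq [(1, -41), (5, 100)])))))) (.pp [(1, 4897934141), (2, 5976000), (3, 6241974), (4, 5820000), (5, 5955000), (6, 6005520), (7, 5983494), (8, 5200000), (9, 6412569), (10, 6330000), (12, 4736640), (14, 6210000), (15, 5609400), (18, 5367360), (20, 6600000), (21, 5603298), (25, 6060000), (27, 6019660), (28, 6000000), (30, 5784000), (35, 6095400), (42, 6504000), (45, 5508000), (49, 5772969), (50, 6000000), (63, 5816340), (70, 6000000),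 (75, 6600000), (98, 6000000), (105, 6264000), (125, 6000000), (147, 6174180), (175, 5400000), (245, 6564000), (343, 5893340)])))
    (by decide +kernel) (yv_nonneg d0 n0 q0 a0 (le_refl 0) (le_refl 0) (le_refl 0) (le_refl 0) (le_refl 0))
    (by
      simp only [List.forall_mem_cons, exadd, exmul, exc, exv2, exv3, exv5, exv7]
      push_cast
      refine ⟨?_, ?_, ?_, ?_, ?_, ?_, ?_, ?_, ?_, ?_, fun _ hh => absurd hh List.not_mem_nil⟩ <;> linarith)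
  simp only [exadd, exmul, exc, exv2, exv3, exv5, exv7] at h
  push_cast at h
  simp only [mp, bb, neg_neg]
  linarith [h]

theorem g3_Nq {d p q r a : ℝ} (d0 : 0 ≤ d) (d1 : d ≤ 3 / 5) (hs : p + q + r = 1 + d)
    (q0 : q ≤ 0) (p0 : 0 ≤ p) (r0 : 0 ≤ r) (p1 : p ≤ 1) (r1 : r ≤ 1) (a0 : 0 ≤ a)
    (a1 : a ≤ 13 / 20) (ao : a ≤ d - q) :
    mp d q p r + (-q) ^ 3 / 3 + bb a - 1 / 2 * p - 7 / 20 * q + 17 / 20 * d ≤ 81 / 100 := by
  obtain ⟨n, rfl⟩ : ∃ n, q = -n := ⟨-q, by ring⟩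
  have n0 : 0 ≤ n := by linarith
  obtain rfl : r = 1 + d + n - p := by linarith
  have h := cert (y := yv d n p a 0 0 0 0 0)
    (gs := [(.v 2),
      (.add (.c (3)) (.mul (.c (-5)) (.v 2))),
      (.v 3),
      (.v 5),
      (.add (.add (.c (1)) (.v 2)) (.add (.v 3) (.mul (.c (-1)) (.v 5)))),
      (.add (.c (1)) (.mul (.c (-1)) (.v 5))),
      (.add (.mul (.c (-1)) (.v 2)) (.add (.mul (.c (-1)) (.v 3)) (.v 5))),
      (.v 7),
      (.add (.c (13)) (.mul (.c (-20)) (.v 7))),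
      (.add (.v 2) (.add (.v 3) (.mul (.c (-1)) (.v 7))))])
    (p := .mul (.c 10000000) (.add (.add (.add (.add (.c (43)) (.mul (.c (345)) (.v 2))) (.add (.mul (.c (195)) (.v 3)) (.mul (.c (-300)) (.mul (.v 2) (.v 2))))) (.add (.add (.mul (.c (-150)) (.v 5)) (.mul (.c (-75)) (.v 7))) (.add (.mul (.c (-100)) (.mul (.mul (.v 2) (.v 2)) (.v 2))) (.add (.mul (.c (300)) (.mul (.v 3) (.v 3))) (.mul (.c (-300)) (.mul (.mul (.v 2) (.v 2)) (.v 3))))))) (.add (.add (.add (.mul (.c (-300)) (.mul (.v 3) (.v 5))) (.mul (.c (-300)) (.mul (.mul (.v 2) (.v 3)) (.v 3)))) (.add (.mul (.c (300)) (.mul (.mul (.v 2) (.v 2)) (.v 5))) (.mul (.c (300)) (.mul (.v 5) (.v 5))))) (.add (.add (.mul (.c (-100)) (.mul (.mul (.v 3) (.v 3)) (.v 3))) (.mul (.c (300)) (.mul (.mul (.v 2) (.v 3)) (.v 5)))) (.add (.mul (.c (-150)) (.mul (.v 7) (.v 7))) (.add (.mul (.c (-300)) (.mul (.mul (.v 2) (.v 5)) (.v 5))) (.mul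 (.c (25)) (.mul (.mul (.v 7) (.v 7)) (.v 7)))))))))
    (e := (.add (.add (.add (.add (.mul (.pp [(1, 6018390)]) (.sq [(1, -3), (5, 10)])) (.mul (.g 9) (.add (.add (.mul (.g 2) (.add (.mul (.g 4) (.pp [(1, 576501000)])) (.add (.mul (.g 5) (.pp [(1, 782487000)])) (.mul (.g 6) (.pp [(1, 1358985000)]))))) (.add (.mul (.g 7) (.add (.pp [(1, 1217652000)]) (.add (.mul (.g 6) (.pp [(1, 30000)])) (.mul (.g 8) (.pp [(1, 27671550)]))))) (.mul (.g 4) (.add (.mul (.g 5) (.pp [(1, 324225000)])) (.mul (.g 6) (.pp [(1, 98301000)])))))) (.add (.mul (.g 1) (.mul (.g 1) (.pp [(1, 38212440)]))) (.add (.mul (.g 3) (.mul (.g 5) (.pp [(1, 1113624000)]))) (.mul (.g 9) (.mul (.g 9) (.pp [(1, 184458000)])))))))) (.add (.mul (.g 0) (.add (.add (.mul (.g 1) (.add (.mul (.g 0) (.pp [(1, 47562600)])) (.add (.mul (.g 4) (.pp [(1, 312000)])) (.mul (.g 8) (.pp [(1, 13465380)]))))) (.mul (.g 6) (.add (.pp [(1, 1022265000)])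 (.add (.mul (.g 0) (.pp [(1, 478185000)])) (.mul (.g 4) (.pp [(1, 824046000)])))))) (.add (.mul (.g 2) (.mul (.g 2) (.pp [(1, 237813000)]))) (.add (.mul (.g 5) (.mul (.g 5) (.pp [(1, 1344366000)]))) (.mul (.g 8) (.pp [(1, 84871800)])))))) (.mul (.g 2) (.add (.add (.mul (.g 2) (.add (.mul (.g 5) (.pp [(1, 479778000)])) (.mul (.g 8) (.pp [(1, 19562850)])))) (.mul (.g 4) (.mul (.g 4) (.pp [(1, 90522000)])))) (.add (.mul (.g 5) (.mul (.g 5) (.pp [(1, 1191309000)]))) (.mul (.g 6) (.mul (.g 6) (.pp [(1, 105669000)])))))))) (.add (.add (.mul (.g 6) (.mul (.g 6) (.add (.mul (.g 5) (.pp [(1, 499920000)])) (.add (.mul (.g 6) (.pp [(1, 499890000)])) (.mul (.g 7) (.pp [(1, 60093000)])))))) (.mul (.g 7) (.add (.mul (.g 4) (.mul (.g 4) (.pp [(1, 3750000)]))) (.mul (.g 7) (.mul (.g 8) (.pp [(1, 5950200)])))))) (.add (.mul (.g 1) (.mul (.pp [(1, 4265634)]) (.sq [(1, -3), (5, 10)]))) (.mul (.g 8)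 (.mul (.pp [(1, 475785)]) (.sq [(1, -3), (5, 10)])))))) (.pp [(1, 204995527), (2, 31350), (3, 32040), (4, 26100), (5, 29820), (6, 28200), (7, 28260), (8, 26000), (9, 28950), (10, 31800), (12, 18000), (14, 27450), (15, 27000), (18, 18000), (20, 36000), (21, 29850), (25, 30300), (27, 26000), (28, 33000), (30, 39000), (35, 33000), (42, 36000), (45, 36000), (49, 29550), (50, 27000), (63, 33000), (70, 33000), (75, 30000), (98, 27000), (105, 30000), (125, 30000), (147, 27000), (175, 27000), (245, 30000), (343, 31000)])))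
    (by decide +kernel) (yv_nonneg d0 n0 p0 a0 (le_refl 0) (le_refl 0) (le_refl 0) (le_refl 0) (le_refl 0))
    (by
      simp only [List.forall_mem_cons, exadd, exmul, exc, exv2, exv3, exv5, exv7]
      push_cast
      refine ⟨?_, ?_, ?_, ?_, ?_, ?_, ?_, ?_, ?_, ?_, fun _ hh => absurd hh List.not_mem_nil⟩ <;> linarith)
  simp only [exadd, exmul, exc, exv2, exv3, exv5, exv7] at h
  push_cast at h
  simp only [mp, bb, neg_neg]
  linarith [h]

theorem g3_Nr {d p q r a : ℝ} (d0 : 0 ≤ d) (d1 : d ≤ 3 / 5) (hs : p + q + r = 1 + d)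
    (r0 : r ≤ 0) (p0 : 0 ≤ p) (q0 : 0 ≤ q) (p1 : p ≤ 1) (q1 : q ≤ 1) (a0 : 0 ≤ a)
    (a1 : a ≤ 13 / 20) (ao : a ≤ d - r) :
    mp d r p q + (-r) ^ 3 / 3 + bb a - 1 / 2 * p - 7 / 20 * q + 17 / 20 * d ≤ 81 / 100 := by
  obtain ⟨n, rfl⟩ : ∃ n, r = -n := ⟨-r, by ring⟩
  have n0 : 0 ≤ n := by linarith
  obtain rfl : q = 1 + d + n - p := by linarith
  have h := cert (y := yv d n p a 0 0 0 0 0)
    (gs := [(.v 2),
      (.add (.c (3)) (.mul (.c (-5)) (.v 2))),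
      (.v 3),
      (.v 5),
      (.add (.add (.c (1)) (.v 2)) (.add (.v 3) (.mul (.c (-1)) (.v 5)))),
      (.add (.c (1)) (.mul (.c (-1)) (.v 5))),
      (.add (.mul (.c (-1)) (.v 2)) (.add (.mul (.c (-1)) (.v 3)) (.v 5))),
      (.v 7),
      (.add (.c (13)) (.mul (.c (-20)) (.v 7))),
      (.add (.v 2) (.add (.v 3) (.mul (.c (-1)) (.v 7))))])
    (p := .mul (.c 1000000) (.add (.add (.add (.add (.c (148)) (.mul (.c (450)) (.v 2))) (.add (.mul (.c (405)) (.v 3)) (.mul (.c (-300)) (.mul (.v 2) (.v 2))))) (.add (.add (.mul (.c (-255)) (.v 5)) (.mul (.c (-75)) (.v 7))) (.add (.mul (.c (-100)) (.mul (.mul (.v 2) (.v 2)) (.v 2))) (.add (.mul (.c (300)) (.mul (.v 3) (.v 3))) (.mul (.c (-300)) (.mul (.mul (.v 2) (.v 2)) (.v 3))))))) (.add (.add (.add (.mul (.c (-300)) (.mul (.v 3) (.v 5))) (.mul (.c (-300)) (.mul (.mul (.v 2) (.v 3)) (.v 3)))) (.add (.mul (.c (300)) (.mul (.mul (.v 2)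 (.v 2)) (.v 5))) (.mul (.c (300)) (.mul (.v 5) (.v 5))))) (.add (.add (.mul (.c (-100)) (.mul (.mul (.v 3) (.v 3)) (.v 3))) (.mul (.c (300)) (.mul (.mul (.v 2) (.v 3)) (.v 5)))) (.add (.mul (.c (-150)) (.mul (.v 7) (.v 7))) (.add (.mul (.c (-300)) (.mul (.mul (.v 2) (.v 5)) (.v 5))) (.mul (.c (25)) (.mul (.mul (.v 7) (.v 7)) (.v 7)))))))))
    (e := (.add (.add (.add (.mul (.g 2) (.add (.add (.mul (.g 2) (.add (.add (.mul (.g 0) (.pp [(1, 83126400)])) (.mul (.g 2) (.pp [(1, 9704400)]))) (.add (.mul (.g 5) (.pp [(1, 88115100)])) (.mul (.g 8) (.pp [(1, 2703060)]))))) (.add (.mul (.g 1) (.add (.mul (.g 1) (.pp [(1, 2936880)])) (.mul (.g 3) (.pp [(1, 39441300)])))) (.mul (.g 3) (.mul (.g 3) (.pp [(1, 33028500)]))))) (.add (.mul (.g 4) (.mul (.g 5) (.pp [(1, 104844900)]))) (.add (.mul (.g 6) (.mul (.g 6) (.pp [(1, 18948900)]))) (.mul (.g 8) (.pp [(1, 2665200)])))))) (.add (.mul (.g 7)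 (.add (.add (.mul (.g 8) (.add (.mul (.g 5) (.pp [(1, 2600925)])) (.add (.mul (.g 6) (.pp [(1, 2601150)])) (.mul (.g 9) (.pp [(1, 1249845)]))))) (.mul (.g 1) (.mul (.g 3) (.pp [(1, 21623880)])))) (.add (.mul (.g 4) (.pp [(1, 16159200)])) (.add (.mul (.g 5) (.mul (.g 5) (.pp [(1, 24359100)]))) (.mul (.g 9) (.pp [(1, 108763800)])))))) (.mul (.g 0) (.add (.pp [(1, 84105600)]) (.add (.mul (.g 1) (.add (.mul (.g 3) (.pp [(1, 38159940)])) (.add (.mul (.g 4) (.pp [(1, 16341120)])) (.mul (.g 8) (.pp [(1, 1994754)]))))) (.mul (.g 4) (.add (.mul (.g 6) (.pp [(1, 143177700)])) (.mul (.g 9) (.pp [(1, 108119400)]))))))))) (.add (.add (.mul (.g 9) (.add (.pp [(1, 96983100)]) (.add (.mul (.g 9) (.add (.mul (.g 5) (.pp [(1, 27027600)])) (.mul (.g 6) (.pp [(1, 27029100)])))) (.mul (.g 1) (.mul (.g 1) (.pp [(1, 5816688)])))))) (.mul (.g 3) (.add (.mul (.g 3) (.add (.mul (.g 3) (.pp [(1, 12529200)]))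 (.mul (.g 8) (.pp [(1, 1218105)])))) (.mul (.g 4) (.mul (.g 6) (.pp [(1, 29158500)])))))) (.add (.mul (.g 5) (.add (.mul (.g 4) (.mul (.g 4) (.pp [(1, 44869800)]))) (.mul (.g 5) (.mul (.g 5) (.pp [(1, 40131300)]))))) (.mul (.g 6) (.mul (.g 6) (.mul (.g 6) (.pp [(1, 101627100)]))))))) (.pp [(1, 62998900), (2, 2742), (3, 2688), (4, 2790), (5, 3300), (6, 2280), (7, 2967), (8, 2900), (9, 2820), (10, 3540), (12, 2700), (14, 3165), (15, 3600), (18, 2700), (20, 3600), (21, 3165), (25, 2835), (27, 2900), (28, 3000), (30, 4200), (35, 2835), (42, 3000), (45, 3300), (49, 2685), (50, 2400), (63, 3000), (70, 3000), (75, 2400), (98, 3000), (105, 3000), (125, 3300), (147, 3000), (175, 3000), (245, 3000), (343, 3100)])))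
    (by decide +kernel) (yv_nonneg d0 n0 p0 a0 (le_refl 0) (le_refl 0) (le_refl 0) (le_refl 0) (le_refl 0))
    (by
      simp only [List.forall_mem_cons, exadd, exmul, exc, exv2, exv3, exv5, exv7]
      push_cast
      refine ⟨?_, ?_, ?_, ?_, ?_, ?_, ?_, ?_, ?_, ?_, fun _ hh => absurd hh List.not_mem_nil⟩ <;> linarith)
  simp only [exadd, exmul, exc, exv2, exv3, exv5, exv7] at h
  push_cast at h
  simp only [mp, bb, neg_neg]
  linarith [h]

theorem g3 {V d p q r : ℝ} (h : GR V d p q r) : V - 1 / 2 * p - 7 / 20 * q + 17 / 20 * d ≤ 81 / 100 := by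
  rcases h.cs with h1 | h1 | h1 | h1
  · obtain ⟨p0, q0, r0, A, B, E, hA, hB, hE, hv⟩ := h1
    have e1 : mp d p r q = mp d p q r := by unfold mp; ring
    have e2 : mp d q p r = mp d p q r := by unfold mp; ring
    have e3 : mp d q r p = mp d p q r := by unfold mp; ring
    have e4 : mp d r p q = mp d p q r := by unfold mp; ring
    have e5 : mp d r q p = mp d p q r := by unfold mp; ring
    rcases hA with hA | ⟨jp, hA⟩ <;> rcases hB with hB | ⟨jq, hB⟩ <;> rcases hE with hE | ⟨jr, hE⟩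
    · have := g3_J (p := p) (q := q) (r := r) h.d0 h.d1 (by linarith [h.s]) p0 q0 r0 h.p1 h.q1 h.r1
      linarith
    · have := g3_Jr (p := p) (q := q) (r := r) h.d0 h.d1 (by linarith [h.s]) p0 q0 r0 h.p1 h.q1 h.r1 jr
      linarith
    · have := g3_Jq (p := p) (q := q) (r := r) h.d0 h.d1 (by linarith [h.s]) p0 q0 r0 h.p1 h.q1 h.r1 jq
      linarith
    · have := g3_Jqr (p := p) (q := q) (r := r) h.d0 h.d1 (by linarith [h.s]) p0 q0 r0 h.p1 h.q1 h.r1 jq jr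
      linarith
    · have := g3_Jp (p := p) (q := q) (r := r) h.d0 h.d1 (by linarith [h.s]) p0 q0 r0 h.p1 h.q1 h.r1 jp
      linarith
    · have := g3_Jpr (p := p) (q := q) (r := r) h.d0 h.d1 (by linarith [h.s]) p0 q0 r0 h.p1 h.q1 h.r1 jp jr
      linarith
    · have := g3_Jpq (p := p) (q := q) (r := r) h.d0 h.d1 (by linarith [h.s]) p0 q0 r0 h.p1 h.q1 h.r1 jp jq
      linarith
    · have := g3_Jpqr (p := p) (q := q) (r := r) h.d0 h.d1 (by linarith [h.s]) p0 q0 r0 h.p1 h.q1 h.r1 jp jq jr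
      linarith
  · obtain ⟨p0, q0, r0, a, a0, a1, ao, hv⟩ := h1
    have := g3_Np h.d0 h.d1 h.s p0 q0 r0 h.q1 h.r1 a0 a1 ao
    linarith
  · obtain ⟨q0, p0, r0, a, a0, a1, ao, hv⟩ := h1
    have := g3_Nq h.d0 h.d1 h.s q0 p0 r0 h.p1 h.r1 a0 a1 ao
    linarith
  · obtain ⟨r0, p0, q0, a, a0, a1, ao, hv⟩ := h1
    have := g3_Nr h.d0 h.d1 h.s r0 p0 q0 h.p1 h.q1 a0 a1 ao
    linarith

end Pool.Agent.Helper65.TS
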