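import Pool.Agent.Helper65.TS.PClass
import Pool.Agent.Helper70.OL.CertF

/-!
# Inequalities for one good class, part 2
-/

set_option autoImplicit false
set_option maxRecDepth 100000
set_option linter.all false

namespace Pool.Agent.Helper65.TS

open Pool.Agent.Helper70.OL (certF)
open Pool.Agent.Helper83.Cert Pool.Agent.Helper44.TS Pool.Agent.Helper84.TS Pool.Agent.Helper36.TS

theorem g4_J {d p q r : ℝ} (d0 : 0 ≤ d) (d1 : d ≤ 3 / 5) (hs : p + q + r = 1 + d)
    (p0 : 0 ≤ p) (q0 : 0 ≤ q) (r0 : 0 ≤ r) (p1 : p ≤ 1) (q1 : q ≤ 1) (r1 : r ≤ 1) :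
    mp d p q r + 1 / 2 * p + 7 / 20 * d ≤ 13 / 10 := by
  obtain rfl : r = 1 + d - p - q := by linarith
  have h := certF (y := yv d p q 0 0 0 0 0 0)
    (gs := [(.v 2),
      (.add (.c (3)) (.mul (.c (-5)) (.v 2))),
      (.v 3),
      (.v 5),
      (.add (.add (.c (1)) (.v 2)) (.add (.mul (.c (-1)) (.v 3)) (.mul (.c (-1)) (.v 5)))),
      (.add (.c (1)) (.mul (.c (-1)) (.v 3))),
      (.add (.c (1)) (.mul (.c (-1)) (.v 5))),
      (.add (.mul (.c (-1)) (.v 2)) (.add (.v 3) (.v 5)))])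
    (p := (.add (.add (.add (.c (38)) (.add (.mul (.c (99)) (.v 2)) (.mul (.c (-90)) (.v 3)))) (.add (.add (.mul (.c (-60)) (.mul (.v 2) (.v 2))) (.mul (.c (-60)) (.v 5))) (.add (.mul (.c (-20)) (.mul (.mul (.v 2) (.v 2)) (.v 2))) (.mul (.c (60)) (.mul (.v 3) (.v 3)))))) (.add (.add (.mul (.c (60)) (.mul (.mul (.v 2) (.v 2)) (.v 3))) (.add (.mul (.c (60)) (.mul (.v 3) (.v 5))) (.mul (.c (-60)) (.mul (.mul (.v 2) (.v 3)) (.v 3))))) (.add (.add (.mul (.c (60)) (.mul (.mul (.v 2) (.v 2)) (.v 5))) (.mul (.c (60)) (.mul (.v 5) (.v 5)))) (.add (.mul (.c (-60)) (.mul (.mul (.v 2) (.v 3)) (.v 5))) (.mul (.c (-60)) (.mul (.mul (.v 2) (.v 5)) (.v 5))))))))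
    (M := 2499999999) (k1 := 13) (s1 := 0x40c40000000000000000d0015bf014514000000000000001f09c6a700414500000000000000103640e7a00c5140000000000000020f4fa55402145000000000000000199c100d0208040000000000000002d3bb44c041c10000000000000010593d0d1000704000000000000002aa5fc45c081810000000000000011b0241a000c604000000000000004475a936c0508100000000000000057acd6e800c2040000000000000007c5b49fc0208100000000000000009c9a7c10) (k2 := 6) (s2 := 0x808080808080b2778080080000000000000000004499a202020202020265da020c7000000000000000000fc3d20808080808080b0e480411c0000000000000000022ec3c20202020202020392015c400000000000000000049ff2f8080808080809473808714000000000000000002e89932020202020202c9de02000000000000000000001c662e4)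
    (by decide +kernel) (yv_nonneg d0 p0 q0 (le_refl 0) (le_refl 0) (le_refl 0) (le_refl 0) (le_refl 0) (le_refl 0))
    (by
      simp only [List.forall_mem_cons, exadd, exmul, exc, exv2, exv3, exv5]
      push_cast
      refine ⟨?_, ?_, ?_, ?_, ?_, ?_, ?_, ?_, fun _ hh => absurd hh List.not_mem_nil⟩ <;> linarith)
  simp only [exadd, exmul, exc, exv2, exv3, exv5] at h
  push_cast at h
  simp only [mp, bb]
  linarith only [h]

theorem g4_Jp {d p q r : ℝ} (d0 : 0 ≤ d) (d1 : d ≤ 3 / 5) (hs : p + q + r = 1 + d)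
    (p0 : 0 ≤ p) (q0 : 0 ≤ q) (r0 : 0 ≤ r) (p1 : p ≤ 1) (q1 : q ≤ 1) (r1 : r ≤ 1) (jp : p ≤ d) :
    mp d p q r + bb (d - p) + 1 / 2 * p + 7 / 20 * d ≤ 13 / 10 := by
  obtain rfl : r = 1 + d - p - q := by linarith
  have h := certF (y := yv d p q 0 0 0 0 0 0)
    (gs := [(.v 2),
      (.add (.c (3)) (.mul (.c (-5)) (.v 2))),
      (.v 3),
      (.v 5),
      (.add (.add (.c (1)) (.v 2)) (.add (.mul (.c (-1)) (.v 3)) (.mul (.c (-1)) (.v 5)))),
      (.add (.c (1)) (.mul (.c (-1)) (.v 3))),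
      (.add (.c (1)) (.mul (.c (-1)) (.v 5))),
      (.add (.mul (.c (-1)) (.v 2)) (.add (.v 3) (.v 5))),
      (.add (.v 2) (.mul (.c (-1)) (.v 3)))])
    (p := (.add (.add (.add (.add (.c (38)) (.mul (.c (84)) (.v 2))) (.add (.mul (.c (-75)) (.v 3)) (.mul (.c (-90)) (.mul (.v 2) (.v 2))))) (.add (.add (.mul (.c (-60)) (.v 5)) (.mul (.c (60)) (.mul (.v 2) (.v 3)))) (.add (.mul (.c (-15)) (.mul (.mul (.v 2) (.v 2)) (.v 2))) (.mul (.c (30)) (.mul (.v 3) (.v 3)))))) (.add (.add (.add (.mul (.c (45)) (.mul (.mul (.v 2) (.v 2)) (.v 3))) (.mul (.c (60)) (.mul (.v 3) (.v 5)))) (.add (.mul (.c (-45)) (.mul (.mul (.v 2) (.v 3)) (.v 3))) (.mul (.c (60)) (.mul (.mul (.v 2) (.v 2)) (.v 5))))) (.add (.add (.mul (.c (60)) (.mul (.v 5) (.v 5))) (.mul (.c (-5)) (.mul (.mul (.v 3) (.v 3)) (.v 3)))) (.add (.mul (.c (-60)) (.mul (.mul (.v 2) (.v 3)) (.v 5))) (.mul (.c (-60)) (.mul (.mul (.v 2) (.v 5)) (.v 5))))))))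
    (M := 1249999) (k1 := 19) (s1 := 0x5145000000000000000001024a2b10918000000000000000002a0bbec3246000000000000000000b166d8248200000000000000000011e006841080000000000000000017d724b0c320000000000000000000e40a205048000000000000000001f4f59b246080000000000000000023a882c30c20000000000000000004fd4bd141080000000000000000006a114840420000000000000000003714b40810800000000000000000002d27c9207000000000000000004b32bd10c81c000000000000000007fa03dc604700000000000000000055c6981011c00000000000000000213b85091c70000000000000000006895d41471c000000000000000001ecac3821c70000000000000000000001ef) (k2 := 0) (s2 := 0x0)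
    (by decide +kernel) (yv_nonneg d0 p0 q0 (le_refl 0) (le_refl 0) (le_refl 0) (le_refl 0) (le_refl 0) (le_refl 0))
    (by
      simp only [List.forall_mem_cons, exadd, exmul, exc, exv2, exv3, exv5]
      push_cast
      refine ⟨?_, ?_, ?_, ?_, ?_, ?_, ?_, ?_, ?_, fun _ hh => absurd hh List.not_mem_nil⟩ <;> linarith)
  simp only [exadd, exmul, exc, exv2, exv3, exv5] at h
  push_cast at h
  simp only [mp, bb]
  linarith only [h]

theorem g4_Jq {d p q r : ℝ} (d0 : 0 ≤ d) (d1 : d ≤ 3 / 5) (hs : p + q + r = 1 + d)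
    (p0 : 0 ≤ p) (q0 : 0 ≤ q) (r0 : 0 ≤ r) (p1 : p ≤ 1) (q1 : q ≤ 1) (r1 : r ≤ 1) (jq : q ≤ d) :
    mp d p q r + bb (d - q) + 1 / 2 * p + 7 / 20 * d ≤ 13 / 10 := by
  obtain rfl : r = 1 + d - p - q := by linarith
  have h := certF (y := yv d p q 0 0 0 0 0 0)
    (gs := [(.v 2),
      (.add (.c (3)) (.mul (.c (-5)) (.v 2))),
      (.v 3),
      (.v 5),
      (.add (.add (.c (1)) (.v 2)) (.add (.mul (.c (-1)) (.v 3)) (.mul (.c (-1)) (.v 5)))),
      (.add (.c (1)) (.mul (.c (-1)) (.v 3))),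
      (.add (.c (1)) (.mul (.c (-1)) (.v 5))),
      (.add (.mul (.c (-1)) (.v 2)) (.add (.v 3) (.v 5))),
      (.add (.v 2) (.mul (.c (-1)) (.v 5)))])
    (p := (.add (.add (.add (.add (.c (38)) (.mul (.c (84)) (.v 2))) (.add (.mul (.c (-90)) (.v 3)) (.mul (.c (-90)) (.mul (.v 2) (.v 2))))) (.add (.add (.mul (.c (-45)) (.v 5)) (.mul (.c (-15)) (.mul (.mul (.v 2) (.v 2)) (.v 2)))) (.add (.mul (.c (60)) (.mul (.v 3) (.v 3))) (.mul (.c (60)) (.mul (.v 2) (.v 5)))))) (.add (.add (.add (.mul (.c (60)) (.mul (.mul (.v 2) (.v 2)) (.v 3))) (.mul (.c (60)) (.mul (.v 3) (.v 5)))) (.add (.mul (.c (-60)) (.mul (.mul (.v 2) (.v 3)) (.v 3))) (.mul (.c (45)) (.mul (.mul (.v 2) (.v 2)) (.v 5))))) (.add (.add (.mul (.c (30)) (.mul (.v 5) (.v 5))) (.mul (.c (-60)) (.mul (.mul (.v 2) (.v 3)) (.v 5)))) (.add (.mul (.c (-45)) (.mul (.mul (.v 2) (.v 5)) (.v 5))) (.mul (.c (-5)) (.mul (.mul (.v 5) (.v 5)) (.v 5))))))))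
    (M := 624999999) (k1 := 17) (s1 := 0x920500000000000000011c2fcee4186180000000000000005e8c41100814600000000000000017a2b4b681c1180000000000000028039fdbe030460000000000000000e81edfdc145080000000000000002037195301042000000000000000148e3e6641c90800000000000000011e7ee540224200000000000000005090a81c2461000000000000000069cd9722030c40000000000000000eed65968141100000000000000013caecdfa0920400000000000000004b8914f81c810000000000000001438f7a66041040000000000000003834df068004100000000000000004cdbf8570000400000000000000009658c500) (k2 := 2) (s2 := 0x80808080808080b280611c0000000000000000020c093602020202020202ca01842000000000000000000068487)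
    (by decide +kernel) (yv_nonneg d0 p0 q0 (le_refl 0) (le_refl 0) (le_refl 0) (le_refl 0) (le_refl 0) (le_refl 0))
    (by
      simp only [List.forall_mem_cons, exadd, exmul, exc, exv2, exv3, exv5]
      push_cast
      refine ⟨?_, ?_, ?_, ?_, ?_, ?_, ?_, ?_, ?_, fun _ hh => absurd hh List.not_mem_nil⟩ <;> linarith)
  simp only [exadd, exmul, exc, exv2, exv3, exv5] at h
  push_cast at h
  simp only [mp, bb]
  linarith only [h]

theorem g4_Jpq {d p q r : ℝ} (d0 : 0 ≤ d) (d1 : d ≤ 3 / 5) (hs : p + q + r = 1 + d)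
    (p0 : 0 ≤ p) (q0 : 0 ≤ q) (r0 : 0 ≤ r) (p1 : p ≤ 1) (q1 : q ≤ 1) (r1 : r ≤ 1) (jp : p ≤ d) (jq : q ≤ d) :
    mp d p q r + bb (d - p) + bb (d - q) + 1 / 2 * p + 7 / 20 * d ≤ 13 / 10 := by
  obtain rfl : r = 1 + d - p - q := by linarith
  have h := certF (y := yv d p q 0 0 0 0 0 0)
    (gs := [(.v 2),
      (.add (.c (3)) (.mul (.c (-5)) (.v 2))),
      (.v 3),
      (.v 5),
      (.add (.add (.c (1)) (.v 2)) (.add (.mul (.c (-1)) (.v 3)) (.mul (.c (-1)) (.v 5)))),
      (.add (.c (1)) (.mul (.c (-1)) (.v 3))),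
      (.add (.c (1)) (.mul (.c (-1)) (.v 5))),
      (.add (.mul (.c (-1)) (.v 2)) (.add (.v 3) (.v 5))),
      (.add (.v 2) (.mul (.c (-1)) (.v 3))),
      (.add (.v 2) (.mul (.c (-1)) (.v 5)))])
    (p := (.add (.add (.add (.add (.c (38)) (.mul (.c (69)) (.v 2))) (.add (.mul (.c (-75)) (.v 3)) (.mul (.c (-120)) (.mul (.v 2) (.v 2))))) (.add (.add (.mul (.c (-45)) (.v 5)) (.mul (.c (60)) (.mul (.v 2) (.v 3)))) (.add (.mul (.c (-10)) (.mul (.mul (.v 2) (.v 2)) (.v 2))) (.add (.mul (.c (30)) (.mul (.v 3) (.v 3))) (.mul (.c (60)) (.mul (.v 2) (.v 5))))))) (.add (.add (.add (.mul (.c (45)) (.mul (.mul (.v 2) (.v 2)) (.v 3))) (.mul (.c (60)) (.mul (.v 3) (.v 5)))) (.add (.mul (.c (-45)) (.mul (.mul (.v 2) (.v 3)) (.v 3))) (.mul (.c (45)) (.mul (.mul (.v 2) (.v 2)) (.v 5))))) (.add (.add (.mul (.c (30)) (.mul (.v 5) (.v 5))) (.mul (.c (-5)) (.mul (.mul (.v 3) (.v 3)) (.v 3)))) (.add (.mul (.c (-60)) (.mul (.mul (.v 2) (.v 3)) (.v 5))) (.add (.mul (.c (-45))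 (.mul (.mul (.v 2) (.v 5)) (.v 5))) (.mul (.c (-5)) (.mul (.mul (.v 5) (.v 5)) (.v 5)))))))))
    (M := 1249999) (k1 := 19) (s1 := 0x81480000000000000000005023b90412000000000000000000008b3bca14400000000000000000261cf541c3100000000000000000012ddf4ca104000000000000000002710c8000410000000000000000009bc02b0920900000000000000000208cba21c72400000000000000000266f6dc51490000000000000000008c31d80c3240000000000000000062f5d040009000000000000000000219be820808000000000000000000b5980ca1c2000000000000000000020ed114508000000000000000001c0a7f01042000000000000000000cbf511109080000000000000000042fac5c22420000000000000000004cc79428608000000000000000000eee15c31820000000000000000005701f2) (k2 := 0) (s2 := 0x0)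
    (by decide +kernel) (yv_nonneg d0 p0 q0 (le_refl 0) (le_refl 0) (le_refl 0) (le_refl 0) (le_refl 0) (le_refl 0))
    (by
      simp only [List.forall_mem_cons, exadd, exmul, exc, exv2, exv3, exv5]
      push_cast
      refine ⟨?_, ?_, ?_, ?_, ?_, ?_, ?_, ?_, ?_, ?_, fun _ hh => absurd hh List.not_mem_nil⟩ <;> linarith)
  simp only [exadd, exmul, exc, exv2, exv3, exv5] at h
  push_cast at h
  simp only [mp, bb]
  linarith only [h]

theorem g4_Jqr {d p q r : ℝ} (d0 : 0 ≤ d) (d1 : d ≤ 3 / 5) (hs : p + q + r = 1 + d)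
    (p0 : 0 ≤ p) (q0 : 0 ≤ q) (r0 : 0 ≤ r) (p1 : p ≤ 1) (q1 : q ≤ 1) (r1 : r ≤ 1) (jq : q ≤ d) (jr : r ≤ d) :
    mp d p q r + bb (d - q) + bb (d - r) + 1 / 2 * p + 7 / 20 * d ≤ 13 / 10 := by
  obtain rfl : r = 1 + d - p - q := by linarith
  have h := certF (y := yv d p q 0 0 0 0 0 0)
    (gs := [(.v 2),
      (.add (.c (3)) (.mul (.c (-5)) (.v 2))),
      (.v 3),
      (.v 5),
      (.add (.add (.c (1)) (.v 2)) (.add (.mul (.c (-1)) (.v 3)) (.mul (.c (-1)) (.v 5)))),
      (.add (.c (1)) (.mul (.c (-1)) (.v 3))),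
      (.add (.c (1)) (.mul (.c (-1)) (.v 5))),
      (.add (.mul (.c (-1)) (.v 2)) (.add (.v 3) (.v 5))),
      (.add (.v 2) (.mul (.c (-1)) (.v 5))),
      (.add (.c (-1)) (.add (.v 3) (.v 5)))])
    (p := (.add (.add (.add (.add (.c (18)) (.mul (.c (84)) (.v 2))) (.add (.mul (.c (-30)) (.v 3)) (.mul (.c (-90)) (.mul (.v 2) (.v 2))))) (.add (.add (.mul (.c (15)) (.v 5)) (.mul (.c (-15)) (.mul (.mul (.v 2) (.v 2)) (.v 2)))) (.add (.mul (.c (15)) (.mul (.v 3) (.v 3))) (.add (.mul (.c (60)) (.mul (.v 2) (.v 5))) (.mul (.c (60)) (.mul (.mul (.v 2) (.v 2)) (.v 3))))))) (.add (.add (.add (.mul (.c (-30)) (.mul (.v 3) (.v 5))) (.mul (.c (-60)) (.mul (.mul (.v 2) (.v 3)) (.v 3)))) (.add (.mul (.c (45)) (.mul (.mul (.v 2) (.v 2)) (.v 5))) (.mul (.c (-15)) (.mul (.v 5) (.v 5))))) (.add (.add (.mul (.c (5)) (.mul (.mul (.v 3) (.v 3)) (.v 3))) (.mul (.c (-60)) (.mul (.mul (.v 2) (.v 3)) (.v 5)))) (.add (.mul (.c (15)) (.mul (.mul (.v 3) (.v 3)) (.v 5))) (.add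 (.mul (.c (-45)) (.mul (.mul (.v 2) (.v 5)) (.v 5))) (.mul (.c (15)) (.mul (.mul (.v 3) (.v 5)) (.v 5)))))))))
    (M := 1249999) (k1 := 19) (s1 := 0x81450000000000000000001650e41041000000000000000000024d61420410000000000000000003b83aa249240000000000000000000ca5e400890000000000000000008e5f6c208240000000000000000007a7150420900000000000000000143f83b28a2800000000000000000035e35071ca00000000000000000013b4a11c528000000000000000004941e1c014a00000000000000000035443b10228000000000000000003e61498208a00000000000000000030aa5e14518000000000000000000a7619c3186000000000000000000656a030061800000000000000000c6ae7383046000000000000000004a7c66f04118000000000000000000907ab80006000000000000000000aba950) (k2 := 0) (s2 := 0x0)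
    (by decide +kernel) (yv_nonneg d0 p0 q0 (le_refl 0) (le_refl 0) (le_refl 0) (le_refl 0) (le_refl 0) (le_refl 0))
    (by
      simp only [List.forall_mem_cons, exadd, exmul, exc, exv2, exv3, exv5]
      push_cast
      refine ⟨?_, ?_, ?_, ?_, ?_, ?_, ?_, ?_, ?_, ?_, fun _ hh => absurd hh List.not_mem_nil⟩ <;> linarith)
  simp only [exadd, exmul, exc, exv2, exv3, exv5] at h
  push_cast at h
  simp only [mp, bb]
  linarith only [h]

theorem g4_Jpqr {d p q r : ℝ} (d0 : 0 ≤ d) (d1 : d ≤ 3 / 5) (hs : p + q + r = 1 + d)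
    (p0 : 0 ≤ p) (q0 : 0 ≤ q) (r0 : 0 ≤ r) (p1 : p ≤ 1) (q1 : q ≤ 1) (r1 : r ≤ 1) (jp : p ≤ d) (jq : q ≤ d) (jr : r ≤ d) :
    mp d p q r + bb (d - p) + bb (d - q) + bb (d - r) + 1 / 2 * p + 7 / 20 * d ≤ 13 / 10 := by
  obtain rfl : r = 1 + d - p - q := by linarith
  have h := certF (y := yv d p q 0 0 0 0 0 0)
    (gs := [(.v 2),
      (.add (.c (3)) (.mul (.c (-5)) (.v 2))),
      (.v 3),
      (.v 5),
      (.add (.add (.c (1)) (.v 2)) (.add (.mul (.c (-1)) (.v 3)) (.mul (.c (-1)) (.v 5)))),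
      (.add (.c (1)) (.mul (.c (-1)) (.v 3))),
      (.add (.c (1)) (.mul (.c (-1)) (.v 5))),
      (.add (.mul (.c (-1)) (.v 2)) (.add (.v 3) (.v 5))),
      (.add (.v 2) (.mul (.c (-1)) (.v 3))),
      (.add (.v 2) (.mul (.c (-1)) (.v 5))),
      (.add (.c (-1)) (.add (.v 3) (.v 5)))])
    (p := (.add (.add (.add (.add (.c (18)) (.mul (.c (69)) (.v 2))) (.add (.mul (.c (-15)) (.v 3)) (.mul (.c (-120)) (.mul (.v 2) (.v 2))))) (.add (.add (.mul (.c (15)) (.v 5)) (.mul (.c (60)) (.mul (.v 2) (.v 3)))) (.add (.mul (.c (-10)) (.mul (.mul (.v 2) (.v 2)) (.v 2))) (.add (.mul (.c (-15)) (.mul (.v 3) (.v 3))) (.mul (.c (60)) (.mul (.v 2) (.v 5))))))) (.add (.add (.add (.mul (.c (45)) (.mul (.mul (.v 2) (.v 2)) (.v 3))) (.mul (.c (-30)) (.mul (.v 3) (.v 5)))) (.add (.mul (.c (-45)) (.mul (.mul (.v 2) (.v 3)) (.v 3))) (.mul (.c (45)) (.mul (.mul (.v 2) (.v 2)) (.v 5))))) (.add (.add (.mul (.c (-15)) (.mul (.v 5) (.v 5))) (.mul (.c (-60)) (.mul (.mul (.v 2)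 (.v 3)) (.v 5)))) (.add (.mul (.c (15)) (.mul (.mul (.v 3) (.v 3)) (.v 5))) (.add (.mul (.c (-45)) (.mul (.mul (.v 2) (.v 5)) (.v 5))) (.mul (.c (15)) (.mul (.mul (.v 3) (.v 5)) (.v 5)))))))))
    (M := 1249999) (k1 := 19) (s1 := 0xa18a00000000000000000000e48414b28000000000000000009d7466042ca00000000000000000275d4861c7080000000000000000009361b05142000000000000000000d585c218b08000000000000000000c3837c02c20000000000000000015147ed20a0800000000000000000220671c128200000000000000000056db280000800000000000000000103725c82090000000000000000025defec18624000000000000000001337178208900000000000000000000fcf910124000000000000000003cff3c060c9000000000000000000419ed414324000000000000000009a4aa20b1c9000000000000000001071d082472400000000000000000030883801c9000000000000000001e773b2) (k2 := 0) (s2 := 0x0)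
    (by decide +kernel) (yv_nonneg d0 p0 q0 (le_refl 0) (le_refl 0) (le_refl 0) (le_refl 0) (le_refl 0) (le_refl 0))
    (by
      simp only [List.forall_mem_cons, exadd, exmul, exc, exv2, exv3, exv5]
      push_cast
      refine ⟨?_, ?_, ?_, ?_, ?_, ?_, ?_, ?_, ?_, ?_, ?_, fun _ hh => absurd hh List.not_mem_nil⟩ <;> linarith)
  simp only [exadd, exmul, exc, exv2, exv3, exv5] at h
  push_cast at h
  simp only [mp, bb]
  linarith only [h]

theorem g4_Np {d p q r a : ℝ} (d0 : 0 ≤ d) (d1 : d ≤ 3 / 5) (hs : p + q + r = 1 + d)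
    (p0 : p ≤ 0) (q0 : 0 ≤ q) (r0 : 0 ≤ r) (q1 : q ≤ 1) (r1 : r ≤ 1) (a0 : 0 ≤ a)
    (a1 : a ≤ 13 / 20) (ao : a ≤ d - p) :
    mp d p q r + (-p) ^ 3 / 3 + bb a + 1 / 2 * p + 7 / 20 * d ≤ 13 / 10 := by
  obtain ⟨n, rfl⟩ : ∃ n, p = -n := ⟨-p, by ring⟩
  have n0 : 0 ≤ n := by linarith
  obtain rfl : r = 1 + d + n - q := by linarith
  have h := certF (y := yv d n q a 0 0 0 0 0)
    (gs := [(.v 2),
      (.add (.c (3)) (.mul (.c (-5)) (.v 2))),
      (.v 3),
      (.v 5),
      (.add (.add (.c (1)) (.v 2)) (.add (.v 3) (.mul (.c (-1)) (.v 5)))),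
      (.add (.c (1)) (.mul (.c (-1)) (.v 5))),
      (.add (.mul (.c (-1)) (.v 2)) (.add (.mul (.c (-1)) (.v 3)) (.v 5))),
      (.v 7),
      (.add (.c (13)) (.mul (.c (-20)) (.v 7))),
      (.add (.v 2) (.add (.v 3) (.mul (.c (-1)) (.v 7))))])
    (p := (.add (.add (.add (.add (.c (38)) (.mul (.c (99)) (.v 2))) (.add (.mul (.c (90)) (.v 3)) (.mul (.c (-60)) (.mul (.v 2) (.v 2))))) (.add (.add (.mul (.c (-60)) (.v 5)) (.mul (.c (-15)) (.v 7))) (.add (.mul (.c (-20)) (.mul (.mul (.v 2) (.v 2)) (.v 2))) (.add (.mul (.c (60)) (.mul (.v 3) (.v 3))) (.mul (.c (-60)) (.mul (.mul (.v 2) (.v 2)) (.v 3))))))) (.add (.add (.add (.mul (.c (-60)) (.mul (.v 3) (.v 5))) (.mul (.c (-60)) (.mul (.mul (.v 2) (.v 3)) (.v 3)))) (.add (.mul (.c (60)) (.mul (.mul (.v 2) (.v 2)) (.v 5))) (.mul (.c (60)) (.mul (.v 5) (.v 5))))) (.add (.add (.mul (.c (-20)) (.mul (.mul (.v 3) (.v 3)) (.v 3))) (.mul (.c (60)) (.mul (.mul (.v 2) (.v 3)) (.v 5)))) (.add (.mul (.c (-30)) (.mul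 (.v 7) (.v 7))) (.add (.mul (.c (-60)) (.mul (.mul (.v 2) (.v 5)) (.v 5))) (.mul (.c (5)) (.mul (.mul (.v 7) (.v 7)) (.v 7)))))))))
    (M := 19999999) (k1 := 34) (s1 := 0x1c71c00000000000000003d627a4041070000000000000000087e862024618000000000000000000001d106186000000000000000017d75390186040000000000000000524bf800714100000000000000003986c9d024104000000000000000002074d40708100000000000000000f3673b014204000000000000000018202d401081000000000000000000000e1024920000000000000000000326aa802480000000000000000023e9e6c1c820000000000000000060ad0c4062080000000000000000182b71f01452000000000000000005f7855004148000000000000000003e83b6008520000000000000000000222900a28a00000000000000000a5472202492800000000000000000008b71c71ca0000000000000000030541201462800000000000000007be3d840418a00000000000000000e08c470282280000000000000000082e36c0408a000000000000000001544f10000280000000000000000bbbfb880920300000000000000000082e36c1c70c000000000000000029075e80a183000000000000000006d03e901450c000000000000000037350840410300000000000000000a83a6800020c000000000000000012d9b54080c300000000000000000a2453601c30c0000000000000000b79f7ec010c3000000000000000000004650)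 (k2 := 0) (s2 := 0x0)
    (by decide +kernel) (yv_nonneg d0 n0 q0 a0 (le_refl 0) (le_refl 0) (le_refl 0) (le_refl 0) (le_refl 0))
    (by
      simp only [List.forall_mem_cons, exadd, exmul, exc, exv2, exv3, exv5, exv7]
      push_cast
      refine ⟨?_, ?_, ?_, ?_, ?_, ?_, ?_, ?_, ?_, ?_, fun _ hh => absurd hh List.not_mem_nil⟩ <;> linarith)
  simp only [exadd, exmul, exc, exv2, exv3, exv5, exv7] at h
  push_cast at h
  simp only [mp, bb, neg_neg]
  linarith only [h]

theorem g4_Nq {d p q r a : ℝ} (d0 : 0 ≤ d) (d1 : d ≤ 3 / 5) (hs : p + q + r = 1 + d)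
    (q0 : q ≤ 0) (p0 : 0 ≤ p) (r0 : 0 ≤ r) (p1 : p ≤ 1) (r1 : r ≤ 1) (a0 : 0 ≤ a)
    (a1 : a ≤ 13 / 20) (ao : a ≤ d - q) :
    mp d q p r + (-q) ^ 3 / 3 + bb a + 1 / 2 * p + 7 / 20 * d ≤ 13 / 10 := by
  obtain ⟨n, rfl⟩ : ∃ n, q = -n := ⟨-q, by ring⟩
  have n0 : 0 ≤ n := by linarith
  obtain rfl : r = 1 + d + n - p := by linarith
  have h := certF (y := yv d n p a 0 0 0 0 0)
    (gs := [(.v 2),
      (.add (.c (3)) (.mul (.c (-5)) (.v 2))),
      (.v 3),
      (.v 5),
      (.add (.add (.c (1)) (.v 2)) (.add (.v 3) (.mul (.c (-1)) (.v 5)))),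
      (.add (.c (1)) (.mul (.c (-1)) (.v 5))),
      (.add (.mul (.c (-1)) (.v 2)) (.add (.mul (.c (-1)) (.v 3)) (.v 5))),
      (.v 7),
      (.add (.c (13)) (.mul (.c (-20)) (.v 7))),
      (.add (.v 2) (.add (.v 3) (.mul (.c (-1)) (.v 7))))])
    (p := (.add (.add (.add (.add (.c (38)) (.mul (.c (99)) (.v 2))) (.add (.mul (.c (60)) (.v 3)) (.mul (.c (-60)) (.mul (.v 2) (.v 2))))) (.add (.add (.mul (.c (-90)) (.v 5)) (.mul (.c (-15)) (.v 7))) (.add (.mul (.c (-20)) (.mul (.mul (.v 2) (.v 2)) (.v 2))) (.add (.mul (.c (60)) (.mul (.v 3) (.v 3))) (.mul (.c (-60)) (.mul (.mul (.v 2) (.v 2)) (.v 3))))))) (.add (.add (.add (.mul (.c (-60)) (.mul (.v 3) (.v 5))) (.mul (.c (-60)) (.mul (.mul (.v 2) (.v 3)) (.v 3)))) (.add (.mul (.c (60)) (.mul (.mul (.v 2) (.v 2)) (.v 5))) (.mul (.c (60)) (.mul (.v 5) (.v 5))))) (.add (.add (.mul (.c (-20)) (.mul (.mul (.v 3) (.v 3)) (.v 3))) (.mul (.c (60)) (.mul (.mul (.v 2) (.v 3)) (.v 5)))) (.add (.mul (.c (-30)) (.mul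 (.v 7) (.v 7))) (.add (.mul (.c (-60)) (.mul (.mul (.v 2) (.v 5)) (.v 5))) (.mul (.c (5)) (.mul (.mul (.v 7) (.v 7)) (.v 7)))))))))
    (M := 499999999) (k1 := 31) (s1 := 0x71c70000000000000000578788201c30c0000000000000001cb2e0c8000c30000000000000000b754387020420000000000000000291710dc0914800000000000000000cfde1c81452000000000000000003c33fcc071c1000000000000000051582090101040000000000000001f91d15007141000000000000000136e33ff0085040000000000000001ae9752c092410000000000000000000001770890400000000000000001a1e8470024100000000000000003f8f5eb41c528000000000000000626f6eb0000ca000000000000000341a600602482800000000000000001dcc72d0720a000000000000000198cf4dd0008280000000000000008a3435fc0a08a000000000000000000007530082280000000000000000687acd40008a00000000000000000926a6c024818000000000000000025cb915051460000000000000000b52c9d800c318000000000000000c2d503a000046000000000000000524ff2f2028a18000000000000000331840ec042860000000000000003654766801c61800000000000000062d6a87806186000000000000000259187670106180000000000000004ad7b2d003186000000000000000616988ca0)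 (k2 := 1) (s2 := 0x2020202020202ca0201849000000000000000000068b38)
    (by decide +kernel) (yv_nonneg d0 n0 p0 a0 (le_refl 0) (le_refl 0) (le_refl 0) (le_refl 0) (le_refl 0))
    (by
      simp only [List.forall_mem_cons, exadd, exmul, exc, exv2, exv3, exv5, exv7]
      push_cast
      refine ⟨?_, ?_, ?_, ?_, ?_, ?_, ?_, ?_, ?_, ?_, fun _ hh => absurd hh List.not_mem_nil⟩ <;> linarith)
  simp only [exadd, exmul, exc, exv2, exv3, exv5, exv7] at h
  push_cast at h
  simp only [mp, bb, neg_neg]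
  linarith only [h]

theorem g4 {V d p q r : ℝ} (h : GR V d p q r) : V + 1 / 2 * p + 7 / 20 * d ≤ 13 / 10 := by
  rcases h.cs with h1 | h1 | h1 | h1
  · obtain ⟨p0, q0, r0, A, B, E, hA, hB, hE, hv⟩ := h1
    have e1 : mp d p r q = mp d p q r := by unfold mp; ring
    have e2 : mp d q p r = mp d p q r := by unfold mp; ring
    have e3 : mp d q r p = mp d p q r := by unfold mp; ring
    have e4 : mp d r p q = mp d p q r := by unfold mp; ring
    have e5 : mp d r q p = mp d p q r := by unfold mp; ring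
    rcases hA with hA | ⟨jp, hA⟩ <;> rcases hB with hB | ⟨jq, hB⟩ <;> rcases hE with hE | ⟨jr, hE⟩
    · have := g4_J (p := p) (q := q) (r := r) h.d0 h.d1 (by linarith [h.s]) p0 q0 r0 h.p1 h.q1 h.r1
      linarith
    · have := g4_Jq (p := p) (q := r) (r := q) h.d0 h.d1 (by linarith [h.s]) p0 r0 q0 h.p1 h.r1 h.q1 jr
      linarith
    · have := g4_Jq (p := p) (q := q) (r := r) h.d0 h.d1 (by linarith [h.s]) p0 q0 r0 h.p1 h.q1 h.r1 jq
      linarith
    · have := g4_Jqr (p := p) (q := q) (r := r) h.d0 h.d1 (by linarith [h.s]) p0 q0 r0 h.p1 h.q1 h.r1 jq jr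
      linarith
    · have := g4_Jp (p := p) (q := q) (r := r) h.d0 h.d1 (by linarith [h.s]) p0 q0 r0 h.p1 h.q1 h.r1 jp
      linarith
    · have := g4_Jpq (p := p) (q := r) (r := q) h.d0 h.d1 (by linarith [h.s]) p0 r0 q0 h.p1 h.r1 h.q1 jp jr
      linarith
    · have := g4_Jpq (p := p) (q := q) (r := r) h.d0 h.d1 (by linarith [h.s]) p0 q0 r0 h.p1 h.q1 h.r1 jp jq
      linarith
    · have := g4_Jpqr (p := p) (q := q) (r := r) h.d0 h.d1 (by linarith [h.s]) p0 q0 r0 h.p1 h.q1 h.r1 jp jq jr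
      linarith
  · obtain ⟨p0, q0, r0, a, a0, a1, ao, hv⟩ := h1
    have := g4_Np h.d0 h.d1 h.s p0 q0 r0 h.q1 h.r1 a0 a1 ao
    linarith
  · obtain ⟨q0, p0, r0, a, a0, a1, ao, hv⟩ := h1
    have := g4_Nq h.d0 h.d1 h.s q0 p0 r0 h.p1 h.r1 a0 a1 ao
    linarith
  · obtain ⟨r0, p0, q0, a, a0, a1, ao, hv⟩ := h1
    have := g4_Nq (p := p) (q := r) (r := q) h.d0 h.d1 (by linarith [h.s]) r0 p0 q0 h.p1 h.q1 a0 a1 ao
    linarith

theorem g6_J {d p q r : ℝ} (d0 : 0 ≤ d) (d1 : d ≤ 3 / 5) (hs : p + q + r = 1 + d)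
    (p0 : 0 ≤ p) (q0 : 0 ≤ q) (r0 : 0 ≤ r) (p1 : p ≤ 1) (q1 : q ≤ 1) (r1 : r ≤ 1) :
    mp d p q r + 3 / 5 * p + 1 / 4 * d ≤ 133 / 100 := by
  obtain rfl : r = 1 + d - p - q := by linarith
  have h := certF (y := yv d p q 0 0 0 0 0 0)
    (gs := [(.v 2),
      (.add (.c (3)) (.mul (.c (-5)) (.v 2))),
      (.v 3),
      (.v 5),
      (.add (.add (.c (1)) (.v 2)) (.add (.mul (.c (-1)) (.v 3)) (.mul (.c (-1)) (.v 5)))),
      (.add (.c (1)) (.mul (.c (-1)) (.v 3))),
      (.add (.c (1)) (.mul (.c (-1)) (.v 5))),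
      (.add (.mul (.c (-1)) (.v 2)) (.add (.v 3) (.v 5)))])
    (p := (.add (.add (.add (.c (199)) (.add (.mul (.c (525)) (.v 2)) (.mul (.c (-480)) (.v 3)))) (.add (.add (.mul (.c (-300)) (.mul (.v 2) (.v 2))) (.mul (.c (-300)) (.v 5))) (.add (.mul (.c (-100)) (.mul (.mul (.v 2) (.v 2)) (.v 2))) (.mul (.c (300)) (.mul (.v 3) (.v 3)))))) (.add (.add (.mul (.c (300)) (.mul (.mul (.v 2) (.v 2)) (.v 3))) (.add (.mul (.c (300)) (.mul (.v 3) (.v 5))) (.mul (.c (-300)) (.mul (.mul (.v 2) (.v 3)) (.v 3))))) (.add (.add (.mul (.c (300)) (.mul (.mul (.v 2) (.v 2)) (.v 5))) (.mul (.c (300)) (.mul (.v 5) (.v 5)))) (.add (.mul (.c (-300)) (.mul (.mul (.v 2) (.v 3)) (.v 5))) (.mul (.c (-300)) (.mul (.mul (.v 2) (.v 5)) (.v 5))))))))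
    (M := 24999999) (k1 := 13) (s1 := 0x814500000000000000002d2bcc081c51400000000000000009396e5e061450000000000000000713b6d401c6040000000000000007ac958090814100000000000000011f04ca980820400000000000000001d4ec88051010000000000000000a48b4c74104040000000000000000d5239940210100000000000000004e088e0c143040000000000000003bb9731f040c1000000000000000006e490840c30400000000000000009d060f2020c100000000000000004da31770) (k2 := 6) (s2 := 0x8080808080806fe480332000000000000000000005b0ee0202020202015eca0168400000000000000000000b66a808080808080b297806d0c0000000000000000002060a2020202020202c996025c5000000000000000000017dc6808080808080e4a1805d000000000000000000001d998a020202020202026601bc00000000000000000005ea274)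
    (by decide +kernel) (yv_nonneg d0 p0 q0 (le_refl 0) (le_refl 0) (le_refl 0) (le_refl 0) (le_refl 0) (le_refl 0))
    (by
      simp only [List.forall_mem_cons, exadd, exmul, exc, exv2, exv3, exv5]
      push_cast
      refine ⟨?_, ?_, ?_, ?_, ?_, ?_, ?_, ?_, fun _ hh => absurd hh List.not_mem_nil⟩ <;> linarith)
  simp only [exadd, exmul, exc, exv2, exv3, exv5] at h
  push_cast at h
  simp only [mp, bb]
  linarith only [h]

theorem g6_Jp {d p q r : ℝ} (d0 : 0 ≤ d) (d1 : d ≤ 3 / 5) (hs : p + q + r = 1 + d)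
    (p0 : 0 ≤ p) (q0 : 0 ≤ q) (r0 : 0 ≤ r) (p1 : p ≤ 1) (q1 : q ≤ 1) (r1 : r ≤ 1) (jp : p ≤ d) :
    mp d p q r + bb (d - p) + 3 / 5 * p + 1 / 4 * d ≤ 133 / 100 := by
  obtain rfl : r = 1 + d - p - q := by linarith
  have h := certF (y := yv d p q 0 0 0 0 0 0)
    (gs := [(.v 2),
      (.add (.c (3)) (.mul (.c (-5)) (.v 2))),
      (.v 3),
      (.v 5),
      (.add (.add (.c (1)) (.v 2)) (.add (.mul (.c (-1)) (.v 3)) (.mul (.c (-1)) (.v 5)))),
      (.add (.c (1)) (.mul (.c (-1)) (.v 3))),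
      (.add (.c (1)) (.mul (.c (-1)) (.v 5))),
      (.add (.mul (.c (-1)) (.v 2)) (.add (.v 3) (.v 5))),
      (.add (.v 2) (.mul (.c (-1)) (.v 3)))])
    (p := (.add (.add (.add (.add (.c (199)) (.mul (.c (450)) (.v 2))) (.add (.mul (.c (-405)) (.v 3)) (.mul (.c (-450)) (.mul (.v 2) (.v 2))))) (.add (.add (.mul (.c (-300)) (.v 5)) (.mul (.c (300)) (.mul (.v 2) (.v 3)))) (.add (.mul (.c (-75)) (.mul (.mul (.v 2) (.v 2)) (.v 2))) (.mul (.c (150)) (.mul (.v 3) (.v 3)))))) (.add (.add (.add (.mul (.c (225)) (.mul (.mul (.v 2) (.v 2)) (.v 3))) (.mul (.c (300)) (.mul (.v 3) (.v 5)))) (.add (.mul (.c (-225)) (.mul (.mul (.v 2) (.v 3)) (.v 3))) (.mul (.c (300)) (.mul (.mul (.v 2) (.v 2)) (.v 5))))) (.add (.add (.mul (.c (300)) (.mul (.v 5) (.v 5))) (.mul (.c (-25)) (.mul (.mul (.v 3) (.v 3)) (.v 3)))) (.add (.mul (.c (-300)) (.mul (.mul (.v 2) (.v 3)) (.v 5))) (.mul (.c (-300)) (.mul (.mul (.v 2) (.v 5)) (.v 5))))))))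
    (M := 49999) (k1 := 19) (s1 := 0x51450000000000000000001d3b021832400000000000000000014114400090000000000000000004b590124820000000000000000000190e9c41080000000000000000004c4a0f0c3200000000000000000002d9ba050480000000000000000003cc34b2460800000000000000000063b96451420000000000000000000000630c3080000000000000000003d0adc50420000000000000000000663ae101080000000000000000002dc210920700000000000000000100ee6a0c81c000000000000000002a076c891c700000000000000000018171c1471c000000000000000000bc3ec8904700000000000000000016cc0e1811c0000000000000000003cab181047000000000000000000015351) (k2 := 0) (s2 := 0x0)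
    (by decide +kernel) (yv_nonneg d0 p0 q0 (le_refl 0) (le_refl 0) (le_refl 0) (le_refl 0) (le_refl 0) (le_refl 0))
    (by
      simp only [List.forall_mem_cons, exadd, exmul, exc, exv2, exv3, exv5]
      push_cast
      refine ⟨?_, ?_, ?_, ?_, ?_, ?_, ?_, ?_, ?_, fun _ hh => absurd hh List.not_mem_nil⟩ <;> linarith)
  simp only [exadd, exmul, exc, exv2, exv3, exv5] at h
  push_cast at h
  simp only [mp, bb]
  linarith only [h]

theorem g6_Jq {d p q r : ℝ} (d0 : 0 ≤ d) (d1 : d ≤ 3 / 5) (hs : p + q + r = 1 + d)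
    (p0 : 0 ≤ p) (q0 : 0 ≤ q) (r0 : 0 ≤ r) (p1 : p ≤ 1) (q1 : q ≤ 1) (r1 : r ≤ 1) (jq : q ≤ d) :
    mp d p q r + bb (d - q) + 3 / 5 * p + 1 / 4 * d ≤ 133 / 100 := by
  obtain rfl : r = 1 + d - p - q := by linarith
  have h := certF (y := yv d p q 0 0 0 0 0 0)
    (gs := [(.v 2),
      (.add (.c (3)) (.mul (.c (-5)) (.v 2))),
      (.v 3),
      (.v 5),
      (.add (.add (.c (1)) (.v 2)) (.add (.mul (.c (-1)) (.v 3)) (.mul (.c (-1)) (.v 5)))),
      (.add (.c (1)) (.mul (.c (-1)) (.v 3))),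
      (.add (.c (1)) (.mul (.c (-1)) (.v 5))),
      (.add (.mul (.c (-1)) (.v 2)) (.add (.v 3) (.v 5))),
      (.add (.v 2) (.mul (.c (-1)) (.v 5)))])
    (p := (.add (.add (.add (.add (.c (199)) (.mul (.c (450)) (.v 2))) (.add (.mul (.c (-480)) (.v 3)) (.mul (.c (-450)) (.mul (.v 2) (.v 2))))) (.add (.add (.mul (.c (-225)) (.v 5)) (.mul (.c (-75)) (.mul (.mul (.v 2) (.v 2)) (.v 2)))) (.add (.mul (.c (300)) (.mul (.v 3) (.v 3))) (.mul (.c (300)) (.mul (.v 2) (.v 5)))))) (.add (.add (.add (.mul (.c (300)) (.mul (.mul (.v 2) (.v 2)) (.v 3))) (.mul (.c (300)) (.mul (.v 3) (.v 5)))) (.add (.mul (.c (-300)) (.mul (.mul (.v 2) (.v 3)) (.v 3))) (.mul (.c (225)) (.mul (.mul (.v 2) (.v 2)) (.v 5))))) (.add (.add (.mul (.c (150)) (.mul (.v 5) (.v 5))) (.mul (.c (-300)) (.mul (.mul (.v 2) (.v 3)) (.v 5)))) (.add (.mul (.c (-225)) (.mul (.mul (.v 2) (.v 5)) (.v 5))) (.mul (.c (-25)) (.mul (.mul (.v 5) (.v 5)) (.v 5))))))))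
    (M := 49999999) (k1 := 18) (s1 := 0x186180000000000000000aab3f380814500000000000000002aaab2f0205240000000000000005378947207089000000000000000024e7019808224000000000000000091f0c44071c1000000000000000007ef53881c604000000000000000db71d852031810000000000000001b031b5581420400000000000000004ea23fc01081000000000000000084298ab8208100000000000000002a8dbed4071c40000000000000000be55f7a80c3100000000000000005182870e081840000000000000000a01bee28186100000000000000000d55075a051040000000000000003d0190ec810410000000000000000291ed90c0000400000000000000000d84ec18) (k2 := 1) (s2 := 0x2020202020202039200c4700000000000000000015cb85)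
    (by decide +kernel) (yv_nonneg d0 p0 q0 (le_refl 0) (le_refl 0) (le_refl 0) (le_refl 0) (le_refl 0) (le_refl 0))
    (by
      simp only [List.forall_mem_cons, exadd, exmul, exc, exv2, exv3, exv5]
      push_cast
      refine ⟨?_, ?_, ?_, ?_, ?_, ?_, ?_, ?_, ?_, fun _ hh => absurd hh List.not_mem_nil⟩ <;> linarith)
  simp only [exadd, exmul, exc, exv2, exv3, exv5] at h
  push_cast at h
  simp only [mp, bb]
  linarith only [h]

theorem g6_Jpq {d p q r : ℝ} (d0 : 0 ≤ d) (d1 : d ≤ 3 / 5) (hs : p + q + r = 1 + d)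
    (p0 : 0 ≤ p) (q0 : 0 ≤ q) (r0 : 0 ≤ r) (p1 : p ≤ 1) (q1 : q ≤ 1) (r1 : r ≤ 1) (jp : p ≤ d) (jq : q ≤ d) :
    mp d p q r + bb (d - p) + bb (d - q) + 3 / 5 * p + 1 / 4 * d ≤ 133 / 100 := by
  obtain rfl : r = 1 + d - p - q := by linarith
  have h := certF (y := yv d p q 0 0 0 0 0 0)
    (gs := [(.v 2),
      (.add (.c (3)) (.mul (.c (-5)) (.v 2))),
      (.v 3),
      (.v 5),
      (.add (.add (.c (1)) (.v 2)) (.add (.mul (.c (-1)) (.v 3)) (.mul (.c (-1)) (.v 5)))),
      (.add (.c (1)) (.mul (.c (-1)) (.v 3))),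
      (.add (.c (1)) (.mul (.c (-1)) (.v 5))),
      (.add (.mul (.c (-1)) (.v 2)) (.add (.v 3) (.v 5))),
      (.add (.v 2) (.mul (.c (-1)) (.v 3))),
      (.add (.v 2) (.mul (.c (-1)) (.v 5)))])
    (p := (.add (.add (.add (.add (.c (199)) (.mul (.c (375)) (.v 2))) (.add (.mul (.c (-405)) (.v 3)) (.mul (.c (-600)) (.mul (.v 2) (.v 2))))) (.add (.add (.mul (.c (-225)) (.v 5)) (.mul (.c (300)) (.mul (.v 2) (.v 3)))) (.add (.mul (.c (-50)) (.mul (.mul (.v 2) (.v 2)) (.v 2))) (.add (.mul (.c (150)) (.mul (.v 3) (.v 3))) (.mul (.c (300)) (.mul (.v 2) (.v 5))))))) (.add (.add (.add (.mul (.c (225)) (.mul (.mul (.v 2) (.v 2)) (.v 3))) (.mul (.c (300)) (.mul (.v 3) (.v 5)))) (.add (.mul (.c (-225)) (.mul (.mul (.v 2) (.v 3)) (.v 3))) (.mul (.c (225)) (.mul (.mul (.v 2) (.v 2)) (.v 5))))) (.add (.add (.mul (.c (150)) (.mul (.v 5) (.v 5))) (.mul (.c (-25)) (.mul (.mul (.v 3) (.v 3)) (.v 3)))) (.add (.mul (.c (-300)) (.mul (.mul (.v 2) (.v 3)) (.v 5))) (.add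 (.mul (.c (-225)) (.mul (.mul (.v 2) (.v 5)) (.v 5))) (.mul (.c (-25)) (.mul (.mul (.v 5) (.v 5)) (.v 5)))))))))
    (M := 249999) (k1 := 19) (s1 := 0x60c90000000000000000000ad1240c3240000000000000000030ea82800090000000000000000022410c924920000000000000000005dd8c18514800000000000000000025650c208200000000000000000027c2d546208000000000000000001e25b6628610000000000000000004788be870c4000000000000000001891b5a284100000000000000000048f45180104000000000000000000724539000100000000000000000011812d402820000000000000000006195091c70800000000000000000009eb7451420000000000000000006daf1f18308000000000000000000ccd04410420000000000000000006c6ed910908000000000000000003c298ec22420000000000000000003addd5) (k2 := 0) (s2 := 0x0)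
    (by decide +kernel) (yv_nonneg d0 p0 q0 (le_refl 0) (le_refl 0) (le_refl 0) (le_refl 0) (le_refl 0) (le_refl 0))
    (by
      simp only [List.forall_mem_cons, exadd, exmul, exc, exv2, exv3, exv5]
      push_cast
      refine ⟨?_, ?_, ?_, ?_, ?_, ?_, ?_, ?_, ?_, ?_, fun _ hh => absurd hh List.not_mem_nil⟩ <;> linarith)
  simp only [exadd, exmul, exc, exv2, exv3, exv5] at h
  push_cast at h
  simp only [mp, bb]
  linarith only [h]

theorem g6_Jqr {d p q r : ℝ} (d0 : 0 ≤ d) (d1 : d ≤ 3 / 5) (hs : p + q + r = 1 + d)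
    (p0 : 0 ≤ p) (q0 : 0 ≤ q) (r0 : 0 ≤ r) (p1 : p ≤ 1) (q1 : q ≤ 1) (r1 : r ≤ 1) (jq : q ≤ d) (jr : r ≤ d) :
    mp d p q r + bb (d - q) + bb (d - r) + 3 / 5 * p + 1 / 4 * d ≤ 133 / 100 := by
  obtain rfl : r = 1 + d - p - q := by linarith
  have h := certF (y := yv d p q 0 0 0 0 0 0)
    (gs := [(.v 2),
      (.add (.c (3)) (.mul (.c (-5)) (.v 2))),
      (.v 3),
      (.v 5),
      (.add (.add (.c (1)) (.v 2)) (.add (.mul (.c (-1)) (.v 3)) (.mul (.c (-1)) (.v 5)))),
      (.add (.c (1)) (.mul (.c (-1)) (.v 3))),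
      (.add (.c (1)) (.mul (.c (-1)) (.v 5))),
      (.add (.mul (.c (-1)) (.v 2)) (.add (.v 3) (.v 5))),
      (.add (.v 2) (.mul (.c (-1)) (.v 5))),
      (.add (.c (-1)) (.add (.v 3) (.v 5)))])
    (p := (.add (.add (.add (.add (.c (99)) (.mul (.c (450)) (.v 2))) (.add (.mul (.c (-180)) (.v 3)) (.mul (.c (-450)) (.mul (.v 2) (.v 2))))) (.add (.add (.mul (.c (75)) (.v 5)) (.mul (.c (-75)) (.mul (.mul (.v 2) (.v 2)) (.v 2)))) (.add (.mul (.c (75)) (.mul (.v 3) (.v 3))) (.add (.mul (.c (300)) (.mul (.v 2) (.v 5))) (.mul (.c (300)) (.mul (.mul (.v 2) (.v 2)) (.v 3))))))) (.add (.add (.add (.mul (.c (-150)) (.mul (.v 3) (.v 5))) (.mul (.c (-300)) (.mul (.mul (.v 2) (.v 3)) (.v 3)))) (.add (.mul (.c (225)) (.mul (.mul (.v 2) (.v 2)) (.v 5))) (.mul (.c (-75)) (.mul (.v 5) (.v 5))))) (.add (.add (.mul (.c (25)) (.mul (.mul (.v 3) (.v 3)) (.v 3))) (.mul (.c (-300)) (.mul (.mul (.v 2) (.v 3)) (.v 5)))) (.add (.mul (.c (75)) (.mul (.mul (.v 3) (.v 3)) (.v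 5))) (.add (.mul (.c (-225)) (.mul (.mul (.v 2) (.v 5)) (.v 5))) (.mul (.c (75)) (.mul (.mul (.v 3) (.v 5)) (.v 5)))))))))
    (M := 249999) (k1 := 19) (s1 := 0xa1c7000000000000000000a5bd332082400000000000000000419574030c900000000000000000005ab5e28a14000000000000000001bdb720814500000000000000000145ca0d2491000000000000000000483bd24810400000000000000000001f0951c4100000000000000000066299d0714200000000000000000027ea4828308000000000000000000d1d8a0104200000000000000000092fcca282080000000000000000006eac0c9082000000000000000000147db900418000000000000000000f5049c718600000000000000000058fc5f18618000000000000000001dc04f030460000000000000000011c2e000011800000000000000000f9154ec000600000000000000000118cc47) (k2 := 0) (s2 := 0x0)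
    (by decide +kernel) (yv_nonneg d0 p0 q0 (le_refl 0) (le_refl 0) (le_refl 0) (le_refl 0) (le_refl 0) (le_refl 0))
    (by
      simp only [List.forall_mem_cons, exadd, exmul, exc, exv2, exv3, exv5]
      push_cast
      refine ⟨?_, ?_, ?_, ?_, ?_, ?_, ?_, ?_, ?_, ?_, fun _ hh => absurd hh List.not_mem_nil⟩ <;> linarith)
  simp only [exadd, exmul, exc, exv2, exv3, exv5] at h
  push_cast at h
  simp only [mp, bb]
  linarith only [h]

theorem g6_Jpqr {d p q r : ℝ} (d0 : 0 ≤ d) (d1 : d ≤ 3 / 5) (hs : p + q + r = 1 + d)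
    (p0 : 0 ≤ p) (q0 : 0 ≤ q) (r0 : 0 ≤ r) (p1 : p ≤ 1) (q1 : q ≤ 1) (r1 : r ≤ 1) (jp : p ≤ d) (jq : q ≤ d) (jr : r ≤ d) :
    mp d p q r + bb (d - p) + bb (d - q) + bb (d - r) + 3 / 5 * p + 1 / 4 * d ≤ 133 / 100 := by
  obtain rfl : r = 1 + d - p - q := by linarith
  have h := certF (y := yv d p q 0 0 0 0 0 0)
    (gs := [(.v 2),
      (.add (.c (3)) (.mul (.c (-5)) (.v 2))),
      (.v 3),
      (.v 5),
      (.add (.add (.c (1)) (.v 2)) (.add (.mul (.c (-1)) (.v 3)) (.mul (.c (-1)) (.v 5)))),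
      (.add (.c (1)) (.mul (.c (-1)) (.v 3))),
      (.add (.c (1)) (.mul (.c (-1)) (.v 5))),
      (.add (.mul (.c (-1)) (.v 2)) (.add (.v 3) (.v 5))),
      (.add (.v 2) (.mul (.c (-1)) (.v 3))),
      (.add (.v 2) (.mul (.c (-1)) (.v 5))),
      (.add (.c (-1)) (.add (.v 3) (.v 5)))])
    (p := (.add (.add (.add (.add (.c (99)) (.mul (.c (375)) (.v 2))) (.add (.mul (.c (-105)) (.v 3)) (.mul (.c (-600)) (.mul (.v 2) (.v 2))))) (.add (.add (.mul (.c (75)) (.v 5)) (.mul (.c (300)) (.mul (.v 2) (.v 3)))) (.add (.mul (.c (-50)) (.mul (.mul (.v 2) (.v 2)) (.v 2))) (.add (.mul (.c (-75)) (.mul (.v 3) (.v 3))) (.mul (.c (300)) (.mul (.v 2) (.v 5))))))) (.add (.add (.add (.mul (.c (225)) (.mul (.mul (.v 2) (.v 2)) (.v 3))) (.mul (.c (-150)) (.mul (.v 3) (.v 5)))) (.add (.mul (.c (-225)) (.mul (.mul (.v 2) (.v 3)) (.v 3))) (.mul (.c (225)) (.mul (.mul (.v 2) (.v 2)) (.v 5))))) (.add (.add (.mul (.c (-75)) (.mul (.v 5) (.v 5))) (.mul (.c (-300)) (.mul (.mul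 (.v 2) (.v 3)) (.v 5)))) (.add (.mul (.c (75)) (.mul (.mul (.v 3) (.v 3)) (.v 5))) (.add (.mul (.c (-225)) (.mul (.mul (.v 2) (.v 5)) (.v 5))) (.mul (.c (75)) (.mul (.mul (.v 3) (.v 5)) (.v 5)))))))))
    (M := 49999) (k1 := 19) (s1 := 0x2c20000000000000000003e91811c7080000000000000000001289c4514200000000000000000019e33c000080000000000000000004770d8820a00000000000000000000025800228000000000000000000802a2882ca00000000000000000016e3c91cb280000000000000000005b962c62ca0000000000000000007de2bd04b280000000000000000015eeb3c000a00000000000000000000034828a240000000000000000005b872c8209000000000000000000536196007240000000000000000019c0314b1490000000000000000003c7f35242240000000000000000000bfca060c900000000000000000016e1cb043240000000000000000007a178c000900000000000000000045fbeb) (k2 := 0) (s2 := 0x0)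
    (by decide +kernel) (yv_nonneg d0 p0 q0 (le_refl 0) (le_refl 0) (le_refl 0) (le_refl 0) (le_refl 0) (le_refl 0))
    (by
      simp only [List.forall_mem_cons, exadd, exmul, exc, exv2, exv3, exv5]
      push_cast
      refine ⟨?_, ?_, ?_, ?_, ?_, ?_, ?_, ?_, ?_, ?_, ?_, fun _ hh => absurd hh List.not_mem_nil⟩ <;> linarith)
  simp only [exadd, exmul, exc, exv2, exv3, exv5] at h
  push_cast at h
  simp only [mp, bb]
  linarith only [h]

theorem g6_Np {d p q r a : ℝ} (d0 : 0 ≤ d) (d1 : d ≤ 3 / 5) (hs : p + q + r = 1 + d)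
    (p0 : p ≤ 0) (q0 : 0 ≤ q) (r0 : 0 ≤ r) (q1 : q ≤ 1) (r1 : r ≤ 1) (a0 : 0 ≤ a)
    (a1 : a ≤ 13 / 20) (ao : a ≤ d - p) :
    mp d p q r + (-p) ^ 3 / 3 + bb a + 3 / 5 * p + 1 / 4 * d ≤ 133 / 100 := by
  obtain ⟨n, rfl⟩ : ∃ n, p = -n := ⟨-p, by ring⟩
  have n0 : 0 ≤ n := by linarith
  obtain rfl : r = 1 + d + n - q := by linarith
  have h := certF (y := yv d n q a 0 0 0 0 0)
    (gs := [(.v 2),
      (.add (.c (3)) (.mul (.c (-5)) (.v 2))),
      (.v 3),
      (.v 5),
      (.add (.add (.c (1)) (.v 2)) (.add (.v 3) (.mul (.c (-1)) (.v 5)))),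
      (.add (.c (1)) (.mul (.c (-1)) (.v 5))),
      (.add (.mul (.c (-1)) (.v 2)) (.add (.mul (.c (-1)) (.v 3)) (.v 5))),
      (.v 7),
      (.add (.c (13)) (.mul (.c (-20)) (.v 7))),
      (.add (.v 2) (.add (.v 3) (.mul (.c (-1)) (.v 7))))])
    (p := (.add (.add (.add (.add (.c (199)) (.mul (.c (525)) (.v 2))) (.add (.mul (.c (480)) (.v 3)) (.mul (.c (-300)) (.mul (.v 2) (.v 2))))) (.add (.add (.mul (.c (-300)) (.v 5)) (.mul (.c (-75)) (.v 7))) (.add (.mul (.c (-100)) (.mul (.mul (.v 2) (.v 2)) (.v 2))) (.add (.mul (.c (300)) (.mul (.v 3) (.v 3))) (.mul (.c (-300)) (.mul (.mul (.v 2) (.v 2)) (.v 3))))))) (.add (.add (.add (.mul (.c (-300)) (.mul (.v 3) (.v 5))) (.mul (.c (-300)) (.mul (.mul (.v 2) (.v 3)) (.v 3)))) (.add (.mul (.c (300)) (.mul (.mul (.v 2) (.v 2)) (.v 5))) (.mul (.c (300)) (.mul (.v 5) (.v 5))))) (.add (.add (.mul (.c (-100)) (.mul (.mul (.v 3) (.v 3)) (.v 3))) (.mul (.c (300)) (.mul (.mul (.v 2) (.v 3)) (.v 5)))) (.add (.mul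 (.c (-150)) (.mul (.v 7) (.v 7))) (.add (.mul (.c (-300)) (.mul (.mul (.v 2) (.v 5)) (.v 5))) (.mul (.c (25)) (.mul (.mul (.v 7) (.v 7)) (.v 7)))))))))
    (M := 3999999) (k1 := 34) (s1 := 0x18618000000000000000021d197c071c7000000000000000017579c401041c000000000000000001fe348091450000000000000000000007441451400000000000000003d8bb680a1ca000000000000000008bff7401862800000000000000000eb7f1c0514a000000000000000002197830000280000000000000000767c01c0a281000000000000000014543490186040000000000000000373e300091c1000000000000000000cf07381470400000000000000010b009cc0408100000000000000001214331008204000000000000000005f31b40000100000000000000001068c4e028a2000000000000000002457e1c0028800000000000000002717355020920000000000000000000a00e6072480000000000000000007001e81442000000000000000000113898041080000000000000000060cb97020220000000000000000001ba17006088000000000000000005d7113004220000000000000000000002580a283000000000000000005baa3601c70c0000000000000000eda01ac06103000000000000000028d215e00020c00000000000000001989f300924300000000000000000007f65f1490c0000000000000000029af54070c300000000000000005a64d0700c30c000000000000000040168b0020c30000000000000000043b8e50)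 (k2 := 0) (s2 := 0x0)
    (by decide +kernel) (yv_nonneg d0 n0 q0 a0 (le_refl 0) (le_refl 0) (le_refl 0) (le_refl 0) (le_refl 0))
    (by
      simp only [List.forall_mem_cons, exadd, exmul, exc, exv2, exv3, exv5, exv7]
      push_cast
      refine ⟨?_, ?_, ?_, ?_, ?_, ?_, ?_, ?_, ?_, ?_, fun _ hh => absurd hh List.not_mem_nil⟩ <;> linarith)
  simp only [exadd, exmul, exc, exv2, exv3, exv5, exv7] at h
  push_cast at h
  simp only [mp, bb, neg_neg]
  linarith only [h]

theorem g6_Nq {d p q r a : ℝ} (d0 : 0 ≤ d) (d1 : d ≤ 3 / 5) (hs : p + q + r = 1 + d)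
    (q0 : q ≤ 0) (p0 : 0 ≤ p) (r0 : 0 ≤ r) (p1 : p ≤ 1) (r1 : r ≤ 1) (a0 : 0 ≤ a)
    (a1 : a ≤ 13 / 20) (ao : a ≤ d - q) :
    mp d q p r + (-q) ^ 3 / 3 + bb a + 3 / 5 * p + 1 / 4 * d ≤ 133 / 100 := by
  obtain ⟨n, rfl⟩ : ∃ n, q = -n := ⟨-q, by ring⟩
  have n0 : 0 ≤ n := by linarith
  obtain rfl : r = 1 + d + n - p := by linarith
  have h := certF (y := yv d n p a 0 0 0 0 0)
    (gs := [(.v 2),
      (.add (.c (3)) (.mul (.c (-5)) (.v 2))),
      (.v 3),
      (.v 5),
      (.add (.add (.c (1)) (.v 2)) (.add (.v 3) (.mul (.c (-1)) (.v 5)))),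
      (.add (.c (1)) (.mul (.c (-1)) (.v 5))),
      (.add (.mul (.c (-1)) (.v 2)) (.add (.mul (.c (-1)) (.v 3)) (.v 5))),
      (.v 7),
      (.add (.c (13)) (.mul (.c (-20)) (.v 7))),
      (.add (.v 2) (.add (.v 3) (.mul (.c (-1)) (.v 7))))])
    (p := (.add (.add (.add (.add (.c (199)) (.mul (.c (525)) (.v 2))) (.add (.mul (.c (300)) (.v 3)) (.mul (.c (-300)) (.mul (.v 2) (.v 2))))) (.add (.add (.mul (.c (-480)) (.v 5)) (.mul (.c (-75)) (.v 7))) (.add (.mul (.c (-100)) (.mul (.mul (.v 2) (.v 2)) (.v 2))) (.add (.mul (.c (300)) (.mul (.v 3) (.v 3))) (.mul (.c (-300)) (.mul (.mul (.v 2) (.v 2)) (.v 3))))))) (.add (.add (.add (.mul (.c (-300)) (.mul (.v 3) (.v 5))) (.mul (.c (-300)) (.mul (.mul (.v 2) (.v 3)) (.v 3)))) (.add (.mul (.c (300)) (.mul (.mul (.v 2) (.v 2)) (.v 5))) (.mul (.c (300)) (.mul (.v 5) (.v 5))))) (.add (.add (.mul (.c (-100)) (.mul (.mul (.v 3) (.v 3)) (.v 3))) (.mul (.c (300)) (.mul (.mul (.v 2) (.v 3)) (.v 5)))) (.add (.mul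 (.c (-150)) (.mul (.v 7) (.v 7))) (.add (.mul (.c (-300)) (.mul (.mul (.v 2) (.v 5)) (.v 5))) (.mul (.c (25)) (.mul (.mul (.v 7) (.v 7)) (.v 7)))))))))
    (M := 1999999999) (k1 := 30) (s1 := 0xc31800000000000000be46a1e000918600000000000000006b01093010618000000000000005414e7fa00714600000000000000017f6088001451800000000000000b77969ec0030c1000000000000000efafc97801c50400000000000000baae8700005141000000000000000285cded8018204000000000000001c17ecd00010810000000000000002feff51801c4040000000000000031d696bb0061010000000000000089386d328004404000000000000000d41e373008241000000000000000049b579f018904000000000000000697de1dc022410000000000000000630b58c0009040000000000000012c4212d80a28a0000000000000002f89133401c62800000000000000e40f092100514a0000000000000007f6716e400042800000000000000156add4800920a0000000000000000f73a67c01c828000000000000005f5887fc00020a00000000000000350ca1d8801c328000000000000019b088fcb0060ca0000000000000018c17cd9c01432800000000000000c524dfbd00a08a0000000000000000bacf7c80142280000000000000016f80f6900208a00000000000000015c06ba00)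 (k2 := 4) (s2 := 0x808080808040e440803b240000000000000000000f0d2e020202020186c9860180700000000000000000112c1d0808080808041e441803d100000000000000000015153f20202020201fa51fa01c40000000000000000029874960)
    (by decide +kernel) (yv_nonneg d0 n0 p0 a0 (le_refl 0) (le_refl 0) (le_refl 0) (le_refl 0) (le_refl 0))
    (by
      simp only [List.forall_mem_cons, exadd, exmul, exc, exv2, exv3, exv5, exv7]
      push_cast
      refine ⟨?_, ?_, ?_, ?_, ?_, ?_, ?_, ?_, ?_, ?_, fun _ hh => absurd hh List.not_mem_nil⟩ <;> linarith)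
  simp only [exadd, exmul, exc, exv2, exv3, exv5, exv7] at h
  push_cast at h
  simp only [mp, bb, neg_neg]
  linarith only [h]

theorem g6 {V d p q r : ℝ} (h : GR V d p q r) : V + 3 / 5 * p + 1 / 4 * d ≤ 133 / 100 := by
  rcases h.cs with h1 | h1 | h1 | h1
  · obtain ⟨p0, q0, r0, A, B, E, hA, hB, hE, hv⟩ := h1
    have e1 : mp d p r q = mp d p q r := by unfold mp; ring
    have e2 : mp d q p r = mp d p q r := by unfold mp; ring
    have e3 : mp d q r p = mp d p q r := by unfold mp; ring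
    have e4 : mp d r p q = mp d p q r := by unfold mp; ring
    have e5 : mp d r q p = mp d p q r := by unfold mp; ring
    rcases hA with hA | ⟨jp, hA⟩ <;> rcases hB with hB | ⟨jq, hB⟩ <;> rcases hE with hE | ⟨jr, hE⟩
    · have := g6_J (p := p) (q := q) (r := r) h.d0 h.d1 (by linarith [h.s]) p0 q0 r0 h.p1 h.q1 h.r1
      linarith
    · have := g6_Jq (p := p) (q := r) (r := q) h.d0 h.d1 (by linarith [h.s]) p0 r0 q0 h.p1 h.r1 h.q1 jr
      linarith
    · have := g6_Jq (p := p) (q := q) (r := r) h.d0 h.d1 (by linarith [h.s]) p0 q0 r0 h.p1 h.q1 h.r1 jq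
      linarith
    · have := g6_Jqr (p := p) (q := q) (r := r) h.d0 h.d1 (by linarith [h.s]) p0 q0 r0 h.p1 h.q1 h.r1 jq jr
      linarith
    · have := g6_Jp (p := p) (q := q) (r := r) h.d0 h.d1 (by linarith [h.s]) p0 q0 r0 h.p1 h.q1 h.r1 jp
      linarith
    · have := g6_Jpq (p := p) (q := r) (r := q) h.d0 h.d1 (by linarith [h.s]) p0 r0 q0 h.p1 h.r1 h.q1 jp jr
      linarith
    · have := g6_Jpq (p := p) (q := q) (r := r) h.d0 h.d1 (by linarith [h.s]) p0 q0 r0 h.p1 h.q1 h.r1 jp jq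
      linarith
    · have := g6_Jpqr (p := p) (q := q) (r := r) h.d0 h.d1 (by linarith [h.s]) p0 q0 r0 h.p1 h.q1 h.r1 jp jq jr
      linarith
  · obtain ⟨p0, q0, r0, a, a0, a1, ao, hv⟩ := h1
    have := g6_Np h.d0 h.d1 h.s p0 q0 r0 h.q1 h.r1 a0 a1 ao
    linarith
  · obtain ⟨q0, p0, r0, a, a0, a1, ao, hv⟩ := h1
    have := g6_Nq h.d0 h.d1 h.s q0 p0 r0 h.p1 h.r1 a0 a1 ao
    linarith
  · obtain ⟨r0, p0, q0, a, a0, a1, ao, hv⟩ := h1
    have := g6_Nq (p := p) (q := r) (r := q) h.d0 h.d1 (by linarith [h.s]) r0 p0 q0 h.p1 h.q1 a0 a1 ao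
    linarith

theorem g7_J {d p q r : ℝ} (d0 : 0 ≤ d) (d1 : d ≤ 3 / 5) (hs : p + q + r = 1 + d)
    (p0 : 0 ≤ p) (q0 : 0 ≤ q) (r0 : 0 ≤ r) (p1 : p ≤ 1) (q1 : q ≤ 1) (r1 : r ≤ 1) :
    mp d p q r + 13 / 20 * p + 3 / 10 * d ≤ 1367 / 1000 := by
  obtain rfl : r = 1 + d - p - q := by linarith
  have h := certF (y := yv d p q 0 0 0 0 0 0)
    (gs := [(.v 2),
      (.add (.c (3)) (.mul (.c (-5)) (.v 2))),
      (.v 3),
      (.v 5),
      (.add (.add (.c (1)) (.v 2)) (.add (.mul (.c (-1)) (.v 3)) (.mul (.c (-1)) (.v 5)))),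
      (.add (.c (1)) (.mul (.c (-1)) (.v 3))),
      (.add (.c (1)) (.mul (.c (-1)) (.v 5))),
      (.add (.mul (.c (-1)) (.v 2)) (.add (.v 3) (.v 5)))])
    (p := (.add (.add (.add (.c (2101)) (.add (.mul (.c (5100)) (.v 2)) (.mul (.c (-4950)) (.v 3)))) (.add (.add (.mul (.c (-3000)) (.mul (.v 2) (.v 2))) (.mul (.c (-3000)) (.v 5))) (.add (.mul (.c (-1000)) (.mul (.mul (.v 2) (.v 2)) (.v 2))) (.mul (.c (3000)) (.mul (.v 3) (.v 3)))))) (.add (.add (.mul (.c (3000)) (.mul (.mul (.v 2) (.v 2)) (.v 3))) (.add (.mul (.c (3000)) (.mul (.v 3) (.v 5))) (.mul (.c (-3000)) (.mul (.mul (.v 2) (.v 3)) (.v 3))))) (.add (.add (.mul (.c (3000)) (.mul (.mul (.v 2) (.v 2)) (.v 5))) (.mul (.c (3000)) (.mul (.v 5) (.v 5)))) (.add (.mul (.c (-3000)) (.mul (.mul (.v 2) (.v 3)) (.v 5))) (.mul (.c (-3000)) (.mul (.mul (.v 2) (.v 5)) (.v 5))))))))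
    (M := 49999999) (k1 := 12) (s1 := 0x20514000000000000000cf1ec42006145000000000000000d08765e70085140000000000000003908076c071c1000000000000000e9a0d3920187040000000000000055558e2880814100000000000000122d1f7e5010504000000000000003efedf010080c100000000000000027aac5950183040000000000000059023950c04081000000000000000728cf86200c2040000000000000003a0f5b8802081000000000000000091ad2eb0) (k2 := 7) (s2 := 0x2020202020201bf9200cc80000000000000000003e0b9880808080808057b2805a10000000000000000000404072020202020202ca5e01b43000000000000000000b6763c808080808080e4a1805d080000000000000000001aaa0a020202020202c996025c500000000000000000066d17c8080808080808099806f000000000000000000123e2f820202020202039286017400000000000000000007d0faf)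
    (by decide +kernel) (yv_nonneg d0 p0 q0 (le_refl 0) (le_refl 0) (le_refl 0) (le_refl 0) (le_refl 0) (le_refl 0))
    (by
      simp only [List.forall_mem_cons, exadd, exmul, exc, exv2, exv3, exv5]
      push_cast
      refine ⟨?_, ?_, ?_, ?_, ?_, ?_, ?_, ?_, fun _ hh => absurd hh List.not_mem_nil⟩ <;> linarith)
  simp only [exadd, exmul, exc, exv2, exv3, exv5] at h
  push_cast at h
  simp only [mp, bb]
  linarith only [h]

theorem g7_Jp {d p q r : ℝ} (d0 : 0 ≤ d) (d1 : d ≤ 3 / 5) (hs : p + q + r = 1 + d)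
    (p0 : 0 ≤ p) (q0 : 0 ≤ q) (r0 : 0 ≤ r) (p1 : p ≤ 1) (q1 : q ≤ 1) (r1 : r ≤ 1) (jp : p ≤ d) :
    mp d p q r + bb (d - p) + 13 / 20 * p + 3 / 10 * d ≤ 1367 / 1000 := by
  obtain rfl : r = 1 + d - p - q := by linarith
  have h := certF (y := yv d p q 0 0 0 0 0 0)
    (gs := [(.v 2),
      (.add (.c (3)) (.mul (.c (-5)) (.v 2))),
      (.v 3),
      (.v 5),
      (.add (.add (.c (1)) (.v 2)) (.add (.mul (.c (-1)) (.v 3)) (.mul (.c (-1)) (.v 5)))),
      (.add (.c (1)) (.mul (.c (-1)) (.v 3))),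
      (.add (.c (1)) (.mul (.c (-1)) (.v 5))),
      (.add (.mul (.c (-1)) (.v 2)) (.add (.v 3) (.v 5))),
      (.add (.v 2) (.mul (.c (-1)) (.v 3)))])
    (p := (.add (.add (.add (.add (.c (2101)) (.mul (.c (4350)) (.v 2))) (.add (.mul (.c (-4200)) (.v 3)) (.mul (.c (-4500)) (.mul (.v 2) (.v 2))))) (.add (.add (.mul (.c (-3000)) (.v 5)) (.mul (.c (3000)) (.mul (.v 2) (.v 3)))) (.add (.mul (.c (-750)) (.mul (.mul (.v 2) (.v 2)) (.v 2))) (.mul (.c (1500)) (.mul (.v 3) (.v 3)))))) (.add (.add (.add (.mul (.c (2250)) (.mul (.mul (.v 2) (.v 2)) (.v 3))) (.mul (.c (3000)) (.mul (.v 3) (.v 5)))) (.add (.mul (.c (-2250)) (.mul (.mul (.v 2) (.v 3)) (.v 3))) (.mul (.c (3000)) (.mul (.mul (.v 2) (.v 2)) (.v 5))))) (.add (.add (.mul (.c (3000)) (.mul (.v 5) (.v 5))) (.mul (.c (-250)) (.mul (.mul (.v 3) (.v 3)) (.v 3)))) (.add (.mul (.c (-3000)) (.mul (.mul (.v 2) (.v 3)) (.v 5))) (.mul (.c (-3000)) (.mul (.mul (.v 2) (.v 5)) (.v 5))))))))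
    (M := 4999) (k1 := 19) (s1 := 0x810400000000000000000045dedb1c714000000000000000000a0a49c51450000000000000000001db64a1c7080000000000000000000cd800410200000000000000000003359a0c3080000000000000000003be1c482090000000000000000000083222072400000000000000000168a1f471c90000000000000000001e38d60c6240000000000000000002c97f021890000000000000000001b3b88000240000000000000000013ce1a48141000000000000000000282c3320704000000000000000002522c7041c100000000000000000008119b047040000000000000000000023a05081000000000000000000092a2a1020400000000000000000024a2f01081000000000000000000004a46) (k2 := 0) (s2 := 0x0)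
    (by decide +kernel) (yv_nonneg d0 p0 q0 (le_refl 0) (le_refl 0) (le_refl 0) (le_refl 0) (le_refl 0) (le_refl 0))
    (by
      simp only [List.forall_mem_cons, exadd, exmul, exc, exv2, exv3, exv5]
      push_cast
      refine ⟨?_, ?_, ?_, ?_, ?_, ?_, ?_, ?_, ?_, fun _ hh => absurd hh List.not_mem_nil⟩ <;> linarith)
  simp only [exadd, exmul, exc, exv2, exv3, exv5] at h
  push_cast at h
  simp only [mp, bb]
  linarith only [h]

theorem g7_Jq {d p q r : ℝ} (d0 : 0 ≤ d) (d1 : d ≤ 3 / 5) (hs : p + q + r = 1 + d)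
    (p0 : 0 ≤ p) (q0 : 0 ≤ q) (r0 : 0 ≤ r) (p1 : p ≤ 1) (q1 : q ≤ 1) (r1 : r ≤ 1) (jq : q ≤ d) :
    mp d p q r + bb (d - q) + 13 / 20 * p + 3 / 10 * d ≤ 1367 / 1000 := by
  obtain rfl : r = 1 + d - p - q := by linarith
  have h := certF (y := yv d p q 0 0 0 0 0 0)
    (gs := [(.v 2),
      (.add (.c (3)) (.mul (.c (-5)) (.v 2))),
      (.v 3),
      (.v 5),
      (.add (.add (.c (1)) (.v 2)) (.add (.mul (.c (-1)) (.v 3)) (.mul (.c (-1)) (.v 5)))),
      (.add (.c (1)) (.mul (.c (-1)) (.v 3))),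
      (.add (.c (1)) (.mul (.c (-1)) (.v 5))),
      (.add (.mul (.c (-1)) (.v 2)) (.add (.v 3) (.v 5))),
      (.add (.v 2) (.mul (.c (-1)) (.v 5)))])
    (p := (.add (.add (.add (.add (.c (2101)) (.mul (.c (4350)) (.v 2))) (.add (.mul (.c (-4950)) (.v 3)) (.mul (.c (-4500)) (.mul (.v 2) (.v 2))))) (.add (.add (.mul (.c (-2250)) (.v 5)) (.mul (.c (-750)) (.mul (.mul (.v 2) (.v 2)) (.v 2)))) (.add (.mul (.c (3000)) (.mul (.v 3) (.v 3))) (.mul (.c (3000)) (.mul (.v 2) (.v 5)))))) (.add (.add (.add (.mul (.c (3000)) (.mul (.mul (.v 2) (.v 2)) (.v 3))) (.mul (.c (3000)) (.mul (.v 3) (.v 5)))) (.add (.mul (.c (-3000)) (.mul (.mul (.v 2) (.v 3)) (.v 3))) (.mul (.c (2250)) (.mul (.mul (.v 2) (.v 2)) (.v 5))))) (.add (.add (.mul (.c (1500)) (.mul (.v 5) (.v 5))) (.mul (.c (-3000)) (.mul (.mul (.v 2) (.v 3)) (.v 5)))) (.add (.mul (.c (-2250)) (.mul (.mul (.v 2) (.v 5)) (.v 5))) (.mul (.c (-250)) (.mul (.mul (.v 5) (.v 5)) (.v 5))))))))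
    (M := 999999) (k1 := 18) (s1 := 0x2051400000000000000001a20d7c071450000000000000000004bab181c30400000000000000001672950010c10000000000000000059b45b02481000000000000000002623bba0710400000000000000000b9acb700001000000000000000017d31e0605142000000000000000007aa15c00040800000000000000002054d7e0104200000000000000000999f8a01c90800000000000000004caf1a802242000000000000000001ed1da81851800000000000000001a22ac80010600000000000000002c3c86200c118000000000000000230ccf100824600000000000000004cf733881c918000000000000000159c044a06246000000000000000059bc0008) (k2 := 1) (s2 := 0x2020202020202039200c4000000000000000000003d065)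
    (by decide +kernel) (yv_nonneg d0 p0 q0 (le_refl 0) (le_refl 0) (le_refl 0) (le_refl 0) (le_refl 0) (le_refl 0))
    (by
      simp only [List.forall_mem_cons, exadd, exmul, exc, exv2, exv3, exv5]
      push_cast
      refine ⟨?_, ?_, ?_, ?_, ?_, ?_, ?_, ?_, ?_, fun _ hh => absurd hh List.not_mem_nil⟩ <;> linarith)
  simp only [exadd, exmul, exc, exv2, exv3, exv5] at h
  push_cast at h
  simp only [mp, bb]
  linarith only [h]

theorem g7_Jpq {d p q r : ℝ} (d0 : 0 ≤ d) (d1 : d ≤ 3 / 5) (hs : p + q + r = 1 + d)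
    (p0 : 0 ≤ p) (q0 : 0 ≤ q) (r0 : 0 ≤ r) (p1 : p ≤ 1) (q1 : q ≤ 1) (r1 : r ≤ 1) (jp : p ≤ d) (jq : q ≤ d) :
    mp d p q r + bb (d - p) + bb (d - q) + 13 / 20 * p + 3 / 10 * d ≤ 1367 / 1000 := by
  obtain rfl : r = 1 + d - p - q := by linarith
  have h := certF (y := yv d p q 0 0 0 0 0 0)
    (gs := [(.v 2),
      (.add (.c (3)) (.mul (.c (-5)) (.v 2))),
      (.v 3),
      (.v 5),
      (.add (.add (.c (1)) (.v 2)) (.add (.mul (.c (-1)) (.v 3)) (.mul (.c (-1)) (.v 5)))),
      (.add (.c (1)) (.mul (.c (-1)) (.v 3))),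
      (.add (.c (1)) (.mul (.c (-1)) (.v 5))),
      (.add (.mul (.c (-1)) (.v 2)) (.add (.v 3) (.v 5))),
      (.add (.v 2) (.mul (.c (-1)) (.v 3))),
      (.add (.v 2) (.mul (.c (-1)) (.v 5)))])
    (p := (.add (.add (.add (.add (.c (2101)) (.mul (.c (3600)) (.v 2))) (.add (.mul (.c (-4200)) (.v 3)) (.mul (.c (-6000)) (.mul (.v 2) (.v 2))))) (.add (.add (.mul (.c (-2250)) (.v 5)) (.mul (.c (3000)) (.mul (.v 2) (.v 3)))) (.add (.mul (.c (-500)) (.mul (.mul (.v 2) (.v 2)) (.v 2))) (.add (.mul (.c (1500)) (.mul (.v 3) (.v 3))) (.mul (.c (3000)) (.mul (.v 2) (.v 5))))))) (.add (.add (.add (.mul (.c (2250)) (.mul (.mul (.v 2) (.v 2)) (.v 3))) (.mul (.c (3000)) (.mul (.v 3) (.v 5)))) (.add (.mul (.c (-2250)) (.mul (.mul (.v 2) (.v 3)) (.v 3))) (.mul (.c (2250)) (.mul (.mul (.v 2) (.v 2)) (.v 5))))) (.add (.add (.mul (.c (1500)) (.mul (.v 5) (.v 5))) (.mul (.c (-250)) (.mul (.mul (.v 3) (.v 3)) (.v 3)))) (.add (.mul (.c (-3000)) (.mul (.mul (.v 2) (.v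 3)) (.v 5))) (.add (.mul (.c (-2250)) (.mul (.mul (.v 2) (.v 5)) (.v 5))) (.mul (.c (-250)) (.mul (.mul (.v 5) (.v 5)) (.v 5)))))))))
    (M := 24999) (k1 := 18) (s1 := 0x20814000000000000000001d1aa2812050000000000000000003f3d290012400000000000000000bbf05a870c9000000000000000000c528f31832400000000000000000054256800090000000000000000006878882871000000000000000000054256801c4000000000000000000c528f31031000000000000000000574f19430c400000000000000000098137200010000000000000000001b5e9148202000000000000000000599b0b28608000000000000000001d8db2c5142000000000000000000870d5c109080000000000000000041eb29422420000000000000000004c60b0141080000000000000000007a493c1042000000000000000000af7193) (k2 := 0) (s2 := 0x0)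
    (by decide +kernel) (yv_nonneg d0 p0 q0 (le_refl 0) (le_refl 0) (le_refl 0) (le_refl 0) (le_refl 0) (le_refl 0))
    (by
      simp only [List.forall_mem_cons, exadd, exmul, exc, exv2, exv3, exv5]
      push_cast
      refine ⟨?_, ?_, ?_, ?_, ?_, ?_, ?_, ?_, ?_, ?_, fun _ hh => absurd hh List.not_mem_nil⟩ <;> linarith)
  simp only [exadd, exmul, exc, exv2, exv3, exv5] at h
  push_cast at h
  simp only [mp, bb]
  linarith only [h]

theorem g7_Jqr {d p q r : ℝ} (d0 : 0 ≤ d) (d1 : d ≤ 3 / 5) (hs : p + q + r = 1 + d)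
    (p0 : 0 ≤ p) (q0 : 0 ≤ q) (r0 : 0 ≤ r) (p1 : p ≤ 1) (q1 : q ≤ 1) (r1 : r ≤ 1) (jq : q ≤ d) (jr : r ≤ d) :
    mp d p q r + bb (d - q) + bb (d - r) + 13 / 20 * p + 3 / 10 * d ≤ 1367 / 1000 := by
  obtain rfl : r = 1 + d - p - q := by linarith
  have h := certF (y := yv d p q 0 0 0 0 0 0)
    (gs := [(.v 2),
      (.add (.c (3)) (.mul (.c (-5)) (.v 2))),
      (.v 3),
      (.v 5),
      (.add (.add (.c (1)) (.v 2)) (.add (.mul (.c (-1)) (.v 3)) (.mul (.c (-1)) (.v 5)))),
      (.add (.c (1)) (.mul (.c (-1)) (.v 3))),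
      (.add (.c (1)) (.mul (.c (-1)) (.v 5))),
      (.add (.mul (.c (-1)) (.v 2)) (.add (.v 3) (.v 5))),
      (.add (.v 2) (.mul (.c (-1)) (.v 5))),
      (.add (.c (-1)) (.add (.v 3) (.v 5)))])
    (p := (.add (.add (.add (.add (.c (1101)) (.mul (.c (4350)) (.v 2))) (.add (.mul (.c (-1950)) (.v 3)) (.mul (.c (-4500)) (.mul (.v 2) (.v 2))))) (.add (.add (.mul (.c (750)) (.v 5)) (.mul (.c (-750)) (.mul (.mul (.v 2) (.v 2)) (.v 2)))) (.add (.mul (.c (750)) (.mul (.v 3) (.v 3))) (.add (.mul (.c (3000)) (.mul (.v 2) (.v 5))) (.mul (.c (3000)) (.mul (.mul (.v 2) (.v 2)) (.v 3))))))) (.add (.add (.add (.mul (.c (-1500)) (.mul (.v 3) (.v 5))) (.mul (.c (-3000)) (.mul (.mul (.v 2) (.v 3)) (.v 3)))) (.add (.mul (.c (2250)) (.mul (.mul (.v 2) (.v 2)) (.v 5))) (.mul (.c (-750)) (.mul (.v 5) (.v 5))))) (.add (.add (.mul (.c (250)) (.mul (.mul (.v 3) (.v 3)) (.v 3))) (.mul (.c (-3000)) (.mul (.mul (.v 2) (.v 3)) (.v 5)))) (.add (.mul (.c (750)) (.mul (.mul (.v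 3) (.v 3)) (.v 5))) (.add (.mul (.c (-2250)) (.mul (.mul (.v 2) (.v 5)) (.v 5))) (.mul (.c (750)) (.mul (.mul (.v 3) (.v 5)) (.v 5)))))))))
    (M := 24999) (k1 := 19) (s1 := 0xa1c7000000000000000000e8a2b000a1800000000000000000fdef21061860000000000000000022da6b100018000000000000000003ac9a88920400000000000000000050d95d1c610000000000000000008b8cd4471040000000000000000005ed1a2044100000000000000000005f1c0ca0c20000000000000000001f46a90410800000000000000000308fa18a08200000000000000000014f06d242080000000000000000009b5bd84105000000000000000000f53cdc18314000000000000000012e0bae8708500000000000000000037217a28a140000000000000000057be6d49285000000000000000000fd596c20514000000000000000004778a186145000000000000000001ea15d1) (k2 := 0) (s2 := 0x0)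
    (by decide +kernel) (yv_nonneg d0 p0 q0 (le_refl 0) (le_refl 0) (le_refl 0) (le_refl 0) (le_refl 0) (le_refl 0))
    (by
      simp only [List.forall_mem_cons, exadd, exmul, exc, exv2, exv3, exv5]
      push_cast
      refine ⟨?_, ?_, ?_, ?_, ?_, ?_, ?_, ?_, ?_, ?_, fun _ hh => absurd hh List.not_mem_nil⟩ <;> linarith)
  simp only [exadd, exmul, exc, exv2, exv3, exv5] at h
  push_cast at h
  simp only [mp, bb]
  linarith only [h]

theorem g7_Jpqr {d p q r : ℝ} (d0 : 0 ≤ d) (d1 : d ≤ 3 / 5) (hs : p + q + r = 1 + d)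
    (p0 : 0 ≤ p) (q0 : 0 ≤ q) (r0 : 0 ≤ r) (p1 : p ≤ 1) (q1 : q ≤ 1) (r1 : r ≤ 1) (jp : p ≤ d) (jq : q ≤ d) (jr : r ≤ d) :
    mp d p q r + bb (d - p) + bb (d - q) + bb (d - r) + 13 / 20 * p + 3 / 10 * d ≤ 1367 / 1000 := by
  obtain rfl : r = 1 + d - p - q := by linarith
  have h := certF (y := yv d p q 0 0 0 0 0 0)
    (gs := [(.v 2),
      (.add (.c (3)) (.mul (.c (-5)) (.v 2))),
      (.v 3),
      (.v 5),
      (.add (.add (.c (1)) (.v 2)) (.add (.mul (.c (-1)) (.v 3)) (.mul (.c (-1)) (.v 5)))),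
      (.add (.c (1)) (.mul (.c (-1)) (.v 3))),
      (.add (.c (1)) (.mul (.c (-1)) (.v 5))),
      (.add (.mul (.c (-1)) (.v 2)) (.add (.v 3) (.v 5))),
      (.add (.v 2) (.mul (.c (-1)) (.v 3))),
      (.add (.v 2) (.mul (.c (-1)) (.v 5))),
      (.add (.c (-1)) (.add (.v 3) (.v 5)))])
    (p := (.add (.add (.add (.add (.c (1101)) (.mul (.c (3600)) (.v 2))) (.add (.mul (.c (-1200)) (.v 3)) (.mul (.c (-6000)) (.mul (.v 2) (.v 2))))) (.add (.add (.mul (.c (750)) (.v 5)) (.mul (.c (3000)) (.mul (.v 2) (.v 3)))) (.add (.mul (.c (-500)) (.mul (.mul (.v 2) (.v 2)) (.v 2))) (.add (.mul (.c (-750)) (.mul (.v 3) (.v 3))) (.mul (.c (3000)) (.mul (.v 2) (.v 5))))))) (.add (.add (.add (.mul (.c (2250)) (.mul (.mul (.v 2) (.v 2)) (.v 3))) (.mul (.c (-1500)) (.mul (.v 3) (.v 5)))) (.add (.mul (.c (-2250)) (.mul (.mul (.v 2) (.v 3)) (.v 3))) (.mul (.c (2250)) (.mul (.mul (.v 2) (.v 2)) (.v 5))))) (.add (.add (.mul (.c (-750)) (.mul (.v 5) (.v 5))) (.mul (.c (-3000))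 (.mul (.mul (.v 2) (.v 3)) (.v 5)))) (.add (.mul (.c (750)) (.mul (.mul (.v 3) (.v 3)) (.v 5))) (.add (.mul (.c (-2250)) (.mul (.mul (.v 2) (.v 5)) (.v 5))) (.mul (.c (750)) (.mul (.mul (.v 3) (.v 5)) (.v 5)))))))))
    (M := 24999) (k1 := 19) (s1 := 0xa28a00000000000000000001c9082cb28000000000000000000567d68a2ca00000000000000000017657404b280000000000000000104a01e071c900000000000000000030914d286240000000000000000074f7f84b149000000000000000001a514ae204240000000000000000010a4b7c30c9000000000000000001a5179c0002400000000000000000a33420802c2000000000000000000669243208080000000000000000002fa6c0a10200000000000000000071e6891c3080000000000000000022262106242000000000000000000ad6fb508908000000000000000000a684b0b0420000000000000000001546b304108000000000000000003aaf700000200000000000000000036878d) (k2 := 0) (s2 := 0x0)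
    (by decide +kernel) (yv_nonneg d0 p0 q0 (le_refl 0) (le_refl 0) (le_refl 0) (le_refl 0) (le_refl 0) (le_refl 0))
    (by
      simp only [List.forall_mem_cons, exadd, exmul, exc, exv2, exv3, exv5]
      push_cast
      refine ⟨?_, ?_, ?_, ?_, ?_, ?_, ?_, ?_, ?_, ?_, ?_, fun _ hh => absurd hh List.not_mem_nil⟩ <;> linarith)
  simp only [exadd, exmul, exc, exv2, exv3, exv5] at h
  push_cast at h
  simp only [mp, bb]
  linarith only [h]

theorem g7_Np {d p q r a : ℝ} (d0 : 0 ≤ d) (d1 : d ≤ 3 / 5) (hs : p + q + r = 1 + d)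
    (p0 : p ≤ 0) (q0 : 0 ≤ q) (r0 : 0 ≤ r) (q1 : q ≤ 1) (r1 : r ≤ 1) (a0 : 0 ≤ a)
    (a1 : a ≤ 13 / 20) (ao : a ≤ d - p) :
    mp d p q r + (-p) ^ 3 / 3 + bb a + 13 / 20 * p + 3 / 10 * d ≤ 1367 / 1000 := by
  obtain ⟨n, rfl⟩ : ∃ n, p = -n := ⟨-p, by ring⟩
  have n0 : 0 ≤ n := by linarith
  obtain rfl : r = 1 + d + n - q := by linarith
  have h := certF (y := yv d n q a 0 0 0 0 0)
    (gs := [(.v 2),
      (.add (.c (3)) (.mul (.c (-5)) (.v 2))),
      (.v 3),
      (.v 5),
      (.add (.add (.c (1)) (.v 2)) (.add (.v 3) (.mul (.c (-1)) (.v 5)))),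
      (.add (.c (1)) (.mul (.c (-1)) (.v 5))),
      (.add (.mul (.c (-1)) (.v 2)) (.add (.mul (.c (-1)) (.v 3)) (.v 5))),
      (.v 7),
      (.add (.c (13)) (.mul (.c (-20)) (.v 7))),
      (.add (.v 2) (.add (.v 3) (.mul (.c (-1)) (.v 7))))])
    (p := (.add (.add (.add (.add (.c (2101)) (.mul (.c (5100)) (.v 2))) (.add (.mul (.c (4950)) (.v 3)) (.mul (.c (-3000)) (.mul (.v 2) (.v 2))))) (.add (.add (.mul (.c (-3000)) (.v 5)) (.mul (.c (-750)) (.v 7))) (.add (.mul (.c (-1000)) (.mul (.mul (.v 2) (.v 2)) (.v 2))) (.add (.mul (.c (3000)) (.mul (.v 3) (.v 3))) (.mul (.c (-3000)) (.mul (.mul (.v 2) (.v 2)) (.v 3))))))) (.add (.add (.add (.mul (.c (-3000)) (.mul (.v 3) (.v 5))) (.mul (.c (-3000)) (.mul (.mul (.v 2) (.v 3)) (.v 3)))) (.add (.mul (.c (3000)) (.mul (.mul (.v 2) (.v 2)) (.v 5))) (.mul (.c (3000)) (.mul (.v 5) (.v 5))))) (.add (.add (.mul (.c (-1000)) (.mul (.mul (.v 3) (.v 3)) (.v 3))) (.mul (.c (3000)) (.mul (.mul (.v 2) (.v 3)) (.v 5))))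 (.add (.mul (.c (-1500)) (.mul (.v 7) (.v 7))) (.add (.mul (.c (-3000)) (.mul (.mul (.v 2) (.v 5)) (.v 5))) (.mul (.c (250)) (.mul (.mul (.v 7) (.v 7)) (.v 7)))))))))
    (M := 399999) (k1 := 34) (s1 := 0x2800000000000000009d2351c09143000000000000000001b755c41040c000000000000000000f44340a28100000000000000001ebb332000004000000000000000045ffccc0924800000000000000000003d05314520000000000000000018e0ebc00108000000000000000010cfe99028a2000000000000000000000bb80028800000000000000002e749bd010118000000000000000066fffe4090c6000000000000000000fda3040c3180000000000000000503dcc00a186000000000000000013d177d01861800000000000000005f5d4e4011860000000000000000093b6f101c71c00000000000000005f5c92c090470000000000000000015b64e428a1c000000000000000031990bc052870000000000000000034d94c02481c0000000000000000027ae390420700000000000000000a4b79401c31c0000000000000000db11400030c700000000000000002711004000a08000000000000000015b637c05142000000000000000000001ef02080800000000000000001895c28062020000000000000000104177a00c30800000000000000002b46598000c20000000000000000027aa0102810800000000000000004680c7808042000000000000000011a03b401c10800000000000000000f349680204200000000000000000229eae0)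 (k2 := 0) (s2 := 0x0)
    (by decide +kernel) (yv_nonneg d0 n0 q0 a0 (le_refl 0) (le_refl 0) (le_refl 0) (le_refl 0) (le_refl 0))
    (by
      simp only [List.forall_mem_cons, exadd, exmul, exc, exv2, exv3, exv5, exv7]
      push_cast
      refine ⟨?_, ?_, ?_, ?_, ?_, ?_, ?_, ?_, ?_, ?_, fun _ hh => absurd hh List.not_mem_nil⟩ <;> linarith)
  simp only [exadd, exmul, exc, exv2, exv3, exv5, exv7] at h
  push_cast at h
  simp only [mp, bb, neg_neg]
  linarith only [h]

theorem g7_Nq {d p q r a : ℝ} (d0 : 0 ≤ d) (d1 : d ≤ 3 / 5) (hs : p + q + r = 1 + d)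
    (q0 : q ≤ 0) (p0 : 0 ≤ p) (r0 : 0 ≤ r) (p1 : p ≤ 1) (r1 : r ≤ 1) (a0 : 0 ≤ a)
    (a1 : a ≤ 13 / 20) (ao : a ≤ d - q) :
    mp d q p r + (-q) ^ 3 / 3 + bb a + 13 / 20 * p + 3 / 10 * d ≤ 1367 / 1000 := by
  obtain ⟨n, rfl⟩ : ∃ n, q = -n := ⟨-q, by ring⟩
  have n0 : 0 ≤ n := by linarith
  obtain rfl : r = 1 + d + n - p := by linarith
  have h := certF (y := yv d n p a 0 0 0 0 0)
    (gs := [(.v 2),
      (.add (.c (3)) (.mul (.c (-5)) (.v 2))),
      (.v 3),
      (.v 5),
      (.add (.add (.c (1)) (.v 2)) (.add (.v 3) (.mul (.c (-1)) (.v 5)))),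
      (.add (.c (1)) (.mul (.c (-1)) (.v 5))),
      (.add (.mul (.c (-1)) (.v 2)) (.add (.mul (.c (-1)) (.v 3)) (.v 5))),
      (.v 7),
      (.add (.c (13)) (.mul (.c (-20)) (.v 7))),
      (.add (.v 2) (.add (.v 3) (.mul (.c (-1)) (.v 7))))])
    (p := (.add (.add (.add (.add (.c (2101)) (.mul (.c (5100)) (.v 2))) (.add (.mul (.c (3000)) (.v 3)) (.mul (.c (-3000)) (.mul (.v 2) (.v 2))))) (.add (.add (.mul (.c (-4950)) (.v 5)) (.mul (.c (-750)) (.v 7))) (.add (.mul (.c (-1000)) (.mul (.mul (.v 2) (.v 2)) (.v 2))) (.add (.mul (.c (3000)) (.mul (.v 3) (.v 3))) (.mul (.c (-3000)) (.mul (.mul (.v 2) (.v 2)) (.v 3))))))) (.add (.add (.add (.mul (.c (-3000)) (.mul (.v 3) (.v 5))) (.mul (.c (-3000)) (.mul (.mul (.v 2) (.v 3)) (.v 3)))) (.add (.mul (.c (3000)) (.mul (.mul (.v 2) (.v 2)) (.v 5))) (.mul (.c (3000)) (.mul (.v 5) (.v 5))))) (.add (.add (.mul (.c (-1000)) (.mul (.mul (.v 3) (.v 3)) (.v 3))) (.mul (.c (3000)) (.mul (.mul (.v 2) (.v 3)) (.v 5))))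 (.add (.mul (.c (-1500)) (.mul (.v 7) (.v 7))) (.add (.mul (.c (-3000)) (.mul (.mul (.v 2) (.v 5)) (.v 5))) (.mul (.c (250)) (.mul (.mul (.v 7) (.v 7)) (.v 7)))))))))
    (M := 9999999) (k1 := 30) (s1 := 0x2071800000000000000009308fdc051460000000000000002f73ee9b00c31800000000000000084d53408081860000000000000000efb163a01c61800000000000000081dacc40061860000000000000000bc315670184280000000000000006b495cd0030ca0000000000000001bcad20b0142280000000000000003ff22da00308a00000000000000000fcac92028828000000000000000253f8f840620a0000000000000000f42f4aa000828000000000000000a3d1acec081ca000000000000000199bf2c101472800000000000000020fa312c041ca0000000000000000e7a748a00c728000000000000000c743778c0a2810000000000000004e01483b000a0400000000000000000d93578071810000000000000002e0a5b2101060400000000000000157ab8bac0704100000000000000028b454fb00c1040000000000000003679a7e40508100000000000000000445df401020400000000000000008a662d00208100000000000000000992a0f0209040000000000000000f555159072410000000000000000434da1281890400000000000000019507aee032410000000000000000180a03bc)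 (k2 := 4) (s2 := 0x808080808061b26180601c0000000000000000008ded62020202020107910600f44000000000000000000021621808080808060e46080410c000000000000000000156b2a0202020201fa51fa01c4000000000000000000157eb8e)
    (by decide +kernel) (yv_nonneg d0 n0 p0 a0 (le_refl 0) (le_refl 0) (le_refl 0) (le_refl 0) (le_refl 0))
    (by
      simp only [List.forall_mem_cons, exadd, exmul, exc, exv2, exv3, exv5, exv7]
      push_cast
      refine ⟨?_, ?_, ?_, ?_, ?_, ?_, ?_, ?_, ?_, ?_, fun _ hh => absurd hh List.not_mem_nil⟩ <;> linarith)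
  simp only [exadd, exmul, exc, exv2, exv3, exv5, exv7] at h
  push_cast at h
  simp only [mp, bb, neg_neg]
  linarith only [h]

theorem g7 {V d p q r : ℝ} (h : GR V d p q r) : V + 13 / 20 * p + 3 / 10 * d ≤ 1367 / 1000 := by
  rcases h.cs with h1 | h1 | h1 | h1
  · obtain ⟨p0, q0, r0, A, B, E, hA, hB, hE, hv⟩ := h1
    have e1 : mp d p r q = mp d p q r := by unfold mp; ring
    have e2 : mp d q p r = mp d p q r := by unfold mp; ring
    have e3 : mp d q r p = mp d p q r := by unfold mp; ring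
    have e4 : mp d r p q = mp d p q r := by unfold mp; ring
    have e5 : mp d r q p = mp d p q r := by unfold mp; ring
    rcases hA with hA | ⟨jp, hA⟩ <;> rcases hB with hB | ⟨jq, hB⟩ <;> rcases hE with hE | ⟨jr, hE⟩
    · have := g7_J (p := p) (q := q) (r := r) h.d0 h.d1 (by linarith [h.s]) p0 q0 r0 h.p1 h.q1 h.r1
      linarith
    · have := g7_Jq (p := p) (q := r) (r := q) h.d0 h.d1 (by linarith [h.s]) p0 r0 q0 h.p1 h.r1 h.q1 jr
      linarith
    · have := g7_Jq (p := p) (q := q) (r := r) h.d0 h.d1 (by linarith [h.s]) p0 q0 r0 h.p1 h.q1 h.r1 jq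
      linarith
    · have := g7_Jqr (p := p) (q := q) (r := r) h.d0 h.d1 (by linarith [h.s]) p0 q0 r0 h.p1 h.q1 h.r1 jq jr
      linarith
    · have := g7_Jp (p := p) (q := q) (r := r) h.d0 h.d1 (by linarith [h.s]) p0 q0 r0 h.p1 h.q1 h.r1 jp
      linarith
    · have := g7_Jpq (p := p) (q := r) (r := q) h.d0 h.d1 (by linarith [h.s]) p0 r0 q0 h.p1 h.r1 h.q1 jp jr
      linarith
    · have := g7_Jpq (p := p) (q := q) (r := r) h.d0 h.d1 (by linarith [h.s]) p0 q0 r0 h.p1 h.q1 h.r1 jp jq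
      linarith
    · have := g7_Jpqr (p := p) (q := q) (r := r) h.d0 h.d1 (by linarith [h.s]) p0 q0 r0 h.p1 h.q1 h.r1 jp jq jr
      linarith
  · obtain ⟨p0, q0, r0, a, a0, a1, ao, hv⟩ := h1
    have := g7_Np h.d0 h.d1 h.s p0 q0 r0 h.q1 h.r1 a0 a1 ao
    linarith
  · obtain ⟨q0, p0, r0, a, a0, a1, ao, hv⟩ := h1
    have := g7_Nq h.d0 h.d1 h.s q0 p0 r0 h.p1 h.r1 a0 a1 ao
    linarith
  · obtain ⟨r0, p0, q0, a, a0, a1, ao, hv⟩ := h1
    have := g7_Nq (p := p) (q := r) (r := q) h.d0 h.d1 (by linarith [h.s]) r0 p0 q0 h.p1 h.q1 a0 a1 ao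
    linarith

theorem g8_J {d p q r : ℝ} (d0 : 0 ≤ d) (d1 : d ≤ 3 / 5) (hs : p + q + r = 1 + d)
    (p0 : 0 ≤ p) (q0 : 0 ≤ q) (r0 : 0 ≤ r) (p1 : p ≤ 1) (q1 : q ≤ 1) (r1 : r ≤ 1) :
    mp d p q r - 1 / 4 * p - 3 / 10 * q + 11 / 20 * d ≤ 213 / 250 := by
  obtain rfl : r = 1 + d - p - q := by linarith
  have h := certF (y := yv d p q 0 0 0 0 0 0)
    (gs := [(.v 2),
      (.add (.c (3)) (.mul (.c (-5)) (.v 2))),
      (.v 3),
      (.v 5),
      (.add (.add (.c (1)) (.v 2)) (.add (.mul (.c (-1)) (.v 3)) (.mul (.c (-1)) (.v 5)))),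
      (.add (.c (1)) (.mul (.c (-1)) (.v 3))),
      (.add (.c (1)) (.mul (.c (-1)) (.v 5))),
      (.add (.mul (.c (-1)) (.v 2)) (.add (.v 3) (.v 5)))])
    (p := (.add (.add (.add (.c (278)) (.add (.mul (.c (2175)) (.v 2)) (.mul (.c (-1125)) (.v 3)))) (.add (.add (.mul (.c (-1500)) (.mul (.v 2) (.v 2))) (.mul (.c (-1050)) (.v 5))) (.add (.mul (.c (-500)) (.mul (.mul (.v 2) (.v 2)) (.v 2))) (.mul (.c (1500)) (.mul (.v 3) (.v 3)))))) (.add (.add (.mul (.c (1500)) (.mul (.mul (.v 2) (.v 2)) (.v 3))) (.add (.mul (.c (1500)) (.mul (.v 3) (.v 5))) (.mul (.c (-1500)) (.mul (.mul (.v 2) (.v 3)) (.v 3))))) (.add (.add (.mul (.c (1500)) (.mul (.mul (.v 2) (.v 2)) (.v 5))) (.mul (.c (1500)) (.mul (.v 5) (.v 5)))) (.add (.mul (.c (-1500)) (.mul (.mul (.v 2) (.v 3)) (.v 5))) (.mul (.c (-1500)) (.mul (.mul (.v 2) (.v 5)) (.v 5))))))))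
    (M := 99999999) (k1 := 9) (s1 := 0x8181000000000000000000b964f01c604000000000000006133d191806181000000000000000a9f300f8020504000000000000007f49df08407141000000000000000d890549c004504000000000000000dc8adacc040810000000000000002590786800c204000000000000001438b6a5c020810000000000000000ab5bf350) (k2 := 10) (s2 := 0x808080808080878a807d1c0000000000000000137c4032020202020201ce6601e830000000000000000021d53608080808080809494807720000000000000000032ec77f2020202020200bb9201a4800000000000000000002506280808080808041e48066180000000000000000005173e2020202020202ca1a01d460000000000000000008218b0808080808080c6e4805b14000000000000000002448a5e020202020202ca1601c85000000000000000000dac8d48080808080807f818080080000000000000005c4183fc2020202020202666601c02000000000000000000b239e0)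
    (by decide +kernel) (yv_nonneg d0 p0 q0 (le_refl 0) (le_refl 0) (le_refl 0) (le_refl 0) (le_refl 0) (le_refl 0))
    (by
      simp only [List.forall_mem_cons, exadd, exmul, exc, exv2, exv3, exv5]
      push_cast
      refine ⟨?_, ?_, ?_, ?_, ?_, ?_, ?_, ?_, fun _ hh => absurd hh List.not_mem_nil⟩ <;> linarith)
  simp only [exadd, exmul, exc, exv2, exv3, exv5] at h
  push_cast at h
  simp only [mp, bb]
  linarith only [h]

theorem g8_Jp {d p q r : ℝ} (d0 : 0 ≤ d) (d1 : d ≤ 3 / 5) (hs : p + q + r = 1 + d)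
    (p0 : 0 ≤ p) (q0 : 0 ≤ q) (r0 : 0 ≤ r) (p1 : p ≤ 1) (q1 : q ≤ 1) (r1 : r ≤ 1) (jp : p ≤ d) :
    mp d p q r + bb (d - p) - 1 / 4 * p - 3 / 10 * q + 11 / 20 * d ≤ 213 / 250 := by
  obtain rfl : r = 1 + d - p - q := by linarith
  have h := certF (y := yv d p q 0 0 0 0 0 0)
    (gs := [(.v 2),
      (.add (.c (3)) (.mul (.c (-5)) (.v 2))),
      (.v 3),
      (.v 5),
      (.add (.add (.c (1)) (.v 2)) (.add (.mul (.c (-1)) (.v 3)) (.mul (.c (-1)) (.v 5)))),
      (.add (.c (1)) (.mul (.c (-1)) (.v 3))),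
      (.add (.c (1)) (.mul (.c (-1)) (.v 5))),
      (.add (.mul (.c (-1)) (.v 2)) (.add (.v 3) (.v 5))),
      (.add (.v 2) (.mul (.c (-1)) (.v 3)))])
    (p := (.add (.add (.add (.add (.c (278)) (.mul (.c (1800)) (.v 2))) (.add (.mul (.c (-750)) (.v 3)) (.mul (.c (-2250)) (.mul (.v 2) (.v 2))))) (.add (.add (.mul (.c (-1050)) (.v 5)) (.mul (.c (1500)) (.mul (.v 2) (.v 3)))) (.add (.mul (.c (-375)) (.mul (.mul (.v 2) (.v 2)) (.v 2))) (.mul (.c (750)) (.mul (.v 3) (.v 3)))))) (.add (.add (.add (.mul (.c (1125)) (.mul (.mul (.v 2) (.v 2)) (.v 3))) (.mul (.c (1500)) (.mul (.v 3) (.v 5)))) (.add (.mul (.c (-1125)) (.mul (.mul (.v 2) (.v 3)) (.v 3))) (.mul (.c (1500)) (.mul (.mul (.v 2) (.v 2)) (.v 5))))) (.add (.add (.mul (.c (1500)) (.mul (.v 5) (.v 5))) (.mul (.c (-125)) (.mul (.mul (.v 3) (.v 3)) (.v 3)))) (.add (.mul (.c (-1500)) (.mul (.mul (.v 2) (.v 3)) (.v 5))) (.mul (.c (-1500)) (.mul (.mul (.v 2) (.v 5)) (.v 5))))))))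
    (M := 999999) (k1 := 17) (s1 := 0x8204000000000000000007736ebc1c51400000000000000001dcea5508045000000000000000055906d3420824000000000000000021ff2fa06189000000000000000001b7d1c01c7240000000000000001493855a041c90000000000000000211239842490800000000000000000d458a5080420000000000000000119433901c1080000000000000000128986b01042000000000000000003518b981c70c0000000000000000e3b9f1708143000000000000000017dc6bdc1040c0000000000000000db117390604300000000000000000d3699502030c00000000000000006a81c71040c300000000000000002617f7e8) (k2 := 2) (s2 := 0x8080808080808a80807d180000000000000000013442c60202020202022a0201f420000000000000000001f8738)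
    (by decide +kernel) (yv_nonneg d0 p0 q0 (le_refl 0) (le_refl 0) (le_refl 0) (le_refl 0) (le_refl 0) (le_refl 0))
    (by
      simp only [List.forall_mem_cons, exadd, exmul, exc, exv2, exv3, exv5]
      push_cast
      refine ⟨?_, ?_, ?_, ?_, ?_, ?_, ?_, ?_, ?_, fun _ hh => absurd hh List.not_mem_nil⟩ <;> linarith)
  simp only [exadd, exmul, exc, exv2, exv3, exv5] at h
  push_cast at h
  simp only [mp, bb]
  linarith only [h]

theorem g8_Jq {d p q r : ℝ} (d0 : 0 ≤ d) (d1 : d ≤ 3 / 5) (hs : p + q + r = 1 + d)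
    (p0 : 0 ≤ p) (q0 : 0 ≤ q) (r0 : 0 ≤ r) (p1 : p ≤ 1) (q1 : q ≤ 1) (r1 : r ≤ 1) (jq : q ≤ d) :
    mp d p q r + bb (d - q) - 1 / 4 * p - 3 / 10 * q + 11 / 20 * d ≤ 213 / 250 := by
  obtain rfl : r = 1 + d - p - q := by linarith
  have h := certF (y := yv d p q 0 0 0 0 0 0)
    (gs := [(.v 2),
      (.add (.c (3)) (.mul (.c (-5)) (.v 2))),
      (.v 3),
      (.v 5),
      (.add (.add (.c (1)) (.v 2)) (.add (.mul (.c (-1)) (.v 3)) (.mul (.c (-1)) (.v 5)))),
      (.add (.c (1)) (.mul (.c (-1)) (.v 3))),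
      (.add (.c (1)) (.mul (.c (-1)) (.v 5))),
      (.add (.mul (.c (-1)) (.v 2)) (.add (.v 3) (.v 5))),
      (.add (.v 2) (.mul (.c (-1)) (.v 5)))])
    (p := (.add (.add (.add (.add (.c (278)) (.mul (.c (1800)) (.v 2))) (.add (.mul (.c (-1125)) (.v 3)) (.mul (.c (-2250)) (.mul (.v 2) (.v 2))))) (.add (.add (.mul (.c (-675)) (.v 5)) (.mul (.c (-375)) (.mul (.mul (.v 2) (.v 2)) (.v 2)))) (.add (.mul (.c (1500)) (.mul (.v 3) (.v 3))) (.mul (.c (1500)) (.mul (.v 2) (.v 5)))))) (.add (.add (.add (.mul (.c (1500)) (.mul (.mul (.v 2) (.v 2)) (.v 3))) (.mul (.c (1500)) (.mul (.v 3) (.v 5)))) (.add (.mul (.c (-1500)) (.mul (.mul (.v 2) (.v 3)) (.v 3))) (.mul (.c (1125)) (.mul (.mul (.v 2) (.v 2)) (.v 5))))) (.add (.add (.mul (.c (750)) (.mul (.v 5) (.v 5))) (.mul (.c (-1500)) (.mul (.mul (.v 2) (.v 3)) (.v 5)))) (.add (.mul (.c (-1125)) (.mul (.mul (.v 2) (.v 5)) (.v 5))) (.mul (.c (-125)) (.mul (.mul (.v 5) (.v 5)) (.v 5))))))))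
    (M := 999999) (k1 := 17) (s1 := 0x82080000000000000000052b99cc0c32000000000000000001805f6a0614600000000000000000b2d520c20918000000000000000127949c1072460000000000000000358ba4401891800000000000000000324bfa092420000000000000000036f98f404108000000000000000000008ca0004200000000000000000e1ae9c0208100000000000000000252d5d5030c4000000000000000015e483dc1c41000000000000000011a131ee04104000000000000000028b72a141c51000000000000000001f8c6a80314400000000000000003e5654080451000000000000000001f8f29a00004000000000000000016181ae4) (k2 := 2) (s2 := 0x808080808080808a807d1c000000000000000002178c3e020202020202022a01f42000000000000000000030d0b)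
    (by decide +kernel) (yv_nonneg d0 p0 q0 (le_refl 0) (le_refl 0) (le_refl 0) (le_refl 0) (le_refl 0) (le_refl 0))
    (by
      simp only [List.forall_mem_cons, exadd, exmul, exc, exv2, exv3, exv5]
      push_cast
      refine ⟨?_, ?_, ?_, ?_, ?_, ?_, ?_, ?_, ?_, fun _ hh => absurd hh List.not_mem_nil⟩ <;> linarith)
  simp only [exadd, exmul, exc, exv2, exv3, exv5] at h
  push_cast at h
  simp only [mp, bb]
  linarith only [h]

theorem g8_Jr {d p q r : ℝ} (d0 : 0 ≤ d) (d1 : d ≤ 3 / 5) (hs : p + q + r = 1 + d)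
    (p0 : 0 ≤ p) (q0 : 0 ≤ q) (r0 : 0 ≤ r) (p1 : p ≤ 1) (q1 : q ≤ 1) (r1 : r ≤ 1) (jr : r ≤ d) :
    mp d p q r + bb (d - r) - 1 / 4 * p - 3 / 10 * q + 11 / 20 * d ≤ 213 / 250 := by
  obtain rfl : r = 1 + d - p - q := by linarith
  have h := certF (y := yv d p q 0 0 0 0 0 0)
    (gs := [(.v 2),
      (.add (.c (3)) (.mul (.c (-5)) (.v 2))),
      (.v 3),
      (.v 5),
      (.add (.add (.c (1)) (.v 2)) (.add (.mul (.c (-1)) (.v 3)) (.mul (.c (-1)) (.v 5)))),
      (.add (.c (1)) (.mul (.c (-1)) (.v 3))),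
      (.add (.c (1)) (.mul (.c (-1)) (.v 5))),
      (.add (.mul (.c (-1)) (.v 2)) (.add (.v 3) (.v 5))),
      (.add (.c (-1)) (.add (.v 3) (.v 5)))])
    (p := (.add (.add (.add (.add (.c (-222)) (.mul (.c (2175)) (.v 2))) (.add (.mul (.c (375)) (.v 3)) (.mul (.c (-1500)) (.mul (.v 2) (.v 2))))) (.add (.add (.mul (.c (450)) (.v 5)) (.mul (.c (-500)) (.mul (.mul (.v 2) (.v 2)) (.v 2)))) (.add (.mul (.c (375)) (.mul (.v 3) (.v 3))) (.add (.mul (.c (1500)) (.mul (.mul (.v 2) (.v 2)) (.v 3))) (.mul (.c (-750)) (.mul (.v 3) (.v 5))))))) (.add (.add (.add (.mul (.c (-1500)) (.mul (.mul (.v 2) (.v 3)) (.v 3))) (.mul (.c (1500)) (.mul (.mul (.v 2) (.v 2)) (.v 5)))) (.add (.mul (.c (375)) (.mul (.v 5) (.v 5))) (.mul (.c (125)) (.mul (.mul (.v 3) (.v 3)) (.v 3))))) (.add (.add (.mul (.c (-1500)) (.mul (.mul (.v 2) (.v 3)) (.v 5))) (.mul (.c (375)) (.mul (.mul (.v 3) (.v 3)) (.v 5)))) (.add (.mul (.c (-1500)) (.mul (.mul (.v 2) (.v 5)) (.v 5))) (.add (.mul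 (.c (375)) (.mul (.mul (.v 3) (.v 5)) (.v 5))) (.mul (.c (125)) (.mul (.mul (.v 5) (.v 5)) (.v 5)))))))))
    (M := 9999) (k1 := 19) (s1 := 0x92490000000000000000003d00772481c00000000000000000269de1091c7000000000000000000243e340c71c00000000000000000121e87c0205000000000000000000006f1820514000000000000000001312c38314500000000000000000026961600014000000000000000000878a4871010000000000000000009a78b00c2040000000000000000001ede781081000000000000000000000027002040000000000000000003cb148410600000000000000000037cda00c1180000000000000000018641dc82460000000000000000009794971c91800000000000000000039608481860000000000000000000b71b01861800000000000000000042b1fc1186000000000000000000229881) (k2 := 0) (s2 := 0x0)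
    (by decide +kernel) (yv_nonneg d0 p0 q0 (le_refl 0) (le_refl 0) (le_refl 0) (le_refl 0) (le_refl 0) (le_refl 0))
    (by
      simp only [List.forall_mem_cons, exadd, exmul, exc, exv2, exv3, exv5]
      push_cast
      refine ⟨?_, ?_, ?_, ?_, ?_, ?_, ?_, ?_, ?_, fun _ hh => absurd hh List.not_mem_nil⟩ <;> linarith)
  simp only [exadd, exmul, exc, exv2, exv3, exv5] at h
  push_cast at h
  simp only [mp, bb]
  linarith only [h]

theorem g8_Jpq {d p q r : ℝ} (d0 : 0 ≤ d) (d1 : d ≤ 3 / 5) (hs : p + q + r = 1 + d)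
    (p0 : 0 ≤ p) (q0 : 0 ≤ q) (r0 : 0 ≤ r) (p1 : p ≤ 1) (q1 : q ≤ 1) (r1 : r ≤ 1) (jp : p ≤ d) (jq : q ≤ d) :
    mp d p q r + bb (d - p) + bb (d - q) - 1 / 4 * p - 3 / 10 * q + 11 / 20 * d ≤ 213 / 250 := by
  obtain rfl : r = 1 + d - p - q := by linarith
  have h := certF (y := yv d p q 0 0 0 0 0 0)
    (gs := [(.v 2),
      (.add (.c (3)) (.mul (.c (-5)) (.v 2))),
      (.v 3),
      (.v 5),
      (.add (.add (.c (1)) (.v 2)) (.add (.mul (.c (-1)) (.v 3)) (.mul (.c (-1)) (.v 5)))),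
      (.add (.c (1)) (.mul (.c (-1)) (.v 3))),
      (.add (.c (1)) (.mul (.c (-1)) (.v 5))),
      (.add (.mul (.c (-1)) (.v 2)) (.add (.v 3) (.v 5))),
      (.add (.v 2) (.mul (.c (-1)) (.v 3))),
      (.add (.v 2) (.mul (.c (-1)) (.v 5)))])
    (p := (.add (.add (.add (.add (.c (278)) (.mul (.c (1425)) (.v 2))) (.add (.mul (.c (-750)) (.v 3)) (.mul (.c (-3000)) (.mul (.v 2) (.v 2))))) (.add (.add (.mul (.c (-675)) (.v 5)) (.mul (.c (1500)) (.mul (.v 2) (.v 3)))) (.add (.mul (.c (-250)) (.mul (.mul (.v 2) (.v 2)) (.v 2))) (.add (.mul (.c (750)) (.mul (.v 3) (.v 3))) (.mul (.c (1500)) (.mul (.v 2) (.v 5))))))) (.add (.add (.add (.mul (.c (1125)) (.mul (.mul (.v 2) (.v 2)) (.v 3))) (.mul (.c (1500)) (.mul (.v 3) (.v 5)))) (.add (.mul (.c (-1125)) (.mul (.mul (.v 2) (.v 3)) (.v 3))) (.mul (.c (1125)) (.mul (.mul (.v 2) (.v 2)) (.v 5))))) (.add (.add (.mul (.c (750)) (.mul (.v 5) (.v 5))) (.mul (.c (-125)) (.mul (.mul (.v 3) (.v 3)) (.v 3)))) (.add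 (.mul (.c (-1500)) (.mul (.mul (.v 2) (.v 3)) (.v 5))) (.add (.mul (.c (-1125)) (.mul (.mul (.v 2) (.v 5)) (.v 5))) (.mul (.c (-125)) (.mul (.mul (.v 5) (.v 5)) (.v 5)))))))))
    (M := 249999) (k1 := 19) (s1 := 0x9186000000000000000002752f4a1ca100000000000000000357f8e8042840000000000000000018801842470c0000000000000000125e9554410300000000000000000f2bb6780c30c00000000000000000ee4010ca288000000000000000000616f5c00a20000000000000000012bb41f09148000000000000000006b567461052000000000000000003858d7c480c8000000000000000005e9d1991832000000000000000003effb94491420000000000000000009a92691040800000000000000000993c39010420000000000000000028f7f3a1ca0800000000000000000a9e2d846282000000000000000000b2c7df2420800000000000000000311dbc42082000000000000000000000054) (k2 := 0) (s2 := 0x0)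
    (by decide +kernel) (yv_nonneg d0 p0 q0 (le_refl 0) (le_refl 0) (le_refl 0) (le_refl 0) (le_refl 0) (le_refl 0))
    (by
      simp only [List.forall_mem_cons, exadd, exmul, exc, exv2, exv3, exv5]
      push_cast
      refine ⟨?_, ?_, ?_, ?_, ?_, ?_, ?_, ?_, ?_, ?_, fun _ hh => absurd hh List.not_mem_nil⟩ <;> linarith)
  simp only [exadd, exmul, exc, exv2, exv3, exv5] at h
  push_cast at h
  simp only [mp, bb]
  linarith only [h]

theorem g8_Jpr {d p q r : ℝ} (d0 : 0 ≤ d) (d1 : d ≤ 3 / 5) (hs : p + q + r = 1 + d)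
    (p0 : 0 ≤ p) (q0 : 0 ≤ q) (r0 : 0 ≤ r) (p1 : p ≤ 1) (q1 : q ≤ 1) (r1 : r ≤ 1) (jp : p ≤ d) (jr : r ≤ d) :
    mp d p q r + bb (d - p) + bb (d - r) - 1 / 4 * p - 3 / 10 * q + 11 / 20 * d ≤ 213 / 250 := by
  obtain rfl : r = 1 + d - p - q := by linarith
  have h := certF (y := yv d p q 0 0 0 0 0 0)
    (gs := [(.v 2),
      (.add (.c (3)) (.mul (.c (-5)) (.v 2))),
      (.v 3),
      (.v 5),
      (.add (.add (.c (1)) (.v 2)) (.add (.mul (.c (-1)) (.v 3)) (.mul (.c (-1)) (.v 5)))),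
      (.add (.c (1)) (.mul (.c (-1)) (.v 3))),
      (.add (.c (1)) (.mul (.c (-1)) (.v 5))),
      (.add (.mul (.c (-1)) (.v 2)) (.add (.v 3) (.v 5))),
      (.add (.v 2) (.mul (.c (-1)) (.v 3))),
      (.add (.c (-1)) (.add (.v 3) (.v 5)))])
    (p := (.add (.add (.add (.add (.c (-222)) (.mul (.c (1800)) (.v 2))) (.add (.mul (.c (750)) (.v 3)) (.mul (.c (-2250)) (.mul (.v 2) (.v 2))))) (.add (.add (.mul (.c (450)) (.v 5)) (.mul (.c (1500)) (.mul (.v 2) (.v 3)))) (.add (.mul (.c (-375)) (.mul (.mul (.v 2) (.v 2)) (.v 2))) (.add (.mul (.c (-375)) (.mul (.v 3) (.v 3))) (.mul (.c (1125)) (.mul (.mul (.v 2) (.v 2)) (.v 3))))))) (.add (.add (.add (.mul (.c (-750)) (.mul (.v 3) (.v 5))) (.mul (.c (-1125)) (.mul (.mul (.v 2) (.v 3)) (.v 3)))) (.add (.mul (.c (1500)) (.mul (.mul (.v 2) (.v 2)) (.v 5))) (.mul (.c (375)) (.mul (.v 5) (.v 5))))) (.add (.add (.mul (.c (-1500)) (.mul (.mul (.v 2) (.v 3)) (.v 5))) (.mul (.c (375)) (.mul (.mul (.v 3) (.v 3)) (.v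 5)))) (.add (.mul (.c (-1500)) (.mul (.mul (.v 2) (.v 5)) (.v 5))) (.add (.mul (.c (375)) (.mul (.mul (.v 3) (.v 5)) (.v 5))) (.mul (.c (125)) (.mul (.mul (.v 5) (.v 5)) (.v 5)))))))))
    (M := 249999) (k1 := 19) (s1 := 0x91c700000000000000000356417400714000000000000000022d8305c8145000000000000000000ed55532460c000000000000000003132ba081430000000000000000052cbd4d2030c000000000000000003721c5030c3000000000000000000b49f422460800000000000000000ec6d258104200000000000000000239b98324208000000000000000003057ce42082000000000000000000196e6c20828000000000000000005b8d800710a0000000000000000080457e718628000000000000000001ecc858018a000000000000000008d397141c52800000000000000001e164f04114a0000000000000000015ecea410228000000000000000008ec725c208a000000000000000000abb814) (k2 := 0) (s2 := 0x0)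
    (by decide +kernel) (yv_nonneg d0 p0 q0 (le_refl 0) (le_refl 0) (le_refl 0) (le_refl 0) (le_refl 0) (le_refl 0))
    (by
      simp only [List.forall_mem_cons, exadd, exmul, exc, exv2, exv3, exv5]
      push_cast
      refine ⟨?_, ?_, ?_, ?_, ?_, ?_, ?_, ?_, ?_, ?_, fun _ hh => absurd hh List.not_mem_nil⟩ <;> linarith)
  simp only [exadd, exmul, exc, exv2, exv3, exv5] at h
  push_cast at h
  simp only [mp, bb]
  linarith only [h]

theorem g8_Jqr {d p q r : ℝ} (d0 : 0 ≤ d) (d1 : d ≤ 3 / 5) (hs : p + q + r = 1 + d)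
    (p0 : 0 ≤ p) (q0 : 0 ≤ q) (r0 : 0 ≤ r) (p1 : p ≤ 1) (q1 : q ≤ 1) (r1 : r ≤ 1) (jq : q ≤ d) (jr : r ≤ d) :
    mp d p q r + bb (d - q) + bb (d - r) - 1 / 4 * p - 3 / 10 * q + 11 / 20 * d ≤ 213 / 250 := by
  obtain rfl : r = 1 + d - p - q := by linarith
  have h := certF (y := yv d p q 0 0 0 0 0 0)
    (gs := [(.v 2),
      (.add (.c (3)) (.mul (.c (-5)) (.v 2))),
      (.v 3),
      (.v 5),
      (.add (.add (.c (1)) (.v 2)) (.add (.mul (.c (-1)) (.v 3)) (.mul (.c (-1)) (.v 5)))),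
      (.add (.c (1)) (.mul (.c (-1)) (.v 3))),
      (.add (.c (1)) (.mul (.c (-1)) (.v 5))),
      (.add (.mul (.c (-1)) (.v 2)) (.add (.v 3) (.v 5))),
      (.add (.v 2) (.mul (.c (-1)) (.v 5))),
      (.add (.c (-1)) (.add (.v 3) (.v 5)))])
    (p := (.add (.add (.add (.add (.c (-222)) (.mul (.c (1800)) (.v 2))) (.add (.mul (.c (375)) (.v 3)) (.mul (.c (-2250)) (.mul (.v 2) (.v 2))))) (.add (.add (.mul (.c (825)) (.v 5)) (.mul (.c (-375)) (.mul (.mul (.v 2) (.v 2)) (.v 2)))) (.add (.mul (.c (375)) (.mul (.v 3) (.v 3))) (.add (.mul (.c (1500)) (.mul (.v 2) (.v 5))) (.mul (.c (1500)) (.mul (.mul (.v 2) (.v 2)) (.v 3))))))) (.add (.add (.add (.mul (.c (-750)) (.mul (.v 3) (.v 5))) (.mul (.c (-1500)) (.mul (.mul (.v 2) (.v 3)) (.v 3)))) (.add (.mul (.c (1125)) (.mul (.mul (.v 2) (.v 2)) (.v 5))) (.mul (.c (-375)) (.mul (.v 5) (.v 5))))) (.add (.add (.mul (.c (125)) (.mul (.mul (.v 3) (.v 3)) (.v 3))) (.mul (.c (-1500)) (.mul (.mul (.v 2) (.v 3)) (.v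 5)))) (.add (.mul (.c (375)) (.mul (.mul (.v 3) (.v 3)) (.v 5))) (.add (.mul (.c (-1125)) (.mul (.mul (.v 2) (.v 5)) (.v 5))) (.mul (.c (375)) (.mul (.mul (.v 3) (.v 5)) (.v 5)))))))))
    (M := 249999) (k1 := 19) (s1 := 0x91040000000000000000099069751c1100000000000000000054c0888820a00000000000000000497b6e91c72800000000000000002cd72234a14a0000000000000000008615af10528000000000000000016dc3be0814600000000000000000564ec9a0041800000000000000003258e88ca0c600000000000000000799c6a71c91800000000000000002f2c1a6c62460000000000000000041774702470800000000000000000cfad7a86102000000000000000000372c510410800000000000000000ba63e4c82820000000000000000012aa19c0ca08000000000000000000edc3309082000000000000000000653ce50c2080000000000000000010b8d0c208200000000000000000001dea1) (k2 := 0) (s2 := 0x0)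
    (by decide +kernel) (yv_nonneg d0 p0 q0 (le_refl 0) (le_refl 0) (le_refl 0) (le_refl 0) (le_refl 0) (le_refl 0))
    (by
      simp only [List.forall_mem_cons, exadd, exmul, exc, exv2, exv3, exv5]
      push_cast
      refine ⟨?_, ?_, ?_, ?_, ?_, ?_, ?_, ?_, ?_, ?_, fun _ hh => absurd hh List.not_mem_nil⟩ <;> linarith)
  simp only [exadd, exmul, exc, exv2, exv3, exv5] at h
  push_cast at h
  simp only [mp, bb]
  linarith only [h]

theorem g8_Jpqr {d p q r : ℝ} (d0 : 0 ≤ d) (d1 : d ≤ 3 / 5) (hs : p + q + r = 1 + d)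
    (p0 : 0 ≤ p) (q0 : 0 ≤ q) (r0 : 0 ≤ r) (p1 : p ≤ 1) (q1 : q ≤ 1) (r1 : r ≤ 1) (jp : p ≤ d) (jq : q ≤ d) (jr : r ≤ d) :
    mp d p q r + bb (d - p) + bb (d - q) + bb (d - r) - 1 / 4 * p - 3 / 10 * q + 11 / 20 * d ≤ 213 / 250 := by
  obtain rfl : r = 1 + d - p - q := by linarith
  have h := certF (y := yv d p q 0 0 0 0 0 0)
    (gs := [(.v 2),
      (.add (.c (3)) (.mul (.c (-5)) (.v 2))),
      (.v 3),
      (.v 5),
      (.add (.add (.c (1)) (.v 2)) (.add (.mul (.c (-1)) (.v 3)) (.mul (.c (-1)) (.v 5)))),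
      (.add (.c (1)) (.mul (.c (-1)) (.v 3))),
      (.add (.c (1)) (.mul (.c (-1)) (.v 5))),
      (.add (.mul (.c (-1)) (.v 2)) (.add (.v 3) (.v 5))),
      (.add (.v 2) (.mul (.c (-1)) (.v 3))),
      (.add (.v 2) (.mul (.c (-1)) (.v 5))),
      (.add (.c (-1)) (.add (.v 3) (.v 5)))])
    (p := (.add (.add (.add (.add (.c (-222)) (.mul (.c (1425)) (.v 2))) (.add (.mul (.c (750)) (.v 3)) (.mul (.c (-3000)) (.mul (.v 2) (.v 2))))) (.add (.add (.mul (.c (825)) (.v 5)) (.mul (.c (1500)) (.mul (.v 2) (.v 3)))) (.add (.mul (.c (-250)) (.mul (.mul (.v 2) (.v 2)) (.v 2))) (.add (.mul (.c (-375)) (.mul (.v 3) (.v 3))) (.mul (.c (1500)) (.mul (.v 2) (.v 5))))))) (.add (.add (.add (.mul (.c (1125)) (.mul (.mul (.v 2) (.v 2)) (.v 3))) (.mul (.c (-750)) (.mul (.v 3) (.v 5)))) (.add (.mul (.c (-1125)) (.mul (.mul (.v 2) (.v 3)) (.v 3))) (.mul (.c (1125)) (.mul (.mul (.v 2) (.v 2)) (.v 5))))) (.add (.add (.mul (.c (-375)) (.mul (.v 5) (.v 5))) (.mul (.c (-1500))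 (.mul (.mul (.v 2) (.v 3)) (.v 5)))) (.add (.mul (.c (375)) (.mul (.mul (.v 3) (.v 3)) (.v 5))) (.add (.mul (.c (-1125)) (.mul (.mul (.v 2) (.v 5)) (.v 5))) (.mul (.c (375)) (.mul (.mul (.v 3) (.v 5)) (.v 5)))))))))
    (M := 49999) (k1 := 19) (s1 := 0x51420000000000000000004648f8041080000000000000000034a22907282000000000000000000400db218a0800000000000000000200aabca20b000000000000000000e8ee911862c0000000000000000058a0994b08b0000000000000000001ab0e92052c000000000000000004bd7d84714b000000000000000002184b040002c000000000000000001ffa6d06189000000000000000000293a7e2842400000000000000000935f1fc50890000000000000000004473ed10224000000000000000001c036f820890000000000000000003e39762c32400000000000000000200e0e0a0c90000000000000000029a8ec524324000000000000000001d9331010c900000000000000000089247f) (k2 := 0) (s2 := 0x0)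
    (by decide +kernel) (yv_nonneg d0 p0 q0 (le_refl 0) (le_refl 0) (le_refl 0) (le_refl 0) (le_refl 0) (le_refl 0))
    (by
      simp only [List.forall_mem_cons, exadd, exmul, exc, exv2, exv3, exv5]
      push_cast
      refine ⟨?_, ?_, ?_, ?_, ?_, ?_, ?_, ?_, ?_, ?_, ?_, fun _ hh => absurd hh List.not_mem_nil⟩ <;> linarith)
  simp only [exadd, exmul, exc, exv2, exv3, exv5] at h
  push_cast at h
  simp only [mp, bb]
  linarith only [h]

theorem g8_Np {d p q r a : ℝ} (d0 : 0 ≤ d) (d1 : d ≤ 3 / 5) (hs : p + q + r = 1 + d)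
    (p0 : p ≤ 0) (q0 : 0 ≤ q) (r0 : 0 ≤ r) (q1 : q ≤ 1) (r1 : r ≤ 1) (a0 : 0 ≤ a)
    (a1 : a ≤ 13 / 20) (ao : a ≤ d - p) :
    mp d p q r + (-p) ^ 3 / 3 + bb a - 1 / 4 * p - 3 / 10 * q + 11 / 20 * d ≤ 213 / 250 := by
  obtain ⟨n, rfl⟩ : ∃ n, p = -n := ⟨-p, by ring⟩
  have n0 : 0 ≤ n := by linarith
  obtain rfl : r = 1 + d + n - q := by linarith
  have h := certF (y := yv d n q a 0 0 0 0 0)
    (gs := [(.v 2),
      (.add (.c (3)) (.mul (.c (-5)) (.v 2))),
      (.v 3),
      (.v 5),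
      (.add (.add (.c (1)) (.v 2)) (.add (.v 3) (.mul (.c (-1)) (.v 5)))),
      (.add (.c (1)) (.mul (.c (-1)) (.v 5))),
      (.add (.mul (.c (-1)) (.v 2)) (.add (.mul (.c (-1)) (.v 3)) (.v 5))),
      (.v 7),
      (.add (.c (13)) (.mul (.c (-20)) (.v 7))),
      (.add (.v 2) (.add (.v 3) (.mul (.c (-1)) (.v 7))))])
    (p := (.add (.add (.add (.add (.c (278)) (.mul (.c (2175)) (.v 2))) (.add (.mul (.c (1125)) (.v 3)) (.mul (.c (-1500)) (.mul (.v 2) (.v 2))))) (.add (.add (.mul (.c (-1050)) (.v 5)) (.mul (.c (-375)) (.v 7))) (.add (.mul (.c (-500)) (.mul (.mul (.v 2) (.v 2)) (.v 2))) (.add (.mul (.c (1500)) (.mul (.v 3) (.v 3))) (.mul (.c (-1500)) (.mul (.mul (.v 2) (.v 2)) (.v 3))))))) (.add (.add (.add (.mul (.c (-1500)) (.mul (.v 3) (.v 5))) (.mul (.c (-1500)) (.mul (.mul (.v 2) (.v 3)) (.v 3)))) (.add (.mul (.c (1500)) (.mul (.mul (.v 2) (.v 2)) (.v 5))) (.mul (.c (1500)) (.mul (.v 5) (.v 5))))) (.add (.add (.mul (.c (-500)) (.mul (.mul (.v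 3) (.v 3)) (.v 3))) (.mul (.c (1500)) (.mul (.mul (.v 2) (.v 3)) (.v 5)))) (.add (.mul (.c (-750)) (.mul (.v 7) (.v 7))) (.add (.mul (.c (-1500)) (.mul (.mul (.v 2) (.v 5)) (.v 5))) (.mul (.c (125)) (.mul (.mul (.v 7) (.v 7)) (.v 7)))))))))
    (M := 19999999) (k1 := 29) (s1 := 0x30c900000000000000000c1fe9901c71c00000000000000033273ed0041c700000000000000007a8079402061800000000000000096894ae0061860000000000000000a33a0a90143180000000000000004653807c030c60000000000000001c71724b028a280000000000000002155dbf8040ca0000000000000001d433024008228000000000000000071b5f600920a00000000000000000e1de24c00828000000000000000cf12dd400a1ca000000000000000075b535901c72800000000000000018b6688c031ca0000000000000001f9efa740286280000000000000001d6e725c0518a00000000000000030861345010628000000000000000736761780024100000000000000002aa438bc086040000000000000000f2ae3880018100000000000000035d94ba50243040000000000000000bea22f6030c10000000000000001178094f0081040000000000000000df9a10c0004100000000000000008e7a9c00247040000000000000000c2d3a41051c10000000000000003116714700470400000000000000025ee328c001c10000000000000001a1abfb10)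 (k2 := 4) (s2 := 0x808080808080e48080571400000000000000000010c8b60202020202022a0201f42000000000000000001715f888080808080808a80807d240000000000000000006089720202020202022a0201f400000000000000000047278d4)
    (by decide +kernel) (yv_nonneg d0 n0 q0 a0 (le_refl 0) (le_refl 0) (le_refl 0) (le_refl 0) (le_refl 0))
    (by
      simp only [List.forall_mem_cons, exadd, exmul, exc, exv2, exv3, exv5, exv7]
      push_cast
      refine ⟨?_, ?_, ?_, ?_, ?_, ?_, ?_, ?_, ?_, ?_, fun _ hh => absurd hh List.not_mem_nil⟩ <;> linarith)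
  simp only [exadd, exmul, exc, exv2, exv3, exv5, exv7] at h
  push_cast at h
  simp only [mp, bb, neg_neg]
  linarith only [h]

theorem g8_Nq {d p q r a : ℝ} (d0 : 0 ≤ d) (d1 : d ≤ 3 / 5) (hs : p + q + r = 1 + d)
    (q0 : q ≤ 0) (p0 : 0 ≤ p) (r0 : 0 ≤ r) (p1 : p ≤ 1) (r1 : r ≤ 1) (a0 : 0 ≤ a)
    (a1 : a ≤ 13 / 20) (ao : a ≤ d - q) :
    mp d q p r + (-q) ^ 3 / 3 + bb a - 1 / 4 * p - 3 / 10 * q + 11 / 20 * d ≤ 213 / 250 := by
  obtain ⟨n, rfl⟩ : ∃ n, q = -n := ⟨-q, by ring⟩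
  have n0 : 0 ≤ n := by linarith
  obtain rfl : r = 1 + d + n - p := by linarith
  have h := certF (y := yv d n p a 0 0 0 0 0)
    (gs := [(.v 2),
      (.add (.c (3)) (.mul (.c (-5)) (.v 2))),
      (.v 3),
      (.v 5),
      (.add (.add (.c (1)) (.v 2)) (.add (.v 3) (.mul (.c (-1)) (.v 5)))),
      (.add (.c (1)) (.mul (.c (-1)) (.v 5))),
      (.add (.mul (.c (-1)) (.v 2)) (.add (.mul (.c (-1)) (.v 3)) (.v 5))),
      (.v 7),
      (.add (.c (13)) (.mul (.c (-20)) (.v 7))),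
      (.add (.v 2) (.add (.v 3) (.mul (.c (-1)) (.v 7))))])
    (p := (.add (.add (.add (.add (.c (278)) (.mul (.c (2175)) (.v 2))) (.add (.mul (.c (1050)) (.v 3)) (.mul (.c (-1500)) (.mul (.v 2) (.v 2))))) (.add (.add (.mul (.c (-1125)) (.v 5)) (.mul (.c (-375)) (.v 7))) (.add (.mul (.c (-500)) (.mul (.mul (.v 2) (.v 2)) (.v 2))) (.add (.mul (.c (1500)) (.mul (.v 3) (.v 3))) (.mul (.c (-1500)) (.mul (.mul (.v 2) (.v 2)) (.v 3))))))) (.add (.add (.add (.mul (.c (-1500)) (.mul (.v 3) (.v 5))) (.mul (.c (-1500)) (.mul (.mul (.v 2) (.v 3)) (.v 3)))) (.add (.mul (.c (1500)) (.mul (.mul (.v 2) (.v 2)) (.v 5))) (.mul (.c (1500)) (.mul (.v 5) (.v 5))))) (.add (.add (.mul (.c (-500)) (.mul (.mul (.v 3) (.v 3)) (.v 3))) (.mul (.c (1500)) (.mul (.mul (.v 2) (.v 3)) (.v 5)))) (.add (.mul (.c (-750)) (.mul (.v 7) (.v 7))) (.add (.mul (.c (-1500)) (.mul (.mul (.v 2) (.v 5)) (.v 5))) (.mul (.c (125)) (.mul (.mul (.v 7) (.v 7)) (.v 7)))))))))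
    (M := 49999999) (k1 := 29) (s1 := 0x920800000000000000000d3696621042000000000000000031677024051c80000000000000000535f3b30007200000000000000005a748c2c071030000000000000000bbc80d502430c00000000000000009a0ba75840c3000000000000000015219f480030c00000000000000011b8b95e002410000000000000000481aa22800604000000000000002dc81be68030c100000000000000003c54f240247040000000000000000c243720071c100000000000000032ce5a7701470400000000000000311ea928c090810000000000000000067f0e30182040000000000000000ecdff420108100000000000000000002f9b80020400000000000000017380fb00514a000000000000000348a9945824328000000000000000180bad45870ca00000000000000091ad93c302482800000000000000007f597890520a000000000000000506f7f5701082800000000000000141bf6b920220a00000000000000018cc8d7e014628000000000000000565db3020418a00000000000000055e107b980c628000000000000000225710b20218a000000000000000133e4b978) (k2 := 5) (s2 := 0x20202020202022a0201f4900000000000000000026b19180808080805bb25b806d140000000000000000000004b20202020202022a0201f4200000000000000000311904c80808080806db26d806c0800000000000000000022321a0202020201b6c9b601b000000000000000000013db746)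
    (by decide +kernel) (yv_nonneg d0 n0 p0 a0 (le_refl 0) (le_refl 0) (le_refl 0) (le_refl 0) (le_refl 0))
    (by
      simp only [List.forall_mem_cons, exadd, exmul, exc, exv2, exv3, exv5, exv7]
      push_cast
      refine ⟨?_, ?_, ?_, ?_, ?_, ?_, ?_, ?_, ?_, ?_, fun _ hh => absurd hh List.not_mem_nil⟩ <;> linarith)
  simp only [exadd, exmul, exc, exv2, exv3, exv5, exv7] at h
  push_cast at h
  simp only [mp, bb, neg_neg]
  linarith only [h]

theorem g8_Nr {d p q r a : ℝ} (d0 : 0 ≤ d) (d1 : d ≤ 3 / 5) (hs : p + q + r = 1 + d)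
    (r0 : r ≤ 0) (p0 : 0 ≤ p) (q0 : 0 ≤ q) (p1 : p ≤ 1) (q1 : q ≤ 1) (a0 : 0 ≤ a)
    (a1 : a ≤ 13 / 20) (ao : a ≤ d - r) :
    mp d r p q + (-r) ^ 3 / 3 + bb a - 1 / 4 * p - 3 / 10 * q + 11 / 20 * d ≤ 213 / 250 := by
  obtain ⟨n, rfl⟩ : ∃ n, r = -n := ⟨-r, by ring⟩
  have n0 : 0 ≤ n := by linarith
  obtain rfl : q = 1 + d + n - p := by linarith
  have h := certF (y := yv d n p a 0 0 0 0 0)
    (gs := [(.v 2),
      (.add (.c (3)) (.mul (.c (-5)) (.v 2))),
      (.v 3),
      (.v 5),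
      (.add (.add (.c (1)) (.v 2)) (.add (.v 3) (.mul (.c (-1)) (.v 5)))),
      (.add (.c (1)) (.mul (.c (-1)) (.v 5))),
      (.add (.mul (.c (-1)) (.v 2)) (.add (.mul (.c (-1)) (.v 3)) (.v 5))),
      (.v 7),
      (.add (.c (13)) (.mul (.c (-20)) (.v 7))),
      (.add (.v 2) (.add (.v 3) (.mul (.c (-1)) (.v 7))))])
    (p := (.add (.add (.add (.add (.c (728)) (.mul (.c (2625)) (.v 2))) (.add (.mul (.c (1950)) (.v 3)) (.mul (.c (-1500)) (.mul (.v 2) (.v 2))))) (.add (.add (.mul (.c (-1575)) (.v 5)) (.mul (.c (-375)) (.v 7))) (.add (.mul (.c (-500)) (.mul (.mul (.v 2) (.v 2)) (.v 2))) (.add (.mul (.c (1500)) (.mul (.v 3) (.v 3))) (.mul (.c (-1500)) (.mul (.mul (.v 2) (.v 2)) (.v 3))))))) (.add (.add (.add (.mul (.c (-1500)) (.mul (.v 3) (.v 5))) (.mul (.c (-1500)) (.mul (.mul (.v 2) (.v 3)) (.v 3)))) (.add (.mul (.c (1500)) (.mul (.mul (.v 2) (.v 2)) (.v 5))) (.mul (.c (1500)) (.mul (.v 5) (.v 5))))) (.add (.add (.mul (.c (-500)) (.mul (.mul (.v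 3) (.v 3)) (.v 3))) (.mul (.c (1500)) (.mul (.mul (.v 2) (.v 3)) (.v 5)))) (.add (.mul (.c (-750)) (.mul (.v 7) (.v 7))) (.add (.mul (.c (-1500)) (.mul (.mul (.v 2) (.v 5)) (.v 5))) (.mul (.c (125)) (.mul (.mul (.v 7) (.v 7)) (.v 7)))))))))
    (M := 399999) (k1 := 34) (s1 := 0x1861800000000000000001ecf0c6071c7000000000000000007e5de701041c00000000000000000db47be061450000000000000000039f4f680851400000000000000000262992081c8000000000000000007635540182200000000000000000099b10009248000000000000000000016a010092000000000000000000373216891c100000000000000000099b10018404000000000000000033a0716080410000000000000000040091101420400000000000000000beaa3c0408100000000000000000282e22008204000000000000000000f5d8a0000100000000000000000f5adf201450c000000000000000014fc0580710300000000000000000ea0e8e02030c00000000000000001803792070c300000000000000000d1e06b01830c00000000000000003dd40a2030c30000000000000000060089e80030c00000000000000001a903520000300000000000000000221dfc02072800000000000000001498b480018a000000000000000009715bc01042800000000000000000ec76600208a0000000000000000006676082452800000000000000000072a5d8714a000000000000000003b1c21020a2800000000000000000314e440328a0000000000000000018a40e804a280000000000000000062903a0000a00000000000000000dca3ef8)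 (k2 := 0) (s2 := 0x0)
    (by decide +kernel) (yv_nonneg d0 n0 p0 a0 (le_refl 0) (le_refl 0) (le_refl 0) (le_refl 0) (le_refl 0))
    (by
      simp only [List.forall_mem_cons, exadd, exmul, exc, exv2, exv3, exv5, exv7]
      push_cast
      refine ⟨?_, ?_, ?_, ?_, ?_, ?_, ?_, ?_, ?_, ?_, fun _ hh => absurd hh List.not_mem_nil⟩ <;> linarith)
  simp only [exadd, exmul, exc, exv2, exv3, exv5, exv7] at h
  push_cast at h
  simp only [mp, bb, neg_neg]
  linarith only [h]

theorem g8 {V d p q r : ℝ} (h : GR V d p q r) : V - 1 / 4 * p - 3 / 10 * q + 11 / 20 * d ≤ 213 / 250 := by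
  rcases h.cs with h1 | h1 | h1 | h1
  · obtain ⟨p0, q0, r0, A, B, E, hA, hB, hE, hv⟩ := h1
    have e1 : mp d p r q = mp d p q r := by unfold mp; ring
    have e2 : mp d q p r = mp d p q r := by unfold mp; ring
    have e3 : mp d q r p = mp d p q r := by unfold mp; ring
    have e4 : mp d r p q = mp d p q r := by unfold mp; ring
    have e5 : mp d r q p = mp d p q r := by unfold mp; ring
    rcases hA with hA | ⟨jp, hA⟩ <;> rcases hB with hB | ⟨jq, hB⟩ <;> rcases hE with hE | ⟨jr, hE⟩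
    · have := g8_J (p := p) (q := q) (r := r) h.d0 h.d1 (by linarith [h.s]) p0 q0 r0 h.p1 h.q1 h.r1
      linarith
    · have := g8_Jr (p := p) (q := q) (r := r) h.d0 h.d1 (by linarith [h.s]) p0 q0 r0 h.p1 h.q1 h.r1 jr
      linarith
    · have := g8_Jq (p := p) (q := q) (r := r) h.d0 h.d1 (by linarith [h.s]) p0 q0 r0 h.p1 h.q1 h.r1 jq
      linarith
    · have := g8_Jqr (p := p) (q := q) (r := r) h.d0 h.d1 (by linarith [h.s]) p0 q0 r0 h.p1 h.q1 h.r1 jq jr
      linarith
    · have := g8_Jp (p := p) (q := q) (r := r) h.d0 h.d1 (by linarith [h.s]) p0 q0 r0 h.p1 h.q1 h.r1 jp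
      linarith
    · have := g8_Jpr (p := p) (q := q) (r := r) h.d0 h.d1 (by linarith [h.s]) p0 q0 r0 h.p1 h.q1 h.r1 jp jr
      linarith
    · have := g8_Jpq (p := p) (q := q) (r := r) h.d0 h.d1 (by linarith [h.s]) p0 q0 r0 h.p1 h.q1 h.r1 jp jq
      linarith
    · have := g8_Jpqr (p := p) (q := q) (r := r) h.d0 h.d1 (by linarith [h.s]) p0 q0 r0 h.p1 h.q1 h.r1 jp jq jr
      linarith
  · obtain ⟨p0, q0, r0, a, a0, a1, ao, hv⟩ := h1
    have := g8_Np h.d0 h.d1 h.s p0 q0 r0 h.q1 h.r1 a0 a1 ao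
    linarith
  · obtain ⟨q0, p0, r0, a, a0, a1, ao, hv⟩ := h1
    have := g8_Nq h.d0 h.d1 h.s q0 p0 r0 h.p1 h.r1 a0 a1 ao
    linarith
  · obtain ⟨r0, p0, q0, a, a0, a1, ao, hv⟩ := h1
    have := g8_Nr h.d0 h.d1 h.s r0 p0 q0 h.p1 h.q1 a0 a1 ao
    linarith

end Pool.Agent.Helper65.TS
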