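import Pool.Agent.Helper65.TS.PClass
import Pool.Agent.Helper83.Cert.RE

/-!
# Inequalities for one tall class
-/

set_option autoImplicit false
set_option maxRecDepth 100000
set_option linter.all false

namespace Pool.Agent.Helper65.TS

open Pool.Agent.Helper83.Cert (finE)

open Pool.Agent.Helper83.Cert Pool.Agent.Helper44.TS Pool.Agent.Helper84.TS Pool.Agent.Helper36.TS

theorem t2_1 {d t w X : ℝ} (d0 : 0 ≤ d) (d1 : d ≤ 3 / 5) (w1 : 13 / 20 ≤ w) (wt : w ≤ t) (t1 : t ≤ 1)
    (X0 : 0 ≤ X) (xw : X ≤ w) :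
    HH t - d * ((1 - t) * (5 - t)) / 4 + (w * X - X ^ 3 / 3) ≤ 49 / 100 + 7 / 20 * X := by
  have w0 : 0 ≤ w := by linarith
  have t0 : 0 ≤ t := by linarith
  exact finE (yv_nonneg d0 t0 w0 X0 (le_refl 0) (le_refl 0) (le_refl 0) (le_refl 0) (le_refl 0)) (.A (.S (.A (.S (.S (.D (.n 9) 10) (.D .v1 0)) (.M (.D (.n 1) 2) (.P .v1))) (.D (.Q .v1) 1)) (.D (.M .v0 (.M (.S .o .v1) (.S (.n 3) .v1))) 2)) (.S (.M .v2 .v3) (.D (.Q .v3) 1))) (.A (.D (.n 47) 98) (.M (.D (.n 5) 18) .v3))
    [.v0, (.S (.D (.n 1) 3) .v0), .v2, (.S .v2 (.D (.n 11) 18)), (.S .v1 .v2), (.S .o .v1), .v1, .v3, (.S .v2 .v3)]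
    ⟨d0, Pool.Agent.Helper83.Cert.sn d1, w0, Pool.Agent.Helper83.Cert.sn w1, Pool.Agent.Helper83.Cert.sn wt, Pool.Agent.Helper83.Cert.sn t1, t0, X0, Pool.Agent.Helper83.Cert.sn xw, trivial⟩
    399999999 33 0x82490000000000000009501ca440089240000000000000000000ea60002490000000000000004814cc040249100000000000000002f943e9408204000000000000000030168c0010410000000000000000000b605442084000000000000000005cd1fe024610000000000000000415aa4ec0718400000000000000007739aae00061000000000000000028fac0d0090c10000000000000000005b8d800020400000000000000032c7060009041000000000000000000124f80081040000000000000000000ea6009181000000000000000000124f80186040000000000000055524edc003181000000000000000e58dde80004604000000000000002d5364c000000100000000000000026037bc4000314000000000000004785007e0052450000000000000000002dc6c010914000000000000000415b8f4c07185000000000000000c8162718018614000000000000000cc484b90070850000000000000002de6e290014214000000000000000000493e001045000000000000000b54c6e08000114000000000000000300fc5a009205000000000000000000124f80148140000000000000000006ddd0022050000000000000000000753000081400000000000000091da68d0000050000000000000007fbd08d80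 1 0x2020202020391c5c601a4000000000000000000031d040 (by decide +kernel)

theorem t2_2 {d t w X : ℝ} (d0 : 0 ≤ d) (d1 : d ≤ 3 / 5) (w1 : 13 / 20 ≤ w) (wt : w ≤ t) (t1 : t ≤ 1)
    (xw : w ≤ X) (x2 : 2 * X ≤ 1 + w) :
    HH t - d * ((1 - t) * (5 - t)) / 4 + (w * X * (1 + w - X) - w ^ 3 / 3) ≤ 49 / 100 + 7 / 20 * X := by
  have w0 : 0 ≤ w := by linarith
  have t0 : 0 ≤ t := by linarith
  have X0 : 0 ≤ X := by linarith
  exact finE (yv_nonneg d0 t0 w0 X0 (le_refl 0) (le_refl 0) (le_refl 0) (le_refl 0) (le_refl 0)) (.A (.S (.A (.S (.S (.D (.n 9) 10) (.D .v1 0)) (.M (.D (.n 1) 2) (.P .v1))) (.D (.Q .v1) 1)) (.D (.M .v0 (.M (.S .o .v1) (.S (.n 3) .v1))) 2)) (.S (.M (.M .v2 .v3) (.S (.A .o .v2) .v3)) (.D (.Q .v2) 1))) (.A (.D (.n 47) 98) (.M (.D (.n 5) 18) .v3))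
    [.v0, (.S (.D (.n 1) 3) .v0), .v2, (.S .v2 (.D (.n 11) 18)), (.S .v1 .v2), (.S .o .v1), .v1, .v3, (.S .v3 .v2), (.S (.A .o .v2) (.M (.n 0) .v3))]
    ⟨d0, Pool.Agent.Helper83.Cert.sn d1, w0, Pool.Agent.Helper83.Cert.sn w1, Pool.Agent.Helper83.Cert.sn wt, Pool.Agent.Helper83.Cert.sn t1, t0, X0, Pool.Agent.Helper83.Cert.sn xw, Pool.Agent.Helper83.Cert.sn x2, trivial⟩
    19999999 34 0x2082400000000000000019e7fd100a249000000000000000033d06f500092400000000000000013e621a80a28400000000000000000286f5180091000000000000000000a99548081c40000000000000000006ba4a4102100000000000000000007e3bc4208400000000000000000088c1b828610000000000000000004569ba0318400000000000000000408b5d400610000000000000000022b7e27071c10000000000000000563f97000420400000000000000000000bb800081000000000000000012b3544020a0400000000000000000001d4c0728100000000000000000001d4c004a0400000000000000000001d4c0a18100000000000000000000bb80186040000000000000003e6c58c00118100000000000000010b1ca550006040000000000000000943e708060c50000000000000001fb18d5600411400000000000000042c6eebc041c500000000000000000b4bbd280871400000000000000018a77084061450000000000000000773676900c5140000000000000000aafea88011450000000000000000f68b14f020a1400000000000000000001d4c0728500000000000000000000753010a140000000000000000052dcfd03285000000000000000000018e7008a140000000000000000000096000005000000000000000044b4d630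 0 0x0 (by decide +kernel)

theorem t2_3 {d t w : ℝ} (d0 : 0 ≤ d) (d1 : d ≤ 3 / 5) (w1 : 13 / 20 ≤ w) (wt : w ≤ t) (t1 : t ≤ 1)
     :
    HH t - d * ((1 - t) * (5 - t)) / 4 + bb w ≤ 49 / 100 + 7 / 20 * ((1 + w) / 2) := by
  have w0 : 0 ≤ w := by linarith
  have t0 : 0 ≤ t := by linarith
  exact finE (yv_nonneg d0 t0 w0 (le_refl 0) (le_refl 0) (le_refl 0) (le_refl 0) (le_refl 0) (le_refl 0)) (.A (.S (.A (.S (.S (.D (.n 9) 10) (.D .v1 0)) (.M (.D (.n 1) 2) (.P .v1))) (.D (.Q .v1) 1)) (.D (.M .v0 (.M (.S .o .v1) (.S (.n 3) .v1))) 2)) (.S (.A (.D .v2 2) (.D (.P .v2) 0)) (.D (.Q .v2) 10))) (.A (.D (.n 47) 98) (.M (.D (.n 5) 18) (.D (.A .o .v2) 0)))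
    [.v0, (.S (.D (.n 1) 3) .v0), .v2, (.S .v2 (.D (.n 11) 18)), (.S .v1 .v2), (.S .o .v1), .v1]
    ⟨d0, Pool.Agent.Helper83.Cert.sn d1, w0, Pool.Agent.Helper83.Cert.sn w1, Pool.Agent.Helper83.Cert.sn wt, Pool.Agent.Helper83.Cert.sn t1, t0, trivial⟩
    19999999 19 0x410400000000000000000001e8310021000000000000000000ebc2ba0718400000000000000000bebfbd000610000000000000000013af100071850000000000000000ee6ced200061400000000000000011e38f30050c500000000000000000000ea600031400000000000000072007e780508500000000000000004786e06008214000000000000000000004b00000500000000000000017912d2a010404000000000000000002ab284830c100000000000000005ac4d10004204000000000000000000017700008100000000000000000001518018604000000000000000861c3ac8031810000000000000002cb469880046040000000000000000000ea600000100000000000000000569ece0 0 0x0 (by decide +kernel)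

theorem t2 {A : Fin 4 → Fin 4 → Option (Fin 4 → ℝ)} (h : OF A) {i m x y : Fin 4}
    {M F : Fin 4 → ℝ} (hc : TC A i m M F) (hn : [i, m, x, y].Nodup) :
    VV A i ≤ 49 / 100 + 7 / 20 * (1 - (F y + (F i - 1))) := by
  have ht := hc.nums h hn
  have e1 := ht.fM
  have e2 := ht.vv
  have w0 := hc.hw.le
  have wt := ht.wt
  have t1 := ht.t1
  have d0 := ht.d0
  have d1 := hc.hd.le
  have cF := h.cell i m F hc.hF
  have fF := h.far i m F hc.ne hc.hF
  have dF := far_dom cF hn fF.le
  have eF := far_AB cF hn fF.le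
  have bF := far_bb' cF hc.ne fF
  have sq : 0 ≤ (1 - (M i - 1)) * (M x + (1 + (M m + (M i - 1))) / 2) ^ 2 :=
    mul_nonneg (by linarith) (sq_nonneg _)
  have B0 := dF.B0.le
  rcases le_total (1 - (F y + (F i - 1))) (2 + F m) with hb | hb
  · have v1 := fAB_w dF le_rfl hb
    have v2 := t2_1 d0 d1 w0 wt t1 B0 hb
    linarith
  · rcases le_total (2 * (1 - (F y + (F i - 1)))) (1 + (2 + F m)) with hb2 | hb2
    · have v1 := fAB_m dF le_rfl hb hb2
      have v2 := t2_2 d0 d1 w0 wt t1 hb hb2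
      linarith
    · have v2 := t2_3 d0 d1 w0 wt t1
      linarith

theorem t2b_1 {d t w X : ℝ} (d0 : 0 ≤ d) (dl : 3 / 10 ≤ d) (d1 : d ≤ 3 / 5) (w1 : 13 / 20 ≤ w) (wt : w ≤ t) (t1 : t ≤ 1)
    (X0 : 0 ≤ X) (xw : X ≤ w) :
    HH t - d * ((1 - t) * (5 - t)) / 4 + (w * X - X ^ 3 / 3) ≤ 37 / 100 + 7 / 20 * X := by
  have w0 : 0 ≤ w := by linarith
  have t0 : 0 ≤ t := by linarith
  exact finE (yv_nonneg d0 t0 w0 X0 (le_refl 0) (le_refl 0) (le_refl 0) (le_refl 0) (le_refl 0)) (.A (.S (.A (.S (.S (.D (.n 9) 10) (.D .v1 0)) (.M (.D (.n 1) 2) (.P .v1))) (.D (.Q .v1) 1)) (.D (.M .v0 (.M (.S .o .v1) (.S (.n 3) .v1))) 2)) (.S (.M .v2 .v3) (.D (.Q .v3) 1))) (.A (.D (.n 35) 98) (.M (.D (.n 5) 18) .v3))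
    [.v0, (.S (.D (.n 1) 3) .v0), .v2, (.S .v2 (.D (.n 11) 18)), (.S .v1 .v2), (.S .o .v1), .v1, .v3, (.S .v0 (.D (.n 1) 8)), (.S .v2 .v3)]
    ⟨d0, Pool.Agent.Helper83.Cert.sn d1, w0, Pool.Agent.Helper83.Cert.sn w1, Pool.Agent.Helper83.Cert.sn wt, Pool.Agent.Helper83.Cert.sn t1, t0, X0, Pool.Agent.Helper83.Cert.sn dl, Pool.Agent.Helper83.Cert.sn xw, trivial⟩
    999999999 29 0xa2840000000000000001be27b2c028a2000000000000000251b620a809248000000000000000002213e0828a0800000000000000003cc4a400a242000000000000000004cfef0024908000000000000000000558c0082060000000000000002dbc2a0a0209180000000000000001bf68220062460000000000000001f6f5ef400891800000000000000000c57ab0002460000000000000006a91242b028418000000000000000ba0dbce40810600000000000000000bfa19e004418000000000000000008a87de0010600000000000000010f60465828a1400000000000000ac085eb78000450000000000000000d2bb72e018714000000000000005d228ca08001c500000000000000114d6af82018414000000000000000649869300510500000000000000006856f7d0282140000000000000001fc2cc6005085000000000000000059dc74a00421400000000000000009df50300a20500000000000000216d7f9ac018814000000000000001f62d348805205000000000000000709ff57200081400000000000000a183dc7d8000050000000000000006afb24660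 5 0x2020202020391b5b5d1b490000000000000000000c1ff58080808080e468687968200000000000000000016f26020202020202c9cdcdf1cc2000000000000000000552ab08080808080e46d6d746d000000000000000000017601020202020202c9cdcdf1cc0000000000000000000ce8830 (by decide +kernel)

theorem t2b_2 {d t w X : ℝ} (d0 : 0 ≤ d) (dl : 3 / 10 ≤ d) (d1 : d ≤ 3 / 5) (w1 : 13 / 20 ≤ w) (wt : w ≤ t) (t1 : t ≤ 1)
    (xw : w ≤ X) (x2 : 2 * X ≤ 1 + w) :
    HH t - d * ((1 - t) * (5 - t)) / 4 + (w * X * (1 + w - X) - w ^ 3 / 3) ≤ 37 / 100 + 7 / 20 * X := by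
  have w0 : 0 ≤ w := by linarith
  have t0 : 0 ≤ t := by linarith
  have X0 : 0 ≤ X := by linarith
  exact finE (yv_nonneg d0 t0 w0 X0 (le_refl 0) (le_refl 0) (le_refl 0) (le_refl 0) (le_refl 0)) (.A (.S (.A (.S (.S (.D (.n 9) 10) (.D .v1 0)) (.M (.D (.n 1) 2) (.P .v1))) (.D (.Q .v1) 1)) (.D (.M .v0 (.M (.S .o .v1) (.S (.n 3) .v1))) 2)) (.S (.M (.M .v2 .v3) (.S (.A .o .v2) .v3)) (.D (.Q .v2) 1))) (.A (.D (.n 35) 98) (.M (.D (.n 5) 18) .v3))
    [.v0, (.S (.D (.n 1) 3) .v0), .v2, (.S .v2 (.D (.n 11) 18)), (.S .v1 .v2), (.S .o .v1), .v1, .v3, (.S .v0 (.D (.n 1) 8)), (.S .v3 .v2), (.S (.A .o .v2) (.M (.n 0) .v3))]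
    ⟨d0, Pool.Agent.Helper83.Cert.sn d1, w0, Pool.Agent.Helper83.Cert.sn w1, Pool.Agent.Helper83.Cert.sn wt, Pool.Agent.Helper83.Cert.sn t1, t0, X0, Pool.Agent.Helper83.Cert.sn dl, Pool.Agent.Helper83.Cert.sn xw, Pool.Agent.Helper83.Cert.sn x2, trivial⟩
    79999999 34 0x20828000000000000000679d64000b28a0000000000000000cf3c9cc000a280000000000000004f9c0140082040000000000000000045825602cb1000000000000000002417f10062c4000000000000000000c33ed020410000000000000000000465d204104000000000000000000102cf92871000000000000000000c743b8061c4000000000000000028c950900871000000000000000000005f64061890000000000000000b2cf03200c62400000000000000023bf9a2806089000000000000000000002d000c224000000000000000000016f8010890000000000000000000012c028b2400000000000000000000bb8072c900000000000000000000a8c004b2400000000000000000000bb8002c90000000000000000000054601c71400000000000000039fe02200010500000000000000002b11e5b01811400000000000000165806a9006145000000000000000436c93080145140000000000000005c7dbc0007085000000000000000000168f00142140000000000000000000546001085000000000000000000027d8028b1400000000000000000007530052c500000000000000000001d4c010b1400000000000000000946830032c50000000000000000000b5a4008b1400000000000000000003cf0000050000000000000002f0f84100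 0 0x0 (by decide +kernel)

theorem t2b_3 {d t w : ℝ} (d0 : 0 ≤ d) (dl : 3 / 10 ≤ d) (d1 : d ≤ 3 / 5) (w1 : 13 / 20 ≤ w) (wt : w ≤ t) (t1 : t ≤ 1)
     :
    HH t - d * ((1 - t) * (5 - t)) / 4 + bb w ≤ 37 / 100 + 7 / 20 * ((1 + w) / 2) := by
  have w0 : 0 ≤ w := by linarith
  have t0 : 0 ≤ t := by linarith
  exact finE (yv_nonneg d0 t0 w0 (le_refl 0) (le_refl 0) (le_refl 0) (le_refl 0) (le_refl 0) (le_refl 0)) (.A (.S (.A (.S (.S (.D (.n 9) 10) (.D .v1 0)) (.M (.D (.n 1) 2) (.P .v1))) (.D (.Q .v1) 1)) (.D (.M .v0 (.M (.S .o .v1) (.S (.n 3) .v1))) 2)) (.S (.A (.D .v2 2) (.D (.P .v2) 0)) (.D (.Q .v2) 10))) (.A (.D (.n 35) 98) (.M (.D (.n 5) 18) (.D (.A .o .v2) 0)))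
    [.v0, (.S (.D (.n 1) 3) .v0), .v2, (.S .v2 (.D (.n 11) 18)), (.S .v1 .v2), (.S .o .v1), .v1, (.S .v0 (.D (.n 1) 8))]
    ⟨d0, Pool.Agent.Helper83.Cert.sn d1, w0, Pool.Agent.Helper83.Cert.sn w1, Pool.Agent.Helper83.Cert.sn wt, Pool.Agent.Helper83.Cert.sn t1, t0, Pool.Agent.Helper83.Cert.sn dl, trivial⟩
    499999 19 0x1020000000000000000000003210c8080000000000000000000003a8120200000000000000000000003c1861800000000000000000429bf407206000000000000000001c9a5f818818000000000000000008f0bd5822060000000000000000000000721c418000000000000000000afa1901106000000000000000000000e01004180000000000000000009813cc71c50000000000000000076a08e018514000000000000000031561590414500000000000000000039cdad183140000000000000000495bdd5030c500000000000000000306a5601c21400000000000000000000c3f0508500000000000000000000025804214000000000000000000001b3000050000000000000000045074a0 0 0x0 (by decide +kernel)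

theorem t2b {A : Fin 4 → Fin 4 → Option (Fin 4 → ℝ)} (h : OF A) {i m x y : Fin 4}
    {M F : Fin 4 → ℝ} (hc : TC A i m M F) (hn : [i, m, x, y].Nodup) (dl : 3 / 10 ≤ M i - 1) :
    VV A i ≤ 37 / 100 + 7 / 20 * (1 - (F y + (F i - 1))) := by
  have ht := hc.nums h hn
  have e1 := ht.fM
  have e2 := ht.vv
  have w0 := hc.hw.le
  have wt := ht.wt
  have t1 := ht.t1
  have d0 := ht.d0
  have d1 := hc.hd.le
  have cF := h.cell i m F hc.hF
  have fF := h.far i m F hc.ne hc.hF
  have dF := far_dom cF hn fF.le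
  have eF := far_AB cF hn fF.le
  have bF := far_bb' cF hc.ne fF
  have sq : 0 ≤ (1 - (M i - 1)) * (M x + (1 + (M m + (M i - 1))) / 2) ^ 2 :=
    mul_nonneg (by linarith) (sq_nonneg _)
  have B0 := dF.B0.le
  rcases le_total (1 - (F y + (F i - 1))) (2 + F m) with hb | hb
  · have v1 := fAB_w dF le_rfl hb
    have v2 := t2b_1 d0 dl d1 w0 wt t1 B0 hb
    linarith
  · rcases le_total (2 * (1 - (F y + (F i - 1)))) (1 + (2 + F m)) with hb2 | hb2
    · have v1 := fAB_m dF le_rfl hb hb2
      have v2 := t2b_2 d0 dl d1 w0 wt t1 hb hb2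
      linarith
    · have v2 := t2b_3 d0 dl d1 w0 wt t1
      linarith

theorem t7_1 {d t w X : ℝ} (d0 : 0 ≤ d) (d1 : d ≤ 3 / 10) (w1 : 13 / 20 ≤ w) (wt : w ≤ t) (t1 : t ≤ 1)
    (X0 : 0 ≤ X) (xw : X ≤ w) :
    HH t - d * ((1 - t) * (5 - t)) / 4 + (w * X - X ^ 3 / 3) + 7 / 20 * d ≤ 109 / 200 + 1 / 4 * X := by
  have w0 : 0 ≤ w := by linarith
  have t0 : 0 ≤ t := by linarith
  exact finE (yv_nonneg d0 t0 w0 X0 (le_refl 0) (le_refl 0) (le_refl 0) (le_refl 0) (le_refl 0)) (.A (.A (.S (.A (.S (.S (.D (.n 9) 10) (.D .v1 0)) (.M (.D (.n 1) 2) (.P .v1))) (.D (.Q .v1) 1)) (.D (.M .v0 (.M (.S .o .v1) (.S (.n 3) .v1))) 2)) (.S (.M .v2 .v3) (.D (.Q .v3) 1))) (.M (.D (.n 5) 18) .v0)) (.A (.D (.n 107) 198) (.M (.D .o 2) .v3))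
    [.v0, (.S (.D (.n 1) 8) .v0), .v2, (.S .v2 (.D (.n 11) 18)), (.S .v1 .v2), (.S .o .v1), .v1, .v3, (.S .v2 .v3)]
    ⟨d0, Pool.Agent.Helper83.Cert.sn d1, w0, Pool.Agent.Helper83.Cert.sn w1, Pool.Agent.Helper83.Cert.sn wt, Pool.Agent.Helper83.Cert.sn t1, t0, X0, Pool.Agent.Helper83.Cert.sn xw, trivial⟩
    999999999 29 0x92460000000000000033323d24c020818000000000000000fd4a39600120600000000000000131195ab402441800000000000000066b78c280810600000000000000012d25cfa00041800000000000000038bf9680091c20000000000000000f1c0bba0244080000000000000000aec19c2061020000000000000000524737980040800000000000000029e48b66090420000000000000000214351e0201080000000000000000115a2380704200000000000000000bd83a000410800000000000000000718680000420000000000000000042603002081400000000000000c97ed0320000c5000000000000004f01c9838000214000000000000003e25a2360040450000000000000000f0378390249140000000000000073637d600022450000000000000001421d8c4000914000000000000003bc49b910081850000000000000002367b88001861400000000000000140d3f54003185000000000000007ffbdcd4001851400000000000000cf4f674c0041450000000000000000fedfcd800451400000000000000884297d9000145000000000000004e760fdc40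 5 0x20202020203918d8ddd8c8000000000000000001312a948080808080e4636377631c0000000000000000004d0b220202020203918d8ddd8c400000000000000000022cef98080808080e46363776304000000000000000000dbaec20202020202c9cdcdf1cc0000000000000000004302ab0 (by decide +kernel)

theorem t7_2 {d t w X : ℝ} (d0 : 0 ≤ d) (d1 : d ≤ 3 / 10) (w1 : 13 / 20 ≤ w) (wt : w ≤ t) (t1 : t ≤ 1)
    (xw : w ≤ X) (x2 : 2 * X ≤ 1 + w) :
    HH t - d * ((1 - t) * (5 - t)) / 4 + (w * X * (1 + w - X) - w ^ 3 / 3) + 7 / 20 * d ≤ 109 / 200 + 1 / 4 * X := by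
  have w0 : 0 ≤ w := by linarith
  have t0 : 0 ≤ t := by linarith
  have X0 : 0 ≤ X := by linarith
  exact finE (yv_nonneg d0 t0 w0 X0 (le_refl 0) (le_refl 0) (le_refl 0) (le_refl 0) (le_refl 0)) (.A (.A (.S (.A (.S (.S (.D (.n 9) 10) (.D .v1 0)) (.M (.D (.n 1) 2) (.P .v1))) (.D (.Q .v1) 1)) (.D (.M .v0 (.M (.S .o .v1) (.S (.n 3) .v1))) 2)) (.S (.M (.M .v2 .v3) (.S (.A .o .v2) .v3)) (.D (.Q .v2) 1))) (.M (.D (.n 5) 18) .v0)) (.A (.D (.n 107) 198) (.M (.D .o 2) .v3))
    [.v0, (.S (.D (.n 1) 8) .v0), .v2, (.S .v2 (.D (.n 11) 18)), (.S .v1 .v2), (.S .o .v1), .v1, .v3, (.S .v3 .v2), (.S (.A .o .v2) (.M (.n 0) .v3))]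
    ⟨d0, Pool.Agent.Helper83.Cert.sn d1, w0, Pool.Agent.Helper83.Cert.sn w1, Pool.Agent.Helper83.Cert.sn wt, Pool.Agent.Helper83.Cert.sn t1, t0, X0, Pool.Agent.Helper83.Cert.sn xw, Pool.Agent.Helper83.Cert.sn x2, trivial⟩
    1999999 34 0x2892400000000000000006ab837009209000000000000000031902f002082400000000000000000f2ee3c0a2840000000000000000007ae158208100000000000000000008787f091c40000000000000000020a099000610000000000000000003c82f5000840000000000000000005b9998284100000000000000000001572846104000000000000000000027b1c104040000000000000000000019e06181000000000000000011d6c2a00460400000000000000000000bb803081000000000000000000000708042040000000000000000000012c00081000000000000000000000d2020a04000000000000000000005dc03281000000000000000000003cf004a04000000000000000000005dc0028100000000000000000000258000714000000000000000092c563805185000000000000000017d7b1500c6140000000000000000e914df407105000000000000000000877a1c1041400000000000000000001159860850000000000000000072941e81421400000000000000001ca0c0a0308500000000000000000727257024a14000000000000000000005dc0728500000000000000000000177010a14000000000000000004142400128500000000000000000000177000a140000000000000000000164400005000000000000000010b34650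 0 0x0 (by decide +kernel)

theorem t7_3 {d t w : ℝ} (d0 : 0 ≤ d) (d1 : d ≤ 3 / 10) (w1 : 13 / 20 ≤ w) (wt : w ≤ t) (t1 : t ≤ 1)
     :
    HH t - d * ((1 - t) * (5 - t)) / 4 + bb w + 7 / 20 * d ≤ 109 / 200 + 1 / 4 * ((1 + w) / 2) := by
  have w0 : 0 ≤ w := by linarith
  have t0 : 0 ≤ t := by linarith
  exact finE (yv_nonneg d0 t0 w0 (le_refl 0) (le_refl 0) (le_refl 0) (le_refl 0) (le_refl 0) (le_refl 0)) (.A (.A (.S (.A (.S (.S (.D (.n 9) 10) (.D .v1 0)) (.M (.D (.n 1) 2) (.P .v1))) (.D (.Q .v1) 1)) (.D (.M .v0 (.M (.S .o .v1) (.S (.n 3) .v1))) 2)) (.S (.A (.D .v2 2) (.D (.P .v2) 0)) (.D (.Q .v2) 10))) (.M (.D (.n 5) 18) .v0)) (.A (.D (.n 107) 198) (.M (.D .o 2) (.D (.A .o .v2) 0)))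
    [.v0, (.S (.D (.n 1) 8) .v0), .v2, (.S .v2 (.D (.n 11) 18)), (.S .v1 .v2), (.S .o .v1), .v1]
    ⟨d0, Pool.Agent.Helper83.Cert.sn d1, w0, Pool.Agent.Helper83.Cert.sn w1, Pool.Agent.Helper83.Cert.sn wt, Pool.Agent.Helper83.Cert.sn t1, t0, trivial⟩
    4999999 19 0x604600000000000000006127db501c418000000000000000008f12f4001060000000000000000023d96de1c6140000000000000001659d128000c50000000000000000595105501451400000000000000007730256041450000000000000000023c1cf000514000000000000000073d6d8a000050000000000000000432a79281c60800000000000000000b4fa1404102000000000000000000052ac40040800000000000000000303084c704200000000000000000000177004108000000000000000000002ee00042000000000000000000000f3c145080000000000000000204aeb403142000000000000000010258158085080000000000000000000004b001420000000000000000049038d8 0 0x0 (by decide +kernel)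

theorem t7 {A : Fin 4 → Fin 4 → Option (Fin 4 → ℝ)} (h : OF A) {i m x y : Fin 4}
    {M F : Fin 4 → ℝ} (hc : TC A i m M F) (hn : [i, m, x, y].Nodup) (dh : M i - 1 ≤ 3 / 10) :
    VV A i + 7 / 20 * (M i - 1) ≤ 109 / 200 + 1 / 4 * (1 - (F y + (F i - 1))) := by
  have ht := hc.nums h hn
  have e1 := ht.fM
  have e2 := ht.vv
  have w0 := hc.hw.le
  have wt := ht.wt
  have t1 := ht.t1
  have d0 := ht.d0
  have d1 := hc.hd.le
  have cF := h.cell i m F hc.hF
  have fF := h.far i m F hc.ne hc.hF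
  have dF := far_dom cF hn fF.le
  have eF := far_AB cF hn fF.le
  have bF := far_bb' cF hc.ne fF
  have sq : 0 ≤ (1 - (M i - 1)) * (M x + (1 + (M m + (M i - 1))) / 2) ^ 2 :=
    mul_nonneg (by linarith) (sq_nonneg _)
  have B0 := dF.B0.le
  rcases le_total (1 - (F y + (F i - 1))) (2 + F m) with hb | hb
  · have v1 := fAB_w dF le_rfl hb
    have v2 := t7_1 d0 dh w0 wt t1 B0 hb
    linarith
  · rcases le_total (2 * (1 - (F y + (F i - 1)))) (1 + (2 + F m)) with hb2 | hb2
    · have v1 := fAB_m dF le_rfl hb hb2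
      have v2 := t7_2 d0 dh w0 wt t1 hb hb2
      linarith
    · have v2 := t7_3 d0 dh w0 wt t1
      linarith

theorem t8_1 {d t w X : ℝ} (d0 : 0 ≤ d) (dl : 3 / 10 ≤ d) (d1 : d ≤ 3 / 5) (w1 : 13 / 20 ≤ w) (wt : w ≤ t) (t1 : t ≤ 1)
    (X0 : 0 ≤ X) (xw : X ≤ w) :
    HH t - d * ((1 - t) * (5 - t)) / 4 + (w * X - X ^ 3 / 3) ≤ 79 / 200 + 3 / 10 * X := by
  have w0 : 0 ≤ w := by linarith
  have t0 : 0 ≤ t := by linarith
  exact finE (yv_nonneg d0 t0 w0 X0 (le_refl 0) (le_refl 0) (le_refl 0) (le_refl 0) (le_refl 0)) (.A (.S (.A (.S (.S (.D (.n 9) 10) (.D .v1 0)) (.M (.D (.n 1) 2) (.P .v1))) (.D (.Q .v1) 1)) (.D (.M .v0 (.M (.S .o .v1) (.S (.n 3) .v1))) 2)) (.S (.M .v2 .v3) (.D (.Q .v3) 1))) (.A (.D (.n 77) 198) (.M (.D (.n 1) 8) .v3))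
    [.v0, (.S (.D (.n 1) 3) .v0), .v2, (.S .v2 (.D (.n 11) 18)), (.S .v1 .v2), (.S .o .v1), .v1, .v3, (.S .v0 (.D (.n 1) 8)), (.S .v2 .v3)]
    ⟨d0, Pool.Agent.Helper83.Cert.sn d1, w0, Pool.Agent.Helper83.Cert.sn w1, Pool.Agent.Helper83.Cert.sn wt, Pool.Agent.Helper83.Cert.sn t1, t0, X0, Pool.Agent.Helper83.Cert.sn dl, Pool.Agent.Helper83.Cert.sn xw, trivial⟩
    249999999 29 0xa2880000000000000004b2d62d9028a080000000000000000552fdc8092020000000000000000032dacc828208000000000000000006422c40908200000000000000000002dff028a18000000000000005b843cc8c06286000000000000000051078f90204180000000000000001d5470a50710600000000000000005587689c184180000000000000000e75f6a30a24600000000000000009408e19024918000000000000000002544870724600000000000000032d91162818918000000000000001213401c60a285000000000000001a6e1883900821400000000000000000e2110c0a145000000000000001728b813400051400000000000000205e6aa1c030450000000000000000f88d268000114000000000000000cd221384082050000000000000004808b9320148140000000000000004f6f943403205000000000000000cd15c61a008814000000000000000513a5f600a1850000000000000013e60892201c614000000000000002e9146504041850000000000000000d0fc36b00461400000000000000103444c9800005000000000000000ce3472c60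 5 0x20202020202c9cdcdf1cc4000000000000000000390e768080808080b273737c730c000000000000000001fcbf62020202020072eae99da080000000000000000002d7fcb8080808080b273737c730800000000000000000020b562020202020072eeee0d84200000000000000000001f5fc (by decide +kernel)

theorem t8_2 {d t w X : ℝ} (d0 : 0 ≤ d) (dl : 3 / 10 ≤ d) (d1 : d ≤ 3 / 5) (w1 : 13 / 20 ≤ w) (wt : w ≤ t) (t1 : t ≤ 1)
    (xw : w ≤ X) (x2 : 2 * X ≤ 1 + w) :
    HH t - d * ((1 - t) * (5 - t)) / 4 + (w * X * (1 + w - X) - w ^ 3 / 3) ≤ 79 / 200 + 3 / 10 * X := by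
  have w0 : 0 ≤ w := by linarith
  have t0 : 0 ≤ t := by linarith
  have X0 : 0 ≤ X := by linarith
  exact finE (yv_nonneg d0 t0 w0 X0 (le_refl 0) (le_refl 0) (le_refl 0) (le_refl 0) (le_refl 0)) (.A (.S (.A (.S (.S (.D (.n 9) 10) (.D .v1 0)) (.M (.D (.n 1) 2) (.P .v1))) (.D (.Q .v1) 1)) (.D (.M .v0 (.M (.S .o .v1) (.S (.n 3) .v1))) 2)) (.S (.M (.M .v2 .v3) (.S (.A .o .v2) .v3)) (.D (.Q .v2) 1))) (.A (.D (.n 77) 198) (.M (.D (.n 1) 8) .v3))
    [.v0, (.S (.D (.n 1) 3) .v0), .v2, (.S .v2 (.D (.n 11) 18)), (.S .v1 .v2), (.S .o .v1), .v1, .v3, (.S .v0 (.D (.n 1) 8)), (.S .v3 .v2), (.S (.A .o .v2) (.M (.n 0) .v3))]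
    ⟨d0, Pool.Agent.Helper83.Cert.sn d1, w0, Pool.Agent.Helper83.Cert.sn w1, Pool.Agent.Helper83.Cert.sn wt, Pool.Agent.Helper83.Cert.sn t1, t0, X0, Pool.Agent.Helper83.Cert.sn dl, Pool.Agent.Helper83.Cert.sn xw, Pool.Agent.Helper83.Cert.sn x2, trivial⟩
    999999 34 0x20828000000000000000018844e60b28a0000000000000000031094581ca28000000000000000057681300b2c40000000000000000000ea11400a10000000000000000001dadff8820400000000000000000001d84400210000000000000000000002628b1840000000000000000005d665a1c610000000000000000002e06a58a10400000000000000000002cdbd204100000000000000000000ed63c61890000000000000000047821f80c62400000000000000000e4d293060890000000000000000000001200c224000000000000000000000930108900000000000000000000007828b240000000000000000000004b072c900000000000000000000043804b240000000000000000000004b002c900000000000000000000021c0011400000000000000008ef67fa0818500000000000000000114f4c81c61400000000000000002faf62a05105000000000000000000266da800414000000000000000002d73fc850850000000000000000072685200c21400000000000000001c99f4a01085000000000000000000000ff02cb14000000000000000002e195e0a2c5000000000000000009cfcb8820b1400000000000000000a38360062c50000000000000000008a6d8008b140000000000000000000018600005000000000000000003a490b8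 0 0x0 (by decide +kernel)

theorem t8_3 {d t w : ℝ} (d0 : 0 ≤ d) (dl : 3 / 10 ≤ d) (d1 : d ≤ 3 / 5) (w1 : 13 / 20 ≤ w) (wt : w ≤ t) (t1 : t ≤ 1)
     :
    HH t - d * ((1 - t) * (5 - t)) / 4 + bb w ≤ 79 / 200 + 3 / 10 * ((1 + w) / 2) := by
  have w0 : 0 ≤ w := by linarith
  have t0 : 0 ≤ t := by linarith
  exact finE (yv_nonneg d0 t0 w0 (le_refl 0) (le_refl 0) (le_refl 0) (le_refl 0) (le_refl 0) (le_refl 0)) (.A (.S (.A (.S (.S (.D (.n 9) 10) (.D .v1 0)) (.M (.D (.n 1) 2) (.P .v1))) (.D (.Q .v1) 1)) (.D (.M .v0 (.M (.S .o .v1) (.S (.n 3) .v1))) 2)) (.S (.A (.D .v2 2) (.D (.P .v2) 0)) (.D (.Q .v2) 10))) (.A (.D (.n 77) 198) (.M (.D (.n 1) 8) (.D (.A .o .v2) 0)))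
    [.v0, (.S (.D (.n 1) 3) .v0), .v2, (.S .v2 (.D (.n 11) 18)), (.S .v1 .v2), (.S .o .v1), .v1, (.S .v0 (.D (.n 1) 8))]
    ⟨d0, Pool.Agent.Helper83.Cert.sn d1, w0, Pool.Agent.Helper83.Cert.sn w1, Pool.Agent.Helper83.Cert.sn wt, Pool.Agent.Helper83.Cert.sn t1, t0, Pool.Agent.Helper83.Cert.sn dl, trivial⟩
    499999 19 0x71c20000000000000000000015902030800000000000000000000048020820000000000000000000000181c81800000000000000000726e08822060000000000000000000000a804418000000000000000000000708010600000000000000000062462a20618000000000000000008f0cf2861860000000000000000048bc3700c6180000000000000000004caf4071c5000000000000000002a257401831400000000000000002837cd0030c500000000000000000306a560081140000000000000000000023a0004500000000000000000000465018514000000000000000010320090414500000000000000000039cdad0851400000000000000000000096000050000000000000000098a6cf0 0 0x0 (by decide +kernel)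

theorem t8 {A : Fin 4 → Fin 4 → Option (Fin 4 → ℝ)} (h : OF A) {i m x y : Fin 4}
    {M F : Fin 4 → ℝ} (hc : TC A i m M F) (hn : [i, m, x, y].Nodup) (dl : 3 / 10 ≤ M i - 1) :
    VV A i ≤ 79 / 200 + 3 / 10 * (1 - (F y + (F i - 1))) := by
  have ht := hc.nums h hn
  have e1 := ht.fM
  have e2 := ht.vv
  have w0 := hc.hw.le
  have wt := ht.wt
  have t1 := ht.t1
  have d0 := ht.d0
  have d1 := hc.hd.le
  have cF := h.cell i m F hc.hF
  have fF := h.far i m F hc.ne hc.hF
  have dF := far_dom cF hn fF.le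
  have eF := far_AB cF hn fF.le
  have bF := far_bb' cF hc.ne fF
  have sq : 0 ≤ (1 - (M i - 1)) * (M x + (1 + (M m + (M i - 1))) / 2) ^ 2 :=
    mul_nonneg (by linarith) (sq_nonneg _)
  have B0 := dF.B0.le
  rcases le_total (1 - (F y + (F i - 1))) (2 + F m) with hb | hb
  · have v1 := fAB_w dF le_rfl hb
    have v2 := t8_1 d0 dl d1 w0 wt t1 B0 hb
    linarith
  · rcases le_total (2 * (1 - (F y + (F i - 1)))) (1 + (2 + F m)) with hb2 | hb2
    · have v1 := fAB_m dF le_rfl hb hb2
      have v2 := t8_2 d0 dl d1 w0 wt t1 hb hb2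
      linarith
    · have v2 := t8_3 d0 dl d1 w0 wt t1
      linarith

theorem t3_0 {d t q : ℝ} (d0 : 0 ≤ d) (d1 : d ≤ 3 / 5) (t6 : 13 / 20 ≤ t) (t1 : t ≤ 1)
    (qt : t ≤ q) (q1 : q ≤ 1) :
    HH t - d * ((1 - t) * (5 - t)) / 4 - (1 - d) * (-q + (1 + t) / 2) ^ 2 + bb t + 1 / 2 * d - 1 / 2 * q ≤ 11 / 20 := by
  have t0 : 0 ≤ t := by linarith
  have q0 : 0 ≤ q := by linarith
  exact finE (yv_nonneg d0 t0 q0 (le_refl 0) (le_refl 0) (le_refl 0) (le_refl 0) (le_refl 0) (le_refl 0)) (.S (.A (.A (.S (.S (.A (.S (.S (.D (.n 9) 10) (.D .v1 0)) (.M (.D (.n 1) 2) (.P .v1))) (.D (.Q .v1) 1)) (.D (.M .v0 (.M (.S .o .v1) (.S (.n 3) .v1))) 2)) (.M (.S .o .v0) (.P (.A (.N .v2) (.D (.A .o .v1) 0))))) (.S (.A (.D .v1 2) (.D (.P .v1) 0)) (.D (.Q .v1) 10))) (.M (.D .o 0) .v0)) (.M (.D .o 0) .v2)) (.D (.n 9) 18)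
    [.v0, (.S (.D (.n 1) 3) .v0), .v1, (.S .v1 (.D (.n 11) 18)), (.S .o .v1), .v2, (.S .o .v2), (.S .v2 .v1)]
    ⟨d0, Pool.Agent.Helper83.Cert.sn d1, t0, Pool.Agent.Helper83.Cert.sn t6, Pool.Agent.Helper83.Cert.sn t1, q0, Pool.Agent.Helper83.Cert.sn q1, Pool.Agent.Helper83.Cert.sn qt, trivial⟩
    2499999 19 0x71c700000000000000000023eea20411c00000000000000000000177051450000000000000000007039b01841400000000000000000054d40410450000000000000000000005dc001140000000000000000021c01686188000000000000000001c9b3180c32000000000000000000128623800480000000000000000018600d21c820000000000000000006972948520800000000000000000181e7fe00020000000000000000005e94fd082020000000000000000015455dc1c708000000000000000001d5bb4030c200000000000000000096e664184080000000000000000002c95145102000000000000000000188fc1041080000000000000000000004b00042000000000000000000000438 0 0x0 (by decide +kernel)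

theorem t3 {A : Fin 4 → Fin 4 → Option (Fin 4 → ℝ)} (h : OF A) {i m x y : Fin 4}
    {M F : Fin 4 → ℝ} (hc : TC A i m M F) (hn : [i, m, x, y].Nodup) :
    VV A i + 1 / 2 * (M i - 1) - 1 / 2 * -M x ≤ 11 / 20 := by
  have ht := hc.nums h hn
  have e1 := ht.fM
  have e2 := ht.vv
  have w0 := hc.hw.le
  have wt := ht.wt
  have bF := TN.le_bb h hc ht
  have e3 := t3_0 ht.d0 hc.hd.le (t := M m + (M i - 1)) (q := -M x) (by linarith) ht.t1
    (by linarith [ht.xy, ht.y1]) ht.x1
  rw [neg_neg] at e3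
  linarith

theorem t6_0 {d t q : ℝ} (d0 : 0 ≤ d) (d1 : d ≤ 3 / 5) (t6 : 13 / 20 ≤ t) (t1 : t ≤ 1)
    (qt : t ≤ q) (q1 : q ≤ 1) :
    HH t - d * ((1 - t) * (5 - t)) / 4 - (1 - d) * (-q + (1 + t) / 2) ^ 2 + bb t + 7 / 20 * d - 7 / 10 * q ≤ 13 / 50 := by
  have t0 : 0 ≤ t := by linarith
  have q0 : 0 ≤ q := by linarith
  exact finE (yv_nonneg d0 t0 q0 (le_refl 0) (le_refl 0) (le_refl 0) (le_refl 0) (le_refl 0) (le_refl 0)) (.S (.A (.A (.S (.S (.A (.S (.S (.D (.n 9) 10) (.D .v1 0)) (.M (.D (.n 1) 2) (.P .v1))) (.D (.Q .v1) 1)) (.D (.M .v0 (.M (.S .o .v1) (.S (.n 3) .v1))) 2)) (.M (.S .o .v0) (.P (.A (.N .v2) (.D (.A .o .v1) 0))))) (.S (.A (.D .v1 2) (.D (.P .v1) 0)) (.D (.Q .v1) 10))) (.M (.D (.n 5) 18) .v0)) (.M (.D (.n 5) 8) .v2)) (.D (.n 11) 48)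
    [.v0, (.S (.D (.n 1) 3) .v0), .v1, (.S .v1 (.D (.n 11) 18)), (.S .o .v1), .v2, (.S .o .v2), (.S .v2 .v1)]
    ⟨d0, Pool.Agent.Helper83.Cert.sn d1, t0, Pool.Agent.Helper83.Cert.sn t6, Pool.Agent.Helper83.Cert.sn t1, q0, Pool.Agent.Helper83.Cert.sn q1, Pool.Agent.Helper83.Cert.sn qt, trivial⟩
    499999 19 0x50c40000000000000000000d10011c61000000000000000000066361861840000000000000000000a0023000100000000000000000001fb7b061880000000000000000020021dc0c320000000000000000001b749d0004800000000000000000321019e1c820000000000000000008009ee05208000000000000000000c927b40002000000000000000000868bc008202000000000000000001c9c4ac0c3080000000000000000000011d05082000000000000000000000078184080000000000000000005b8e34510200000000000000000016e399201080000000000000000000004b0104200000000000000000000012c001080000000000000000000010e000020000000000000000000003de 0 0x0 (by decide +kernel)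

theorem t6 {A : Fin 4 → Fin 4 → Option (Fin 4 → ℝ)} (h : OF A) {i m x y : Fin 4}
    {M F : Fin 4 → ℝ} (hc : TC A i m M F) (hn : [i, m, x, y].Nodup) :
    VV A i + 7 / 20 * (M i - 1) - 7 / 10 * -M x ≤ 13 / 50 := by
  have ht := hc.nums h hn
  have e1 := ht.fM
  have e2 := ht.vv
  have w0 := hc.hw.le
  have wt := ht.wt
  have bF := TN.le_bb h hc ht
  have e3 := t6_0 ht.d0 hc.hd.le (t := M m + (M i - 1)) (q := -M x) (by linarith) ht.t1
    (by linarith [ht.xy, ht.y1]) ht.x1
  rw [neg_neg] at e3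
  linarith

theorem t_lin {A : Fin 4 → Fin 4 → Option (Fin 4 → ℝ)} (h : OF A) {i m x y : Fin 4}
    {M F : Fin 4 → ℝ} (hc : TC A i m M F) (hn : [i, m, x, y].Nodup) :
    VV A i ≤ HH (2 + F m) + (1 - (F i - 1)) * bb (2 + F m) := by
  have e := Pool.Agent.Helper58.TS.tall_main h hc hn
  have cF := h.cell i m F hc.hF
  have fF := h.far i m F hc.ne hc.hF
  have dF := far_dom cF hn fF.le
  have v := Pool.Agent.Helper58.TS.fAB_lin dF
  have s := (cell_lin cF hn).1
  rw [← far_AB cF hn fF.le] at v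
  have e1 : 1 - (F x + (F i - 1)) + (1 - (F y + (F i - 1))) - (2 + F m) = 1 - (F i - 1) := by linarith
  rw [e1] at v
  linarith

theorem t_dF {A : Fin 4 → Fin 4 → Option (Fin 4 → ℝ)} (h : OF A) {i m x y : Fin 4}
    {M F : Fin 4 → ℝ} (hc : TC A i m M F) (hn : [i, m, x, y].Nodup) :
    0 ≤ F i - 1 ∧ F i - 1 ≤ 1 := by
  have cF := h.cell i m F hc.hF
  have a := cell_lin cF hn
  constructor <;> linarith

theorem t1 {A : Fin 4 → Fin 4 → Option (Fin 4 → ℝ)} (h : OF A) {i m x y : Fin 4}
    {M F : Fin 4 → ℝ} (hc : TC A i m M F) (hn : [i, m, x, y].Nodup) :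
    VV A i + 7 / 20 * (F i - 1) ≤ 18 / 25 := by
  have e := t_lin h hc hn
  have cF := h.cell i m F hc.hF
  have fF := h.far i m F hc.ne hc.hF
  have w := far_W cF hc.ne fF
  have d := t_dF h hc hn
  have hw := hc.hw.le
  obtain ⟨z, hz⟩ : ∃ z, z = 2 + F m := ⟨_, rfl⟩
  obtain ⟨s, hs⟩ : ∃ s, s = F i - 1 := ⟨_, rfl⟩
  rw [← hz] at e w hw
  rw [← hs] at e d ⊢
  have p := psi_le hw w.2
  have b : 7 / 20 ≤ bb z := by
    have := bb_mono (by norm_num) hw w.2
    have h2 : 7 / 20 ≤ bb (13 / 20) := by norm_num [bb]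
    linarith
  have c := mul_nonneg d.1 (sub_nonneg.2 b)
  nlinarith [mul_nonneg (sub_nonneg.2 hw) (sub_nonneg.2 w.2)]

end Pool.Agent.Helper65.TS
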