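import Pool.Agent.Helper65.TS.PGood1
import Pool.Agent.Helper65.TS.PGood2
import Pool.Agent.Helper65.TS.PTall

/-!
# Two tall classes `F = (a; g)`, `G = (b; h)`

Every sub-case (orders of the entries of `g` and `h`, kinds of the far cells, orders in the rows of
`a`, `g` and `b`, `h`) gives a few linear relations; with constant prices of these relations the four
classes are independent.
-/

set_option autoImplicit false

namespace Pool.Agent.Helper65.TS

open Pool.Agent.Helper84.TS Pool.Agent.Helper36.TS Pool.Agent.Helper44.TS Pool.Agent.Helper58.TS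

/-- the hypotheses of the case -/
structure HT (A : Fin 4 → Fin 4 → Option (Fin 4 → ℝ)) (P : Fin 4 → Fin 4 → ℝ) (a b g h : Fin 4)
    (F G : Fin 4 → ℝ) : Prop where
  hn : [a, b, g, h].Nodup
  T : Tall2 A P a g F b h G

variable {A : Fin 4 → Fin 4 → Option (Fin 4 → ℝ)} {P : Fin 4 → Fin 4 → ℝ} {a b g h : Fin 4}
  {F G : Fin 4 → ℝ}

theorem pm1 : ∀ {a b g h : Fin 4}, [a, b, g, h].Nodup → [b, a, h, g].Nodup := by decide

theorem pm2 : ∀ {a b g h : Fin 4}, [a, b, g, h].Nodup → [a, g, b, h].Nodup ∧ [a, g, h, b].Nodup ∧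
    [g, a, b, h].Nodup ∧ [g, b, a, h].Nodup ∧ [g, h, a, b].Nodup ∧ [g, b, h, a].Nodup ∧
    [g, h, b, a].Nodup ∧ g ≠ a ∧ g ≠ b := by decide

namespace HT

theorem swap (H : HT A P a b g h F G) : HT A P b a h g G F := ⟨pm1 H.hn, H.T.swap⟩

theorem hs (H : HT A P a b g h F G) : ∀ i, A i (id i) = some (P i) := H.T.hP

theorem ta (H : HT A P a b g h F G) : TC A a g (P a) F :=
  ⟨H.T.hP a, H.T.hd a, (nodup_ne (pm2 H.hn).1).1, H.T.hF, H.T.wF⟩

theorem gr (H : HT A P a b g h F G) {x y z : Fin 4} (hn : [g, x, y, z].Nodup) :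
    GR (VV A g) (P g g - 1) (-P g x) (-P g y) (-P g z) :=
  gr_of H.T.of (H.T.hP g) (H.T.hd g) hn fun m F' hm hF =>
    H.T.small g m F' (pm2 H.hn).2.2.2.2.2.2.2.1 (pm2 H.hn).2.2.2.2.2.2.2.2 hm hF

theorem d0 (H : HT A P a b g h F G) (i : Fin 4) : 0 ≤ P i i - 1 := H.T.one.d0 i

theorem row (H : HT A P a b g h F G) : -P g a + -P g b + -P g h = 1 + (P g g - 1) := by
  have := (cell_lin (H.T.of.cell g g (P g) (H.T.hP g)) (pm2 H.hn).2.2.1).1
  linarith

/-- order 11 -/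
theorem L11 (H : HT A P a b g h F G) (o1 : -P g a ≤ -P h a) (o2 : -P g b ≤ -P h b) :
    ∑ i, VV A i ≤ 613 / 200 := by
  obtain ⟨n1, n2, n3, n4, n5, n6, n7, -, -⟩ := pm2 H.hn
  obtain ⟨m1, m2, m3, m4, m5, m6, m7, -, -⟩ := pm2 H.swap.hn
  have s := slk_nonneg H.T.of H.hs n5
  unfold slk at s
  rw [min_eq_left o1, min_eq_left o2] at s
  have r := H.row
  have va := H.ta.le H.T.of
  have vh := g1 (H.swap.gr m3)
  have dh := H.d0 h
  have dg := H.d0 g
  rw [sum4 H.hn]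
  rcases capAB H.T.of H.hs H.T.hG (m2 : [b, h, g, a].Nodup) rfl with k | ⟨-, k⟩
  · have vb := t2 H.T.of H.swap.ta (m2 : [b, h, g, a].Nodup)
    have vg := g4 (H.gr n5)
    linarith
  · have vb := t1 H.T.of H.swap.ta (m2 : [b, h, g, a].Nodup)
    have vg := g2 (H.gr n3)
    linarith

/-- the row of `a` and `g`: three cases -/
theorem rows (H : HT A P a b g h F G) : 1 - (P a a - 1) ≤ -P g a ∨
    -P a b + -P g h ≤ (P a a - 1) + (P g g - 1) ∨
    (-P g b + -P a h ≤ (P a a - 1) + (P g g - 1) ∧ -P a h ≤ -P g h) := by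
  obtain ⟨n1, n2, n3, n4, n5, n6, n7, -, -⟩ := pm2 H.hn
  have s := slk_nonneg H.T.of H.hs n1
  unfold slk at s
  have r := H.row
  rcases le_total (-P g b) (-P a b) with h1 | h1 <;> rcases le_total (-P g h) (-P a h) with h2 | h2
  · left
    rw [min_eq_right h1, min_eq_right h2] at s
    linarith
  · right; right
    rw [min_eq_right h1, min_eq_left h2] at s
    exact ⟨by linarith, h2⟩
  · right; left
    rw [min_eq_left h1, min_eq_right h2] at s
    linarith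
  · exfalso
    rw [min_eq_left h1, min_eq_left h2] at s
    have := H.T.one.sum n1
    linarith [H.T.wF, H.T.hd a, H.T.hd g]

/-- a relation of the rows `g`, `h` and a relation of the rows `a`, `g` -/
theorem L2 (H : HT A P a b g h F G) {x y z : Fin 4} {u u' v v1 v2 : ℝ} (hx : [a, g, x, z].Nodup)
    (hy : GR (VV A g) (P g g - 1) (-P g y) u u') (hh : GR (VV A h) (P h h - 1) v v1 v2)
    (e1 : u + v ≤ (P g g - 1) + (P h h - 1)) (e2 : -P a x + -P g y ≤ (P a a - 1) + (P g g - 1)) :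
    ∑ i, VV A i ≤ 613 / 200 := by
  have va := t3 H.T.of H.ta hx
  have vb := H.swap.ta.le H.T.of
  have vg := g3 hy
  have vh := g2 hh
  have dh := H.d0 h
  rw [sum4 H.hn]
  linarith

/-- order 12 -/
theorem L12 (H : HT A P a b g h F G) (o1 : -P g a ≤ -P h a) (o2 : -P h b ≤ -P g b) :
    ∑ i, VV A i ≤ 613 / 200 := by
  obtain ⟨n1, n2, n3, n4, n5, n6, n7, -, -⟩ := pm2 H.hn
  obtain ⟨m1, m2, m3, m4, m5, m6, m7, -, -⟩ := pm2 H.swap.hn
  have s := slk_nonneg H.T.of H.hs n5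
  unfold slk at s
  rw [min_eq_left o1, min_eq_right o2] at s
  rcases H.rows with r1 | r1 | ⟨r1, -⟩
  · rcases H.swap.rows with r2 | r2 | ⟨r2, -⟩
    · have va := H.ta.le H.T.of
      have vb := H.swap.ta.le H.T.of
      have vg := g1 (H.gr n3)
      have vh := g1 (H.swap.gr m3)
      have da := H.T.hd a
      have db := H.T.hd b
      rw [sum4 H.hn]
      linarith
    · exact H.swap.L2 m1 (H.swap.gr m5) (H.gr n3) (by linarith) r2
    · exact H.swap.L2 m2 (H.swap.gr m4) (H.gr n3) (by linarith) (by linarith)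
  · exact H.L2 n1 (H.gr n5) (H.swap.gr m3) (by linarith) r1
  · exact H.L2 n2 (H.gr n4) (H.swap.gr m3) (by linarith) (by linarith)

/-- order 21, `G` of kind B on `g` -/
theorem L21B (H : HT A P a b g h F G) (e : -P h a + -P g b ≤ (P g g - 1) + (P h h - 1))
    (k : 1 - (G b - 1) ≤ -P g b) : ∑ i, VV A i ≤ 613 / 200 := by
  obtain ⟨n1, n2, n3, n4, n5, n6, n7, -, -⟩ := pm2 H.hn
  obtain ⟨m1, m2, m3, m4, m5, m6, m7, -, -⟩ := pm2 H.swap.hn
  have va := H.ta.le H.T.of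
  have vb := t1 H.T.of H.swap.ta m2
  have vg := g1 (H.gr n3)
  have vh := g2 (H.swap.gr m4)
  have dh := H.d0 h
  have dg := H.d0 g
  rw [sum4 H.hn]
  linarith

/-- the row `a`, `g`: the entry of `g` in the column `h` is the higher one -/
theorem L3 (H : HT A P a b g h F G) (k1 : -P g h ≤ (G a + (G b - 1)) + (P g g - 1))
    (r : -P g b + -P a h ≤ (P a a - 1) + (P g g - 1)) (o : -P a h ≤ -P g h) :
    ∑ i, VV A i ≤ 613 / 200 := by
  obtain ⟨n1, n2, n3, n4, n5, n6, n7, -, -⟩ := pm2 H.hn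
  obtain ⟨m1, m2, m3, m4, m5, m6, m7, -, -⟩ := pm2 H.swap.hn
  have va := t6 H.T.of H.ta n2
  have vb := t2 H.T.of H.swap.ta m2
  have vg := g2 (H.gr n4)
  have vh := vv_le_one H.T.of h
  rw [sum4 H.hn]
  linarith

/-- order 21, kinds A on `g` and `h`, both heights at least `3/10` -/
theorem L4 (H : HT A P a b g h F G) (e : -P h a + -P g b ≤ (P g g - 1) + (P h h - 1))
    (k1 : -P g h ≤ (G a + (G b - 1)) + (P g g - 1)) (k2 : -P h g ≤ (F b + (F a - 1)) + (P h h - 1))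
    (da : 3 / 10 ≤ P a a - 1) (db : 3 / 10 ≤ P b b - 1) : ∑ i, VV A i ≤ 613 / 200 := by
  obtain ⟨n1, n2, n3, n4, n5, n6, n7, -, -⟩ := pm2 H.hn
  obtain ⟨m1, m2, m3, m4, m5, m6, m7, -, -⟩ := pm2 H.swap.hn
  have va := t2b H.T.of H.ta n2 da
  have vb := t2b H.T.of H.swap.ta m2 db
  have vg := g3 (H.gr n6)
  have vh := g3 (H.swap.gr m6)
  rw [sum4 H.hn]
  linarith

/-- order 21, kinds A on `g` and `h`, both heights at most `3/10` -/
theorem L5 (H : HT A P a b g h F G) (e : -P h a + -P g b ≤ (P g g - 1) + (P h h - 1))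
    (k1 : -P g h ≤ (G a + (G b - 1)) + (P g g - 1)) (k2 : -P h g ≤ (F b + (F a - 1)) + (P h h - 1))
    (r1 : 1 - (P a a - 1) ≤ -P g a) (r2 : 1 - (P b b - 1) ≤ -P h b)
    (da : P a a - 1 ≤ 3 / 10) (db : P b b - 1 ≤ 3 / 10) : ∑ i, VV A i ≤ 613 / 200 := by
  obtain ⟨n1, n2, n3, n4, n5, n6, n7, -, -⟩ := pm2 H.hn
  obtain ⟨m1, m2, m3, m4, m5, m6, m7, -, -⟩ := pm2 H.swap.hn
  have va := t7 H.T.of H.ta n2 da
  have vb := t7 H.T.of H.swap.ta m2 db
  have vg := g6 (H.gr n3)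
  have vh := g6 (H.swap.gr m3)
  have rg := H.row
  have rh := H.swap.row
  rw [sum4 H.hn]
  linarith

/-- order 21, kinds A on `g` and `h`, `d_a ≤ 3/10 ≤ d_b` -/
theorem L6 (H : HT A P a b g h F G) (e : -P h a + -P g b ≤ (P g g - 1) + (P h h - 1))
    (k1 : -P g h ≤ (G a + (G b - 1)) + (P g g - 1)) (k2 : -P h g ≤ (F b + (F a - 1)) + (P h h - 1))
    (r1 : 1 - (P a a - 1) ≤ -P g a)
    (da : P a a - 1 ≤ 3 / 10) (db : 3 / 10 ≤ P b b - 1) : ∑ i, VV A i ≤ 613 / 200 := by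
  obtain ⟨n1, n2, n3, n4, n5, n6, n7, -, -⟩ := pm2 H.hn
  obtain ⟨m1, m2, m3, m4, m5, m6, m7, -, -⟩ := pm2 H.swap.hn
  have va := t7 H.T.of H.ta n2 da
  have vb := t8 H.T.of H.swap.ta m2 db
  have vg := g7 (H.gr n3)
  have vh := g8 (H.swap.gr m7)
  have rg := H.row
  rw [sum4 H.hn]
  linarith

/-- order 21 -/
theorem L21 (H : HT A P a b g h F G) (o1 : -P h a ≤ -P g a) (o2 : -P g b ≤ -P h b) :
    ∑ i, VV A i ≤ 613 / 200 := by
  obtain ⟨n1, n2, n3, n4, n5, n6, n7, -, -⟩ := pm2 H.hn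
  obtain ⟨m1, m2, m3, m4, m5, m6, m7, -, -⟩ := pm2 H.swap.hn
  have s := slk_nonneg H.T.of H.hs n5
  unfold slk at s
  rw [min_eq_right o1, min_eq_left o2] at s
  have e : -P h a + -P g b ≤ (P g g - 1) + (P h h - 1) := by linarith
  have e' : -P g b + -P h a ≤ (P h h - 1) + (P g g - 1) := by linarith
  rcases capAB H.T.of H.hs H.T.hG (m2 : [b, h, g, a].Nodup) rfl with k1 | ⟨-, k1⟩
  · rcases capAB H.T.of H.hs H.T.hF (n2 : [a, g, h, b].Nodup) rfl with k2 | ⟨-, k2⟩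
    · rcases H.rows with r1 | r1 | ⟨r1, r1'⟩
      · rcases H.swap.rows with r2 | r2 | ⟨r2, r2'⟩
        · rcases le_total (P a a - 1) (3 / 10) with da | da <;>
            rcases le_total (P b b - 1) (3 / 10) with db | db
          · exact H.L5 e k1 k2 r1 r2 da db
          · exact H.L6 e k1 k2 r1 da db
          · exact H.swap.L6 e' k2 k1 r2 db da
          · exact H.L4 e k1 k2 da db
        · exact H.swap.L2 m1 (H.swap.gr m7) (H.gr n4) (by linarith) r2
        · exact H.swap.L3 k2 r2 r2'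
      · exact H.L2 n1 (H.gr n7) (H.swap.gr m4) (by linarith) r1
      · exact H.L3 k1 r1 r1'
    · exact H.swap.L21B e' k2
  · exact H.L21B e k1

end HT

/-- **`H3` of `caseTwoTall_of`.** -/
theorem tall_H3 (A : Fin 4 → Fin 4 → Option (Fin 4 → ℝ)) (P : Fin 4 → Fin 4 → ℝ) (a b g h : Fin 4)
    (F G : Fin 4 → ℝ) (hn : [a, b, g, h].Nodup) (T : Tall2 A P a g F b h G) :
    ∑ i, VV A i ≤ 613 / 200 := by
  have H : HT A P a b g h F G := ⟨hn, T⟩
  rcases le_total (-P g a) (-P h a) with o1 | o1 <;> rcases le_total (-P g b) (-P h b) with o2 | o2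
  · exact H.L11 o1 o2
  · exact H.L12 o1 o2
  · exact H.L21 o1 o2
  · exact H.swap.L11 o2 o1

/-- **Two tall classes.** -/
theorem caseTwoTall : CaseTwoTall := caseTwoTall_of tall_H2 tall_H3 tall_same

end Pool.Agent.Helper65.TS
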