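import Pool.Agent.Helper65.TS.C00
import Pool.Agent.Helper65.TS.C01
import Pool.Agent.Helper65.TS.C10
import Pool.Agent.Helper65.TS.C11
import Pool.Agent.Helper36.TS.FrameG

/-!
# The type (2,1,1,2)
-/

set_option autoImplicit false
set_option linter.unusedSimpArgs false

namespace Pool.Agent.Helper65.TS

open Pool.Agent.Helper36.TS Pool.Agent.Helper84.TS

/-- a function of two indices with given values at the six pairs -/
theorem exists_pairs {i j k l : Fin 4} (hn : [i, j, k, l].Nodup) (a b c d e f : ℝ) :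
    ∃ κ : Fin 4 → Fin 4 → ℝ, κ i j = a ∧ κ i k = b ∧ κ i l = c ∧ κ j k = d ∧ κ j l = e ∧
      κ k l = f := by
  have n1 : j ≠ i := by clear * - hn; revert hn; revert i j k l; decide
  have n2 : k ≠ i := by clear * - hn; revert hn; revert i j k l; decide
  have n3 : l ≠ i := by clear * - hn; revert hn; revert i j k l; decide
  have n4 : k ≠ j := by clear * - hn; revert hn; revert i j k l; decide
  have n5 : l ≠ j := by clear * - hn; revert hn; revert i j k l; decide
  have n6 : l ≠ k := by clear * - hn; revert hn; revert i j k l; decide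
  refine ⟨fun x y => if x = i then (if y = j then a else if y = k then b else c)
    else if x = j then (if y = k then d else e) else f, ?_, ?_, ?_, ?_, ?_, ?_⟩ <;> dsimp only
  · rw [if_pos rfl, if_pos rfl]
  · rw [if_pos rfl, if_neg n4, if_pos rfl]
  · rw [if_pos rfl, if_neg n5, if_neg n6]
  · rw [if_neg n1, if_pos rfl, if_pos rfl]
  · rw [if_neg n1, if_pos rfl, if_neg n6]
  · rw [if_neg n2, if_neg n4]

/-- a function with given values at four indices -/
theorem exists_four {i j k l : Fin 4} (hn : [i, j, k, l].Nodup) (a b c d : ℝ) :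
    ∃ f : Fin 4 → ℝ, f i = a ∧ f j = b ∧ f k = c ∧ f l = d := by
  have n1 : j ≠ i := by clear * - hn; revert hn; revert i j k l; decide
  have n2 : k ≠ i := by clear * - hn; revert hn; revert i j k l; decide
  have n3 : l ≠ i := by clear * - hn; revert hn; revert i j k l; decide
  have n4 : k ≠ j := by clear * - hn; revert hn; revert i j k l; decide
  have n5 : l ≠ j := by clear * - hn; revert hn; revert i j k l; decide
  have n6 : l ≠ k := by clear * - hn; revert hn; revert i j k l; decide
  refine ⟨fun x => if x = i then a else if x = j then b else if x = k then c else d,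
    ?_, ?_, ?_, ?_⟩ <;> dsimp only
  · rw [if_pos rfl]
  · rw [if_neg n1, if_pos rfl]
  · rw [if_neg n2, if_neg n4, if_pos rfl]
  · rw [if_neg n3, if_neg n5, if_neg n6]

/-- **The type (2,1,1,2).** -/
theorem caseT2112 : CaseT2112 := by
  intro A P h hone i j k l hn li lj lk ll
  have hs : ∀ i, A i ((fun i => i) i) = some (P i) := h.hP
  have n1 : [i, j, l, k].Nodup := by clear * - hn; revert hn; revert i j k l; decide
  have n2 : [j, i, k, l].Nodup := by clear * - hn; revert hn; revert i j k l; decide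
  have n3 : [k, i, j, l].Nodup := by clear * - hn; revert hn; revert i j k l; decide
  have n4 : [l, j, i, k].Nodup := by clear * - hn; revert hn; revert i j k l; decide
  have m1 : [k, l, i, j].Nodup := by clear * - hn; revert hn; revert i j k l; decide
  have m2 : [j, l, i, k].Nodup := by clear * - hn; revert hn; revert i j k l; decide
  have m3 : [i, k, j, l].Nodup := by clear * - hn; revert hn; revert i j k l; decide
  obtain ⟨κ, e1, e2, e3, e4, e5, e6⟩ := exists_pairs hn (k12 (P i i - 1) (P j j - 1))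
    (kP (P i i - 1) (P k k - 1)) (kQ (P i i - 1) (P l l - 1)) (kQ (P j j - 1) (P k k - 1))
    (kP (P j j - 1) (P l l - 1)) (k34 (P k k - 1) (P l l - 1))
  obtain ⟨ν, v1, v2, v3, v4⟩ := exists_four hn (nuI (P i i - 1)) (nuI (P j j - 1))
    (nuK (P k k - 1)) (nuK (P l l - 1))
  obtain ⟨W, w1, w2, w3, w4⟩ := exists_four hn (Wa (P j j - 1) (P l l - 1) (P k k - 1))
    (Wa (P i i - 1) (P k k - 1) (P l l - 1)) (Wb (P i i - 1) (P j j - 1) (P l l - 1))
    (Wb (P j j - 1) (P i i - 1) (P k k - 1))
  have a0 := base_d0 h i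
  have b0 := base_d0 h j
  have c0 := base_d0 h k
  have d0 := base_d0 h l
  have a1 := (h.hd i).le
  have b1 := (h.hd j).le
  have c1 := (h.hd k).le
  have d1 := (h.hd l).le
  have s1 := slk_nonneg h.of hs m1
  have s2 := slk_nonneg h.of hs m2
  have s3 := slk_nonneg h.of hs m3
  have q1 : 0 ≤ k34 (P k k - 1) (P l l - 1) / 2 * slk P k l i j :=
    mul_nonneg (by linarith [k34_nonneg c0 d0 c1 d1]) s1
  have q2 : 0 ≤ kP (P j j - 1) (P l l - 1) / 2 * slk P j l i k :=
    mul_nonneg (by linarith [kP_nonneg b0 d0 b1 d1]) s2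
  have q3 : 0 ≤ kP (P i i - 1) (P k k - 1) / 2 * slk P i k j l :=
    mul_nonneg (by linarith [kP_nonneg a0 c0 a1 c1]) s3
  -- the four columns
  have C1 := col_low h n1 (hone i) li (col00 b0 d0 c0 b1 d1 c1)
    (by rw [k34_comm (P l l - 1)]; exact col01 b0 c0 d0 b1 c1 d1)
  have C2 := col_low h n2 (hone j) lj (col00 a0 c0 d0 a1 c1 d1)
    (by rw [k34_comm (P k k - 1)]; exact col01 a0 d0 c0 a1 d1 c1)
  have C3 := col_low h n3 (hone k) lk (col10 a0 b0 d0 a1 b1 d1) (col11 a0 d0 b0 a1 d1 b1)
  have C4 := col_low h n4 (hone l) ll (col10 b0 a0 c0 b1 a1 c1) (col11 b0 c0 a0 b1 c1 a1)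
  rw [min_comm (-P l i) (-P k i), k34_comm (P l l - 1)] at C1
  rw [slk_comm' P i l k j] at C3
  rw [slk_comm' P j k l i, slk_comm P j i l k, slk_comm' P i j l k,
    k12_comm (P j j - 1) (P i i - 1), min_comm (-P j l) (-P i l)] at C4
  have F := frameG h.of hs hn (fun _ => 1) ν W κ (fun _ x y => κ x y / 2)
    (by
      simp only [colg, e1, e2, e3, e4, e5, e6, v1, v2, v3, v4, w1, w2, w3, w4]
      linarith [C1, q1])
    (by
      simp only [colg, e1, e2, e3, e4, e5, e6, v1, v2, v3, v4, w1, w2, w3, w4]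
      linarith [C2, q1])
    (by
      simp only [colg, e1, e2, e3, e4, e5, e6, v1, v2, v3, v4, w1, w2, w3, w4]
      linarith [C3, q2])
    (by
      simp only [colg, e1, e2, e3, e4, e5, e6, v1, v2, v3, v4, w1, w2, w3, w4]
      linarith [C4, q3])
    (by linarith) (by linarith) (by linarith) (by linarith) (by linarith) (by linarith)
  simp only [e1, e2, e3, e4, e5, e6, v1, v2, v3, v4, w1, w2, w3, w4,
    rst_row A (s := fun i => i) (rfl : (fun i : Fin 4 => i) i = i),
    rst_row A (s := fun i => i) (rfl : (fun i : Fin 4 => i) j = j),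
    rst_row A (s := fun i => i) (rfl : (fun i : Fin 4 => i) k = k),
    rst_row A (s := fun i => i) (rfl : (fun i : Fin 4 => i) l = l)] at F
  have T := total2112 a0 b0 c0 d0 a1 b1 c1 d1
  linarith [F, T]

end Pool.Agent.Helper65.TS
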