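import Pool.Agent.Helper36.TS.Frame

/-!
# Slots and volumes of far cells, bounded by polynomials

`sp` is the slot for an entry `u ≥ 0`, `sn` the slot for the entry `-n ≤ 0`. For every entry
`u ≤ 1` one has `sx c d u = sp c d u⁺ + sn c d u⁻`. For a far cell with `X = 1 - al`, `Y = 1 - be`,
`X + Y = 1 + w - d`: `f = w X Y - w³/3 + ((w - Y)⁺³ + (w - X)⁺³)/3`.
-/

set_option autoImplicit false

namespace Pool.Agent.Helper65.TS

open Pool.Agent.Helper36.TS Pool.Agent.Helper84.TS Pool.Agent.Helper23.TS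

/-- the slot of an entry `u ≥ 0` -/
noncomputable def sp (c d u : ℝ) : ℝ := c * u - (1 - d) * u ^ 2 / 2

/-- the slot of the entry `-n ≤ 0` -/
noncomputable def sn (c d n : ℝ) : ℝ := -(c * n) - (1 - d) * n ^ 2 / 2 + n ^ 3 / 3

theorem sx_sub (c c' d u : ℝ) : sx (c - c') d u = sx c d u - c' * u := by
  unfold sx
  ring

theorem sp_sub (c c' d u : ℝ) : sp (c - c') d u = sp c d u - c' * u := by
  unfold sp
  ring

theorem sx_pn {c d u : ℝ} (h : u ≤ 1) : sx c d u = sp c d (max u 0) + sn c d (max (-u) 0) := by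
  rw [sx_of_le h, sp, sn]
  rcases le_total 0 u with h0 | h0
  · rw [max_eq_left h0, max_eq_right (by linarith : -u ≤ 0)]
    ring
  · rw [max_eq_right h0, max_eq_left (by linarith : 0 ≤ -u)]
    ring

theorem sn_nonpos {c d n : ℝ} (hc : 0 ≤ c) (hn : 0 ≤ n) (hn1 : n ≤ 1 - d) : sn c d n ≤ 0 := by
  rw [sn]
  nlinarith [mul_nonneg hc hn, mul_nonneg (sq_nonneg n) (sub_nonneg.2 hn1),
    mul_nonneg (sq_nonneg n) hn]

/-- the slot of a negative entry is increasing -/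
theorem sn_anti {c d n m : ℝ} (hc : 0 ≤ c) (hn : 0 ≤ n) (hnm : n ≤ m) (hm1 : m ≤ 1 - d) :
    sn c d m ≤ sn c d n := by
  rw [sn, sn]
  have h1 : 0 ≤ m - n := sub_nonneg.2 hnm
  have h2 : 0 ≤ m := hn.trans hnm
  have h3 : (1 - d) * (m + n) / 2 - (m ^ 2 + m * n + n ^ 2) / 3 ≥ 0 := by
    nlinarith [mul_nonneg (add_nonneg h2 hn) (sub_nonneg.2 hm1), mul_nonneg h2 h1,
      mul_nonneg hn h1, mul_nonneg h1 h1]
  nlinarith [mul_nonneg h1 h3, mul_nonneg hc h1]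

theorem neg_le_of {d u : ℝ} (hd : d ≤ 1) (hl : d - 1 ≤ u) : max (-u) 0 ≤ 1 - d :=
  max_le (by linarith) (by linarith)

/-- a slot with a nonnegative coefficient is at most its value at `u⁺` -/
theorem sx_le_sp {c d u : ℝ} (hc : 0 ≤ c) (hd : d ≤ 1) (hl : d - 1 ≤ u) (h1 : u ≤ 1) :
    sx c d u ≤ sp c d (max u 0) := by
  rw [sx_pn h1]
  have := sn_nonpos hc (le_max_right (-u) 0) (neg_le_of hd hl)
  linarith

/-! ### Volumes -/

section

variable {f w d X Y : ℝ}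

/-- `X ≥ w` -/
theorem vol_ge (hw0 : 0 ≤ w) (hw1 : w ≤ 1) (hd : 0 ≤ d) (hY0 : 0 ≤ Y) (hs : X + Y = 1 + w - d)
    (hf : f = w * X * Y - w ^ 3 / 3 + ((max (w - Y) 0) ^ 3 + (max (w - X) 0) ^ 3) / 3)
    (hX : w ≤ X) (hX2 : 2 * X ≤ 1 + w) : f ≤ w * X * (1 + w - X) - w ^ 3 / 3 := by
  rw [hf, max_eq_right (by linarith : w - X ≤ 0)]
  have hX1 : X ≤ 1 := by linarith
  have hX0 : 0 ≤ X := hw0.trans hX
  have hYd : Y = 1 + w - X - d := by linarith
  rcases le_total Y w with h | h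
  · rw [max_eq_left (by linarith : 0 ≤ w - Y)]
    have h1 : 0 ≤ w - Y := by linarith
    have h2 : (w - Y) ^ 3 ≤ w * w * (w - Y) := by
      nlinarith [mul_nonneg h1 (mul_nonneg hY0 h1), mul_nonneg h1 (mul_nonneg hY0 hw0)]
    have h3 : w * w * (w - Y) ≤ w * X * (w - Y) := by
      nlinarith [mul_nonneg (mul_nonneg hw0 h1) (sub_nonneg.2 hX)]
    have h4 : 0 ≤ w * X * (1 - X) := mul_nonneg (mul_nonneg hw0 hX0) (by linarith)
    have h5 : 0 ≤ w * X * (w - Y) := mul_nonneg (mul_nonneg hw0 hX0) h1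
    have h6 : w * X * (1 + w - X) = w * X * Y + w * X * (w - Y) + w * X * (1 - X) := by ring
    rw [h6]
    nlinarith
  · rw [max_eq_right (by linarith : w - Y ≤ 0)]
    have h4 : 0 ≤ w * X * d := mul_nonneg (mul_nonneg hw0 hX0) hd
    rw [hYd]
    nlinarith

/-- `X ≤ w` -/
theorem vol_le (hw0 : 0 ≤ w) (hd : 0 ≤ d) (hd1 : d ≤ 1) (hX0 : 0 ≤ X) (hs : X + Y = 1 + w - d)
    (hf : f = w * X * Y - w ^ 3 / 3 + ((max (w - Y) 0) ^ 3 + (max (w - X) 0) ^ 3) / 3)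
    (hX : X ≤ w) (hw1 : w ≤ 1) : f ≤ w * X - X ^ 3 / 3 := by
  rw [hf, max_eq_left (by linarith : 0 ≤ w - X)]
  have hYd : Y = 1 + w - X - d := by linarith
  have e : w * X * (1 + w - X) - w ^ 3 / 3 + (w - X) ^ 3 / 3 = w * X - X ^ 3 / 3 := by ring
  rcases le_total Y w with h | h
  · rw [max_eq_left (by linarith : 0 ≤ w - Y)]
    have h1 : 0 ≤ w - Y := by linarith
    have h0 : w - Y ≤ X := by linarith
    have h2 : (w - Y) ^ 3 ≤ X * X * (w - Y) := by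
      nlinarith [mul_nonneg h1 (mul_nonneg h1 (sub_nonneg.2 h0)),
        mul_nonneg h1 (mul_nonneg hX0 (sub_nonneg.2 h0))]
    have h3 : X * X * (w - Y) ≤ w * X * (w - Y) := by
      nlinarith [mul_nonneg (mul_nonneg hX0 h1) (sub_nonneg.2 hX)]
    have h4 : 0 ≤ w * X * (1 - X) := mul_nonneg (mul_nonneg hw0 hX0) (by linarith)
    have h5 : 0 ≤ w * X * (w - Y) := mul_nonneg (mul_nonneg hw0 hX0) h1
    have h6 : w * X * (1 + w - X) = w * X * Y + w * X * (w - Y) + w * X * (1 - X) := by ring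
    rw [← e, h6]
    nlinarith
  · rw [max_eq_right (by linarith : w - Y ≤ 0)]
    have h4 : 0 ≤ w * X * d := mul_nonneg (mul_nonneg hw0 hX0) hd
    rw [← e, hYd]
    nlinarith

/-- the bound with `d` -/
theorem vol_d (hw0 : 0 ≤ w) (hd1 : d ≤ 1) (hX0 : 0 ≤ X) (hY0 : 0 ≤ Y)
    (hs : X + Y = 1 + w - d)
    (hf : f = w * X * Y - w ^ 3 / 3 + ((max (w - Y) 0) ^ 3 + (max (w - X) 0) ^ 3) / 3) :
    f ≤ w * (1 + w - d) ^ 2 / 4 - w ^ 3 / 4 := by
  -- one small variable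
  have one : ∀ x y : ℝ, 0 ≤ x → x ≤ w → w ≤ y → w * x * y - w ^ 3 / 3 + (w - x) ^ 3 / 3 ≤
      w * (x + y) ^ 2 / 4 - w ^ 3 / 4 := by
    intro x y hx hxw hwy
    have h1 : w * (y - x) ^ 2 ≥ w * (w - x) ^ 2 := by
      have h2 : 0 ≤ w - x := by linarith
      have h3 : w - x ≤ y - x := by linarith
      have h4 : (w - x) ^ 2 ≤ (y - x) ^ 2 := pow_le_pow_left₀ h2 h3 2
      exact mul_le_mul_of_nonneg_left h4 hw0
    have h5 : (w - x) ^ 3 / 3 - w * (w - x) ^ 2 / 4 ≤ w ^ 3 / 12 := by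
      have h2 : 0 ≤ w - x := by linarith
      nlinarith [mul_nonneg (mul_nonneg hx h2) h2, mul_nonneg (mul_nonneg hx h2) hw0,
        mul_nonneg (mul_nonneg hx hw0) hw0]
    have e : w * (x + y) ^ 2 / 4 = w * x * y + w * (y - x) ^ 2 / 4 := by ring
    rw [e]
    linarith
  rw [hf, ← hs]
  rcases le_total X w with hX | hX <;> rcases le_total Y w with hY | hY
  · rw [max_eq_left (by linarith : 0 ≤ w - Y), max_eq_left (by linarith : 0 ≤ w - X)]
    obtain ⟨r, hr⟩ : ∃ r, r = w - X := ⟨_, rfl⟩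
    obtain ⟨q, hq⟩ : ∃ q, q = w - Y := ⟨_, rfl⟩
    have hr0 : 0 ≤ r := by linarith
    have hq0 : 0 ≤ q := by linarith
    have hrq : r + q ≤ w := by linarith
    have hXr : X = w - r := by linarith
    have hYq : Y = w - q := by linarith
    rw [← hr, ← hq]
    have key : (q ^ 3 + r ^ 3) / 3 - w * (r - q) ^ 2 / 4 ≤ w ^ 3 / 12 := by
      have h1 : 0 ≤ w - (r + q) := by linarith
      have h2 : (r + q) ^ 3 ≤ w ^ 3 := pow_le_pow_left₀ (by linarith) hrq 3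
      nlinarith [mul_nonneg h1 (sq_nonneg (r - q))]
    have e : w * (X + Y) ^ 2 / 4 = w * X * Y + w * (r - q) ^ 2 / 4 := by
      rw [hXr, hYq]
      ring
    rw [e]
    linarith
  · rw [max_eq_right (by linarith : w - Y ≤ 0), max_eq_left (by linarith : 0 ≤ w - X)]
    have := one X Y hX0 hX hY
    linarith
  · rw [max_eq_left (by linarith : 0 ≤ w - Y), max_eq_right (by linarith : w - X ≤ 0)]
    have := one Y X hY0 hY hX
    nlinarith
  · rw [max_eq_right (by linarith : w - Y ≤ 0), max_eq_right (by linarith : w - X ≤ 0)]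
    nlinarith [mul_nonneg hw0 (sq_nonneg (X - Y)), pow_nonneg hw0 3]

theorem crude {w x : ℝ} (hw0 : 0 ≤ w) (hw1 : w ≤ 1) (hx0 : 0 ≤ x) (hx : x ≤ w) :
    w * x - x ^ 3 / 3 ≤ w * (1 + w) ^ 2 / 4 - w ^ 3 / 3 := by
  nlinarith [mul_nonneg hw0 (sq_nonneg (1 - w)), mul_nonneg hx0 (sub_nonneg.2 hx),
    mul_nonneg hx0 (mul_nonneg hx0 (sub_nonneg.2 hx)), mul_nonneg hw0 (sub_nonneg.2 hx),
    mul_nonneg (mul_nonneg hw0 (sub_nonneg.2 hx)) (sub_nonneg.2 hw1),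
    mul_nonneg (sub_nonneg.2 hx) (sub_nonneg.2 hw1),
    mul_nonneg hw0 (mul_nonneg (sub_nonneg.2 hx) (sub_nonneg.2 hx)),
    mul_nonneg hx0 (mul_nonneg (sub_nonneg.2 hx) (sub_nonneg.2 hx))]

/-- the crude bound -/
theorem vol_max (hw0 : 0 ≤ w) (hw1 : w ≤ 1) (hd : 0 ≤ d) (hd1 : d ≤ 1) (hX0 : 0 ≤ X)
    (hY0 : 0 ≤ Y) (hs : X + Y = 1 + w - d)
    (hf : f = w * X * Y - w ^ 3 / 3 + ((max (w - Y) 0) ^ 3 + (max (w - X) 0) ^ 3) / 3) :
    f ≤ w * (1 + w) ^ 2 / 4 - w ^ 3 / 3 := by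
  rcases le_total X w with hX | hX
  · exact (vol_le hw0 hd hd1 hX0 hs hf hX hw1).trans (crude hw0 hw1 hX0 hX)
  · rcases le_total Y w with h | h
    · refine (vol_le hw0 hd hd1 hY0 (by linarith : Y + X = 1 + w - d) ?_ h hw1).trans
        (crude hw0 hw1 hY0 h)
      rw [hf]
      ring
    · rw [hf, max_eq_right (by linarith : w - X ≤ 0), max_eq_right (by linarith : w - Y ≤ 0)]
      have hXY : X * Y ≤ (1 + w - d) ^ 2 / 4 := by
        rw [← hs]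
        nlinarith [sq_nonneg (X - Y)]
      have h7 : (1 + w - d) ^ 2 ≤ (1 + w) ^ 2 := pow_le_pow_left₀ (by linarith) (by linarith) 2
      have h8 : w * (X * Y) ≤ w * ((1 + w) ^ 2 / 4) :=
        mul_le_mul_of_nonneg_left (by linarith) hw0
      nlinarith

end

/-- the bounds for a far cell of a column -/
theorem farC_vol {f w d al be ui ux uy di dx dy sx sy : ℝ}
    (h : FarC f w d al be ui ux uy di dx dy sx sy) :
    (w ≤ 1 - al → 2 * (1 - al) ≤ 1 + w → f ≤ w * (1 - al) * (1 + w - (1 - al)) - w ^ 3 / 3) ∧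
    (1 - al ≤ w → f ≤ w * (1 - al) - (1 - al) ^ 3 / 3) ∧
    f ≤ w * (1 + w - d) ^ 2 / 4 - w ^ 3 / 4 ∧ f ≤ w * (1 + w) ^ 2 / 4 - w ^ 3 / 3 := by
  have hs : (1 - al) + (1 - be) = 1 + w - d := by linarith [h.sum]
  have hf : f = w * (1 - al) * (1 - be) - w ^ 3 / 3
      + ((max (w - (1 - be)) 0) ^ 3 + (max (w - (1 - al)) 0) ^ 3) / 3 := by
    rw [h.vol, show d - al = w - (1 - be) by linarith [h.sum],
      show d - be = w - (1 - al) by linarith [h.sum]]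
  have hX0 : 0 ≤ 1 - al := by linarith [h.al1]
  have hY0 : 0 ≤ 1 - be := by linarith [h.be1]
  have w0 := h.w0.le
  have w1 := h.w1.le
  have d1 := h.d1.le
  exact ⟨fun h1 h2 => vol_ge w0 w1 h.d0 hY0 hs hf h1 h2, fun h1 => vol_le w0 h.d0 d1 hX0 hs hf h1 w1,
    vol_d w0 d1 hX0 hY0 hs hf, vol_max w0 w1 h.d0 d1 hX0 hY0 hs hf⟩

end Pool.Agent.Helper65.TS
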